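import Pool.Agent.H54.EN.CxM

/-!
# [H54 EN A1] exactness at the middle terms

`s : SES A B C`, a short exact sequence of three-term complexes.  Write elements of `H0`, `H1`, `H2` as classes (`mk0_bij`, `mk1_surj`, `mk2_surj`), use `m0_mk`, `m1_mk`, `m2_mk`, `z0_coe`, `z1_coe`, `mk1_eq_zero`, `mk2_eq_zero`, and `s.i.c0`, `s.i.c1`, `s.p.c0`, `s.p.c1`.
* `m0_inj`: `s.inj0`.
* `ex_H0`: `p x = 0` gives `x = i y`; `i (d y) = d (i y) = 0`, so `d y = 0` (`inj1`).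
* `ex_H1`: let `p x = d z`, `x` a cocycle of `B.C1`; `z = p z'` (`sur0`), so `p (x - d z') = 0`, `x - d z' = i y`, and `y` is a cocycle (`inj2`); the class of `x` is the image of the class of `y`.  Conversely `p (i y) = 0` (`ex1`).
* `ex_H2`: `p x = d z`, `z = p z'` (`sur1`), `x - d z' = i y`.
* `m2_sur`: `sur2`.
-/

set_option autoImplicit false

universe u

namespace Pool.Agent.H54.EN

variable {k : Type u} [Field k] {A B C : Cx k}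

theorem m0_inj (s : SES A B C) : Function.Injective s.i.m0 := by
  intro x y h
  obtain ⟨x, rfl⟩ := A.mk0_bij.2 x
  obtain ⟨y, rfl⟩ := A.mk0_bij.2 y
  rw [CMap.m0_mk, CMap.m0_mk] at h
  have h1 := B.mk0_bij.1 h
  have h2 : s.i.f0 x = s.i.f0 y := congrArg Subtype.val h1
  have h3 := s.inj0 h2
  rw [Subtype.ext h3]

theorem ex_H0 (s : SES A B C) (x : B.H0) : s.p.m0 x = 0 ↔ ∃ y, s.i.m0 y = x := by
  obtain ⟨x, rfl⟩ := B.mk0_bij.2 x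
  rw [CMap.m0_mk]
  constructor
  · intro h
    have h1 : s.p.z0 x = 0 := C.mk0_bij.1 (by rw [h, map_zero])
    have h2 : s.p.f0 x = 0 := congrArg Subtype.val h1
    obtain ⟨y, hy⟩ := (s.ex0 _).1 h2
    have hx : B.d0 (x : B.C0) = 0 := x.2
    have hy0 : A.d0 y = 0 := by
      apply s.inj1
      rw [map_zero, s.i.c0, hy, hx]
    refine ⟨A.mk0 ⟨y, hy0⟩, ?_⟩
    rw [CMap.m0_mk]
    exact congrArg B.mk0 (Subtype.ext hy)
  · rintro ⟨y, hy⟩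
    obtain ⟨y, rfl⟩ := A.mk0_bij.2 y
    rw [CMap.m0_mk] at hy
    have h1 := B.mk0_bij.1 hy
    rw [← h1]
    have h2 : s.p.z0 (s.i.z0 y) = 0 := Subtype.ext ((s.ex0 _).2 ⟨y, rfl⟩)
    rw [h2, map_zero]

theorem ex_H1 (s : SES A B C) (x : B.H1) : s.p.m1 x = 0 ↔ ∃ y, s.i.m1 y = x := by
  obtain ⟨x, rfl⟩ := B.mk1_surj x
  rw [CMap.m1_mk]
  constructor
  · intro h
    obtain ⟨z, hz⟩ := (C.mk1_eq_zero _).1 h
    rw [CMap.z1_coe] at hz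
    obtain ⟨z', rfl⟩ := s.sur0 z
    have h1 : s.p.f1 ((x : B.C1) - B.d0 z') = 0 := by
      rw [map_sub, s.p.c0, hz, sub_self]
    obtain ⟨y, hy⟩ := (s.ex1 _).1 h1
    have hx : B.d1 (x : B.C1) = 0 := x.2
    have hy0 : A.d1 y = 0 := by
      apply s.inj2
      rw [map_zero, s.i.c1, hy, map_sub, hx, B.dd, sub_self]
    refine ⟨A.mk1 ⟨y, hy0⟩, ?_⟩
    rw [CMap.m1_mk, ← sub_eq_zero, ← map_sub, Cx.mk1_eq_zero]
    refine ⟨-z', ?_⟩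
    have h2 : ((s.i.z1 ⟨y, hy0⟩ - x : LinearMap.ker B.d1) : B.C1) = s.i.f1 y - x := rfl
    rw [h2, hy, map_neg]
    abel
  · rintro ⟨y, hy⟩
    obtain ⟨y, rfl⟩ := A.mk1_surj y
    rw [← CMap.m1_mk, ← hy, CMap.m1_mk, CMap.m1_mk]
    have h2 : s.p.z1 (s.i.z1 y) = 0 := Subtype.ext ((s.ex1 _).2 ⟨y, rfl⟩)
    rw [h2, map_zero]

theorem ex_H2 (s : SES A B C) (x : B.H2) : s.p.m2 x = 0 ↔ ∃ y, s.i.m2 y = x := by
  obtain ⟨x, rfl⟩ := B.mk2_surj x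
  rw [CMap.m2_mk]
  constructor
  · intro h
    obtain ⟨z, hz⟩ := (C.mk2_eq_zero _).1 h
    obtain ⟨z', rfl⟩ := s.sur1 z
    have h1 : s.p.f2 (x - B.d1 z') = 0 := by
      rw [map_sub, s.p.c1, hz, sub_self]
    obtain ⟨y, hy⟩ := (s.ex2 _).1 h1
    refine ⟨A.mk2 y, ?_⟩
    rw [CMap.m2_mk, ← sub_eq_zero, ← map_sub, Cx.mk2_eq_zero]
    refine ⟨-z', ?_⟩
    rw [hy, map_neg]
    abel
  · rintro ⟨y, hy⟩
    obtain ⟨y, rfl⟩ := A.mk2_surj y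
    rw [← CMap.m2_mk, ← hy, CMap.m2_mk, CMap.m2_mk]
    have h2 : s.p.f2 (s.i.f2 y) = 0 := (s.ex2 _).2 ⟨y, rfl⟩
    rw [h2, map_zero]

theorem m2_sur (s : SES A B C) : Function.Surjective s.p.m2 := by
  intro x
  obtain ⟨x, rfl⟩ := C.mk2_surj x
  obtain ⟨y, rfl⟩ := s.sur2 x
  exact ⟨B.mk2 y, CMap.m2_mk _ _⟩

end Pool.Agent.H54.EN
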