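import Pool.Agent.H54.EN.CxM

/-!
# [H54 EN A2] the first connecting homomorphism

`s : SES A B C`.  Choose a linear section `r : C.C0 → B.C0` of `s.p.f0` (`LinearMap.exists_rightInverse_of_surjective`).  For a cocycle `z : ker C.d0` the element `B.d0 (r z)` is killed by `s.p.f1` (`s.p.c0`), so it is `s.i.f1 a` with a unique `a` (`ex1`, `inj1`), which is a cocycle
(`inj2`, `s.i.c1`, `B.dd`); `z ↦ a` is linear (`s.i.f1` is injective: e.g. compose with the inverse of `LinearEquiv.ofInjective`).  `δ z` = the class of `a`.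
* `δ z = 0`: `a = A.d0 y`, so `B.d0 (r z - i y) = 0` and `r z - i y` is a cocycle over `z`.  Conversely if `z = p b` with a cocycle `b` then `r z - b = i y` and `i a = B.d0 (r z) = B.d0 (i y) = i (A.d0 y)`.
* `i.m1 [a] = 0` for a cocycle `a` of `A.C1`: `i a = B.d0 b`; `z = p b` is a cocycle (`p (i a) = 0`) and `δ z = [a]`: `r z - b = i y`, so `B.d0 (r z) = i a + i (A.d0 y)`.  Conversely `i (a) = B.d0 (r z)` for the `a` above.
-/

set_option autoImplicit false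

universe u

namespace Pool.Agent.H54.EN

variable {k : Type u} [Field k] {A B C : Cx k}

/-- a linear map with values in the range of an injective linear map lifts -/
private theorem lift_inj {k Z W V : Type*} [Field k] [AddCommGroup Z] [AddCommGroup W] [AddCommGroup V]
    [Module k Z] [Module k W] [Module k V] (ι : V →ₗ[k] W) (hι : Function.Injective ι)
    (φ : Z →ₗ[k] W) (h : ∀ z, ∃ a, ι a = φ z) : ∃ ψ : Z →ₗ[k] V, ∀ z, ι (ψ z) = φ z := by
  choose g hg using h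
  refine ⟨{ toFun := g, map_add' := ?_, map_smul' := ?_ }, hg⟩
  · intro x y
    apply hι
    rw [map_add, hg, hg, hg, map_add]
  · intro c x
    apply hι
    rw [RingHom.id_apply, map_smul, hg, hg, map_smul]

theorem exists_del0' (s : SES A B C) :
    ∃ δ : LinearMap.ker C.d0 →ₗ[k] A.H1, (∀ x, δ x = 0 ↔ ∃ y, s.p.z0 y = x) ∧
      ∀ x, s.i.m1 x = 0 ↔ ∃ y, δ y = x := by
  obtain ⟨r, hr⟩ := LinearMap.exists_rightInverse_of_surjective s.p.f0
    (LinearMap.range_eq_top.2 s.sur0)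
  have hr' : ∀ x, s.p.f0 (r x) = x := fun x => LinearMap.congr_fun hr x
  obtain ⟨ψ, hψ⟩ := lift_inj s.i.f1 s.inj1 (B.d0 ∘ₗ r ∘ₗ (LinearMap.ker C.d0).subtype) (by
    intro z
    rw [← s.ex1]
    have hz : C.d0 (z : C.C0) = 0 := z.2
    change s.p.f1 (B.d0 (r z)) = 0
    rw [s.p.c0, hr', hz])
  have hψ' : ∀ z : LinearMap.ker C.d0, s.i.f1 (ψ z) = B.d0 (r z) := hψ
  have hc : ∀ z, ψ z ∈ LinearMap.ker A.d1 := by
    intro z
    rw [LinearMap.mem_ker]
    apply s.inj2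
    rw [map_zero, s.i.c1, hψ', B.dd]
  refine ⟨A.mk1 ∘ₗ ψ.codRestrict _ hc, ?_, ?_⟩
  · intro z
    change A.mk1 (ψ.codRestrict _ hc z) = 0 ↔ _
    rw [Cx.mk1_eq_zero]
    change (∃ y, A.d0 y = ψ z) ↔ _
    constructor
    · rintro ⟨y, hy⟩
      have h1 : B.d0 (r z - s.i.f0 y) = 0 := by
        rw [map_sub, ← s.i.c0, hy, hψ', sub_self]
      refine ⟨⟨r z - s.i.f0 y, h1⟩, Subtype.ext ?_⟩
      change s.p.f0 (r z - s.i.f0 y) = z
      rw [map_sub, hr', (s.ex0 _).2 ⟨y, rfl⟩, sub_zero]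
    · rintro ⟨b, hb⟩
      have hb0 : B.d0 (b : B.C0) = 0 := b.2
      have h1 : s.p.f0 b = z := congrArg Subtype.val hb
      have h2 : s.p.f0 (r z - b) = 0 := by rw [map_sub, hr', h1, sub_self]
      obtain ⟨y, hy⟩ := (s.ex0 _).1 h2
      refine ⟨y, s.inj1 ?_⟩
      rw [hψ', s.i.c0, hy, map_sub, hb0, sub_zero]
  · intro x
    obtain ⟨a, rfl⟩ := A.mk1_surj x
    rw [CMap.m1_mk, Cx.mk1_eq_zero]
    change (∃ y, B.d0 y = s.i.f1 a) ↔ _
    constructor
    · rintro ⟨b, hb⟩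
      have h1 : C.d0 (s.p.f0 b) = 0 := by
        rw [← s.p.c0, hb]
        exact (s.ex1 _).2 ⟨_, rfl⟩
      refine ⟨⟨s.p.f0 b, h1⟩, ?_⟩
      change A.mk1 _ = A.mk1 a
      rw [← sub_eq_zero, ← map_sub, Cx.mk1_eq_zero]
      have h2 : s.p.f0 (r (s.p.f0 b) - b) = 0 := by rw [map_sub, hr', sub_self]
      obtain ⟨y, hy⟩ := (s.ex0 _).1 h2
      refine ⟨y, s.inj1 ?_⟩
      change s.i.f1 (A.d0 y) = s.i.f1 (ψ ⟨s.p.f0 b, h1⟩ - a)
      rw [map_sub, hψ', s.i.c0, hy, map_sub, hb]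
    · rintro ⟨z, hz⟩
      change A.mk1 (ψ.codRestrict _ hc z) = A.mk1 a at hz
      rw [← sub_eq_zero, ← map_sub, Cx.mk1_eq_zero] at hz
      obtain ⟨y, hy⟩ := hz
      have hy' : A.d0 y = ψ z - a := hy
      refine ⟨r z - s.i.f0 y, ?_⟩
      rw [map_sub, ← s.i.c0, hy', map_sub, hψ', sub_sub_cancel]

theorem exists_del0 (s : SES A B C) :
    ∃ δ : C.H0 →ₗ[k] A.H1, (∀ x, δ x = 0 ↔ ∃ y, s.p.m0 y = x) ∧
      ∀ x, s.i.m1 x = 0 ↔ ∃ y, δ y = x :=
  exists_del0' s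

end Pool.Agent.H54.EN
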