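import Pool.Agent.H54.EN.CxM

/-!
# [H54 EN A3] the second connecting homomorphism

`s : SES A B C`.  Choose a linear section `r : C.C1 → B.C1` of `s.p.f1` (`LinearMap.exists_rightInverse_of_surjective`).  For a cocycle `z : ker C.d1` the element `B.d1 (r z)` is killed by `s.p.f2`, so it is `s.i.f2 a` with a unique `a` (`ex2`, `inj2`); `z ↦ [a] ∈ A.H2` is linear (`LinearEquiv.ofInjective`), and it
vanishes on `C.B1`: if `z = C.d0 y`, `y = p y'` (`sur0`), then `p (r z - B.d0 y') = 0`, so `r z - B.d0 y' = i a'` (`ex1`) and `i a = B.d1 (r z) = i (A.d1 a')` (`B.dd`), `a = A.d1 a'`.  So it defines `δ : C.H1 → A.H2` (`Submodule.liftQ`; `Cx.H1` is the quotient by `Cx.B1` by definition, `mk1` is `mkQ`).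
* `δ [z] = 0`: `a = A.d1 y`, so `r z - i y` is a cocycle of `B.C1` over `z`.  Conversely if `[z] = [p b]` with a cocycle `b`: `z - p b = C.d0 y`, `y = p y'`: `r z - b - B.d0 y' = i a'`, so `i a = i (A.d1 a')`.
* `i.m2 [a] = 0`: `i a = B.d1 b`; `z = p b` is a cocycle and `δ [z] = [a]`: `r z - b = i y`.  Conversely `i a = B.d1 (r z)`.
-/

set_option autoImplicit false

universe u

namespace Pool.Agent.H54.EN

variable {k : Type u} [Field k] {A B C : Cx k}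

private theorem lift_inj {k Z W V : Type*} [Field k] [AddCommGroup Z] [AddCommGroup W]
    [AddCommGroup V] [Module k Z] [Module k W] [Module k V] (ι : V →ₗ[k] W)
    (hι : Function.Injective ι)
    (φ : Z →ₗ[k] W) (h : ∀ z, ∃ a, ι a = φ z) : ∃ ψ : Z →ₗ[k] V, ∀ z, ι (ψ z) = φ z := by
  choose g hg using h
  refine ⟨{ toFun := g, map_add' := ?_, map_smul' := ?_ }, hg⟩
  · intro x y
    apply hι
    rw [map_add, hg, hg, hg, map_add]
  · intro c x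
    apply hι
    rw [RingHom.id_apply, map_smul, hg, hg, map_smul]

theorem exists_del1' (s : SES A B C) :
    ∃ δ : (LinearMap.ker C.d1 ⧸ C.B1) →ₗ[k] A.H2, (∀ x, δ (C.mk1 x) = 0 ↔ ∃ y, s.p.m1 y = C.mk1 x) ∧
      ∀ x, s.i.m2 (A.mk2 x) = 0 ↔ ∃ y, δ (C.mk1 y) = A.mk2 x := by
  obtain ⟨r, hr⟩ := LinearMap.exists_rightInverse_of_surjective s.p.f1
    (LinearMap.range_eq_top.2 s.sur1)
  have hr' : ∀ x, s.p.f1 (r x) = x := fun x => LinearMap.congr_fun hr x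
  obtain ⟨ψ, hψ⟩ := lift_inj s.i.f2 s.inj2 (B.d1 ∘ₗ r ∘ₗ (LinearMap.ker C.d1).subtype) (by
    intro z
    rw [← s.ex2]
    have hz : C.d1 (z : C.C1) = 0 := z.2
    change s.p.f2 (B.d1 (r z)) = 0
    rw [s.p.c1, hr', hz])
  have hψ' : ∀ z : LinearMap.ker C.d1, s.i.f2 (ψ z) = B.d1 (r z) := hψ
  have hker : C.B1 ≤ LinearMap.ker (A.mk2 ∘ₗ ψ) := by
    intro z hz
    obtain ⟨y, hy⟩ := hz
    have hy' : C.d0 y = (z : C.C1) := hy
    obtain ⟨y', rfl⟩ := s.sur0 y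
    rw [LinearMap.mem_ker]
    change A.mk2 (ψ z) = 0
    rw [Cx.mk2_eq_zero]
    have h1 : s.p.f1 (r z - B.d0 y') = 0 := by rw [map_sub, hr', s.p.c0, hy', sub_self]
    obtain ⟨a', ha'⟩ := (s.ex1 _).1 h1
    refine ⟨a', s.inj2 ?_⟩
    rw [hψ', s.i.c1, ha', map_sub, B.dd, sub_zero]
  refine ⟨C.B1.liftQ (A.mk2 ∘ₗ ψ) hker, ?_, ?_⟩
  · intro z
    change A.mk2 (ψ z) = 0 ↔ _
    rw [Cx.mk2_eq_zero]
    constructor
    · rintro ⟨y, hy⟩
      have h1 : B.d1 (r z - s.i.f1 y) = 0 := by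
        rw [map_sub, ← s.i.c1, hy, hψ', sub_self]
      refine ⟨B.mk1 ⟨r z - s.i.f1 y, h1⟩, ?_⟩
      rw [CMap.m1_mk]
      congr 1
      apply Subtype.ext
      change s.p.f1 (r z - s.i.f1 y) = z
      rw [map_sub, hr', (s.ex1 _).2 ⟨y, rfl⟩, sub_zero]
    · rintro ⟨b, hb⟩
      obtain ⟨b, rfl⟩ := B.mk1_surj b
      rw [CMap.m1_mk, ← sub_eq_zero, ← map_sub, Cx.mk1_eq_zero] at hb
      obtain ⟨y, hy⟩ := hb
      have hy' : C.d0 y = s.p.f1 b - z := hy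
      obtain ⟨y', rfl⟩ := s.sur0 y
      have hb0 : B.d1 (b : B.C1) = 0 := b.2
      have h2 : s.p.f1 (r z - b + B.d0 y') = 0 := by
        rw [map_add, map_sub, hr', s.p.c0, hy']
        abel
      obtain ⟨a', ha'⟩ := (s.ex1 _).1 h2
      refine ⟨a', s.inj2 ?_⟩
      rw [hψ', s.i.c1, ha', map_add, map_sub, hb0, B.dd, sub_zero, add_zero]
  · intro a
    rw [CMap.m2_mk, Cx.mk2_eq_zero]
    constructor
    · rintro ⟨b, hb⟩
      have h1 : C.d1 (s.p.f1 b) = 0 := by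
        rw [← s.p.c1, hb]
        exact (s.ex2 _).2 ⟨_, rfl⟩
      refine ⟨⟨s.p.f1 b, h1⟩, ?_⟩
      change A.mk2 (ψ _) = A.mk2 a
      rw [← sub_eq_zero, ← map_sub, Cx.mk2_eq_zero]
      have h2 : s.p.f1 (r (s.p.f1 b) - b) = 0 := by rw [map_sub, hr', sub_self]
      obtain ⟨y, hy⟩ := (s.ex1 _).1 h2
      refine ⟨y, s.inj2 ?_⟩
      rw [map_sub, hψ', s.i.c1, hy, map_sub, hb]
    · rintro ⟨z, hz⟩
      change A.mk2 (ψ z) = A.mk2 a at hz
      rw [← sub_eq_zero, ← map_sub, Cx.mk2_eq_zero] at hz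
      obtain ⟨y, hy⟩ := hz
      refine ⟨r z - s.i.f1 y, ?_⟩
      rw [map_sub, ← s.i.c1, hy, map_sub, hψ', sub_sub_cancel]

theorem exists_del1 (s : SES A B C) :
    ∃ δ : C.H1 →ₗ[k] A.H2, (∀ x, δ x = 0 ↔ ∃ y, s.p.m1 y = x) ∧
      ∀ x, s.i.m2 x = 0 ↔ ∃ y, δ y = x := by
  obtain ⟨δ, h1, h2⟩ := exists_del1' s
  refine ⟨δ, ?_, ?_⟩
  · intro x
    obtain ⟨x, rfl⟩ := C.mk1_surj x
    exact h1 x
  · intro x
    obtain ⟨x, rfl⟩ := A.mk2_surj x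
    rw [h2]
    constructor
    · rintro ⟨y, hy⟩
      exact ⟨C.mk1 y, hy⟩
    · rintro ⟨y, hy⟩
      obtain ⟨y, rfl⟩ := C.mk1_surj y
      exact ⟨y, hy⟩

end Pool.Agent.H54.EN
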