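import Pool.Agent.H54.EN.A1
import Pool.Agent.H54.EN.A2
import Pool.Agent.H54.EN.A3

/-!
# [H54 EN A4] dimensions in the long exact sequence

The sequence `0 → H0 A → H0 B → H0 C → H1 A → H1 B → H1 C → H2 A → H2 B → H2 C → 0` is exact (`m0_inj`, `ex_H0`, `exists_del0`, `ex_H1`, `exists_del1`, `ex_H2`, `m2_sur`).
* `fin_of_exact`: if `U → V → W` is exact at `V` and `U`, `W` are finite-dimensional, so is `V` (the range of `U → V` and the quotient by it, `Module.Finite`; over a field: `Module.Finite.of_injective`, `Submodule.finite_of_finite_quotient`-type lemmas, or ranks).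
* `fr_of_exact`: `finrank V = finrank (range f) + finrank (range g)` (`LinearMap.finrank_range_add_finrank_ker`, `ker g = range f`).
* `chi`: with the ranks `r1, ..., r8` of the eight maps: `h0 A = r1`, `h0 B = r1 + r2`, `h0 C = r2 + r3`, `h1 A = r3 + r4`, ..., `h2 C = r8`.
* `h2_le`: `m2_sur`.  `h2_ge`: `h2 A = r6 + r7`, `r6 ≤ h1 C`, `r7 ≤ h2 B`.  `h1_le`: `h1 A = r3 + r4`, `h0 C = r2 + r3`, `h0 B = r1 + r2`, `h0 A = r1`, `r4 ≤ h1 B`.
* `lift`: `H1 A = 0` (finite-dimensional of rank `0`: `Module.finrank_zero_iff`), so `δ0 = 0` and `m0` is surjective: the class of `c` is `p.m0` of a class (`mk0_bij`, `m0_mk`).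
-/

set_option autoImplicit false

universe u

namespace Pool.Agent.H54.EN

open Module

section lin

variable {k : Type u} [Field k] {U V W : Type u} [AddCommGroup U] [AddCommGroup V] [AddCommGroup W]
  [Module k U] [Module k V] [Module k W]

theorem fin_of_exact (f : U →ₗ[k] V) (g : V →ₗ[k] W) (h : ∀ x, g x = 0 ↔ ∃ y, f y = x)
    (hU : Module.Finite k U) (hW : Module.Finite k W) : Module.Finite k V := by
  have hk : LinearMap.ker g = LinearMap.range f := by
    ext x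
    rw [LinearMap.mem_ker, LinearMap.mem_range]
    exact h x
  have h1 : Module.Finite k (LinearMap.ker g) := by
    rw [hk]
    infer_instance
  have h2 : Module.Finite k (V ⧸ LinearMap.ker g) :=
    Module.Finite.equiv g.quotKerEquivRange.symm
  exact Module.Finite.of_submodule_quotient (LinearMap.ker g)

theorem fr_of_exact (f : U →ₗ[k] V) (g : V →ₗ[k] W) (h : ∀ x, g x = 0 ↔ ∃ y, f y = x)
    (hV : Module.Finite k V) :
    finrank k V = finrank k (LinearMap.range f) + finrank k (LinearMap.range g) := by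
  have hk : LinearMap.ker g = LinearMap.range f := by
    ext x
    rw [LinearMap.mem_ker, LinearMap.mem_range]
    exact h x
  have h1 := LinearMap.finrank_range_add_finrank_ker g
  rw [hk] at h1
  omega

end lin

variable {k : Type u} [Field k] {A B C : Cx k}

theorem SES.fin (s : SES A B C) (hA : A.Fin) (hB : B.Fin) : C.Fin := by
  obtain ⟨δ0, h1, h2⟩ := exists_del0 s
  obtain ⟨δ1, h3, h4⟩ := exists_del1 s
  have e2 := hB.f2
  exact ⟨fin_of_exact _ _ h1 hB.f0 hA.f1, fin_of_exact _ _ h3 hB.f1 hA.f2,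
    Module.Finite.of_surjective s.p.m2 (m2_sur s)⟩

/-- the nine dimensions in terms of the eight ranks -/
theorem SES.ranks (s : SES A B C) (hA : A.Fin) (hB : B.Fin) :
    ∃ r1 r2 r3 r4 r5 r6 r7 r8 : ℕ, finrank k A.H0 = r1 ∧ finrank k B.H0 = r1 + r2 ∧
      finrank k C.H0 = r2 + r3 ∧ finrank k A.H1 = r3 + r4 ∧ finrank k B.H1 = r4 + r5 ∧
      finrank k C.H1 = r5 + r6 ∧ finrank k A.H2 = r6 + r7 ∧ finrank k B.H2 = r7 + r8 ∧
      finrank k C.H2 = r8 := by
  have hC := s.fin hA hB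
  obtain ⟨δ0, h1, h2⟩ := exists_del0 s
  obtain ⟨δ1, h3, h4⟩ := exists_del1 s
  refine ⟨_, _, _, _, _, _, _, _, ?_, fr_of_exact _ _ (ex_H0 s) hB.f0, fr_of_exact _ _ h1 hC.f0,
    fr_of_exact _ _ h2 hA.f1, fr_of_exact _ _ (ex_H1 s) hB.f1, fr_of_exact _ _ h3 hC.f1,
    fr_of_exact _ _ h4 hA.f2, fr_of_exact _ _ (ex_H2 s) hB.f2, ?_⟩
  · rw [LinearMap.finrank_range_of_inj (m0_inj s)]
  · rw [LinearMap.range_eq_top.2 (m2_sur s), finrank_top]

theorem SES.chi (s : SES A B C) (hA : A.Fin) (hB : B.Fin) : B.chi = A.chi + C.chi := by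
  obtain ⟨r1, r2, r3, r4, r5, r6, r7, r8, e1, e2, e3, e4, e5, e6, e7, e8, e9⟩ := s.ranks hA hB
  unfold Cx.chi
  rw [e1, e2, e3, e4, e5, e6, e7, e8, e9]
  push_cast
  ring

theorem SES.h2_le (s : SES A B C) (hA : A.Fin) (hB : B.Fin) : finrank k C.H2 ≤ finrank k B.H2 := by
  obtain ⟨r1, r2, r3, r4, r5, r6, r7, r8, e1, e2, e3, e4, e5, e6, e7, e8, e9⟩ := s.ranks hA hB
  omega

theorem SES.h2_ge (s : SES A B C) (hA : A.Fin) (hB : B.Fin) :
    finrank k A.H2 ≤ finrank k C.H1 + finrank k B.H2 := by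
  obtain ⟨r1, r2, r3, r4, r5, r6, r7, r8, e1, e2, e3, e4, e5, e6, e7, e8, e9⟩ := s.ranks hA hB
  omega

theorem SES.h1_le (s : SES A B C) (hA : A.Fin) (hB : B.Fin) :
    finrank k A.H1 + finrank k B.H0 ≤ finrank k A.H0 + finrank k C.H0 + finrank k B.H1 := by
  obtain ⟨r1, r2, r3, r4, r5, r6, r7, r8, e1, e2, e3, e4, e5, e6, e7, e8, e9⟩ := s.ranks hA hB
  omega

theorem SES.lift (s : SES A B C) (hA : A.Fin) (h : finrank k A.H1 = 0) (c : C.C0)
    (hc : C.d0 c = 0) : ∃ b, B.d0 b = 0 ∧ s.p.f0 b = c := by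
  obtain ⟨δ0, h1, h2⟩ := exists_del0 s
  have e1 := hA.f1
  have h3 : ∀ x : A.H1, x = 0 := fun x => finrank_zero_iff_forall_zero.1 h x
  obtain ⟨b, hb⟩ := (h1 (C.mk0 ⟨c, hc⟩)).1 (h3 _)
  obtain ⟨b, rfl⟩ := B.mk0_bij.2 b
  rw [CMap.m0_mk] at hb
  have hb' := C.mk0_bij.1 hb
  exact ⟨b, b.2, congrArg Subtype.val hb'⟩

end Pool.Agent.H54.EN
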