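import Pool.Agent.H54.EN.CxM

/-!
# [H54 EN A5] quotient complexes

* `exists_coker`: `C.Ci = B.Ci ⧸ range i.fi`, the differentials by `Submodule.mapQ` (`i.c0`, `i.c1`), `p.fi = mkQ` (`Submodule.Quotient.mk_eq_zero`); `C.dd` by `Submodule.linearMap_qext` or `Quotient.inductionOn`.
* `finrank_of_bij`: a bijective morphism of complexes gives bijections on `H0`, `H1`, `H2` (`mk0_bij`, `mk1_surj`, `mk1_eq_zero`, ...; `LinearEquiv.ofBijective`, `LinearEquiv.finrank_eq`).
-/

set_option autoImplicit false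

universe u

namespace Pool.Agent.H54.EN

open Module

variable {k : Type u} [Field k] {A B : Cx k}

theorem exists_coker (i : CMap A B) (h0 : Function.Injective i.f0) (h1 : Function.Injective i.f1)
    (h2 : Function.Injective i.f2) : ∃ (C : Cx k) (s : SES A B C), s.i = i := by
  have e0 : LinearMap.range i.f0 ≤ (LinearMap.range i.f1).comap B.d0 := by
    rintro x ⟨y, rfl⟩
    exact ⟨A.d0 y, i.c0 y⟩
  have e1 : LinearMap.range i.f1 ≤ (LinearMap.range i.f2).comap B.d1 := by
    rintro x ⟨y, rfl⟩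
    exact ⟨A.d1 y, i.c1 y⟩
  let C : Cx k :=
    { C0 := B.C0 ⧸ LinearMap.range i.f0
      C1 := B.C1 ⧸ LinearMap.range i.f1
      C2 := B.C2 ⧸ LinearMap.range i.f2
      d0 := Submodule.mapQ _ _ B.d0 e0
      d1 := Submodule.mapQ _ _ B.d1 e1
      dd := by
        intro x
        induction x using Submodule.Quotient.induction_on with
        | _ x =>
          rw [Submodule.mapQ_apply, Submodule.mapQ_apply, B.dd]
          rfl }
  let p : CMap B C :=
    { f0 := Submodule.mkQ _
      f1 := Submodule.mkQ _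
      f2 := Submodule.mkQ _
      c0 := fun _ => rfl
      c1 := fun _ => rfl }
  exact ⟨C,
    { i := i
      p := p
      inj0 := h0
      inj1 := h1
      inj2 := h2
      sur0 := Submodule.mkQ_surjective _
      sur1 := Submodule.mkQ_surjective _
      sur2 := Submodule.mkQ_surjective _
      ex0 := fun x => Submodule.Quotient.mk_eq_zero _
      ex1 := fun x => Submodule.Quotient.mk_eq_zero _
      ex2 := fun x => Submodule.Quotient.mk_eq_zero _ }, rfl⟩

theorem finrank_of_bij (i : CMap A B) (h0 : Function.Bijective i.f0) (h1 : Function.Bijective i.f1)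
    (h2 : Function.Bijective i.f2) :
    finrank k A.H0 = finrank k B.H0 ∧ finrank k A.H1 = finrank k B.H1 ∧
      finrank k A.H2 = finrank k B.H2 ∧ A.chi = B.chi := by
  have b0 : Function.Bijective i.m0 := by
    constructor
    · rw [injective_iff_map_eq_zero]
      intro x hx
      obtain ⟨x, rfl⟩ := A.mk0_bij.2 x
      rw [CMap.m0_mk] at hx
      have hx' : i.z0 x = 0 := B.mk0_bij.1 (by rw [hx, map_zero])
      have hx2 : i.f0 x = 0 := congrArg Subtype.val hx'
      have hx3 : (x : A.C0) = 0 := h0.1 (by rw [hx2, map_zero])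
      have hx4 : x = 0 := Subtype.ext hx3
      rw [hx4, map_zero]
    · intro x
      obtain ⟨x, rfl⟩ := B.mk0_bij.2 x
      obtain ⟨y, hy⟩ := h0.2 (x : B.C0)
      have hx : B.d0 (x : B.C0) = 0 := x.2
      have hy0 : A.d0 y = 0 := h1.1 (by rw [map_zero, i.c0, hy, hx])
      exact ⟨A.mk0 ⟨y, hy0⟩, congrArg B.mk0 (Subtype.ext hy)⟩
  have b1 : Function.Bijective i.m1 := by
    constructor
    · rw [injective_iff_map_eq_zero]
      intro x hx
      obtain ⟨x, rfl⟩ := A.mk1_surj x
      rw [CMap.m1_mk, Cx.mk1_eq_zero] at hx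
      obtain ⟨y, hy⟩ := hx
      obtain ⟨y', rfl⟩ := h0.2 y
      rw [Cx.mk1_eq_zero]
      refine ⟨y', h1.1 ?_⟩
      rw [i.c0, hy]
      rfl
    · intro x
      obtain ⟨x, rfl⟩ := B.mk1_surj x
      obtain ⟨y, hy⟩ := h1.2 (x : B.C1)
      have hx : B.d1 (x : B.C1) = 0 := x.2
      have hy0 : A.d1 y = 0 := h2.1 (by rw [map_zero, i.c1, hy, hx])
      exact ⟨A.mk1 ⟨y, hy0⟩, congrArg B.mk1 (Subtype.ext hy)⟩
  have b2 : Function.Bijective i.m2 := by
    constructor
    · rw [injective_iff_map_eq_zero]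
      intro x hx
      obtain ⟨x, rfl⟩ := A.mk2_surj x
      rw [CMap.m2_mk, Cx.mk2_eq_zero] at hx
      obtain ⟨y, hy⟩ := hx
      obtain ⟨y', rfl⟩ := h1.2 y
      rw [Cx.mk2_eq_zero]
      refine ⟨y', h2.1 ?_⟩
      rw [i.c1, hy]
    · intro x
      obtain ⟨x, rfl⟩ := B.mk2_surj x
      obtain ⟨y, hy⟩ := h2.2 x
      exact ⟨A.mk2 y, by rw [CMap.m2_mk, hy]⟩
  have r0 := (LinearEquiv.ofBijective i.m0 b0).finrank_eq
  have r1 := (LinearEquiv.ofBijective i.m1 b1).finrank_eq
  have r2 := (LinearEquiv.ofBijective i.m2 b2).finrank_eq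
  refine ⟨r0, r1, r2, ?_⟩
  unfold Cx.chi
  rw [r0, r1, r2]

end Pool.Agent.H54.EN
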