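import Pool.Agent.H54.EN.A4
import Pool.Agent.H54.EN.A5

/-!
# [H54 EN A6] the Euler characteristic of a quotient concentrated in degree `0`

`i : CMap A B` injective; `C` the quotient complex (`exists_coker`), `B.chi - A.chi = C.chi` (`SES.chi`), `C` has finite-dimensional cohomology (`SES.fin`).
* `(h2)` gives `C.H2 = 0`: every class is the class of `p.f2 n` with `n = B.d1 a + i.f2 n'`, so `p.f2 n = C.d1 (p.f1 a)`.
* `(h1)` gives `C.H1 = 0`: a cocycle `c` of `C.C1` is `p.f1 a` (`sur1`); `0 = C.d1 c = p.f2 (B.d1 a)`, so `B.d1 a = i.f2 n` (`ex2`), `a = B.d0 f + i.f1 a'`, `c = C.d0 (p.f0 f)`.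
* So `C.chi = finrank C.H0`, and the classes of `p.f0 (θ j)` (cocycles because of `hθ`) are linearly independent (`hind`, `ex0`): `n ≤ finrank C.H0` (`LinearIndependent.fintype_card_le_finrank`, `Fintype.linearIndependent_iff`).
-/

set_option autoImplicit false

universe u

namespace Pool.Agent.H54.EN

variable {k : Type u} [Field k] {A B : Cx k}

open Module in
theorem count (i : CMap A B) (h0 : Function.Injective i.f0) (h1 : Function.Injective i.f1)
    (h2 : Function.Injective i.f2) (hA : A.Fin) (hB : B.Fin)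
    (e2 : ∀ n : B.C2, ∃ a n', n = B.d1 a + i.f2 n')
    (e1 : ∀ a : B.C1, (∃ n, B.d1 a = i.f2 n) → ∃ f a', a = B.d0 f + i.f1 a')
    {n : ℕ} (θ : Fin n → B.C0) (hθ : ∀ j, ∃ a', B.d0 (θ j) = i.f1 a')
    (hind : ∀ c : Fin n → k, (∃ f, ∑ j, c j • θ j = i.f0 f) → c = 0) :
    (n : ℤ) ≤ B.chi - A.chi := by
  obtain ⟨C, s, rfl⟩ := exists_coker i h0 h1 h2
  have hC := s.fin hA hB
  have hchi := s.chi hA hB
  have z2 : ∀ x : C.H2, x = 0 := by
    intro x
    obtain ⟨x, rfl⟩ := C.mk2_surj x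
    obtain ⟨y, rfl⟩ := s.sur2 x
    obtain ⟨a, n', hn⟩ := e2 y
    rw [Cx.mk2_eq_zero]
    refine ⟨s.p.f1 a, ?_⟩
    rw [hn, map_add, s.p.c1, (s.ex2 _).2 ⟨n', rfl⟩, add_zero]
  have z1 : ∀ x : C.H1, x = 0 := by
    intro x
    obtain ⟨x, rfl⟩ := C.mk1_surj x
    obtain ⟨a, ha⟩ := s.sur1 (x : C.C1)
    have hx : C.d1 (x : C.C1) = 0 := x.2
    obtain ⟨n', hn⟩ := (s.ex2 (B.d1 a)).1 (by rw [s.p.c1, ha, hx])
    obtain ⟨f, a', hf⟩ := e1 a ⟨n', hn.symm⟩
    rw [Cx.mk1_eq_zero]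
    refine ⟨s.p.f0 f, ?_⟩
    rw [← ha, hf, map_add, s.p.c0, (s.ex1 _).2 ⟨a', rfl⟩, add_zero]
  have r2 : finrank k C.H2 = 0 := by
    have := hC.f2
    exact finrank_zero_iff_forall_zero.2 z2
  have r1 : finrank k C.H1 = 0 := by
    have := hC.f1
    exact finrank_zero_iff_forall_zero.2 z1
  have hcoc : ∀ j, C.d0 (s.p.f0 (θ j)) = 0 := by
    intro j
    obtain ⟨a', ha'⟩ := hθ j
    rw [← s.p.c0, ha']
    exact (s.ex1 _).2 ⟨a', rfl⟩
  have hli : LinearIndependent k (fun j : Fin n => C.mk0 ⟨s.p.f0 (θ j), hcoc j⟩) := by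
    rw [Fintype.linearIndependent_iff]
    intro c hc
    have h3 : C.mk0 (∑ j, c j • (⟨s.p.f0 (θ j), hcoc j⟩ : LinearMap.ker C.d0)) = 0 := by
      rw [map_sum]
      simpa only [map_smul] using hc
    have h4 : ∑ j, c j • (⟨s.p.f0 (θ j), hcoc j⟩ : LinearMap.ker C.d0) = 0 :=
      C.mk0_bij.1 (by rw [h3, map_zero])
    have h5 : s.p.f0 (∑ j, c j • θ j) = 0 := by
      have h6 := congrArg (LinearMap.ker C.d0).subtype h4
      rw [map_sum, map_zero] at h6
      rw [map_sum]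
      simp only [map_smul] at h6 ⊢
      exact h6
    obtain ⟨f, hf⟩ := (s.ex0 _).1 h5
    have h7 := hind c ⟨f, hf.symm⟩
    intro j
    rw [h7]
    rfl
  have hle : n ≤ finrank k C.H0 := by
    have := hC.f0
    have h8 := hli.fintype_card_le_finrank
    rwa [Fintype.card_fin] at h8
  have hc : C.chi = (finrank k C.H0 : ℤ) := by
    unfold Cx.chi
    rw [r1, r2]
    push_cast
    ring
  rw [hchi, hc]
  have : (n : ℤ) ≤ finrank k C.H0 := by exact_mod_cast hle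
  linarith

end Pool.Agent.H54.EN
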