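import Pool.Agent.H54.EN.B1

/-!
# [H54 EN AUT] automorphisms

`MAut X` is a group: `(g * h).σ = g.σ ∘ h.σ`, `(g * h).τ = h.τ` after `g.τ` (pull-back is contravariant).

* `kapE`: `g.τ` restricts to an isomorphism `O (σ ζ) → O ζ` of local rings (`g.loc`), hence an isomorphism of the residue
  fields over `k` with `kapE (rs (σ ζ) a) = rs ζ (τ a)` for all `a ∈ K` (both sides are `0` if `a ∉ O (σ ζ)`).
-/

set_option autoImplicit false

universe u

namespace Pool.Agent.H54.EN

variable {k K : Type u} [Field k] [Field K] [Algebra k K] {X : Mod k K}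

theorem MAut.ext' (g h : MAut X) (h1 : ∀ x, g.σ x = h.σ x) (h2 : ∀ a, g.τ a = h.τ a) : g = h := by
  cases g; cases h
  congr
  · exact Homeomorph.ext h1
  · exact AlgEquiv.ext h2

noncomputable instance : Group (MAut X) where
  mul g h :=
    { σ := h.σ.trans g.σ
      τ := g.τ.trans h.τ
      loc := fun x a => by
        simp only [AlgEquiv.trans_apply, Homeomorph.trans_apply]
        rw [h.loc, g.loc]
      aff := fun U => by
        have h1 : (h.σ.trans g.σ) ⁻¹' U = h.σ ⁻¹' (g.σ ⁻¹' U) := rfl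
        rw [h1, h.aff, g.aff] }
  one :=
    { σ := Homeomorph.refl _
      τ := AlgEquiv.refl
      loc := fun x a => Iff.rfl
      aff := fun U => Iff.rfl }
  inv g :=
    { σ := g.σ.symm
      τ := g.τ.symm
      loc := fun x a => by
        have h1 := g.loc (g.σ.symm x) (g.τ.symm a)
        rw [AlgEquiv.apply_symm_apply, Homeomorph.apply_symm_apply] at h1
        exact h1.symm
      aff := fun U => by
        have h1 := g.aff (g.σ.symm ⁻¹' U)
        rw [← h1, ← Set.preimage_comp, Homeomorph.symm_comp_self, Set.preimage_id] }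
  mul_assoc g h i := by
    apply MAut.ext'
    · intro x; rfl
    · intro a; rfl
  one_mul g := by
    apply MAut.ext'
    · intro x; rfl
    · intro a; rfl
  mul_one g := by
    apply MAut.ext'
    · intro x; rfl
    · intro a; rfl
  inv_mul_cancel g := by
    apply MAut.ext'
    · intro x; exact g.σ.symm_apply_apply x
    · intro a; exact g.τ.apply_symm_apply a

theorem MAut.mul_σ (g h : MAut X) (x : X.P) : (g * h).σ x = g.σ (h.σ x) := rfl

theorem MAut.mul_τ (g h : MAut X) (a : K) : (g * h).τ a = h.τ (g.τ a) := rfl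

theorem MAut.map_O (g : MAut X) (ζ : X.P) :
    (X.O (g.σ ζ)).map (g.τ : K →ₐ[k] K) = X.O ζ := by
  ext a
  rw [Subalgebra.mem_map]
  constructor
  · rintro ⟨b, hb, rfl⟩
    exact (g.loc ζ b).2 hb
  · intro ha
    refine ⟨g.τ.symm a, (g.loc ζ _).1 ?_, g.τ.apply_symm_apply a⟩
    rw [g.τ.apply_symm_apply]
    exact ha

/-- the isomorphism of the local rings -/
noncomputable def MAut.ringE (g : MAut X) (ζ : X.P) : X.O (g.σ ζ) ≃ₐ[k] X.O ζ :=
  (g.τ.subalgebraMap (X.O (g.σ ζ))).trans (Subalgebra.equivOfEq _ _ (g.map_O ζ))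

theorem MAut.ringE_apply (g : MAut X) (ζ : X.P) (a : X.O (g.σ ζ)) :
    (g.ringE ζ a : K) = g.τ a := rfl

/-- the isomorphism of the residue fields -/
noncomputable def MAut.kapE (g : MAut X) (ζ : X.P) : X.kap (g.σ ζ) ≃ₐ[k] X.kap ζ :=
  IsLocalRing.ResidueField.mapAlgEquiv (g.ringE ζ)

theorem MAut.kapE_rs (g : MAut X) (ζ : X.P) (a : K) :
    g.kapE ζ (X.rs (g.σ ζ) a) = X.rs ζ (g.τ a) := by
  unfold Mod.rs
  by_cases h : a ∈ X.O (g.σ ζ)
  · rw [dif_pos h, dif_pos ((g.loc ζ a).2 h)]
    exact IsLocalRing.ResidueField.mapAlgEquiv_residue (g.ringE ζ) ⟨a, h⟩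
  · rw [dif_neg h, dif_neg (fun h1 => h ((g.loc ζ a).1 h1)), map_zero]

end Pool.Agent.H54.EN
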