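import Pool.Agent.H54.EN.B2

/-!
# [H54 EN B3] denominators for Cartier divisors

* `triv`: by `D.loc x` and `IsSch.bas` for the intersection of `V` with the open set of `D.loc x`.
* `denc`: `M` a Cartier divisor, `a ∈ sec U`, `b ∈ K` with `b * M.eq y ∈ O y` for all `y ∈ U` at which `a` is a unit.  For `x ∈ U` take `c x` from `triv` (`V = univ`): a unit at `x`, and `M.eq z / M.eq x` is a unit of `O z` for all `z ∈ U` at which
  `c x` is a unit.  At the points `z ∈ U` with `c x * a` a unit: `c x` and `a` are units (`un_mul_iff`), so `b * M.eq z ∈ O z`, `b * M.eq x ∈ O z` (`mem_mul_un`).  `den` for `c x * a` and `b * M.eq x`: `(c x * a)^j * (b * M.eq x) ∈ O z` for all `z ∈ U`, `j ≥ N x`; for `z` with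
  `c x` a unit: `a^j * b * M.eq x ∈ O z`, so `a^j * b * M.eq z ∈ O z`.  By `qc` finitely many `x ∈ T` suffice: `N = ∑_{x ∈ T} N x`.
-/

set_option autoImplicit false

universe u

namespace Pool.Agent.H54.EN

variable {k K : Type u} [Field k] [Field K] [Algebra k K] {X : Mod k K}

theorem triv (hX : IsSch X) (D : Cart X) (U V : Set X.P) (x : X.P) (hU : X.aff U)
    (hV : IsOpen V) (hxU : x ∈ U) (hxV : x ∈ V) :
    ∃ c, (∀ y ∈ U, c ∈ X.O y) ∧ Un (X.O x) c ∧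
      ∀ y ∈ U, Un (X.O y) c → y ∈ V ∧ Un (X.O y) (D.eq y / D.eq x) := by
  obtain ⟨W, hW, hxW, hWu⟩ := D.loc x
  obtain ⟨c, h1, h2, h3⟩ := hX.bas U (V ∩ W) x hU (hV.inter hW) hxU ⟨hxV, hxW⟩
  exact ⟨c, h1, h2, fun y hy hc => ⟨(h3 y hy hc).1, hWu y (h3 y hy hc).2⟩⟩

theorem denc (hX : IsSch X) (M : Cart X) (U : Set X.P) (hU : X.aff U) (a b : K)
    (ha : ∀ y ∈ U, a ∈ X.O y) (hb : ∀ y ∈ U, Un (X.O y) a → b * M.eq y ∈ X.O y) :
    ∃ N : ℕ, ∀ j ≥ N, ∀ y ∈ U, a ^ j * b * M.eq y ∈ X.O y := by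
  classical
  have hmul : ∀ (x z : X.P) (w : K), w * M.eq z = w * M.eq x * (M.eq z / M.eq x) := by
    intro x z w
    have h0 := M.ne x
    field_simp
  have ht : ∀ x ∈ U, ∃ c, (∀ y ∈ U, c ∈ X.O y) ∧ Un (X.O x) c ∧
      ∀ y ∈ U, Un (X.O y) c → Un (X.O y) (M.eq y / M.eq x) := by
    intro x hx
    obtain ⟨c, h1, h2, h3⟩ := triv hX M U Set.univ x hU isOpen_univ hx (Set.mem_univ x)
    exact ⟨c, h1, h2, fun y hy hc => (h3 y hy hc).2⟩
  choose! c h1 h2 h3 using ht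
  have hN : ∀ x ∈ U, ∃ N : ℕ, ∀ j ≥ N, ∀ y ∈ U, (c x * a) ^ j * (b * M.eq x) ∈ X.O y := by
    intro x hx
    refine den hX U hU (c x * a) (b * M.eq x)
      (fun y hy => (X.O y).mul_mem (h1 x hx y hy) (ha y hy)) ?_
    intro z hz hu
    obtain ⟨hc, ha'⟩ := (un_mul_iff (h1 x hx z hz) (ha z hz)).1 hu
    have h4 := hb z hz ha'
    rw [hmul x z b] at h4
    exact (mem_mul_un (h3 x hx z hz hc)).1 h4
  choose! N hN using hN
  obtain ⟨T, hTU, hT⟩ := qc hX U hU c fun x hx => ⟨(mem_sec U _).2 (h1 x hx), h2 x hx⟩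
  refine ⟨∑ x ∈ T, N x, fun j hj y hy => ?_⟩
  obtain ⟨x, hxT, hxu⟩ := hT y hy
  have hx := hTU x hxT
  have hjN : N x ≤ j := (Finset.single_le_sum (fun _ _ => Nat.zero_le _) hxT).trans hj
  have h5 := hN x hx j hjN y hy
  have h6 : (c x * a) ^ j * (b * M.eq x) = a ^ j * b * M.eq x * c x ^ j := by
    rw [mul_pow]
    ring
  rw [h6] at h5
  have h7 := (mem_mul_un (un_pow hxu j)).1 h5
  rw [hmul x y]
  exact (mem_mul_un (h3 x hx y hy hxu)).2 h7

end Pool.Agent.H54.EN
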