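import Pool.Agent.H54.EN.PDefs

/-!
# [H54 EN B4] prime ideals of the local rings and generizations

Basic lemmas: `mem_sec`, `un_iff`, `un_mul_iff`, `un_div`, `mem_mul_un` (B1).
* `spec_of`: `x, y` in the affine set `U`, every function on `U` which is a unit at `x` is a unit at `y`: then `y ⤳ x`: for an open set `V` containing `x` take `a` from `hX.bas U V x`: `a` is a unit at `x`, so at `y`, so `y ∈ V` (`specializes_iff_forall_open`).
* `un_gen`: `y ⤳ x`: units of `O x` are units of `O y` (`hX.spec`, `un_mono`).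
* `noeth_sec`: `sec U` is a finitely generated algebra over a field (`hX.fg`): `Algebra.FiniteType`, `Algebra.FiniteType.isNoetherianRing` (`Subalgebra.fg_iff_finiteType`).
* `noeth_O`: let `U` be affine, `x ∈ U` (`hX.chart`).  For an ideal `I` of `O x` let `I'` be the ideal of the `a ∈ sec U` with `a ∈ I`; it is finitely generated, and by `hX.frac` every `b ∈ I` is `a / s` with `a ∈ I'`, `s ∈ sec U` a unit at `x`; so the generators of `I'` generate `I`.
* `prime_pt`: `Q` a prime ideal of `O x`, `U` affine, `x ∈ U`; `I = {a ∈ sec U : a ∈ Q}` is a prime ideal of `sec U`; `hX.prime` gives `y ∈ U` with `a ∈ I ↔ ¬ Un (O y) a`.  A function on `U` which is a unit at `x` is not in `Q`, so it is a unit at `y`: `y ⤳ x` (`spec_of`).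
  For `a ∈ O x`: `a * s ∈ sec U` with `s ∈ sec U` a unit at `x` (`hX.frac`), hence at `y`: `a ∈ Q ↔ a * s ∈ Q ↔ ¬ Un (O y) (a * s) ↔ ¬ Un (O y) a`.
* `frac_O`: `hX.gen`: `η` with `O η = ⊤` and `η ⤳ x`, so `η ∈ U` for an affine `U` containing `x`; `hX.frac U η` for `b = a`: `s ∈ sec U`, `s ≠ 0`, `a * s ∈ sec U`.
* `reg_nhd`: `a ∈ O x`: `U` affine with `x ∈ U`, `s` from `hX.frac`; `W = {y ∈ U : Un (O y) s}` is affine (`hX.basic`), and `a = (a s) / s ∈ O y` for `y ∈ W`.  For a given neighbourhood `N` of `x` multiply `s` by a function from `hX.bas U N x`.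
* `eq_of_pt`: two points `y, z ⤳ x` with the same non-units in `O x` are equal: `spec_of` in both directions for an affine `U` with `x ∈ U` (functions on `U` are in `O x`), `hX.t0`.
-/

set_option autoImplicit false

universe u

namespace Pool.Agent.H54.EN

variable {k K : Type u} [Field k] [Field K] [Algebra k K] {X : Mod k K}

theorem spec_of (hX : IsSch X) (U : Set X.P) (hU : X.aff U) {x y : X.P} (hx : x ∈ U) (hy : y ∈ U)
    (h : ∀ a ∈ X.sec U, Un (X.O x) a → Un (X.O y) a) : y ⤳ x := by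
  rw [specializes_iff_forall_open]
  intro V hV hxV
  obtain ⟨a, ha1, ha2, ha3⟩ := hX.bas U V x hU hV hx hxV
  exact ha3 y hy (h a ((mem_sec U a).2 ha1) ha2)

theorem un_gen (hX : IsSch X) {x y : X.P} (h : y ⤳ x) {a : K} (ha : Un (X.O x) a) :
    Un (X.O y) a :=
  un_mono (hX.spec y x h) ha

theorem noeth_sec (hX : IsSch X) (U : Set X.P) (hU : X.aff U) (hne : U.Nonempty) :
    IsNoetherianRing (X.sec U) := by
  have h1 : Algebra.FiniteType k (X.sec U) := (X.sec U).fg_iff_finiteType.1 (hX.fg U hU hne)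
  exact Algebra.FiniteType.isNoetherianRing k (X.sec U)

private theorem b4_le {U : Set X.P} {x : X.P} (hx : x ∈ U) : X.sec U ≤ X.O x :=
  fun a ha => (mem_sec U a).1 ha x hx

/-- the inclusion of the functions on `U` into the local ring -/
private noncomputable def b4_inc {U : Set X.P} {x : X.P} (hx : x ∈ U) : X.sec U →+* X.O x :=
  (Subalgebra.inclusion (b4_le hx)).toRingHom

private theorem b4_inc_coe {U : Set X.P} {x : X.P} (hx : x ∈ U) (a : X.sec U) :
    ((b4_inc hx a : X.O x) : K) = a := rfl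

theorem noeth_O (hX : IsSch X) (x : X.P) : IsNoetherianRing (X.O x) := by
  obtain ⟨U, hU, hx⟩ := hX.chart x
  have hN := noeth_sec hX U hU ⟨x, hx⟩
  rw [isNoetherianRing_iff_ideal_fg]
  intro I
  have h1 : I = (I.comap (b4_inc hx)).map (b4_inc hx) := by
    refine le_antisymm ?_ Ideal.map_comap_le
    intro b hb
    obtain ⟨s, hs, hsu, hbs⟩ := hX.frac U x hU hx b b.2
    have h2 : b4_inc hx ⟨b * s, hbs⟩ = b * ⟨s, b4_le hx hs⟩ := Subtype.ext rfl
    have h3 : (⟨b * s, hbs⟩ : X.sec U) ∈ I.comap (b4_inc hx) := by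
      rw [Ideal.mem_comap, h2]
      exact I.mul_mem_right _ hb
    have h4 := Ideal.mul_mem_right (⟨s⁻¹, hsu.2.2⟩ : X.O x) _ (Ideal.mem_map_of_mem (b4_inc hx) h3)
    have h5 : b4_inc hx ⟨b * s, hbs⟩ * (⟨s⁻¹, hsu.2.2⟩ : X.O x) = b := by
      apply Subtype.ext
      show (b : K) * s * s⁻¹ = b
      rw [mul_assoc, mul_inv_cancel₀ hsu.1, mul_one]
    rwa [h5] at h4
  rw [h1]
  exact Ideal.FG.map (((isNoetherianRing_iff_ideal_fg _).1 hN) _) _

theorem prime_pt (hX : IsSch X) (x : X.P) (Q : Ideal (X.O x)) (hQ : Q.IsPrime) :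
    ∃ y, y ⤳ x ∧ ∀ a : X.O x, a ∈ Q ↔ ¬ Un (X.O y) (a : K) := by
  obtain ⟨U, hU, hx⟩ := hX.chart x
  obtain ⟨y, hy, hI⟩ := hX.prime U hU ⟨x, hx⟩ (Q.comap (b4_inc hx)) (hQ.comap _)
  have hnot : ∀ s : K, ∀ hs : s ∈ X.O x, Un (X.O x) s → (⟨s, hs⟩ : X.O x) ∉ Q := by
    intro s hs hu hm
    exact hQ.ne_top (Ideal.eq_top_of_isUnit_mem _ hm ((un_iff hs).2 hu))
  have hyx : y ⤳ x := by
    refine spec_of hX U hU hx hy fun a ha hu => ?_
    by_contra h
    have h1 := (hI ⟨a, ha⟩).2 h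
    exact hnot a (b4_le hx ha) hu h1
  refine ⟨y, hyx, fun a => ?_⟩
  obtain ⟨s, hs, hsu, has⟩ := hX.frac U x hU hx a a.2
  have hsy : Un (X.O y) s := un_gen hX hyx hsu
  have h2 : b4_inc hx ⟨a * s, has⟩ = a * ⟨s, b4_le hx hs⟩ := Subtype.ext rfl
  have h3 := hI ⟨a * s, has⟩
  rw [Ideal.mem_comap, h2] at h3
  rw [← un_mul_un (a := (a : K)) hsy]
  refine Iff.trans ?_ h3
  constructor
  · intro h
    exact Q.mul_mem_right _ h
  · intro h
    exact (hQ.mem_or_mem h).resolve_right (hnot s _ hsu)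

theorem frac_O (hX : IsSch X) (x : X.P) (a : K) : ∃ q ∈ X.O x, q ≠ 0 ∧ q * a ∈ X.O x := by
  obtain ⟨η, hη, hgen⟩ := hX.gen
  obtain ⟨U, hU, hx⟩ := hX.chart x
  have hηU : η ∈ U := (hgen x).mem_open (hX.op U hU) hx
  obtain ⟨s, hs, hsu, has⟩ := hX.frac U η hU hηU a (by rw [hη]; trivial)
  refine ⟨s, b4_le hx hs, hsu.1, ?_⟩
  rw [mul_comm]
  exact b4_le hx has

theorem reg_nhd (hX : IsSch X) (x : X.P) (a : K) (ha : a ∈ X.O x) (N : Set X.P) (hN : IsOpen N)
    (hx : x ∈ N) : ∃ W, X.aff W ∧ x ∈ W ∧ W ⊆ N ∧ ∀ y ∈ W, a ∈ X.O y := by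
  obtain ⟨U, hU, hxU⟩ := hX.chart x
  obtain ⟨s, hs, hsu, has⟩ := hX.frac U x hU hxU a ha
  obtain ⟨b, hb1, hb2, hb3⟩ := hX.bas U N x hU hN hxU hx
  have hsU : ∀ y ∈ U, s ∈ X.O y := (mem_sec U s).1 hs
  refine ⟨{y | y ∈ U ∧ Un (X.O y) (s * b)},
    hX.basic U (s * b) hU (fun y hy => (X.O y).mul_mem (hsU y hy) (hb1 y hy)),
    ⟨hxU, un_mul hsu hb2⟩, ?_, ?_⟩
  · rintro y ⟨hy, hu⟩
    exact hb3 y hy ((un_mul_iff (hsU y hy) (hb1 y hy)).1 hu).2
  · rintro y ⟨hy, hu⟩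
    have h1 := ((un_mul_iff (hsU y hy) (hb1 y hy)).1 hu).1
    have h2 : a * s ∈ X.O y := (mem_sec U _).1 has y hy
    have h3 := (X.O y).mul_mem h2 h1.2.2
    rwa [mul_assoc, mul_inv_cancel₀ h1.1, mul_one] at h3

theorem eq_of_pt (hX : IsSch X) {x y z : X.P} (hy : y ⤳ x) (hz : z ⤳ x)
    (h : ∀ a ∈ X.O x, Un (X.O y) a ↔ Un (X.O z) a) : y = z := by
  obtain ⟨U, hU, hx⟩ := hX.chart x
  have hyU : y ∈ U := hy.mem_open (hX.op U hU) hx
  have hzU : z ∈ U := hz.mem_open (hX.op U hU) hx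
  refine hX.t0 y z ?_ ?_
  · exact spec_of hX U hU hzU hyU fun a ha h1 => (h a (b4_le hx ha)).2 h1
  · exact spec_of hX U hU hyU hzU fun a ha h1 => (h a (b4_le hx ha)).1 h1

end Pool.Agent.H54.EN
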