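import Pool.Agent.H54.EN.B4

/-!
# [H54 EN B5] the residue field of a closed point

`k` algebraically closed, `x` a closed point, `U` affine, `x ∈ U`.  The ideal `m = {a ∈ sec U : ¬ Un (O x) a}` of `sec U` is prime (`O x` is local: `un_add`, `un_mul_iff`); it is maximal: a maximal ideal `M ⊇ m` is `{¬ Un (O y)}` for a `y ∈ U` (`hX.prime`); functions on `U` which are units at `y` are not in `M`, so not in `m`, so units at `x`: `x ⤳ y`
(`spec_of`), so `y = x` because `x` is closed.  `sec U / m` is a field, finitely generated as a `k`-algebra (`hX.fg`), so finite over `k` (Zariski's lemma: `finite_of_finite_type_of_isJacobsonRing` or `finite_of_algHom_finiteType_of_isJacobsonRing`), so `k → sec U / m` is bijective (`IsAlgClosed.algebraMap_bijective_of_isIntegral`):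
for `a ∈ sec U` there is `c` with `a - c ∈ m`.
For `a ∈ O x`: `s ∈ sec U` a unit at `x`, `a * s ∈ sec U` (`hX.frac`): `s - c, a s - d ∈ m`, `c ≠ 0` (`s` is a unit at `x`); `a - d / c = (a s - d + (d / c) (c - s)) / s`, a nonunit.
-/

set_option autoImplicit false

universe u

namespace Pool.Agent.H54.EN

variable {k K : Type u} [Field k] [Field K] [Algebra k K] {X : Mod k K}

private theorem b5_le {U : Set X.P} {x : X.P} (hx : x ∈ U) : X.sec U ≤ X.O x :=
  fun a ha => (mem_sec U a).1 ha x hx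

/-- the functions on `U` which are not units at `x` -/
private noncomputable def b5_m {U : Set X.P} {x : X.P} (hx : x ∈ U) : Ideal (X.sec U) :=
  (IsLocalRing.maximalIdeal (X.O x)).comap (Subalgebra.inclusion (b5_le hx)).toRingHom

private theorem b5_mem {U : Set X.P} {x : X.P} (hx : x ∈ U) (a : X.sec U) :
    a ∈ b5_m hx ↔ ¬ Un (X.O x) (a : K) := by
  rw [b5_m, Ideal.mem_comap, IsLocalRing.mem_maximalIdeal, mem_nonunits_iff]
  exact not_congr (un_iff (b5_le hx a.2))

private theorem b5_max (hX : IsSch X) {U : Set X.P} (hU : X.aff U) {x : X.P} (hx : x ∈ U)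
    (hc : IsClosed ({x} : Set X.P)) : (b5_m hx).IsMaximal := by
  have hne : b5_m hx ≠ ⊤ := by
    rw [Ideal.ne_top_iff_one]
    intro h
    exact (b5_mem hx 1).1 h (un_one _)
  obtain ⟨M, hM, hle⟩ := Ideal.exists_le_maximal _ hne
  obtain ⟨y, hy, hI⟩ := hX.prime U hU ⟨x, hx⟩ M hM.isPrime
  have hxy : x ⤳ y := by
    refine spec_of hX U hU hy hx fun a ha hu => ?_
    by_contra h
    exact (hI ⟨a, ha⟩).1 (hle ((b5_mem hx ⟨a, ha⟩).2 h)) hu
  have hyx : y = x := hxy.mem_closed hc rfl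
  subst hyx
  have h1 : M = b5_m hx := Ideal.ext fun a => (hI a).trans (b5_mem hx a).symm
  rwa [← h1]

private theorem b5_const [IsAlgClosed k] (hX : IsSch X) {U : Set X.P} (hU : X.aff U) {x : X.P}
    (hx : x ∈ U) (hc : IsClosed ({x} : Set X.P)) (a : X.sec U) :
    ∃ c : k, ¬ Un (X.O x) ((a : K) - algebraMap k K c) := by
  have hmax := b5_max hX hU hx hc
  have h1 : Algebra.FiniteType k (X.sec U) := (X.sec U).fg_iff_finiteType.1 (hX.fg U hU ⟨x, hx⟩)
  let _ : Field (X.sec U ⧸ b5_m hx) := Ideal.Quotient.field _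
  have h2 : Algebra.FiniteType k (X.sec U ⧸ b5_m hx) :=
    h1.of_surjective (Ideal.Quotient.mkₐ k (b5_m hx)) (Ideal.Quotient.mkₐ_surjective k (b5_m hx))
  have h3 : Module.Finite k (X.sec U ⧸ b5_m hx) := finite_of_finite_type_of_isJacobsonRing _ _
  have h4 : Algebra.IsIntegral k (X.sec U ⧸ b5_m hx) := Algebra.IsIntegral.of_finite _ _
  have h5 := IsAlgClosed.algebraMap_bijective_of_isIntegral (k := k) (K := X.sec U ⧸ b5_m hx)
  obtain ⟨c, hc'⟩ := h5.2 (Ideal.Quotient.mk _ a)
  refine ⟨c, ?_⟩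
  have h6 : a - algebraMap k (X.sec U) c ∈ b5_m hx := by
    rw [← Ideal.Quotient.mk_eq_mk_iff_sub_mem, ← hc']
    rfl
  exact (b5_mem hx _).1 h6

theorem res_k [IsAlgClosed k] (hX : IsSch X) (x : X.P) (hx : IsClosed ({x} : Set X.P)) (a : K)
    (ha : a ∈ X.O x) : ∃ c : k, ¬ Un (X.O x) (a - algebraMap k K c) := by
  obtain ⟨U, hU, hxU⟩ := hX.chart x
  obtain ⟨s, hs, hsu, has⟩ := hX.frac U x hU hxU a ha
  obtain ⟨c, hc⟩ := b5_const hX hU hxU hx ⟨s, hs⟩
  obtain ⟨d, hd⟩ := b5_const hX hU hxU hx ⟨a * s, has⟩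
  simp only at hc hd
  have hc0 : c ≠ 0 := by
    rintro rfl
    rw [map_zero, sub_zero] at hc
    exact hc hsu
  have hc0' : algebraMap k K c ≠ 0 := by
    rw [Ne, map_eq_zero]
    exact hc0
  refine ⟨d / c, fun h => ?_⟩
  have hsO : s ∈ X.O x := hsu.2.1
  have h1 := un_mul h hsu
  have h2 : (a - algebraMap k K (d / c)) * s
      = (a * s - algebraMap k K d) + (-(algebraMap k K (d / c))) * (s - algebraMap k K c) := by
    rw [map_div₀]
    field_simp
    ring
  rw [h2] at h1
  have hcc : ∀ e : k, algebraMap k K e ∈ X.O x := fun e => (X.O x).algebraMap_mem e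
  have h3 : s - algebraMap k K c ∈ X.O x := (X.O x).sub_mem hsO (hcc c)
  have h4 : -(algebraMap k K (d / c)) ∈ X.O x := (X.O x).neg_mem (hcc _)
  rcases un_add ((X.O x).sub_mem ((X.O x).mul_mem ha hsO) (hcc d)) ((X.O x).mul_mem h4 h3) h1 with
    h5 | h5
  · exact hd h5
  · exact hc ((un_mul_iff h4 h3).1 h5).2

end Pool.Agent.H54.EN
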