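import Pool.Agent.H54.EN.B4

/-!
# [H54 EN B6] points of a prime divisor on a surface

`hX : IsSf X` (`hX.toIsSch`), `C : Prm X`, `p = C.D.eq C.ζ`.
* `ideal_pt`: for `y ⤳ x` the set `{a ∈ O x : ¬ Un (O y) a}` is a prime ideal of `O x` (`O y` is local and `O x ≤ O y`; e.g. `Ideal.comap` of the maximal ideal of `O y` under `Subalgebra.inclusion`; `un_iff`).
* `closed_of_spec`: `C.ζ ⤳ x`, `x ≠ C.ζ`; let `x ⤳ y` and suppose `y ≠ x`.  The prime ideals `0`, `𝔭_ζ`, `𝔭_x`, `m_y` of `O y` form a strictly increasing chain: `C.D.eq y ∈ 𝔭_ζ` is not `0` (`C.on`, `C.ζ ⤳ y`); `𝔭_ζ ≠ 𝔭_x` and `𝔭_x ≠ m_y = 𝔭_y` by `eq_of_pt`; inclusions by `un_gen`.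
  So `ringKrullDim (O y) ≥ 3` (`Order.krullDim`, `LTSeries`, e.g. `Order.le_krullDim_iff` / `LTSeries.length_le_krullDim`), against `hX.dim`.  So the closure of `{x}` is `{x}`.
* `not_closed`: otherwise `closure {ζ} = {ζ}`, `ζ` is closed and `ringKrullDim (O ζ) = 2` (`hX.dimc`).  But a prime ideal of `O ζ` which is not `0` contains some `a ≠ 0`, `a = p ^ n * unit` (`C.val`), `n ≥ 1` (`a` is a nonunit in `O ζ`, `p ∈ O ζ`), so it contains `p`, so every nonunit (`b / p ∈ O ζ` for the nonunits `b`, `C.on` for `x = ζ`):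
  it is the maximal ideal; so the dimension is at most `1` (`Ring.KrullDimLE 1`, `Ring.DimensionLEOne`, or chains).
* `pow_mem`: let `J` be the ideal of `O x` generated by `q` and `𝔭_ζ`; if no power of `t` is in `J` there is a prime ideal `Q ⊇ J` which contains no power of `t` (`Ideal.exists_le_prime_disjoint` with `Submonoid.powers t`, or `Ideal.exists_le_prime_notMem`...); `Q` is given by a point `y ⤳ x` (`prime_pt`).  `t ∉ Q` is a unit at `y`, so `y ≠ x`;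
  `q ∈ Q` is a nonunit at `y`, a unit at `ζ`: `y ≠ ζ`; `𝔭_ζ ⊆ Q` gives `ζ ⤳ y` (`spec_of` in an affine set which contains `x`, so `y` and `ζ`).  By `closed_of_spec` `y` is closed, and `y ⤳ x` gives `x = y`, a contradiction.
-/

set_option autoImplicit false

universe u

namespace Pool.Agent.H54.EN

variable {k K : Type u} [Field k] [Field K] [Algebra k K] {X : Mod k K}

private noncomputable def b6_I {x y : X.P} (h : X.O x ≤ X.O y) : Ideal (X.O x) :=
  (IsLocalRing.maximalIdeal (X.O y)).comap (Subalgebra.inclusion h).toRingHom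

private theorem b6_mem {x y : X.P} (h : X.O x ≤ X.O y) (a : X.O x) :
    a ∈ b6_I h ↔ ¬ Un (X.O y) (a : K) := by
  rw [b6_I, Ideal.mem_comap, IsLocalRing.mem_maximalIdeal, mem_nonunits_iff]
  exact not_congr (un_iff (h a.2))

private theorem b6_prime {x y : X.P} (h : X.O x ≤ X.O y) : (b6_I h).IsPrime :=
  Ideal.IsPrime.comap _

theorem ideal_pt (hX : IsSch X) {x y : X.P} (h : y ⤳ x) :
    ∃ Q : Ideal (X.O x), Q.IsPrime ∧ ∀ a : X.O x, a ∈ Q ↔ ¬ Un (X.O y) (a : K) :=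
  ⟨b6_I (hX.spec y x h), b6_prime _, b6_mem _⟩

private theorem b6_lt (hX : IsSch X) {x y z : X.P} (hy : y ⤳ x) (hz : z ⤳ x) (hyz : y ⤳ z)
    (hne : z ≠ y) : b6_I (hX.spec y x hy) < b6_I (hX.spec z x hz) := by
  rw [lt_iff_le_not_ge]
  constructor
  · intro a ha
    rw [b6_mem] at ha ⊢
    exact fun h => ha (un_gen hX hyz h)
  · intro hle
    refine hne (eq_of_pt hX hz hy fun a ha => ⟨fun h => un_gen hX hyz h, fun h => ?_⟩)
    by_contra h1
    have h2 := hle ((b6_mem (hX.spec z x hz) ⟨a, ha⟩).2 h1)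
    exact (b6_mem (hX.spec y x hy) ⟨a, ha⟩).1 h2 h

theorem closed_of_spec (hX : IsSf X) (C : Prm X) {x : X.P} (h : C.ζ ⤳ x) (hne : x ≠ C.ζ) :
    IsClosed ({x} : Set X.P) := by
  rw [← closure_subset_iff_isClosed]
  intro y hy
  rw [← specializes_iff_mem_closure] at hy
  by_contra hyx
  have hyx' : y ≠ x := fun h1 => hyx h1
  have hζy : C.ζ ⤳ y := h.trans hy
  have h01 : (⊥ : Ideal (X.O y)) < b6_I (hX.toIsSch.spec _ y hζy) := by
    rw [bot_lt_iff_ne_bot]
    intro hb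
    have h1 : (⟨C.D.eq y, C.eff y⟩ : X.O y) ∈ b6_I (hX.toIsSch.spec _ y hζy) := by
      rw [b6_mem]
      refine (C.on y hζy _ (C.eff y)).2 ?_
      rw [div_self (C.D.ne y)]
      exact (X.O y).one_mem
    rw [hb, Ideal.mem_bot] at h1
    exact C.D.ne y (congrArg Subtype.val h1)
  have h12 := b6_lt hX.toIsSch hζy hy h hne
  have h23 := b6_lt hX.toIsSch hy (specializes_refl y) hy hyx'
  let p0 : PrimeSpectrum (X.O y) := ⟨⊥, Ideal.isPrime_bot⟩
  let p1 : PrimeSpectrum (X.O y) := ⟨_, b6_prime (hX.toIsSch.spec _ y hζy)⟩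
  let p2 : PrimeSpectrum (X.O y) := ⟨_, b6_prime (hX.toIsSch.spec _ y hy)⟩
  let p3 : PrimeSpectrum (X.O y) := ⟨_, b6_prime (hX.toIsSch.spec _ y (specializes_refl y))⟩
  have hs : StrictMono ![p0, p1, p2, p3] := by
    rw [Fin.strictMono_iff_lt_succ]
    intro i
    fin_cases i
    · exact h01
    · exact h12
    · exact h23
  have h3 := Order.LTSeries.length_le_krullDim (LTSeries.mk 3 _ hs)
  have h4 := h3.trans (hX.dim y)
  exact absurd h4 (by
    change ¬ (((3 : ℕ) : WithBot ℕ∞) ≤ 2)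
    decide)

theorem not_closed (hX : IsSf X) (C : Prm X) : ∃ x, C.ζ ⤳ x ∧ x ≠ C.ζ := by
  by_contra hcon
  push Not at hcon
  have hcl : IsClosed ({C.ζ} : Set X.P) := by
    rw [← closure_subset_iff_isClosed]
    intro y hy
    rw [← specializes_iff_mem_closure] at hy
    exact hcon y hy
  have h2 := hX.dimc C.ζ hcl
  have h1 : Ring.KrullDimLE 1 (X.O C.ζ) := by
    rw [Ring.krullDimLE_one_iff_of_noZeroDivisors]
    intro P hP0 hP
    obtain ⟨⟨a, ha⟩, haP, ha0⟩ := Submodule.exists_mem_ne_zero_of_ne_bot hP0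
    have ha0' : a ≠ 0 := fun h => ha0 (Subtype.ext h)
    have hau : ¬ Un (X.O C.ζ) a := fun h =>
      hP.ne_top (Ideal.eq_top_of_isUnit_mem _ haP ((un_iff ha).2 h))
    have hpO : C.D.eq C.ζ ∈ X.O C.ζ := C.eff C.ζ
    have hpP : (⟨C.D.eq C.ζ, hpO⟩ : X.O C.ζ) ∈ P := by
      obtain ⟨n, hn⟩ := C.val a ha0'
      have hp0 := C.D.ne C.ζ
      rcases le_or_gt n 0 with hn0 | hn0
      · exfalso
        apply hau
        obtain ⟨m, rfl⟩ : ∃ m : ℕ, n = -(m : ℤ) := ⟨n.natAbs, by omega⟩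
        rw [zpow_neg, zpow_natCast, div_inv_eq_mul] at hn
        exact ((un_mul_iff ha ((X.O C.ζ).pow_mem hpO m)).1 hn).1
      · obtain ⟨m, rfl⟩ : ∃ m : ℕ, n = (m : ℤ) := ⟨n.natAbs, by omega⟩
        rw [zpow_natCast] at hn
        have h3 : (⟨C.D.eq C.ζ, hpO⟩ : X.O C.ζ) ^ m = ⟨a, ha⟩ * ⟨_, hn.2.2⟩ := by
          apply Subtype.ext
          show C.D.eq C.ζ ^ m = a * (a / C.D.eq C.ζ ^ m)⁻¹
          rw [inv_div, mul_div_cancel₀ _ ha0']
        have h4 : (⟨C.D.eq C.ζ, hpO⟩ : X.O C.ζ) ^ m ∈ P := by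
          rw [h3]
          exact P.mul_mem_right _ haP
        exact hP.mem_of_pow_mem _ h4
    have hmax : P = IsLocalRing.maximalIdeal (X.O C.ζ) := by
      refine le_antisymm (IsLocalRing.le_maximalIdeal hP.ne_top) ?_
      rintro ⟨b, hb⟩ hbm
      rw [IsLocalRing.mem_maximalIdeal, mem_nonunits_iff, un_iff hb] at hbm
      have h5 := (C.on C.ζ (specializes_refl _) b hb).1 hbm
      have h6 : (⟨b, hb⟩ : X.O C.ζ) = ⟨_, h5⟩ * ⟨C.D.eq C.ζ, hpO⟩ := by
        apply Subtype.ext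
        show b = b / C.D.eq C.ζ * C.D.eq C.ζ
        rw [div_mul_cancel₀ _ (C.D.ne C.ζ)]
      rw [h6]
      exact P.mul_mem_left _ hpP
    rw [hmax]
    exact IsLocalRing.maximalIdeal.isMaximal _
  have h3 := Ring.krullDimLE_iff.1 h1
  rw [h2] at h3
  exact absurd h3 (by decide)

theorem pow_mem_pt (hX : IsSf X) (C : Prm X) {x : X.P} (h : C.ζ ⤳ x) (hne : x ≠ C.ζ) (q t : K)
    (hq : q ∈ X.O x) (hqu : Un (X.O C.ζ) q) (ht : t ∈ X.O x) (htu : ¬ Un (X.O x) t) :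
    ∃ N : ℕ, ∃ b ∈ X.O x, ¬ Un (X.O C.ζ) (t ^ N - q * b) := by
  have hS := hX.toIsSch
  by_contra hcon
  push Not at hcon
  have hdis : Disjoint ((Ideal.span {(⟨q, hq⟩ : X.O x)} ⊔ b6_I (hS.spec _ x h) : Ideal (X.O x)) :
      Set (X.O x)) (Submonoid.powers (⟨t, ht⟩ : X.O x)) := by
    rw [Set.disjoint_left]
    rintro c hc ⟨N, hN⟩
    obtain ⟨b, e, he, hbe⟩ := Ideal.mem_span_singleton_sup.1 hc
    refine (b6_mem _ e).1 he ?_
    have h1 := hcon N b b.2
    have h2 : (e : K) = t ^ N - q * b := by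
      have h3 : (e : K) + q * b = t ^ N := by
        have h4 := congrArg Subtype.val (hbe.trans hN.symm)
        have h5 : (b : K) * q + e = t ^ N := h4
        rw [← h5]
        ring
      rw [← h3]
      ring
    rw [h2]
    exact h1
  obtain ⟨Q, hQ, hle, hQd⟩ := Ideal.exists_le_prime_disjoint _ _ hdis
  obtain ⟨y, hyx, hy⟩ := prime_pt hS x Q hQ
  have hyne : y ≠ x := by
    rintro rfl
    refine Set.disjoint_left.1 hQd ((hy ⟨t, ht⟩).2 htu) ⟨1, pow_one _⟩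
  have hyζ : y ≠ C.ζ := by
    rintro rfl
    exact (hy ⟨q, hq⟩).1 (hle (Ideal.mem_sup_left (Ideal.mem_span_singleton_self _))) hqu
  obtain ⟨U, hU, hxU⟩ := hS.chart x
  have hyU : y ∈ U := hyx.mem_open (hS.op U hU) hxU
  have hζU : C.ζ ∈ U := h.mem_open (hS.op U hU) hxU
  have hζy : C.ζ ⤳ y := by
    refine spec_of hS U hU hyU hζU fun a ha hu => ?_
    by_contra h1
    have haO : a ∈ X.O x := (mem_sec U a).1 ha x hxU
    exact (hy ⟨a, haO⟩).1 (hle (Ideal.mem_sup_right ((b6_mem _ ⟨a, haO⟩).2 h1))) hu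
  have hcl := closed_of_spec hX C hζy hyζ
  have hxy : x ∈ ({y} : Set X.P) := hyx.mem_closed hcl rfl
  exact hyne hxy.symm

end Pool.Agent.H54.EN
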