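import Pool.Agent.H54.EN.B6

/-!
# [H54 EN B7] zeros of a function on a prime divisor: finitely many

* `fin_zeros`: `A = sec U` is Noetherian (`noeth_sec`), `I` the ideal generated by `c` and by `{a ∈ A : ¬ Un (O ζ) a}`; the minimal primes over `I` are finitely many (`Ideal.finite_minimalPrimes_of_isNoetherianRing`).  For `x` in the set the ideal `𝔭_x = {a ∈ A : ¬ Un (O x) a}` is prime (comap of the maximal ideal of `O x`) and contains `I`
  (`un_gen` for `ζ ⤳ x`); it is minimal over `I`: a prime `Q` with `I ≤ Q ≤ 𝔭_x` is `𝔭_y` with `y ∈ U` (`hX.prime`), `ζ ⤳ y` (`spec_of`: units at `y` are not in `I`, so units at `ζ`), `y ≠ ζ` (`c ∈ Q` is a nonunit at `y`), so `y` is closed (`closed_of_spec`); and `Q ≤ 𝔭_x` gives `y ⤳ x` (`spec_of`), so `x = y`.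
  `x ↦ 𝔭_x` is injective on `U` (`spec_of` in both directions, `hX.t0`): `Set.Finite.of_finite_image` / `Set.Finite.of_injOn`.
* `fin_nonunit`: `U` is covered as `X.P` by finitely many affine sets (`hX.comp`, `hX.chart`, `hX.op`; `CompactSpace`, `elim_finite_subcover`).  For each affine `V` with `ζ ∈ V`: `n = b / s` with `b, s ∈ sec V`, `s` a unit at `ζ` (`hX.frac`), `b` is a unit at `ζ` too: for `x ∈ V`, `ζ ⤳ x`, if `b` and `s` are units at `x` then so is `n`; use `fin_zeros` for `b` and `s`.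
  If `ζ ∉ V` there are no `x ∈ V` with `ζ ⤳ x` (`V` is open).
* `fin_eq`: the local equation: `W` open, `ζ ∈ W`, `D.eq y / D.eq ζ` is a unit of `O y` for `y ∈ W` (`D.loc ζ`).  For an affine `V` with `ζ ∈ V` take `a` from `hX.bas V W ζ`: `a` is a unit at `ζ`, and the points `x ∈ V` at which `a` is a unit are in `W`; use `fin_zeros` for `a`.  (`Un (O x) (D.eq ζ / D.eq x)`: inverse.)
-/

set_option autoImplicit false

universe u

namespace Pool.Agent.H54.EN

variable {k K : Type u} [Field k] [Field K] [Algebra k K] {X : Mod k K}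

private theorem b7_le {U : Set X.P} {x : X.P} (hx : x ∈ U) : X.sec U ≤ X.O x :=
  fun a ha => (mem_sec U a).1 ha x hx

/-- the functions on `U` which are not units at `x` -/
private noncomputable def b7_m {U : Set X.P} {x : X.P} (hx : x ∈ U) : Ideal (X.sec U) :=
  (IsLocalRing.maximalIdeal (X.O x)).comap (Subalgebra.inclusion (b7_le hx)).toRingHom

private theorem b7_mem {U : Set X.P} {x : X.P} (hx : x ∈ U) (a : X.sec U) :
    a ∈ b7_m hx ↔ ¬ Un (X.O x) (a : K) := by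
  rw [b7_m, Ideal.mem_comap, IsLocalRing.mem_maximalIdeal, mem_nonunits_iff]
  exact not_congr (un_iff (b7_le hx a.2))

private theorem b7_prime {U : Set X.P} {x : X.P} (hx : x ∈ U) : (b7_m hx).IsPrime :=
  Ideal.IsPrime.comap _

private theorem b7_cover (hX : IsSch X) (S : Set X.P) (h : ∀ V, X.aff V → (S ∩ V).Finite) :
    S.Finite := by
  have := hX.comp
  choose V hV hxV using hX.chart
  obtain ⟨t, -, ht⟩ := (isCompact_univ (X := X.P)).elim_nhds_subcover V
    fun x _ => (hX.op _ (hV x)).mem_nhds (hxV x)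
  refine (t.finite_toSet.biUnion fun x _ => h (V x) (hV x)).subset ?_
  intro y hy
  obtain ⟨x, hx, hyx⟩ := Set.mem_iUnion₂.1 (ht (Set.mem_univ y))
  exact Set.mem_iUnion₂.2 ⟨x, hx, hy, hyx⟩

theorem fin_zeros (hX : IsSf X) (C : Prm X) (U : Set X.P) (hU : X.aff U) (hζ : C.ζ ∈ U) (c : K)
    (hc : c ∈ X.sec U) (hcu : Un (X.O C.ζ) c) :
    {x | x ∈ U ∧ C.ζ ⤳ x ∧ ¬ Un (X.O x) c}.Finite := by
  have hS := hX.toIsSch
  have hN := noeth_sec hS U hU ⟨_, hζ⟩
  let I : Ideal (X.sec U) := Ideal.span {⟨c, hc⟩} ⊔ b7_m hζ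
  have hfin : I.minimalPrimes.Finite := Ideal.finite_minimalPrimes_of_isNoetherianRing _ I
  refine Set.Finite.of_injOn (f := fun x => {a : X.sec U | ¬ Un (X.O x) (a : K)})
    (t := (fun J : Ideal (X.sec U) => (J : Set (X.sec U))) '' I.minimalPrimes) ?_ ?_
    (hfin.image _)
  · rintro x ⟨hxU, hζx, hxc⟩
    refine ⟨b7_m hxU, ⟨⟨b7_prime hxU, ?_⟩, ?_⟩, Set.ext fun a => b7_mem hxU a⟩
    · refine sup_le ?_ ?_
      · rw [Ideal.span_singleton_le_iff_mem]
        exact (b7_mem hxU _).2 hxc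
      · intro a ha
        rw [b7_mem] at ha ⊢
        exact fun h => ha (un_gen hS hζx h)
    · rintro Q ⟨hQ, hIQ⟩ hle
      obtain ⟨y, hyU, hy⟩ := hS.prime U hU ⟨_, hζ⟩ Q hQ
      have hζy : C.ζ ⤳ y := by
        refine spec_of hS U hU hyU hζ fun a ha hu => ?_
        by_contra h1
        exact (hy ⟨a, ha⟩).1 (hIQ (Ideal.mem_sup_right ((b7_mem hζ ⟨a, ha⟩).2 h1))) hu
      have hyζ : y ≠ C.ζ := by
        rintro rfl
        exact (hy ⟨c, hc⟩).1 (hIQ (Ideal.mem_sup_left (Ideal.mem_span_singleton_self _))) hcu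
      have hcl := closed_of_spec hX C hζy hyζ
      have hyx : y ⤳ x := by
        refine spec_of hS U hU hxU hyU fun a ha hu => ?_
        by_contra h1
        exact (b7_mem hxU ⟨a, ha⟩).1 (hle ((hy ⟨a, ha⟩).2 h1)) hu
      have hxy : x = y := hyx.mem_closed hcl rfl
      subst hxy
      intro a ha
      exact (hy a).2 ((b7_mem hxU a).1 ha)
  · rintro x ⟨hxU, -, -⟩ y ⟨hyU, -, -⟩ hxy
    have h1 : ∀ a ∈ X.sec U, Un (X.O x) a ↔ Un (X.O y) a := fun a ha =>
      not_iff_not.1 (Set.ext_iff.1 hxy ⟨a, ha⟩)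
    exact hS.t0 x y (spec_of hS U hU hyU hxU fun a ha => (h1 a ha).2)
      (spec_of hS U hU hxU hyU fun a ha => (h1 a ha).1)

theorem fin_nonunit (hX : IsSf X) (C : Prm X) (n : K) (hn : Un (X.O C.ζ) n) :
    {x | C.ζ ⤳ x ∧ ¬ Un (X.O x) n}.Finite := by
  have hS := hX.toIsSch
  refine b7_cover hS _ fun V hV => ?_
  by_cases hζ : C.ζ ∈ V
  · obtain ⟨s, hs, hsu, hns⟩ := hS.frac V C.ζ hV hζ n hn.2.1
    refine ((fin_zeros hX C V hV hζ s hs hsu).union
      (fin_zeros hX C V hV hζ (n * s) hns (un_mul hn hsu))).subset ?_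
    rintro x ⟨⟨h1, h2⟩, hxV⟩
    by_contra h3
    rw [Set.mem_union, not_or] at h3
    have h4 : Un (X.O x) s := by
      by_contra h
      exact h3.1 ⟨hxV, h1, h⟩
    have h5 : Un (X.O x) (n * s) := by
      by_contra h
      exact h3.2 ⟨hxV, h1, h⟩
    exact h2 ((un_mul_un h4).1 h5)
  · refine Set.finite_empty.subset ?_
    rintro x ⟨⟨h1, -⟩, hxV⟩
    exact hζ (h1.mem_open (hS.op V hV) hxV)

theorem fin_eq (hX : IsSf X) (C : Prm X) (D : Cart X) :
    {x | C.ζ ⤳ x ∧ ¬ Un (X.O x) (D.eq C.ζ / D.eq x)}.Finite := by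
  have hS := hX.toIsSch
  obtain ⟨W, hW, hζW, hu⟩ := D.loc C.ζ
  refine b7_cover hS _ fun V hV => ?_
  by_cases hζ : C.ζ ∈ V
  · obtain ⟨a, ha1, ha2, ha3⟩ := hS.bas V W C.ζ hV hW hζ hζW
    refine (fin_zeros hX C V hV hζ a ((mem_sec V a).2 ha1) ha2).subset ?_
    rintro x ⟨⟨h1, h2⟩, hxV⟩
    refine ⟨hxV, h1, fun h3 => h2 ?_⟩
    have h4 := un_inv (hu x (ha3 x hxV h3))
    rwa [inv_div] at h4
  · refine Set.finite_empty.subset ?_
    rintro x ⟨⟨h1, -⟩, hxV⟩
    exact hζ (h1.mem_open (hS.op V hV) hxV)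

end Pool.Agent.H54.EN
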