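import Pool.Agent.H54.EN.Defs

/-!
# Enriques surfaces: residue fields and the properties of the local rings of a surface

* `X.kap x`: the residue field at `x`; `X.rs x a`: the residue class at `x` of `a ∈ X.O x` (`0` for the other elements of `K`).
* `X.sec U`: the functions on `U`.
* `IsSch X`: the properties of `X` which are used; they are proved for the local rings of an integral scheme of finite
  type over a field in the files `S*`.
* `IsSf X`: `X` is a locally factorial surface.
-/

set_option autoImplicit false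

universe u

namespace Pool.Agent.H54.EN

variable {k K : Type u} [Field k] [Field K] [Algebra k K]

section defs

variable (X : Mod k K)

/-- the residue field at `x` -/
def Mod.kap (x : X.P) : Type u := IsLocalRing.ResidueField (X.O x)

noncomputable instance (x : X.P) : Field (X.kap x) :=
  (inferInstance : Field (IsLocalRing.ResidueField (X.O x)))

noncomputable instance (x : X.P) : Algebra k (X.kap x) :=
  (inferInstance : Algebra k (IsLocalRing.ResidueField (X.O x)))

open Classical in
/-- the residue class at `x` of an element of the local ring (`0` for the other elements of `K`) -/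
noncomputable def Mod.rs (x : X.P) (a : K) : X.kap x :=
  if h : a ∈ X.O x then IsLocalRing.residue (X.O x) ⟨a, h⟩ else 0

/-- the functions on `U` -/
def Mod.sec (U : Set X.P) : Subalgebra k K := ⨅ x ∈ U, X.O x

/-- effective Cartier divisors -/
def Effective {X : Mod k K} (D : Cart X) : Prop := ∀ x, D.eq x ∈ X.O x

/-- Cartier divisors whose local equations are units -/
def Triv {X : Mod k K} (D : Cart X) : Prop := ∀ x, Un (X.O x) (D.eq x)

/-- the properties of `X` which are used: they hold for the local rings of an integral scheme of finite type over `k` -/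
structure IsSch : Prop where
  comp : CompactSpace X.P
  ne : Nonempty X.P
  spec : ∀ x y, x ⤳ y → X.O y ≤ X.O x
  op : ∀ U, X.aff U → IsOpen U
  chart : ∀ x, ∃ U, X.aff U ∧ x ∈ U
  basic : ∀ U a, X.aff U → (∀ x ∈ U, a ∈ X.O x) → X.aff {x | x ∈ U ∧ Un (X.O x) a}
  bas : ∀ U V x, X.aff U → IsOpen V → x ∈ U → x ∈ V →
    ∃ a, (∀ y ∈ U, a ∈ X.O y) ∧ Un (X.O x) a ∧ ∀ y ∈ U, Un (X.O y) a → y ∈ V
  fg : ∀ U, X.aff U → U.Nonempty → (X.sec U).FG
  frac : ∀ U x, X.aff U → x ∈ U → ∀ b ∈ X.O x, ∃ s ∈ X.sec U, Un (X.O x) s ∧ b * s ∈ X.sec U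
  prime : ∀ U, X.aff U → U.Nonempty → ∀ I : Ideal (X.sec U), I.IsPrime →
    ∃ x ∈ U, ∀ a : X.sec U, a ∈ I ↔ ¬ Un (X.O x) a
  t0 : ∀ x y : X.P, x ⤳ y → y ⤳ x → x = y
  gen : ∃ η : X.P, X.O η = ⊤ ∧ ∀ y, η ⤳ y

/-- locally factorial surfaces -/
structure IsSf : Prop extends IsSch X where
  ufd : ∀ x, UniqueFactorizationMonoid (X.O x)
  dim : ∀ x, ringKrullDim (X.O x) ≤ 2
  dimc : ∀ x, IsClosed ({x} : Set X.P) → ringKrullDim (X.O x) = 2

end defs

end Pool.Agent.H54.EN
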