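import Pool.Agent.H54.EN.CxM

/-!
# [H54 EN] curves, described by their local rings: definitions (complete)

`S : CSys k κ`: the closed points `P` of a curve with function field `κ`, the local rings `R x ⊆ κ`, three open sets `U i` of points, and `J i`: the open set `U i` is not empty (contains the generic point).
`IsCS S`: the properties which are used.
`Line S`: line bundles: the stalk at `x` is `L x * R x ⊆ κ`; `NS L I`: the sections over the intersection `V I` of the `U i`, `i ∈ I` (`0` if this intersection does not contain the generic point);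
`NC L`: the Čech complex; `inc`: the inclusion of the Čech complexes for `L ⊆ L'`.
-/

set_option autoImplicit false

universe u

namespace Pool.Agent.H54.EN

/-- the local rings of a curve -/
structure CSys (k κ : Type u) [Field k] [Field κ] [Algebra k κ] where
  /-- the closed points -/
  P : Type u
  /-- the local rings -/
  R : P → Subalgebra k κ
  /-- the covering -/
  U : Fin 3 → Set P
  /-- the indices of the nonempty members of the covering -/
  J : Fin 3 → Prop

variable {k κ : Type u} [Field k] [Field κ] [Algebra k κ]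

/-- the intersection of the open sets with index in `I` -/
def CSys.V (S : CSys k κ) (I : Set (Fin 3)) : Set S.P := {x | ∀ i ∈ I, x ∈ S.U i}

/-- all indices in `I` are indices of nonempty open sets -/
def CSys.JI (S : CSys k κ) (I : Set (Fin 3)) : Prop := ∀ i ∈ I, S.J i

open Classical in
/-- `1` if `JI I`, otherwise `0` -/
noncomputable def CSys.e (S : CSys k κ) (I : Set (Fin 3)) : k := if S.JI I then 1 else 0

/-- the properties of the local rings of a curve which are used -/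
structure IsCS (S : CSys k κ) : Prop where
  loc : ∀ x, IsLocalRing (S.R x)
  cov : ∀ x, ∃ i, x ∈ S.U i
  sub : ∀ i, ∀ x ∈ S.U i, S.J i
  fin : ∀ n : κ, n ≠ 0 → {x | ¬ Un (S.R x) n}.Finite
  frac : ∀ x, ∀ n : κ, ∃ q ∈ S.R x, q ≠ 0 ∧ q * n ∈ S.R x
  pow : ∀ x, ∀ q ∈ S.R x, q ≠ 0 → ∀ t ∈ S.R x, ¬ Un (S.R x) t → ∃ N : ℕ, t ^ N / q ∈ S.R x
  sep : ∀ I : Set (Fin 3), I.Nonempty → ∀ x ∈ S.V I, ∀ F : Set S.P, F.Finite → x ∉ F →
    ∃ a, (∀ y ∈ S.V I, a ∈ S.R y) ∧ Un (S.R x) a ∧ ∀ y ∈ F, y ∈ S.V I → ¬ Un (S.R y) a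
  res : ∀ x, ∀ a ∈ S.R x, ∃ c : k, ¬ Un (S.R x) (a - algebraMap k κ c)

/-- a line bundle on the curve: the stalk at `x` is `L x * R x` -/
structure Line (S : CSys k κ) where
  /-- the generator of the stalk at `x` -/
  L : S.P → κ
  ne : ∀ x, L x ≠ 0
  fin : {x | ¬ Un (S.R x) (L x)}.Finite

variable {S : CSys k κ}

theorem CSys.JI.mono {I I' : Set (Fin 3)} (h : S.JI I') (hI : I ⊆ I') : S.JI I := fun i hi => h i (hI hi)

theorem CSys.V.mono {I I' : Set (Fin 3)} (hI : I ⊆ I') : S.V I' ⊆ S.V I := fun _ hx i hi => hx i (hI hi)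

theorem CSys.e_pos {I : Set (Fin 3)} (h : S.JI I) : S.e I = 1 := if_pos h

theorem CSys.e_neg {I : Set (Fin 3)} (h : ¬ S.JI I) : S.e I = 0 := if_neg h

/-- the sections of a line bundle over `V I` -/
def NS (L : Line S) (I : Set (Fin 3)) : Submodule k κ where
  carrier := {n | (n = 0 ∨ S.JI I) ∧ ∀ x ∈ S.V I, n / L.L x ∈ S.R x}
  add_mem' := fun {a b} ha hb => by
    refine ⟨?_, fun x hx => ?_⟩
    · rcases ha.1 with h1 | h1
      · rcases hb.1 with h2 | h2
        · exact Or.inl (by rw [h1, h2, add_zero])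
        · exact Or.inr h2
      · exact Or.inr h1
    · rw [add_div]
      exact (S.R x).add_mem (ha.2 x hx) (hb.2 x hx)
  zero_mem' := ⟨Or.inl rfl, fun x _ => by rw [zero_div]; exact (S.R x).zero_mem⟩
  smul_mem' := fun c a ha => by
    refine ⟨?_, fun x hx => ?_⟩
    · rcases ha.1 with h1 | h1
      · exact Or.inl (by rw [h1, smul_zero])
      · exact Or.inr h1
    · rw [smul_div_assoc]
      exact (S.R x).smul_mem (ha.2 x hx) c

theorem NS.e_mem (L : Line S) {I I' : Set (Fin 3)} (hI : I ⊆ I') {n : κ}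
    (hn : ∀ x ∈ S.V I', n / L.L x ∈ S.R x) : S.e I' • n ∈ NS L I' := by
  by_cases h : S.JI I'
  · rw [CSys.e_pos h, one_smul]
    exact ⟨Or.inr h, hn⟩
  · rw [CSys.e_neg h, zero_smul]
    exact (NS L I').zero_mem

theorem NS.sub_e_mem (L : Line S) {I J I' : Set (Fin 3)} (hI : I ⊆ I') (hJ : J ⊆ I') {a b : κ}
    (ha : a ∈ NS L I) (hb : b ∈ NS L J) : S.e I' • (a - b) ∈ NS L I' :=
  NS.e_mem L hI (fun x hx => by
    rw [sub_div]
    exact (S.R x).sub_mem (ha.2 x (CSys.V.mono hI hx)) (hb.2 x (CSys.V.mono hJ hx)))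

/-- the differential -/
noncomputable def edel0 (S : CSys k κ) : (κ × κ × κ) →ₗ[k] (κ × κ × κ) where
  toFun f := (S.e {0, 1} • (f.2.1 - f.1), S.e {0, 2} • (f.2.2 - f.1), S.e {1, 2} • (f.2.2 - f.2.1))
  map_add' f g := by
    simp only [Prod.fst_add, Prod.snd_add, Prod.mk_add_mk, Prod.mk.injEq, ← smul_add]
    refine ⟨?_, ?_, ?_⟩ <;> congr 1 <;> abel
  map_smul' c f := by
    simp only [Prod.smul_fst, Prod.smul_snd, Prod.smul_mk, RingHom.id_apply, ← smul_sub, smul_comm c]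

/-- the differential -/
noncomputable def edel1 (S : CSys k κ) : (κ × κ × κ) →ₗ[k] κ where
  toFun f := S.e Set.univ • (f.2.2 - f.2.1 + f.1)
  map_add' f g := by
    simp only [Prod.fst_add, Prod.snd_add, ← smul_add]
    congr 1
    abel
  map_smul' c f := by
    simp only [Prod.smul_fst, Prod.smul_snd, RingHom.id_apply, ← smul_sub, ← smul_add, smul_comm c]

theorem edel_edel (f : κ × κ × κ) : edel1 S (edel0 S f) = 0 := by
  change S.e Set.univ • (S.e {1, 2} • (f.2.2 - f.2.1) - S.e {0, 2} • (f.2.2 - f.1) +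
    S.e {0, 1} • (f.2.1 - f.1)) = 0
  by_cases h : S.JI Set.univ
  · rw [CSys.e_pos (h.mono (Set.subset_univ ({1, 2} : Set (Fin 3)))),
      CSys.e_pos (h.mono (Set.subset_univ ({0, 2} : Set (Fin 3)))),
      CSys.e_pos (h.mono (Set.subset_univ ({0, 1} : Set (Fin 3)))), one_smul, one_smul, one_smul]
    have h1 : f.2.2 - f.2.1 - (f.2.2 - f.1) + (f.2.1 - f.1) = 0 := by abel
    rw [h1, smul_zero]
  · rw [CSys.e_neg h, zero_smul]

/-- the cochains of degree `0` -/
def NS0 (L : Line S) : Submodule k (κ × κ × κ) := (NS L {0}).prod ((NS L {1}).prod (NS L {2}))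

/-- the cochains of degree `1` -/
def NS1 (L : Line S) : Submodule k (κ × κ × κ) := (NS L {0, 1}).prod ((NS L {0, 2}).prod (NS L {1, 2}))

theorem edel0_mem (L : Line S) {f : κ × κ × κ} (hf : f ∈ NS0 L) : edel0 S f ∈ NS1 L := by
  obtain ⟨h0, h1, h2⟩ := hf
  have a0 : ({0} : Set (Fin 3)) ⊆ {0, 1} := by simp
  have a1 : ({1} : Set (Fin 3)) ⊆ {0, 1} := by simp
  have b0 : ({0} : Set (Fin 3)) ⊆ {0, 2} := by simp
  have b2 : ({2} : Set (Fin 3)) ⊆ {0, 2} := by simp
  have c1 : ({1} : Set (Fin 3)) ⊆ {1, 2} := by simp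
  have c2 : ({2} : Set (Fin 3)) ⊆ {1, 2} := by simp
  exact ⟨NS.sub_e_mem L a1 a0 h1 h0, NS.sub_e_mem L b2 b0 h2 h0, NS.sub_e_mem L c2 c1 h2 h1⟩

theorem edel1_mem (L : Line S) {f : κ × κ × κ} (hf : f ∈ NS1 L) : edel1 S f ∈ NS L Set.univ := by
  obtain ⟨h0, h1, h2⟩ := hf
  refine NS.e_mem L (Set.subset_univ ∅) fun x hx => ?_
  rw [add_div, sub_div]
  exact (S.R x).add_mem ((S.R x).sub_mem (h2.2 x (CSys.V.mono (Set.subset_univ _) hx))
    (h1.2 x (CSys.V.mono (Set.subset_univ _) hx))) (h0.2 x (CSys.V.mono (Set.subset_univ _) hx))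

/-- the Čech complex of a line bundle -/
noncomputable def NC (L : Line S) : Cx k where
  C0 := NS0 L
  C1 := NS1 L
  C2 := NS L Set.univ
  d0 := (edel0 S).restrict fun _ hf => edel0_mem L hf
  d1 := (edel1 S).restrict fun _ hf => edel1_mem L hf
  dd f := Subtype.ext (edel_edel _)

theorem NS.le {L L' : Line S} (h : ∀ x, L.L x / L'.L x ∈ S.R x) (I : Set (Fin 3)) : NS L I ≤ NS L' I := by
  rintro n ⟨h1, h2⟩
  refine ⟨h1, fun x hx => ?_⟩
  have h3 := L.ne x
  have h4 := L'.ne x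
  have h5 : n / L'.L x = n / L.L x * (L.L x / L'.L x) := by
    field_simp
  rw [h5]
  exact (S.R x).mul_mem (h2 x hx) (h x)

theorem NS0.le {L L' : Line S} (h : ∀ x, L.L x / L'.L x ∈ S.R x) : NS0 L ≤ NS0 L' :=
  fun _ hf => ⟨NS.le h _ hf.1, NS.le h _ hf.2.1, NS.le h _ hf.2.2⟩

theorem NS1.le {L L' : Line S} (h : ∀ x, L.L x / L'.L x ∈ S.R x) : NS1 L ≤ NS1 L' :=
  fun _ hf => ⟨NS.le h _ hf.1, NS.le h _ hf.2.1, NS.le h _ hf.2.2⟩

/-- the inclusion of the Čech complexes -/
noncomputable def inc {L L' : Line S} (h : ∀ x, L.L x / L'.L x ∈ S.R x) : CMap (NC L) (NC L') where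
  f0 := Submodule.inclusion (NS0.le h)
  f1 := Submodule.inclusion (NS1.le h)
  f2 := Submodule.inclusion (NS.le h Set.univ)
  c0 _ := rfl
  c1 _ := rfl

end Pool.Agent.H54.EN
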