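import Pool.Agent.H54.EN.Defs

/-!
# [H54 EN] three-term complexes: classes, maps and short exact sequences (complete)
-/

set_option autoImplicit false

universe u

namespace Pool.Agent.H54.EN

variable {k : Type u} [Field k]

/-- finite-dimensional cohomology -/
structure Cx.Fin (c : Cx k) : Prop where
  f0 : Module.Finite k c.H0
  f1 : Module.Finite k c.H1
  f2 : Module.Finite k c.H2

/-- the class of a cocycle of degree `0` -/
def Cx.mk0 (c : Cx k) : LinearMap.ker c.d0 →ₗ[k] c.H0 := (LinearMap.id : LinearMap.ker c.d0 →ₗ[k] LinearMap.ker c.d0)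

/-- the class of a cocycle of degree `1` -/
def Cx.mk1 (c : Cx k) : LinearMap.ker c.d1 →ₗ[k] c.H1 := Submodule.mkQ c.B1

/-- the class of a cochain of degree `2` -/
def Cx.mk2 (c : Cx k) : c.C2 →ₗ[k] c.H2 := Submodule.mkQ (LinearMap.range c.d1)

theorem Cx.mk0_bij (c : Cx k) : Function.Bijective c.mk0 := Function.bijective_id

theorem Cx.mk1_surj (c : Cx k) : Function.Surjective c.mk1 := Submodule.mkQ_surjective _

theorem Cx.mk2_surj (c : Cx k) : Function.Surjective c.mk2 := Submodule.mkQ_surjective _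

theorem Cx.mk1_eq_zero (c : Cx k) (x : LinearMap.ker c.d1) : c.mk1 x = 0 ↔ ∃ y, c.d0 y = (x : c.C1) :=
  Submodule.Quotient.mk_eq_zero _

theorem Cx.mk2_eq_zero (c : Cx k) (x : c.C2) : c.mk2 x = 0 ↔ ∃ y, c.d1 y = x :=
  Submodule.Quotient.mk_eq_zero _

/-- morphisms of complexes -/
structure CMap (A B : Cx k) where
  /-- the map in degree `0` -/
  f0 : A.C0 →ₗ[k] B.C0
  /-- the map in degree `1` -/
  f1 : A.C1 →ₗ[k] B.C1
  /-- the map in degree `2` -/
  f2 : A.C2 →ₗ[k] B.C2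
  c0 : ∀ x, f1 (A.d0 x) = B.d0 (f0 x)
  c1 : ∀ x, f2 (A.d1 x) = B.d1 (f1 x)

variable {A B C : Cx k}

/-- the map on the cocycles of degree `0` -/
def CMap.z0 (f : CMap A B) : LinearMap.ker A.d0 →ₗ[k] LinearMap.ker B.d0 :=
  f.f0.restrict (fun x hx => by
    have h : A.d0 x = 0 := hx
    change B.d0 (f.f0 x) = 0
    rw [← f.c0, h, map_zero])

/-- the map on the cocycles of degree `1` -/
def CMap.z1 (f : CMap A B) : LinearMap.ker A.d1 →ₗ[k] LinearMap.ker B.d1 :=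
  f.f1.restrict (fun x hx => by
    have h : A.d1 x = 0 := hx
    change B.d1 (f.f1 x) = 0
    rw [← f.c1, h, map_zero])

theorem CMap.z0_coe (f : CMap A B) (x : LinearMap.ker A.d0) : (f.z0 x : B.C0) = f.f0 x := rfl

theorem CMap.z1_coe (f : CMap A B) (x : LinearMap.ker A.d1) : (f.z1 x : B.C1) = f.f1 x := rfl

/-- the map on `H0` -/
def CMap.m0 (f : CMap A B) : A.H0 →ₗ[k] B.H0 := f.z0

/-- the map on `H1` -/
def CMap.m1 (f : CMap A B) : A.H1 →ₗ[k] B.H1 :=
  Submodule.mapQ A.B1 B.B1 f.z1 (by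
    rintro ⟨x, hx⟩ ⟨y, hy⟩
    have hy' : A.d0 y = x := hy
    exact ⟨f.f0 y, by
      change B.d0 (f.f0 y) = f.f1 x
      rw [← hy', f.c0]⟩)

/-- the map on `H2` -/
def CMap.m2 (f : CMap A B) : A.H2 →ₗ[k] B.H2 :=
  Submodule.mapQ (LinearMap.range A.d1) (LinearMap.range B.d1) f.f2 (by
    rintro x ⟨y, rfl⟩
    exact ⟨f.f1 y, (f.c1 y).symm⟩)

theorem CMap.m0_mk (f : CMap A B) (x : LinearMap.ker A.d0) : f.m0 (A.mk0 x) = B.mk0 (f.z0 x) := rfl

theorem CMap.m1_mk (f : CMap A B) (x : LinearMap.ker A.d1) : f.m1 (A.mk1 x) = B.mk1 (f.z1 x) := rfl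

theorem CMap.m2_mk (f : CMap A B) (x : A.C2) : f.m2 (A.mk2 x) = B.mk2 (f.f2 x) := rfl

/-- short exact sequences of complexes -/
structure SES (A B C : Cx k) where
  /-- the injection -/
  i : CMap A B
  /-- the projection -/
  p : CMap B C
  inj0 : Function.Injective i.f0
  inj1 : Function.Injective i.f1
  inj2 : Function.Injective i.f2
  sur0 : Function.Surjective p.f0
  sur1 : Function.Surjective p.f1
  sur2 : Function.Surjective p.f2
  ex0 : ∀ x, p.f0 x = 0 ↔ ∃ y, i.f0 y = x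
  ex1 : ∀ x, p.f1 x = 0 ↔ ∃ y, i.f1 y = x
  ex2 : ∀ x, p.f2 x = 0 ↔ ∃ y, i.f2 y = x

end Pool.Agent.H54.EN
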