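import Mathlib

/-!
# Enriques surfaces (MP_8fa801_ag): definitions

A variety is described by its local rings, which are subrings of the function field (Zariski, Chevalley).
`Mod k K`: a topological space `P` with a local `k`-subalgebra `O x` of the field `K` at every point `x`, and the
predicate `aff` (affine open subsets).

* `Cart X`: Cartier divisors, given by local equations `eq x ∈ K`, `x ∈ P`, such that `eq y / eq x` is a unit of
  `O y` for all `y` in a neighbourhood of `x`; an abelian group (the local equations are multiplied).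
* `GS D U`: the sections of `O(D)` over `U`, `{f ∈ K : f * eq x ∈ O x for all x ∈ U}`.
* `Cx k`: three-term complexes, their cohomology `H0`, `H1`, `H2` and Euler characteristic `chi`.
* `cech U D`: the Čech complex of `O(D)` for the covering `U 0`, `U 1`, `U 2`.
* `inter U D E = χ(D + E) - χ(D) - χ(E) + χ(0)`: the intersection number.
* `IsCan U M`: `M` is a canonical divisor: `H^i(D)` is finite-dimensional, of the dimension of `H^(2-i)(M - D)`.
* `MAut X`: automorphisms; `MAut.pull`: the pull-back of Cartier divisors.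
* `E10`: the lattice `U ⊕ E₈(-1)`, with the form `form`; `WE10`: the group generated by the reflections in the
  vectors of square `-2`.
-/

set_option autoImplicit false

universe u

namespace Pool.Agent.H54.EN

/-- a space of local rings in the field `K` -/
structure Mod (k K : Type u) [Field k] [Field K] [Algebra k K] where
  /-- the points -/
  P : Type u
  /-- the topology -/
  [top : TopologicalSpace P]
  /-- the local rings -/
  O : P → Subalgebra k K
  loc : ∀ x, IsLocalRing (O x)
  /-- the affine open sets -/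
  aff : Set P → Prop

attribute [instance] Mod.top Mod.loc

section defs

variable {k K : Type u} [Field k] [Field K] [Algebra k K]

/-- the units of a subalgebra of a field -/
def Un (A : Subalgebra k K) (a : K) : Prop := a ≠ 0 ∧ a ∈ A ∧ a⁻¹ ∈ A

theorem un_one (A : Subalgebra k K) : Un A 1 :=
  ⟨one_ne_zero, A.one_mem, by rw [inv_one]; exact A.one_mem⟩

theorem un_mul {A : Subalgebra k K} {a b : K} (ha : Un A a) (hb : Un A b) : Un A (a * b) :=
  ⟨mul_ne_zero ha.1 hb.1, A.mul_mem ha.2.1 hb.2.1, by
    rw [mul_inv]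
    exact A.mul_mem ha.2.2 hb.2.2⟩

theorem un_inv {A : Subalgebra k K} {a : K} (ha : Un A a) : Un A a⁻¹ :=
  ⟨inv_ne_zero ha.1, ha.2.2, by rw [inv_inv]; exact ha.2.1⟩

/-- Cartier divisors, by local equations at all points -/
structure Cart (X : Mod k K) where
  /-- the local equation at `x` -/
  eq : X.P → K
  ne : ∀ x, eq x ≠ 0
  loc : ∀ x, ∃ U : Set X.P, IsOpen U ∧ x ∈ U ∧ ∀ y ∈ U, Un (X.O y) (eq y / eq x)

variable {X : Mod k K}

theorem Cart.ext' (D E : Cart X) (h : ∀ x, D.eq x = E.eq x) : D = E := by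
  cases D; cases E
  congr
  exact funext h

noncomputable instance : Add (Cart X) where
  add D E :=
    { eq := fun x => D.eq x * E.eq x
      ne := fun x => mul_ne_zero (D.ne x) (E.ne x)
      loc := fun x => by
        obtain ⟨U, hU, hx, h⟩ := D.loc x
        obtain ⟨V, hV, hx', h'⟩ := E.loc x
        refine ⟨U ∩ V, hU.inter hV, ⟨hx, hx'⟩, fun y hy => ?_⟩
        rw [mul_div_mul_comm]
        exact un_mul (h y hy.1) (h' y hy.2) }

noncomputable instance : Zero (Cart X) where
  zero :=
    { eq := fun _ => 1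
      ne := fun _ => one_ne_zero
      loc := fun x => ⟨Set.univ, isOpen_univ, Set.mem_univ x, fun y _ => by
        rw [div_one]
        exact un_one _⟩ }

noncomputable instance : Neg (Cart X) where
  neg D :=
    { eq := fun x => (D.eq x)⁻¹
      ne := fun x => inv_ne_zero (D.ne x)
      loc := fun x => by
        obtain ⟨U, hU, hx, h⟩ := D.loc x
        refine ⟨U, hU, hx, fun y hy => ?_⟩
        rw [← inv_div_inv, inv_inv, inv_inv, ← inv_div]
        exact un_inv (h y hy) }

theorem add_eq (D E : Cart X) (x : X.P) : (D + E).eq x = D.eq x * E.eq x := rfl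

theorem zero_eq (x : X.P) : (0 : Cart X).eq x = 1 := rfl

theorem neg_eq (D : Cart X) (x : X.P) : (-D).eq x = (D.eq x)⁻¹ := rfl

/-- the group of the Cartier divisors -/
noncomputable instance : AddCommGroup (Cart X) where
  add_assoc D E F := Cart.ext' _ _ fun x => mul_assoc _ _ _
  zero_add D := Cart.ext' _ _ fun x => one_mul _
  add_zero D := Cart.ext' _ _ fun x => mul_one _
  neg_add_cancel D := Cart.ext' _ _ fun x => inv_mul_cancel₀ (D.ne x)
  add_comm D E := Cart.ext' _ _ fun x => mul_comm _ _
  nsmul := nsmulRec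
  zsmul := zsmulRec

/-- the sections of `O(D)` over `U` -/
def GS (D : Cart X) (U : Set X.P) : Submodule k K where
  carrier := {f | ∀ x ∈ U, f * D.eq x ∈ X.O x}
  add_mem' := fun ha hb x hx => by
    rw [add_mul]
    exact (X.O x).add_mem (ha x hx) (hb x hx)
  zero_mem' := fun x _ => by
    rw [zero_mul]
    exact (X.O x).zero_mem
  smul_mem' := fun c a ha x hx => by
    rw [smul_mul_assoc]
    exact (X.O x).smul_mem (ha x hx) c

theorem GS.mono (D : Cart X) {U V : Set X.P} (h : V ⊆ U) : GS D U ≤ GS D V :=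
  fun _ hf x hx => hf x (h hx)

end defs

/-! ### Three-term complexes -/

/-- three-term complexes of vector spaces -/
structure Cx (k : Type u) [Field k] where
  /-- the cochains of degree `0` -/
  C0 : Type u
  /-- the cochains of degree `1` -/
  C1 : Type u
  /-- the cochains of degree `2` -/
  C2 : Type u
  [a0 : AddCommGroup C0]
  [a1 : AddCommGroup C1]
  [a2 : AddCommGroup C2]
  [m0 : Module k C0]
  [m1 : Module k C1]
  [m2 : Module k C2]
  /-- the differential -/
  d0 : C0 →ₗ[k] C1
  /-- the differential -/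
  d1 : C1 →ₗ[k] C2
  dd : ∀ x, d1 (d0 x) = 0

attribute [instance] Cx.a0 Cx.a1 Cx.a2 Cx.m0 Cx.m1 Cx.m2

section cx

variable {k : Type u} [Field k] (c : Cx k)

/-- the cohomology in degree `0` -/
def Cx.H0 : Type u := LinearMap.ker c.d0

noncomputable instance : AddCommGroup c.H0 := (inferInstance : AddCommGroup (LinearMap.ker c.d0))

noncomputable instance : Module k c.H0 := (inferInstance : Module k (LinearMap.ker c.d0))

/-- the coboundaries of degree `1`, in the space of the cocycles -/
def Cx.B1 : Submodule k (LinearMap.ker c.d1) := (LinearMap.range c.d0).comap (LinearMap.ker c.d1).subtype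

/-- the cohomology in degree `1` -/
def Cx.H1 : Type u := LinearMap.ker c.d1 ⧸ c.B1

noncomputable instance : AddCommGroup c.H1 := (inferInstance : AddCommGroup (LinearMap.ker c.d1 ⧸ c.B1))

noncomputable instance : Module k c.H1 := (inferInstance : Module k (LinearMap.ker c.d1 ⧸ c.B1))

/-- the cohomology in degree `2` -/
def Cx.H2 : Type u := c.C2 ⧸ LinearMap.range c.d1

noncomputable instance : AddCommGroup c.H2 := (inferInstance : AddCommGroup (c.C2 ⧸ LinearMap.range c.d1))

noncomputable instance : Module k c.H2 := (inferInstance : Module k (c.C2 ⧸ LinearMap.range c.d1))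

/-- the Euler characteristic -/
noncomputable def Cx.chi : ℤ :=
  (Module.finrank k c.H0 : ℤ) - (Module.finrank k c.H1 : ℤ) + (Module.finrank k c.H2 : ℤ)

/-- the map `(f, g, h) ↦ (g - f, h - f, h - g)` -/
def del0 (k M : Type u) [Field k] [AddCommGroup M] [Module k M] : (M × M × M) →ₗ[k] (M × M × M) where
  toFun f := (f.2.1 - f.1, f.2.2 - f.1, f.2.2 - f.2.1)
  map_add' f g := by
    simp only [Prod.fst_add, Prod.snd_add, Prod.mk_add_mk, Prod.mk.injEq]
    refine ⟨?_, ?_, ?_⟩ <;> abel
  map_smul' c f := by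
    simp only [Prod.smul_fst, Prod.smul_snd, Prod.smul_mk, RingHom.id_apply, smul_sub]

/-- the map `(f, g, h) ↦ h - g + f` -/
def del1 (k M : Type u) [Field k] [AddCommGroup M] [Module k M] : (M × M × M) →ₗ[k] M where
  toFun f := f.2.2 - f.2.1 + f.1
  map_add' f g := by
    simp only [Prod.fst_add, Prod.snd_add]
    abel
  map_smul' c f := by
    simp only [Prod.smul_fst, Prod.smul_snd, RingHom.id_apply, smul_sub, smul_add]

end cx

section geo

variable {k K : Type u} [Field k] [Field K] [Algebra k K] {X : Mod k K}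

/-- the Čech cochains of degree `0` -/
def C0 (U : Fin 3 → Set X.P) (D : Cart X) : Submodule k (K × K × K) :=
  (GS D (U 0)).prod ((GS D (U 1)).prod (GS D (U 2)))

/-- the Čech cochains of degree `1` -/
def C1 (U : Fin 3 → Set X.P) (D : Cart X) : Submodule k (K × K × K) :=
  (GS D (U 0 ∩ U 1)).prod ((GS D (U 0 ∩ U 2)).prod (GS D (U 1 ∩ U 2)))

/-- the Čech cochains of degree `2` -/
def C2 (U : Fin 3 → Set X.P) (D : Cart X) : Submodule k K := GS D (U 0 ∩ U 1 ∩ U 2)

theorem C0_C1 (U : Fin 3 → Set X.P) (D : Cart X) (f : K × K × K) (hf : f ∈ C0 U D) :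
    del0 k K f ∈ C1 U D := by
  obtain ⟨h0, h1, h2⟩ := hf
  exact ⟨sub_mem (GS.mono D Set.inter_subset_right h1) (GS.mono D Set.inter_subset_left h0),
    sub_mem (GS.mono D Set.inter_subset_right h2) (GS.mono D Set.inter_subset_left h0),
    sub_mem (GS.mono D Set.inter_subset_right h2) (GS.mono D Set.inter_subset_left h1)⟩

theorem C1_C2 (U : Fin 3 → Set X.P) (D : Cart X) (f : K × K × K) (hf : f ∈ C1 U D) :
    del1 k K f ∈ C2 U D := by
  obtain ⟨h0, h1, h2⟩ := hf
  have e2 : U 0 ∩ U 1 ∩ U 2 ⊆ U 1 ∩ U 2 := fun x hx => ⟨hx.1.2, hx.2⟩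
  have e1 : U 0 ∩ U 1 ∩ U 2 ⊆ U 0 ∩ U 2 := fun x hx => ⟨hx.1.1, hx.2⟩
  have e0 : U 0 ∩ U 1 ∩ U 2 ⊆ U 0 ∩ U 1 := fun x hx => hx.1
  exact add_mem (sub_mem (GS.mono D e2 h2) (GS.mono D e1 h1)) (GS.mono D e0 h0)

/-- the Čech differential -/
def cd0 (U : Fin 3 → Set X.P) (D : Cart X) : C0 U D →ₗ[k] C1 U D := (del0 k K).restrict (C0_C1 U D)

/-- the Čech differential -/
def cd1 (U : Fin 3 → Set X.P) (D : Cart X) : C1 U D →ₗ[k] C2 U D := (del1 k K).restrict (C1_C2 U D)

theorem cdd (U : Fin 3 → Set X.P) (D : Cart X) (f : C0 U D) : cd1 U D (cd0 U D f) = 0 :=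
  Subtype.ext (by
    change (f : K × K × K).2.2 - (f : K × K × K).2.1 - ((f : K × K × K).2.2 - (f : K × K × K).1) +
      ((f : K × K × K).2.1 - (f : K × K × K).1) = 0
    abel)

/-- the Čech complex of `O(D)` for the covering `U 0`, `U 1`, `U 2` -/
def cech (U : Fin 3 → Set X.P) (D : Cart X) : Cx k where
  C0 := C0 U D
  C1 := C1 U D
  C2 := C2 U D
  d0 := cd0 U D
  d1 := cd1 U D
  dd := cdd U D

/-- the Euler characteristic of `O(D)` -/
noncomputable def chiD (U : Fin 3 → Set X.P) (D : Cart X) : ℤ := (cech U D).chi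

/-- the intersection number -/
noncomputable def inter (U : Fin 3 → Set X.P) (D E : Cart X) : ℤ :=
  chiD U (D + E) - chiD U D - chiD U E + chiD U 0

/-- `M` is a canonical divisor: the cohomology of `O(D)` is finite-dimensional and `h^i(D) = h^(2-i)(M - D)` -/
structure IsCan (U : Fin 3 → Set X.P) (M : Cart X) : Prop where
  fin0 : ∀ D : Cart X, Module.Finite k (cech U D).H0
  fin1 : ∀ D : Cart X, Module.Finite k (cech U D).H1
  fin2 : ∀ D : Cart X, Module.Finite k (cech U D).H2
  h02 : ∀ D : Cart X, Module.finrank k (cech U D).H0 = Module.finrank k (cech U (M - D)).H2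
  h11 : ∀ D : Cart X, Module.finrank k (cech U D).H1 = Module.finrank k (cech U (M - D)).H1

/-- the set where the section `s` of `O(D)` does not vanish -/
def nz (D : Cart X) (s : K) : Set X.P := {x | Un (X.O x) (s * D.eq x)}

/-- three sections of `O(A)`, without common zero, such that the sets where they do not vanish are affine -/
structure IsPol (A : Cart X) (s : Fin 3 → K) : Prop where
  sec : ∀ i x, s i * A.eq x ∈ X.O x
  aff : ∀ i, X.aff (nz A (s i))
  cov : ∀ x, ∃ i, x ∈ nz A (s i)

/-- the covering -/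
def cov (A : Cart X) (s : Fin 3 → K) (i : Fin 3) : Set X.P := nz A (s i)

variable (X) in
/-- automorphisms: a homeomorphism `σ` and an automorphism `τ` of the field (the pull-back of functions) -/
structure MAut where
  /-- the map on the points -/
  σ : X.P ≃ₜ X.P
  /-- the pull-back of functions -/
  τ : K ≃ₐ[k] K
  loc : ∀ x a, τ a ∈ X.O x ↔ a ∈ X.O (σ x)
  aff : ∀ U : Set X.P, X.aff (σ ⁻¹' U) ↔ X.aff U

/-- the pull-back of a Cartier divisor -/
noncomputable def MAut.pull (g : MAut X) (D : Cart X) : Cart X where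
  eq x := g.τ (D.eq (g.σ x))
  ne x := by
    rw [map_ne_zero]
    exact D.ne _
  loc x := by
    obtain ⟨U, hU, hx, h⟩ := D.loc (g.σ x)
    refine ⟨g.σ ⁻¹' U, hU.preimage g.σ.continuous, hx, fun y hy => ?_⟩
    have h1 := h _ hy
    rw [← map_div₀]
    refine ⟨(map_ne_zero _).2 h1.1, (g.loc _ _).2 h1.2.1, ?_⟩
    rw [← map_inv₀]
    exact (g.loc _ _).2 h1.2.2

end geo

/-! ### The lattice -/

/-- the lattice `U ⊕ E₈(-1)` -/
def E10 : Type := Fin 2 ⊕ Fin 8 → ℤ

instance : AddCommGroup E10 := (inferInstance : AddCommGroup (Fin 2 ⊕ Fin 8 → ℤ))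

/-- the Gram matrix of `U ⊕ E₈(-1)` -/
def gram : Matrix (Fin 2 ⊕ Fin 8) (Fin 2 ⊕ Fin 8) ℤ :=
  Matrix.fromBlocks !![0, 1; 1, 0] 0 0 (-CartanMatrix.E₈)

/-- the intersection form of `E10` -/
def form (x y : E10) : ℤ := ∑ i, ∑ j, x i * gram i j * y j

/-- the Weyl group of `E10`: the group generated by the reflections in the vectors of square `-2` -/
def WE10 : Subgroup (E10 ≃ₗ[ℤ] E10) :=
  Subgroup.closure {g | ∃ r : E10, form r r = -2 ∧ ∀ x, g x = x + form x r • r}

end Pool.Agent.H54.EN
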