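import Pool.Agent.H54.EN.CDefs
import Pool.Agent.H54.EN.B1

/-!
# [H54 EN E1] approximation on an affine curve

`S` a curve with `IsCS S`.  Units: `Un A a` means `a ≠ 0`, `a ∈ A`, `a⁻¹ ∈ A`; lemmas on `Un` are in `Defs` and `B1` (import `B1` if useful; `B1` is about subalgebras of any field).
* `sa_one`: let `x ∈ V I`, `n : κ`.  If `n = 0` take `f = 0`.  The set `F` of the `y ≠ x` with `n / L y ∉ R y` is finite (`h.fin n`, `L.fin`: if `n` and `L y` are units of `R y` then so is `n / L y`).  For `y` in `F` (or `y = x`) there is `q ∈ R y`, `q ≠ 0`, with `q * (n / L y) ∈ R y` (`h.frac`).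
  `h.sep` for `I`, `x`, `F`: `a ∈ R y` for all `y ∈ V I`, a unit at `x`, a nonunit at all `y ∈ F ∩ V I`.  For `y ∈ F ∩ V I` some power `a ^ N / q ∈ R y` (`h.pow`), so `a ^ N * n / L y ∈ R y`; take `N` large for all `y ∈ F ∩ V I` (finite).
  `a ^ N` is a unit at `x`; by `h.res` there is `c : k` with `a ^ N - c` a nonunit at `x`, so `c ≠ 0`; `t = a ^ N / c`: `1 - t` is a nonunit at `x` (and in `R x`), so `(1 - t) ^ m * n / L x ∈ R x` for some `m ≥ 1` (`h.pow`, `h.frac` at `x`).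
  `f = (1 - (1 - t) ^ m) * n`: at `x`: `(f - n) / L x = - (1 - t) ^ m * n / L x`.  At `y ∈ V I`, `y ≠ x`: `1 - (1 - t) ^ m = t * r` with `r ∈ R y` (`r` a polynomial in `t`; e.g. by induction on `m`, or `sub_dvd_pow_sub_pow`-type lemma in the subalgebra `R y`), so `f / L y = (r / c) * (a ^ N * n / L y)`,
  which is in `R y` if `y ∈ F`, and also if `y ∉ F` (then `n / L y ∈ R y`, `a ∈ R y`).
* `sa_fin`: sum of the functions of `sa_one` for `x ∈ F` and `n = t x`.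
-/

set_option autoImplicit false

universe u

namespace Pool.Agent.H54.EN

variable {k κ : Type u} [Field k] [Field κ] [Algebra k κ] {S : CSys k κ}

private theorem one_sub_pow (A : Subalgebra k κ) {t : κ} (ht : t ∈ A) (m : ℕ) :
    ∃ r ∈ A, 1 - (1 - t) ^ m = t * r := by
  induction m with
  | zero => exact ⟨0, A.zero_mem, by simp⟩
  | succ m ih =>
    obtain ⟨r, hr, e⟩ := ih
    refine ⟨r + (1 - t) ^ m, A.add_mem hr (A.pow_mem (A.sub_mem A.one_mem ht) m), ?_⟩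
    rw [mul_add, ← e, pow_succ]
    ring

theorem sa_one (h : IsCS S) (L : Line S) (I : Set (Fin 3)) (hI : I.Nonempty) (x : S.P)
    (hx : x ∈ S.V I) (n : κ) :
    ∃ f : κ, (f - n) / L.L x ∈ S.R x ∧ ∀ y ∈ S.V I, y ≠ x → f / L.L y ∈ S.R y := by
  classical
  by_cases hn : n = 0
  · refine ⟨0, ?_, fun y _ _ => ?_⟩
    · rw [hn, sub_zero, zero_div]
      exact (S.R x).zero_mem
    · rw [zero_div]
      exact (S.R y).zero_mem
  have hfin : ({y | ¬ Un (S.R y) n} ∪ {y | ¬ Un (S.R y) (L.L y)}).Finite := (h.fin n hn).union L.fin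
  obtain ⟨F, hF⟩ : ∃ F : Finset S.P, ∀ y, y ∈ F ↔ y ≠ x ∧ (¬ Un (S.R y) n ∨ ¬ Un (S.R y) (L.L y)) := by
    refine ⟨hfin.toFinset.erase x, fun y => ?_⟩
    rw [Finset.mem_erase, Set.Finite.mem_toFinset]
    rfl
  have hout : ∀ y, y ∉ F → y ≠ x → n / L.L y ∈ S.R y := by
    intro y hy hyx
    have h1 : Un (S.R y) n ∧ Un (S.R y) (L.L y) := by
      by_contra hc
      exact hy ((hF y).2 ⟨hyx, by tauto⟩)
    exact (un_div h1.1 h1.2).2.1
  obtain ⟨a, ha1, ha2, ha3⟩ := h.sep I hI x hx (F : Set S.P) F.finite_toSet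
    (fun hc => ((hF x).1 (Finset.mem_coe.1 hc)).1 rfl)
  have hN : ∀ y, ∃ N : ℕ, y ∈ F → y ∈ S.V I → a ^ N * (n / L.L y) ∈ S.R y := by
    intro y
    by_cases hy : y ∈ F ∧ y ∈ S.V I
    · obtain ⟨q, hq1, hq2, hq3⟩ := h.frac y (n / L.L y)
      obtain ⟨N, hN⟩ := h.pow y q hq1 hq2 a (ha1 y hy.2) (ha3 y hy.1 hy.2)
      refine ⟨N, fun _ _ => ?_⟩
      have e : a ^ N * (n / L.L y) = a ^ N / q * (q * (n / L.L y)) := by
        rw [div_mul_eq_mul_div, mul_comm q, ← mul_assoc, mul_div_assoc, div_self hq2, mul_one]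
      rw [e]
      exact (S.R y).mul_mem hN hq3
    · exact ⟨0, fun h1 h2 => absurd ⟨h1, h2⟩ hy⟩
  choose Nf hNf using hN
  obtain ⟨N, hNdef⟩ : ∃ N, N = F.sup Nf := ⟨_, rfl⟩
  have hNF : ∀ y ∈ S.V I, y ≠ x → a ^ N * (n / L.L y) ∈ S.R y := by
    intro y hy hyx
    by_cases hyF : y ∈ F
    · have hle : Nf y ≤ N := by
        rw [hNdef]
        exact Finset.le_sup hyF
      obtain ⟨j, rfl⟩ := Nat.exists_eq_add_of_le hle
      have e : a ^ (Nf y + j) * (n / L.L y) = a ^ j * (a ^ Nf y * (n / L.L y)) := by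
        rw [pow_add]
        ring
      rw [e]
      exact (S.R y).mul_mem ((S.R y).pow_mem (ha1 y hy) j) (hNf y hyF hy)
    · exact (S.R y).mul_mem ((S.R y).pow_mem (ha1 y hy) N) (hout y hyF hyx)
  obtain ⟨c, hc⟩ := h.res x (a ^ N) ((S.R x).pow_mem (ha1 x hx) N)
  have hc0 : c ≠ 0 := by
    rintro rfl
    rw [map_zero, sub_zero] at hc
    exact hc (un_pow ha2 N)
  obtain ⟨t, ht⟩ : ∃ t, t = a ^ N * algebraMap k κ c⁻¹ := ⟨_, rfl⟩
  have htR : ∀ y ∈ S.V I, t ∈ S.R y := by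
    intro y hy
    rw [ht]
    exact (S.R y).mul_mem ((S.R y).pow_mem (ha1 y hy) N) ((S.R y).algebraMap_mem _)
  have hcc : algebraMap k κ c⁻¹ * algebraMap k κ c = 1 := by
    rw [← map_mul, inv_mul_cancel₀ hc0, map_one]
  have hnu : ¬ Un (S.R x) (1 - t) := by
    intro hu
    apply hc
    have e : a ^ N - algebraMap k κ c = (1 - t) * (-algebraMap k κ c) := by
      rw [ht]
      linear_combination (-(a ^ N)) * hcc
    have hcu : Un (S.R x) (-algebraMap k κ c) := by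
      refine ⟨?_, (S.R x).neg_mem ((S.R x).algebraMap_mem _), ?_⟩
      · intro h0
        rw [neg_eq_zero] at h0
        rw [h0, mul_zero] at hcc
        exact zero_ne_one hcc
      · rw [inv_neg, ← map_inv₀]
        exact (S.R x).neg_mem ((S.R x).algebraMap_mem _)
    rw [e]
    exact un_mul hu hcu
  obtain ⟨q, hq1, hq2, hq3⟩ := h.frac x (n / L.L x)
  obtain ⟨m, hm⟩ := h.pow x q hq1 hq2 (1 - t) ((S.R x).sub_mem (S.R x).one_mem (htR x hx)) hnu
  refine ⟨(1 - (1 - t) ^ m) * n, ?_, ?_⟩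
  · have e : ((1 - (1 - t) ^ m) * n - n) / L.L x = -((1 - t) ^ m / q * (q * (n / L.L x))) := by
      have h1 : (1 - t) ^ m / q * (q * (n / L.L x)) = (1 - t) ^ m * (n / L.L x) := by
        rw [div_mul_eq_mul_div, mul_comm q, ← mul_assoc, mul_div_assoc, div_self hq2, mul_one]
      rw [h1]
      ring
    rw [e]
    exact (S.R x).neg_mem ((S.R x).mul_mem hm hq3)
  · intro y hy hyx
    obtain ⟨r, hr, e1⟩ := one_sub_pow (S.R y) (htR y hy) m
    have e : (1 - (1 - t) ^ m) * n / L.L y = algebraMap k κ c⁻¹ * r * (a ^ N * (n / L.L y)) := by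
      rw [e1, ht]
      ring
    rw [e]
    exact (S.R y).mul_mem ((S.R y).mul_mem ((S.R y).algebraMap_mem _) hr) (hNF y hy hyx)

theorem sa_fin (h : IsCS S) (L : Line S) (I : Set (Fin 3)) (hI : I.Nonempty) (F : Finset S.P)
    (hF : ∀ x ∈ F, x ∈ S.V I) (t : S.P → κ) :
    ∃ f : κ, (∀ x ∈ F, (f - t x) / L.L x ∈ S.R x) ∧ ∀ y ∈ S.V I, y ∉ F → f / L.L y ∈ S.R y := by
  classical
  have h1 : ∀ x, ∃ f : κ, x ∈ F → (f - t x) / L.L x ∈ S.R x ∧ ∀ y ∈ S.V I, y ≠ x → f / L.L y ∈ S.R y := by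
    intro x
    by_cases hx : x ∈ F
    · obtain ⟨f, hf⟩ := sa_one h L I hI x (hF x hx) (t x)
      exact ⟨f, fun _ => hf⟩
    · exact ⟨0, fun hc => absurd hc hx⟩
  choose g hg using h1
  refine ⟨∑ x ∈ F, g x, fun x hx => ?_, fun y hy hyF => ?_⟩
  · have e : (∑ x ∈ F, g x - t x) / L.L x = (g x - t x) / L.L x + ∑ y ∈ F.erase x, g y / L.L x := by
      rw [← Finset.add_sum_erase F g hx, ← Finset.sum_div]
      ring
    rw [e]
    refine (S.R x).add_mem (hg x hx).1 (Subalgebra.sum_mem _ fun y hy => ?_)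
    rw [Finset.mem_erase] at hy
    exact (hg y hy.2).2 x (hF x hx) hy.1.symm
  · rw [Finset.sum_div]
    refine Subalgebra.sum_mem _ fun x hx => ?_
    exact (hg x hx).2 y hy (fun e => hyF (e ▸ hx))

end Pool.Agent.H54.EN
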