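import Pool.Agent.H54.EN.E1

/-!
# [H54 EN E3] the quotient of two line bundles on a curve has no `H2`

`L ⊆ L'` (`hL`).  The set `B` of the points `x ∈ V univ` with `L' x / L x ∉ R x` is finite (`L.fin`, `L'.fin`).  If `¬ JI univ` then `n = 0` (`a = 0`).  Otherwise `e = 1`; `sa_fin` for `L`, `I = {0, 1}` (`B ⊆ V {0, 1}`), `F = B`, `t = fun _ => n`: `f`.
* `f ∈ NS L' {0, 1}`: at `x ∈ B`: `f / L' x = ((f - n) / L x) * (L x / L' x) + n / L' x`; at the other points `f / L x ∈ R x` and `hL`.  `JI {0, 1}` holds.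
* `n - f ∈ NS L univ`: at `x ∈ B` clear; at `x ∈ V univ`, `x ∉ B`: `n / L x = (n / L' x) * (L' x / L x)` and `f / L x ∈ R x`.
* `nc_h2`: `a = (f, 0, 0)`: `d1 a = e • (0 - 0 + f)`.
-/

set_option autoImplicit false

universe u

namespace Pool.Agent.H54.EN

variable {k κ : Type u} [Field k] [Field κ] [Algebra k κ] {S : CSys k κ}

theorem nc_h2 (h : IsCS S) (L L' : Line S) (hL : ∀ x, L.L x / L'.L x ∈ S.R x) (n : (NC L').C2) :
    ∃ (a : (NC L').C1) (n' : (NC L).C2), n = (NC L').d1 a + (inc hL).f2 n' := by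
  classical
  obtain ⟨n, hn⟩ : ↥(NS L' Set.univ) := n
  by_cases hJ : S.JI Set.univ
  swap
  · have hn0 : n = 0 := hn.1.resolve_right hJ
    refine ⟨0, 0, ?_⟩
    rw [map_zero, map_zero, add_zero]
    exact Subtype.ext hn0
  have hJ' : S.JI {0, 1} := hJ.mono (Set.subset_univ _)
  have hfin : {x | x ∈ S.V Set.univ ∧ L'.L x / L.L x ∉ S.R x}.Finite := by
    refine (L.fin.union L'.fin).subset ?_
    rintro x ⟨_, hx⟩
    by_contra hc
    have h1 : Un (S.R x) (L.L x) ∧ Un (S.R x) (L'.L x) := by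
      constructor
      · by_contra h2
        exact hc (Or.inl h2)
      · by_contra h2
        exact hc (Or.inr h2)
    exact hx (un_div h1.2 h1.1).2.1
  have hV : ∀ x, x ∈ S.V Set.univ → x ∈ S.V {0, 1} := fun x hx => CSys.V.mono (Set.subset_univ _) hx
  obtain ⟨f, hf1, hf2⟩ := sa_fin h L {0, 1} ⟨0, by simp⟩ hfin.toFinset (by
    intro x hx
    rw [Set.Finite.mem_toFinset] at hx
    exact hV x hx.1) (fun _ => n)
  have hf1' : ∀ x, x ∈ S.V Set.univ → L'.L x / L.L x ∉ S.R x → (f - n) / L.L x ∈ S.R x := by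
    intro x hx hx'
    exact hf1 x ((Set.Finite.mem_toFinset _).2 ⟨hx, hx'⟩)
  have hf2' : ∀ x ∈ S.V {0, 1}, ¬ (x ∈ S.V Set.univ ∧ L'.L x / L.L x ∉ S.R x) →
      f / L.L x ∈ S.R x := by
    intro x hx hx'
    exact hf2 x hx (fun hc => hx' (hfin.mem_toFinset.1 hc))
  have hfL : f ∈ NS L' {0, 1} := by
    refine ⟨Or.inr hJ', fun x hx => ?_⟩
    have h0 := L.ne x
    by_cases hB : x ∈ S.V Set.univ ∧ L'.L x / L.L x ∉ S.R x
    · have e : f / L'.L x = (f - n) / L.L x * (L.L x / L'.L x) + n / L'.L x := by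
        rw [div_mul_div_cancel₀ h0, ← add_div, sub_add_cancel]
      rw [e]
      exact (S.R x).add_mem ((S.R x).mul_mem (hf1' x hB.1 hB.2) (hL x)) (hn.2 x hB.1)
    · have e : f / L'.L x = f / L.L x * (L.L x / L'.L x) := (div_mul_div_cancel₀ h0).symm
      rw [e]
      exact (S.R x).mul_mem (hf2' x hx hB) (hL x)
  have hnf : n - f ∈ NS L Set.univ := by
    refine ⟨Or.inr hJ, fun x hx => ?_⟩
    have h0 := L'.ne x
    by_cases hB : L'.L x / L.L x ∈ S.R x
    · have e : (n - f) / L.L x = n / L'.L x * (L'.L x / L.L x) - f / L.L x := by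
        rw [div_mul_div_cancel₀ h0, ← sub_div]
      rw [e]
      exact (S.R x).sub_mem ((S.R x).mul_mem (hn.2 x hx) hB)
        (hf2' x (hV x hx) (fun hc => hc.2 hB))
    · have e : (n - f) / L.L x = -((f - n) / L.L x) := by
        rw [← neg_div, neg_sub]
      rw [e]
      exact (S.R x).neg_mem (hf1' x hx hB)
  refine ⟨⟨(f, 0, 0), ⟨hfL, (NS L' _).zero_mem, (NS L' _).zero_mem⟩⟩, ⟨n - f, hnf⟩, ?_⟩
  apply Subtype.ext
  change n = S.e Set.univ • (0 - 0 + f) + (n - f)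
  rw [CSys.e_pos hJ, one_smul]
  ring

end Pool.Agent.H54.EN
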