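import Pool.Agent.H54.EN.E1

/-!
# [H54 EN E4] the quotient of two line bundles on a curve has no `H1`

`L ⊆ L'` (`hL`), `a = (a01, a02, a12)` with `e univ • (a12 - a02 + a01) ∈ NS L univ`.  The set `B` of all points `x` with `L' x / L x ∉ R x` is finite (`L.fin`, `L'.fin`; a Finset by `Set.Finite.toFinset`).  For every point `x` choose `i x : Fin 3` with `x ∈ U (i x)` (`h.cov`).
Put `b i j = a_ij` for `i < j`, `b j i = - a_ij`, `b i i = 0`.  For `x ∈ U i ∩ U j ∩ U l`: `b i j + b j l - b i l ∈ L x * R x` (`(b i j + b j l - b i l) / L x ∈ R x`), because it is `0` or `±` the element of the hypothesis (then `{i, j, l} = univ`, `JI univ` by `h.sub`, `e = 1`).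
* For each `j` with `J j` let `f j` be given by `sa_fin` for `L`, `I = {j}`, `F = B ∩ U j`, `t x = b (i x) j`; `f j = 0` if `¬ J j`.  So `f j ∈ NS L' {j}` (at `x ∈ B ∩ U j`: `b (i x) j / L' x ∈ R x` because `a ∈ NS1 L'`, `x ∈ U (i x) ∩ U j`).
* `a_ij - e {i, j} • (f j - f i) ∈ NS L {i, j}`: if `¬ JI {i, j}` both `a_ij` and `e` are `0`.  Otherwise at `x ∈ B ∩ V {i, j}`: `f j - f i ≡ b (i x) j - b (i x) i ≡ b i j` modulo `L x * R x`.  At `x ∉ B`: all terms are in `L' x * R x = L x * R x`.
* The statement: `f = (f 0, f 1, f 2)`, `a'` = the differences.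
-/

set_option autoImplicit false

universe u

namespace Pool.Agent.H54.EN

variable {k κ : Type u} [Field k] [Field κ] [Algebra k κ] {S : CSys k κ}

/-- the antisymmetric matrix of a cochain of degree `1` -/
private def bmat (p q r : κ) (i j : Fin 3) : κ :=
  (![![0, p, q], ![-p, 0, r], ![-q, -r, 0]] : Fin 3 → Fin 3 → κ) i j

private theorem bmat_coc (A : Subalgebra k κ) (p q r l : κ) (i j m : Fin 3)
    (hA : (∀ a : Fin 3, a = i ∨ a = j ∨ a = m) → (r - q + p) / l ∈ A) :
    (bmat p q r i j + bmat p q r j m - bmat p q r i m) / l ∈ A := by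
  have hz : (0 : κ) / l ∈ A := by rw [zero_div]; exact A.zero_mem
  fin_cases i <;> fin_cases j <;> fin_cases m <;> simp [bmat] <;>
    first
    | exact A.zero_mem
    | (have h1 := hA (by decide)
       have e : (p + r - q) / l = (r - q + p) / l := by ring
       rw [e]; exact h1)
    | (have h1 := hA (by decide)
       have e : (q + -r - p) / l = -((r - q + p) / l) := by ring
       rw [e]; exact A.neg_mem h1)
    | (have h1 := hA (by decide)
       have e : (-p + q - r) / l = -((r - q + p) / l) := by ring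
       rw [e]; exact A.neg_mem h1)
    | (have h1 := hA (by decide)
       have e : (r + -q + p) / l = (r - q + p) / l := by ring
       rw [e]; exact h1)
    | (have h1 := hA (by decide)
       have e : (-q + p + r) / l = (r - q + p) / l := by ring
       rw [e]; exact h1)
    | (have h1 := hA (by decide)
       have e : (-r + -p + q) / l = -((r - q + p) / l) := by ring
       rw [e]; exact A.neg_mem h1)

theorem nc_h1 (h : IsCS S) (L L' : Line S) (hL : ∀ x, L.L x / L'.L x ∈ S.R x) (a : (NC L').C1)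
    (ha : ∃ n, (NC L').d1 a = (inc hL).f2 n) :
    ∃ (f : (NC L').C0) (a' : (NC L).C1), a = (NC L').d0 f + (inc hL).f1 a' := by
  classical
  obtain ⟨⟨p, q, r⟩, hp, hq, hr⟩ : ↥(NS1 L') := a
  obtain ⟨n, hn⟩ := ha
  have hn' : S.e Set.univ • (r - q + p) = (Subtype.val n : κ) := congrArg Subtype.val hn
  have hnm : S.e Set.univ • (r - q + p) ∈ NS L Set.univ := by
    rw [hn']
    exact Subtype.property n
  have hV : ∀ i : Fin 3, ∀ y, y ∈ S.V {i} ↔ y ∈ S.U i := by
    intro i y
    constructor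
    · intro hy
      exact hy i rfl
    · intro hy j hj
      rw [Set.mem_singleton_iff] at hj
      rw [hj]
      exact hy
  have hfin : {x | L'.L x / L.L x ∉ S.R x}.Finite := by
    refine (L.fin.union L'.fin).subset ?_
    intro x hx
    by_contra hc
    have h1 : Un (S.R x) (L.L x) ∧ Un (S.R x) (L'.L x) := by
      constructor
      · by_contra h2
        exact hc (Or.inl h2)
      · by_contra h2
        exact hc (Or.inr h2)
    exact hx (un_div h1.2 h1.1).2.1
  -- the entries of the matrix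
  have hb : ∀ i j : Fin 3, ∀ x, x ∈ S.U i → x ∈ S.U j → bmat p q r i j / L'.L x ∈ S.R x := by
    intro i j x hi hj
    have e01 : x ∈ S.U 0 → x ∈ S.U 1 → p / L'.L x ∈ S.R x := fun h0 h1 =>
      hp.2 x (by rintro m (rfl | rfl); exacts [h0, h1])
    have e02 : x ∈ S.U 0 → x ∈ S.U 2 → q / L'.L x ∈ S.R x := fun h0 h1 =>
      hq.2 x (by rintro m (rfl | rfl); exacts [h0, h1])
    have e12 : x ∈ S.U 1 → x ∈ S.U 2 → r / L'.L x ∈ S.R x := fun h0 h1 =>
      hr.2 x (by rintro m (rfl | rfl); exacts [h0, h1])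
    have hz : (0 : κ) / L'.L x ∈ S.R x := by rw [zero_div]; exact (S.R x).zero_mem
    fin_cases i <;> fin_cases j
    · exact hz
    · exact e01 hi hj
    · exact e02 hi hj
    · change -p / L'.L x ∈ S.R x
      rw [neg_div]
      exact (S.R x).neg_mem (e01 hj hi)
    · exact hz
    · exact e12 hi hj
    · change -q / L'.L x ∈ S.R x
      rw [neg_div]
      exact (S.R x).neg_mem (e02 hj hi)
    · change -r / L'.L x ∈ S.R x
      rw [neg_div]
      exact (S.R x).neg_mem (e12 hj hi)
    · exact hz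
  have hcoc : ∀ i j m : Fin 3, ∀ x, x ∈ S.U i → x ∈ S.U j → x ∈ S.U m →
      (bmat p q r i j + bmat p q r j m - bmat p q r i m) / L.L x ∈ S.R x := by
    intro i j m x hi hj hm
    refine bmat_coc (S.R x) p q r (L.L x) i j m (fun hall => ?_)
    have hxU : ∀ a : Fin 3, x ∈ S.U a := by
      intro a
      rcases hall a with rfl | rfl | rfl
      exacts [hi, hj, hm]
    have hJ : S.JI Set.univ := fun a _ => h.sub a x (hxU a)
    rw [CSys.e_pos hJ, one_smul] at hnm
    exact hnm.2 x (fun a _ => hxU a)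
  choose ix hix using h.cov
  have h1 : ∀ j : Fin 3, ∃ f : κ, (f = 0 ∨ S.J j) ∧
      (∀ x, x ∈ S.U j → L'.L x / L.L x ∉ S.R x → (f - bmat p q r (ix x) j) / L.L x ∈ S.R x) ∧
      ∀ x, x ∈ S.U j → L'.L x / L.L x ∈ S.R x → f / L.L x ∈ S.R x := by
    intro j
    by_cases hJ : S.J j
    · obtain ⟨f, hf1, hf2⟩ := sa_fin h L {j} ⟨j, rfl⟩ (hfin.toFinset.filter (fun x => x ∈ S.U j))
        (fun x hx => (hV j x).2 (Finset.mem_filter.1 hx).2) (fun x => bmat p q r (ix x) j)
      refine ⟨f, Or.inr hJ, fun x hx hx' => ?_, fun x hx hx' => ?_⟩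
      · exact hf1 x (Finset.mem_filter.2 ⟨hfin.mem_toFinset.2 hx', hx⟩)
      · exact hf2 x ((hV j x).2 hx)
          (fun hc => (hfin.mem_toFinset.1 (Finset.mem_filter.1 hc).1) hx')
    · refine ⟨0, Or.inl rfl, fun x hx => absurd (h.sub j x hx) hJ,
        fun x hx => absurd (h.sub j x hx) hJ⟩
  choose f hf0 hf1 hf2 using h1
  have hm : ∀ i : Fin 3, f i ∈ NS L' {i} := by
    intro i
    refine ⟨?_, fun y hy => ?_⟩
    · rcases hf0 i with h2 | h2
      · exact Or.inl h2
      · right
        intro j hj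
        rw [Set.mem_singleton_iff] at hj
        rw [hj]
        exact h2
    · have h0 := L.ne y
      have hy' := (hV i y).1 hy
      by_cases hyB : L'.L y / L.L y ∈ S.R y
      · have e : f i / L'.L y = f i / L.L y * (L.L y / L'.L y) := (div_mul_div_cancel₀ h0).symm
        rw [e]
        exact (S.R y).mul_mem (hf2 i y hy' hyB) (hL y)
      · have e : f i / L'.L y = (f i - bmat p q r (ix y) i) / L.L y * (L.L y / L'.L y) +
            bmat p q r (ix y) i / L'.L y := by
          rw [div_mul_div_cancel₀ h0, ← add_div, sub_add_cancel]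
        rw [e]
        exact (S.R y).add_mem ((S.R y).mul_mem (hf1 i y hy' hyB) (hL y))
          (hb (ix y) i y (hix y) hy')
  have hd : ∀ i j : Fin 3, bmat p q r i j ∈ NS L' {i, j} →
      bmat p q r i j - S.e {i, j} • (f j - f i) ∈ NS L {i, j} := by
    intro i j hbij
    by_cases hJ : S.JI {i, j}
    · rw [CSys.e_pos hJ, one_smul]
      refine ⟨Or.inr hJ, fun y hy => ?_⟩
      have hyi : y ∈ S.U i := hy i (by simp)
      have hyj : y ∈ S.U j := hy j (by simp)
      have h0 := L'.ne y
      by_cases hyB : L'.L y / L.L y ∈ S.R y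
      · have e : (bmat p q r i j - (f j - f i)) / L.L y =
            bmat p q r i j / L'.L y * (L'.L y / L.L y) - (f j / L.L y - f i / L.L y) := by
          rw [div_mul_div_cancel₀ h0, ← sub_div, ← sub_div]
        rw [e]
        exact (S.R y).sub_mem ((S.R y).mul_mem (hb i j y hyi hyj) hyB)
          ((S.R y).sub_mem (hf2 j y hyj hyB) (hf2 i y hyi hyB))
      · have e : (bmat p q r i j - (f j - f i)) / L.L y =
            (bmat p q r (ix y) i + bmat p q r i j - bmat p q r (ix y) j) / L.L y -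
              (f j - bmat p q r (ix y) j) / L.L y + (f i - bmat p q r (ix y) i) / L.L y := by
          ring
        rw [e]
        exact (S.R y).add_mem ((S.R y).sub_mem (hcoc (ix y) i j y (hix y) hyi hyj)
          (hf1 j y hyj hyB)) (hf1 i y hyi hyB)
    · have h0 : bmat p q r i j = 0 := hbij.1.resolve_right hJ
      rw [h0, CSys.e_neg hJ, zero_smul, sub_zero]
      exact (NS L _).zero_mem
  refine ⟨⟨(f 0, f 1, f 2), ⟨hm 0, hm 1, hm 2⟩⟩,
    ⟨(p - S.e {0, 1} • (f 1 - f 0), q - S.e {0, 2} • (f 2 - f 0), r - S.e {1, 2} • (f 2 - f 1)),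
      ⟨hd 0 1 hp, hd 0 2 hq, hd 1 2 hr⟩⟩, ?_⟩
  apply Subtype.ext
  change (p, q, r) = (S.e {0, 1} • (f 1 - f 0) + (p - S.e {0, 1} • (f 1 - f 0)),
    S.e {0, 2} • (f 2 - f 0) + (q - S.e {0, 2} • (f 2 - f 0)),
    S.e {1, 2} • (f 2 - f 1) + (r - S.e {1, 2} • (f 2 - f 1)))
  simp only [add_sub_cancel]

end Pool.Agent.H54.EN
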