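import Pool.Agent.H54.EN.E1

/-!
# [H54 EN E5] local classes in the quotient of two line bundles

`L ⊆ L'` (`hL`), a point `x` and `t ∈ L' x * R x`.  For each `i` with `x ∈ U i` let `f i` be given by `sa_one` for `L`, `I = {i}`, `n = t` (`V {i} = U i`); `f i = 0` for the other `i`.
* `f i ∈ NS L' {i}`: `J i` by `h.sub`; at `x`: `f i / L' x = ((f i - t) / L x) * (L x / L' x) + t / L' x`; at `y ≠ x`: `f i / L y ∈ R y` and `hL`.
* `e {i, j} • (f j - f i) ∈ NS L {i, j}`: at `y ∈ V {i, j}`, `y ≠ x` both are in `L y * R y`; at `x` both are `t` modulo `L x * R x` (`NS.e_mem`).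
* `θ = (f 0, f 1, f 2)`.
-/

set_option autoImplicit false

universe u

namespace Pool.Agent.H54.EN

variable {k κ : Type u} [Field k] [Field κ] [Algebra k κ] {S : CSys k κ}

/-- the components of a cochain of degree `0` -/
def comp0 {L : Line S} (f : (NC L).C0) : Fin 3 → κ := ![(Subtype.val f).1, (Subtype.val f).2.1, (Subtype.val f).2.2]

theorem nc_loc (h : IsCS S) (L L' : Line S) (hL : ∀ x, L.L x / L'.L x ∈ S.R x) (x : S.P) (t : κ)
    (ht : t / L'.L x ∈ S.R x) :
    ∃ θ : (NC L').C0, (∃ a', (NC L').d0 θ = (inc hL).f1 a') ∧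
      (∀ i, x ∈ S.U i → (comp0 θ i - t) / L.L x ∈ S.R x) ∧
      ∀ i y, y ∈ S.U i → y ≠ x → comp0 θ i / L.L y ∈ S.R y := by
  classical
  have hV : ∀ i : Fin 3, ∀ y, y ∈ S.V {i} ↔ y ∈ S.U i := by
    intro i y
    constructor
    · intro hy
      exact hy i rfl
    · intro hy j hj
      rw [Set.mem_singleton_iff] at hj
      rw [hj]
      exact hy
  have h1 : ∀ i : Fin 3, ∃ f : κ, (f = 0 ∨ S.J i) ∧ (x ∈ S.U i → (f - t) / L.L x ∈ S.R x) ∧
      ∀ y, y ∈ S.U i → y ≠ x → f / L.L y ∈ S.R y := by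
    intro i
    by_cases hx : x ∈ S.U i
    · obtain ⟨f, hf1, hf2⟩ := sa_one h L {i} ⟨i, rfl⟩ x ((hV i x).2 hx) t
      exact ⟨f, Or.inr (h.sub i x hx), fun _ => hf1, fun y hy hyx => hf2 y ((hV i y).2 hy) hyx⟩
    · refine ⟨0, Or.inl rfl, fun hc => absurd hc hx, fun y _ _ => ?_⟩
      rw [zero_div]
      exact (S.R y).zero_mem
  choose f hf0 hf1 hf2 using h1
  have hm : ∀ i : Fin 3, f i ∈ NS L' {i} := by
    intro i
    refine ⟨?_, fun y hy => ?_⟩
    · rcases hf0 i with h2 | h2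
      · exact Or.inl h2
      · right
        intro j hj
        rw [Set.mem_singleton_iff] at hj
        rw [hj]
        exact h2
    · have h0 := L.ne y
      have hy' := (hV i y).1 hy
      by_cases hyx : y = x
      · subst hyx
        have e : f i / L'.L y = (f i - t) / L.L y * (L.L y / L'.L y) + t / L'.L y := by
          rw [div_mul_div_cancel₀ h0, ← add_div, sub_add_cancel]
        rw [e]
        exact (S.R y).add_mem ((S.R y).mul_mem (hf1 i hy') (hL y)) ht
      · have e : f i / L'.L y = f i / L.L y * (L.L y / L'.L y) := (div_mul_div_cancel₀ h0).symm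
        rw [e]
        exact (S.R y).mul_mem (hf2 i y hy' hyx) (hL y)
  have hd : ∀ i j : Fin 3, S.e {i, j} • (f j - f i) ∈ NS L {i, j} := by
    intro i j
    refine NS.e_mem L (Set.empty_subset _) fun y hy => ?_
    have hyi : y ∈ S.U i := hy i (by simp)
    have hyj : y ∈ S.U j := hy j (by simp)
    by_cases hyx : y = x
    · subst hyx
      have e : (f j - f i) / L.L y = (f j - t) / L.L y - (f i - t) / L.L y := by ring
      rw [e]
      exact (S.R y).sub_mem (hf1 j hyj) (hf1 i hyi)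
    · rw [sub_div]
      exact (S.R y).sub_mem (hf2 j y hyj hyx) (hf2 i y hyi hyx)
  have hc : ∀ i : Fin 3, (![f 0, f 1, f 2] : Fin 3 → κ) i = f i := by
    intro i
    fin_cases i <;> rfl
  refine ⟨⟨(f 0, f 1, f 2), ⟨hm 0, hm 1, hm 2⟩⟩, ?_, ?_, ?_⟩
  · refine ⟨⟨(S.e {0, 1} • (f 1 - f 0), S.e {0, 2} • (f 2 - f 0), S.e {1, 2} • (f 2 - f 1)),
      ⟨hd 0 1, hd 0 2, hd 1 2⟩⟩, ?_⟩
    exact Subtype.ext rfl
  · intro i hi
    change ((![f 0, f 1, f 2] : Fin 3 → κ) i - t) / L.L x ∈ S.R x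
    rw [hc]
    exact hf1 i hi
  · intro i y hy hyx
    change (![f 0, f 1, f 2] : Fin 3 → κ) i / L.L y ∈ S.R y
    rw [hc]
    exact hf2 i y hy hyx

end Pool.Agent.H54.EN
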