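import Pool.Agent.H54.EN.A6
import Pool.Agent.H54.EN.E3
import Pool.Agent.H54.EN.E4
import Pool.Agent.H54.EN.E5
import Pool.Agent.H54.EN.B1

/-!
# [H54 EN E6] zeros of sections of line bundles on a curve

* `nc_count`: `count` of `A6` for `inc hL`, with `nc_h2`, `nc_h1` and `θ j` from `nc_loc` for `x j`, `t j`.  Independence: if `∑ c j • θ j` is in the image of `NS0 L` then for every `y` and `i` with `y ∈ U i` (`h.cov`) the `i`-th component `∑ c j • comp0 (θ j) i` is in `L y * R y`;
  `comp0 (θ j) i ≡ t j` if `x j = y` and `≡ 0` otherwise (modulo `L y * R y`), so `∑_{x j = y} c j • t j` is in `L y * R y`, for all `y`: `hind`.  (`comp0` is linear: `Subtype.val` of the sum.)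
* `nc_zeros`: `nc_count` with `n = F.card`, `x` an enumeration of `F` (`Finset.equivFin` or `F.equivFin.symm`), `t j = L' (x j)`: if `(∑_{x j = y} c j • L' (x j)) / L y ∈ R y` for all `y`: for `y = x j` the sum is `c j • L' y` (injectivity), and `c j • (L' y / L y) ∈ R y` with `c j ≠ 0` gives `L' y / L y ∈ R y`,
  so `L y / L' y` is a unit, a contradiction.
* `nc_one`: uniqueness of the zero: `nc_zeros` for a set of two points.  Existence: if `L x / L' x` is a unit for all `x` then `NS L I = NS L' I` (`NS.le` both ways), `inc hL` is bijective in all degrees, and `finrank_of_bij` gives `chi` equal, a contradiction.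
  The last statement: let `q = L x / L' x` (a nonunit), `t ∈ R x` a nonunit with `t / q ∉ R x`.  `nc_count` for `n = 2`, both points `x`, `t 0 = L' x`, `t 1 = t * L' x` gives a contradiction if these are independent: `(c 0 + c 1 t) / q ∈ R x`: if `c 0 ≠ 0` then `c 0 + c 1 t` is a unit of `R x`
  (local ring; `t` is a nonunit), so `1 / q ∈ R x` and `q` is a unit; so `c 0 = 0`, and `c 1 ≠ 0` gives `t / q ∈ R x`.
-/

set_option autoImplicit false

universe u

namespace Pool.Agent.H54.EN

variable {k κ : Type u} [Field k] [Field κ] [Algebra k κ] {S : CSys k κ}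

private theorem e6_mem {L : Line S} (f : (NC L).C0) (i : Fin 3) : comp0 f i ∈ NS L {i} := by
  obtain ⟨h0, h1, h2⟩ := (f : NS0 L).2
  fin_cases i
  · exact h0
  · exact h1
  · exact h2

/-- the component, as a linear map -/
private def e6_cl (L : Line S) (i : Fin 3) : (NC L).C0 →ₗ[k] κ where
  toFun f := comp0 f i
  map_add' f g := by fin_cases i <;> rfl
  map_smul' c f := by fin_cases i <;> rfl

private theorem e6_inc {L L' : Line S} (hL : ∀ x, L.L x / L'.L x ∈ S.R x) (f : (NC L).C0)
    (i : Fin 3) : comp0 ((inc hL).f0 f) i = comp0 f i := by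
  fin_cases i <;> rfl

open Classical in
theorem nc_count (h : IsCS S) (L L' : Line S) (hL : ∀ x, L.L x / L'.L x ∈ S.R x) (hA : (NC L).Fin)
    (hB : (NC L').Fin) {n : ℕ} (x : Fin n → S.P) (t : Fin n → κ)
    (ht : ∀ j, t j / L'.L (x j) ∈ S.R (x j))
    (hind : ∀ c : Fin n → k, (∀ y, (∑ j, if x j = y then c j • t j else 0) / L.L y ∈ S.R y) → c = 0) :
    (n : ℤ) ≤ (NC L').chi - (NC L).chi := by
  have h0 : ∀ j, ∃ θ : (NC L').C0, (∃ a', (NC L').d0 θ = (inc hL).f1 a') ∧
      (∀ i, x j ∈ S.U i → (comp0 θ i - t j) / L.L (x j) ∈ S.R (x j)) ∧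
      ∀ i y, y ∈ S.U i → y ≠ x j → comp0 θ i / L.L y ∈ S.R y :=
    fun j => nc_loc h L L' hL (x j) (t j) (ht j)
  choose θ h1 h2 h3 using h0
  refine count (inc hL) (Submodule.inclusion_injective (NS0.le hL))
    (Submodule.inclusion_injective (NS1.le hL))
    (Submodule.inclusion_injective (NS.le hL Set.univ)) hA hB (nc_h2 h L L' hL) (nc_h1 h L L' hL) θ h1 ?_
  rintro c ⟨f, hf⟩
  refine hind c fun y => ?_
  obtain ⟨i, hi⟩ := h.cov y
  have h4 : ∑ j, c j • comp0 (θ j) i = comp0 f i := by
    have h5 := congrArg (e6_cl L' i) hf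
    rw [map_sum] at h5
    have h6 : e6_cl L' i ((inc hL).f0 f) = comp0 f i := e6_inc hL f i
    rw [h6] at h5
    rw [← h5]
    refine Finset.sum_congr rfl fun j _ => ?_
    rw [map_smul]
    rfl
  have h7 : comp0 f i / L.L y ∈ S.R y := (e6_mem f i).2 y (fun i' hi' => by
    rw [Set.mem_singleton_iff.1 hi']
    exact hi)
  have h8 : (∑ j, if x j = y then c j • t j else 0) / L.L y = comp0 f i / L.L y -
      ∑ j, (c j • comp0 (θ j) i - if x j = y then c j • t j else 0) / L.L y := by
    rw [← h4, Finset.sum_div, Finset.sum_div, ← Finset.sum_sub_distrib]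
    refine Finset.sum_congr rfl fun j _ => ?_
    rw [sub_div, sub_sub_cancel]
  rw [h8]
  refine (S.R y).sub_mem h7 ((S.R y).sum_mem fun j _ => ?_)
  by_cases hj : x j = y
  · rw [if_pos hj, ← smul_sub, smul_div_assoc]
    refine (S.R y).smul_mem ?_ _
    have h9 := h2 j i (by rw [hj]; exact hi)
    rw [hj] at h9
    exact h9
  · rw [if_neg hj, sub_zero, smul_div_assoc]
    exact (S.R y).smul_mem (h3 j i y hi (Ne.symm hj)) _

private theorem e6_smul {R : Subalgebra k κ} {c : k} {a : κ} (hc : c ≠ 0) (h : c • a ∈ R) :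
    a ∈ R := by
  have h1 := R.smul_mem h c⁻¹
  rwa [smul_smul, inv_mul_cancel₀ hc, one_smul] at h1

theorem nc_zeros (h : IsCS S) (L L' : Line S) (hL : ∀ x, L.L x / L'.L x ∈ S.R x) (hA : (NC L).Fin)
    (hB : (NC L').Fin) (F : Finset S.P) (hF : ∀ x ∈ F, ¬ Un (S.R x) (L.L x / L'.L x)) :
    (F.card : ℤ) ≤ (NC L').chi - (NC L).chi := by
  classical
  refine nc_count h L L' hL hA hB (fun j => (F.equivFin.symm j : S.P))
    (fun j => L'.L (F.equivFin.symm j : S.P)) (fun j => ?_) ?_
  · rw [div_self (L'.ne _)]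
    exact (S.R _).one_mem
  · intro c hc
    funext j0
    by_contra hne
    have h1 := hc (F.equivFin.symm j0 : S.P)
    rw [Finset.sum_eq_single j0 (fun j _ hj => if_neg (fun h2 => hj
      (F.equivFin.symm.injective (Subtype.ext h2)))) (fun h2 => absurd (Finset.mem_univ _) h2),
      if_pos rfl, smul_div_assoc] at h1
    have h2 := e6_smul hne h1
    refine hF _ (F.equivFin.symm j0).2 ⟨div_ne_zero (L.ne _) (L'.ne _), hL _, ?_⟩
    rw [inv_div]
    exact h2

theorem nc_one (h : IsCS S) (L L' : Line S) (hL : ∀ x, L.L x / L'.L x ∈ S.R x) (hA : (NC L).Fin)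
    (hB : (NC L').Fin) (h1 : (NC L').chi - (NC L).chi = 1) :
    ∃ x, ¬ Un (S.R x) (L.L x / L'.L x) ∧ (∀ y, ¬ Un (S.R y) (L.L y / L'.L y) → y = x) ∧
      ∀ t ∈ S.R x, ¬ Un (S.R x) t → t / (L.L x / L'.L x) ∈ S.R x := by
  classical
  have hex : ∃ x, ¬ Un (S.R x) (L.L x / L'.L x) := by
    by_contra hcon
    have hall : ∀ x, Un (S.R x) (L.L x / L'.L x) := fun x => by
      by_contra h2
      exact hcon ⟨x, h2⟩
    have hL' : ∀ x, L'.L x / L.L x ∈ S.R x := fun x => by
      have h2 := (hall x).2.2
      rwa [inv_div] at h2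
    have h3 := (finrank_of_bij (inc hL)
      ⟨Submodule.inclusion_injective (NS0.le hL), fun y => ⟨⟨(y : NS0 L').1, NS0.le hL' (y : NS0 L').2⟩, rfl⟩⟩
      ⟨Submodule.inclusion_injective (NS1.le hL), fun y => ⟨⟨(y : NS1 L').1, NS1.le hL' (y : NS1 L').2⟩, rfl⟩⟩
      ⟨Submodule.inclusion_injective (NS.le hL Set.univ),
        fun y => ⟨⟨(y : NS L' Set.univ).1, NS.le hL' _ (y : NS L' Set.univ).2⟩, rfl⟩⟩).2.2.2
    rw [h3, sub_self] at h1
    exact zero_ne_one h1
  obtain ⟨x, hx⟩ := hex
  refine ⟨x, hx, ?_, ?_⟩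
  · intro y hy
    by_contra hne
    have h2 := nc_zeros h L L' hL hA hB {y, x} (fun z hz => by
      rw [Finset.mem_insert, Finset.mem_singleton] at hz
      rcases hz with rfl | rfl
      · exact hy
      · exact hx)
    rw [Finset.card_pair hne, h1] at h2
    norm_num at h2
  · intro t ht htu
    by_contra hcon
    have hloc := h.loc x
    have hL0 := L.ne x
    have hL0' := L'.ne x
    have h2 := nc_count h L L' hL hA hB (n := 2) (fun _ => x) ![L'.L x, t * L'.L x] (fun j => by
      fin_cases j
      · change L'.L x / L'.L x ∈ S.R x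
        rw [div_self hL0']
        exact (S.R x).one_mem
      · change t * L'.L x / L'.L x ∈ S.R x
        rw [mul_div_cancel_right₀ _ hL0']
        exact ht) (fun c hc => by
      have h3 := hc x
      rw [Fin.sum_univ_two, if_pos rfl, if_pos rfl] at h3
      change (c 0 • L'.L x + c 1 • (t * L'.L x)) / L.L x ∈ S.R x at h3
      have h4 : (c 0 • L'.L x + c 1 • (t * L'.L x)) / L.L x =
          (algebraMap k κ (c 0) + algebraMap k κ (c 1) * t) * (L'.L x / L.L x) := by
        rw [Algebra.smul_def, Algebra.smul_def]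
        ring
      rw [h4] at h3
      have m1 : algebraMap k κ (c 1) * t ∈ S.R x := (S.R x).mul_mem ((S.R x).algebraMap_mem _) ht
      have m0 : algebraMap k κ (c 0) + algebraMap k κ (c 1) * t ∈ S.R x :=
        (S.R x).add_mem ((S.R x).algebraMap_mem _) m1
      have hc0 : c 0 = 0 := by
        by_contra hne
        have h5 : Un (S.R x) (algebraMap k κ (c 0)) := by
          refine ⟨?_, (S.R x).algebraMap_mem _, ?_⟩
          · rw [Ne, map_eq_zero]
            exact hne
          · rw [← map_inv₀]
            exact (S.R x).algebraMap_mem _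
        have h6 : Un (S.R x) (algebraMap k κ (c 0) + algebraMap k κ (c 1) * t) := by
          by_contra h7
          have h8 : algebraMap k κ (c 0) = (algebraMap k κ (c 0) + algebraMap k κ (c 1) * t) +
              algebraMap k κ (-(c 1)) * t := by
            rw [map_neg]
            ring
          rw [h8] at h5
          rcases un_add m0 ((S.R x).mul_mem ((S.R x).algebraMap_mem _) ht) h5 with h9 | h9
          · exact h7 h9
          · exact htu ((un_mul_iff ((S.R x).algebraMap_mem _) ht).1 h9).2
        apply hx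
        refine ⟨div_ne_zero hL0 hL0', hL x, ?_⟩
        rw [inv_div]
        have h9 := (S.R x).mul_mem h6.2.2 h3
        rw [← mul_assoc, inv_mul_cancel₀ h6.1, one_mul] at h9
        exact h9
      have hc1 : c 1 = 0 := by
        by_contra hne
        rw [hc0, map_zero, zero_add, mul_assoc, ← Algebra.smul_def] at h3
        apply hcon
        have h5 := e6_smul hne h3
        rw [div_div_eq_mul_div]
        rw [← mul_div_assoc] at h5
        exact h5
      funext j
      fin_cases j
      · exact hc0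
      · exact hc1)
    rw [h1] at h2
    norm_num at h2

end Pool.Agent.H54.EN
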