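import Pool.Agent.H54.EN.HDefs
import Pool.Agent.H54.EN.CxM
import Pool.Agent.H54.EN.B1

/-!
# [H54 EN F1] the covering, global sections, constants

* `cov_aff`: `T.pol.aff`.  `cov_aff2`: `U i ∩ U j = {x ∈ U i : s j / s i is a unit of O x}`: at `x ∈ U i` `s i * A.eq x` is a unit and `s j * A.eq x ∈ O x` (`T.pol.sec`), so `s j / s i = (s j * A.eq x) / (s i * A.eq x) ∈ O x`; `IsSch.basic`.  If `U i` is empty then `U i ∩ U j = U i`.  (`s i ≠ 0` if `U i` is not empty.)
  `cov_aff3`: the same for `s 2 / s 0` on `U 0 ∩ U 1`.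
* `h0_equiv`: `H0` is the kernel of `d0` (by definition, `mk0`): `(f, g, h)` with `f = g = h` (`del0`; the sets `U 0 ∩ U 1` etc. are irrelevant: `g - f = 0` in `K`), and `f ∈ GS D (U i)` for all `i` iff `f ∈ GS D univ` (the `U i` cover).  `h0_eq`: `LinearEquiv.finrank_eq`.  `gs_fin`: `T.can.fin0`.
* `h0_pos`: `Module.finrank_pos_iff`, nonzero element; `h0_zero_iff`.
* `gs_mono`: `E` effective: `GS D univ ≤ GS (D + E) univ` (`f * D.eq x * E.eq x`); `h0_mono`: `Submodule.finrank_mono`.
* `gs_const`: `k` algebraically closed: `GS 0 univ` is a subalgebra of the field `K` (`f * 1 ∈ O x`), finite-dimensional over `k`, so integral: `f` is algebraic over `k`, so in `k` (`IsAlgClosed.algebraMap_bijective_of_isIntegral`-type lemma, or `IsIntegral` of `f` (`IsIntegral.of_finite`) and `IsAlgClosed.splits`: the minimal polynomial has degree one,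
  `minpoly`, `IsAlgClosed.exists_...`).  `h0_one`: `GS 0 univ` is the image of `k`.
* `gs_neg`: `E` effective, not `Triv`, `f ∈ GS (-E) univ`: `f / E.eq x ∈ O x`, so `f ∈ GS 0 univ`, `f = c` is a constant; if `c ≠ 0` then `1 / E.eq x ∈ O x` for all `x`: `E` is `Triv`.
-/

set_option autoImplicit false

universe u

namespace Pool.Agent.H54.EN

variable {k K : Type u} [Field k] [Field K] [Algebra k K] (T : Ctx k K)

theorem cov_aff (i : Fin 3) : T.X.aff (T.U i) := T.pol.aff i

theorem cov_cov (x : T.X.P) : ∃ i, x ∈ T.U i := T.pol.cov x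

private theorem f1_inter (i j : Fin 3) (V : Set T.X.P) (hV : T.X.aff V) (hVi : V ⊆ T.U i) :
    T.X.aff (V ∩ T.U j) := by
  rcases V.eq_empty_or_nonempty with h0 | ⟨y, hy⟩
  · rw [h0, Set.empty_inter, ← h0]
    exact hV
  · have hi0 : T.s i ≠ 0 := by
      have h1 : Un (T.X.O y) (T.s i * T.A.eq y) := hVi hy
      exact left_ne_zero_of_mul h1.1
    have hreg : ∀ x ∈ V, T.s j / T.s i ∈ T.X.O x := by
      intro x hx
      have h1 : Un (T.X.O x) (T.s i * T.A.eq x) := hVi hx
      have h2 : T.s j / T.s i = T.s j * T.A.eq x * (T.s i * T.A.eq x)⁻¹ := by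
        have h3 := T.A.ne x
        field_simp
      rw [h2]
      exact (T.X.O x).mul_mem (T.pol.sec j x) h1.2.2
    have h4 := T.sf.basic V (T.s j / T.s i) hV hreg
    have h5 : V ∩ T.U j = {x | x ∈ V ∧ Un (T.X.O x) (T.s j / T.s i)} := by
      ext x
      constructor
      · rintro ⟨hx, hxj⟩
        refine ⟨hx, ?_⟩
        have h1 : Un (T.X.O x) (T.s i * T.A.eq x) := hVi hx
        have h2 : Un (T.X.O x) (T.s j * T.A.eq x) := hxj
        have h6 : T.s j / T.s i = T.s j * T.A.eq x / (T.s i * T.A.eq x) := by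
          have h3 := T.A.ne x
          field_simp
        rw [h6]
        exact un_div h2 h1
      · rintro ⟨hx, hxj⟩
        refine ⟨hx, ?_⟩
        have h1 : Un (T.X.O x) (T.s i * T.A.eq x) := hVi hx
        change Un (T.X.O x) (T.s j * T.A.eq x)
        have h6 : T.s j * T.A.eq x = T.s j / T.s i * (T.s i * T.A.eq x) := by
          field_simp
        rw [h6]
        exact un_mul hxj h1
    rw [h5]
    exact h4

theorem cov_aff2 (i j : Fin 3) : T.X.aff (T.U i ∩ T.U j) :=
  f1_inter T i j _ (cov_aff T i) subset_rfl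

theorem cov_aff3 : T.X.aff (T.U 0 ∩ T.U 1 ∩ T.U 2) :=
  f1_inter T 0 2 _ (cov_aff2 T 0 1) Set.inter_subset_left

theorem cech_fin (D : Cart T.X) : (cech T.U D).Fin :=
  ⟨T.can.fin0 D, T.can.fin1 D, T.can.fin2 D⟩

/-- the components -/
private def f1v (D : Cart T.X)
    (x : ((GS D (T.U 0)).prod ((GS D (T.U 1)).prod (GS D (T.U 2))) : Submodule k (K × K × K))) :
    K × K × K := x.1

theorem h0_equiv (D : Cart T.X) : Nonempty ((cech T.U D).H0 ≃ₗ[k] GS D (Set.univ : Set T.X.P)) := by
  obtain ⟨L0, hL0⟩ : ∃ L0 : GS D (Set.univ : Set T.X.P) →ₗ[k] (cech T.U D).C0,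
      ∀ f, f1v T D (L0 f) = ((f : K), (f : K), (f : K)) :=
    ⟨{ toFun := fun f => ⟨((f : K), (f : K), (f : K)),
        ⟨GS.mono D (Set.subset_univ _) f.2, GS.mono D (Set.subset_univ _) f.2,
          GS.mono D (Set.subset_univ _) f.2⟩⟩
       map_add' := fun f g => rfl
       map_smul' := fun c f => rfl }, fun f => rfl⟩
  have hker : ∀ f, (cech T.U D).d0 (L0 f) = 0 := by
    intro f
    apply Subtype.ext
    change del0 k K (f1v T D (L0 f)) = 0
    rw [hL0]
    change (((f : K) - f, (f : K) - f, (f : K) - f) : K × K × K) = 0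
    rw [sub_self]
    rfl
  have e : GS D (Set.univ : Set T.X.P) ≃ₗ[k] LinearMap.ker (cech T.U D).d0 := by
    refine LinearEquiv.ofBijective (L0.codRestrict _ hker) ⟨?_, ?_⟩
    · intro f g hfg
      have h1 := congrArg Subtype.val hfg
      have h2 : f1v T D (L0 f) = f1v T D (L0 g) := congrArg Subtype.val h1
      rw [hL0, hL0] at h2
      exact Subtype.ext (congrArg Prod.fst h2)
    · rintro ⟨x, hx⟩
      have h1 : del0 k K (f1v T D x) = 0 := congrArg Subtype.val hx
      have h2 : (f1v T D x).2.1 - (f1v T D x).1 = 0 := congrArg Prod.fst h1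
      have h3 : (f1v T D x).2.2 - (f1v T D x).1 = 0 :=
        congrArg (fun z => z.2.1) h1
      rw [sub_eq_zero] at h2 h3
      obtain ⟨m0, m1, m2⟩ := x.2
      have m1' : (f1v T D x).1 ∈ GS D (T.U 1) := by
        rw [← h2]
        exact m1
      have m2' : (f1v T D x).1 ∈ GS D (T.U 2) := by
        rw [← h3]
        exact m2
      refine ⟨⟨(f1v T D x).1, ?_⟩, ?_⟩
      · intro y _
        obtain ⟨i, hi⟩ := cov_cov T y
        fin_cases i
        · exact m0 y hi
        · exact m1' y hi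
        · exact m2' y hi
      · apply Subtype.ext
        apply Subtype.ext
        change f1v T D (L0 _) = f1v T D x
        rw [hL0]
        refine Prod.ext rfl (Prod.ext h2.symm h3.symm)
  exact ⟨e.symm⟩

theorem gs_fin (D : Cart T.X) : Module.Finite k (GS D (Set.univ : Set T.X.P)) := by
  obtain ⟨e⟩ := h0_equiv T D
  have : Module.Finite k (cech T.U D).H0 := T.can.fin0 D
  exact Module.Finite.equiv e

theorem h0_eq (D : Cart T.X) : T.h0 D = Module.finrank k (GS D (Set.univ : Set T.X.P)) := by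
  obtain ⟨e⟩ := h0_equiv T D
  exact e.finrank_eq

theorem h0_pos (D : Cart T.X) : 0 < T.h0 D ↔ ∃ f : K, f ≠ 0 ∧ ∀ x, f * D.eq x ∈ T.X.O x := by
  have := gs_fin T D
  rw [h0_eq, Module.finrank_pos_iff_exists_ne_zero]
  constructor
  · rintro ⟨f, hf⟩
    exact ⟨f, fun h => hf (Subtype.ext h), fun x => f.2 x (Set.mem_univ x)⟩
  · rintro ⟨f, hf, hx⟩
    exact ⟨⟨f, fun x _ => hx x⟩, fun h => hf (congrArg Subtype.val h)⟩

theorem h0_mono (D E : Cart T.X) (hE : Effective E) : T.h0 D ≤ T.h0 (D + E) := by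
  have := gs_fin T (D + E)
  rw [h0_eq, h0_eq]
  apply Submodule.finrank_mono
  intro f hf x hx
  rw [add_eq, ← mul_assoc]
  exact (T.X.O x).mul_mem (hf x hx) (hE x)

theorem gs_const [IsAlgClosed k] (f : K) (hf : ∀ x, f ∈ T.X.O x) : ∃ c : k, f = algebraMap k K c := by
  have h1 : IsIntegral k f := by
    refine IsIntegral.of_mem_of_fg (⨅ x, T.X.O x) ?_ f ?_
    · have h2 : Subalgebra.toSubmodule (⨅ x, T.X.O x) = GS (0 : Cart T.X) Set.univ := by
        ext a
        rw [Subalgebra.mem_toSubmodule, Algebra.mem_iInf]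
        constructor
        · intro h x _
          rw [zero_eq, mul_one]
          exact h x
        · intro h x
          have h3 := h x (Set.mem_univ x)
          rw [zero_eq, mul_one] at h3
          exact h3
      rw [h2]
      exact Module.Finite.iff_fg.1 (gs_fin T 0)
    · rw [Algebra.mem_iInf]
      exact hf
  obtain ⟨c, hc⟩ := minpoly.mem_range_of_degree_eq_one k f
    (IsAlgClosed.degree_eq_one_of_irreducible k (minpoly.irreducible h1))
  exact ⟨c, hc.symm⟩

theorem h0_one [IsAlgClosed k] : T.h0 0 = 1 := by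
  rw [h0_eq]
  have h1 : (1 : K) ∈ GS (0 : Cart T.X) (Set.univ : Set T.X.P) := by
    intro x _
    rw [zero_eq, mul_one]
    exact (T.X.O x).one_mem
  rw [finrank_eq_one_iff_of_nonzero' (⟨1, h1⟩ : GS (0 : Cart T.X) (Set.univ : Set T.X.P))
    (fun h => one_ne_zero (congrArg Subtype.val h))]
  rintro ⟨f, hf⟩
  obtain ⟨c, hc⟩ := gs_const T f (fun x => by
    have h2 := hf x (Set.mem_univ x)
    rw [zero_eq, mul_one] at h2
    exact h2)
  refine ⟨c, Subtype.ext ?_⟩
  rw [Submodule.coe_smul]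
  change c • (1 : K) = f
  rw [hc]
  exact (Algebra.algebraMap_eq_smul_one c).symm

theorem gs_neg [IsAlgClosed k] (E : Cart T.X) (hE : Effective E) (hE' : ¬ Triv E) (f : K)
    (hf : ∀ x, f / E.eq x ∈ T.X.O x) : f = 0 := by
  obtain ⟨c, hc⟩ := gs_const T f (fun x => by
    have h1 := (T.X.O x).mul_mem (hf x) (hE x)
    rw [div_mul_cancel₀ _ (E.ne x)] at h1
    exact h1)
  by_contra h0
  apply hE'
  intro x
  refine ⟨E.ne x, hE x, ?_⟩
  have h2 : (E.eq x)⁻¹ = algebraMap k K c⁻¹ * (f / E.eq x) := by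
    have h3 := E.ne x
    rw [map_inv₀, ← hc]
    field_simp
  rw [h2]
  exact (T.X.O x).mul_mem ((T.X.O x).algebraMap_mem _) (hf x)

end Pool.Agent.H54.EN
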