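import Pool.Agent.H54.EN.GDefs

/-!
# [H54 EN G1] the form of `E10` in coordinates

`form x y = ∑ i, ∑ j, x i * gram i j * y j`, the sum over `Fin 2 ⊕ Fin 8`; expand with `Fintype.sum_sum_type`, `Fin.sum_univ_succ` / `Fin.sum_univ_eight`, `gram`, `Matrix.fromBlocks`, `CartanMatrix.E₈`.  It is convenient to prove first an explicit formula for `form x y` in the 20 components and for the `co x i` in the 10 components of `x`.
* `form_add`, `form_smul`, `form_comm`, `form_zero`.
* `form_co`: polynomial identity in the components of `x` and `y` (`ring`).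
* `co_sum`: `∑ fv i = 3 v` with an integral vector `v`: the components of `∑ fv i` are `9, 9; 15, 24, 30, 45, 36, 27, 18, 9`.
* `co_inj`: by `form_co`, or solve the linear system: the difference `z = x - y` has all coordinates `0`; the components of `z` are integral combinations of its coordinates and the components (the Gram matrix is unimodular): e.g. `z (inl 1) = co z 0`, `z (inl 0) = co z 1`, the others by `linarith`/`omega`.
* `exists_co`: `x = (s / 3) • v - ∑ j, c j • fv j`, `s = ∑ c j`, `3 v = ∑ fv j`: `co x i = (s / 3) * (co v i) - (s - c i)`, `co v i = 3`: `co x i = s - s + c i`.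
* `form_even`: `form x x = 2 (x0 x1) - (even)`.
* `form_fv`: `form (fv i) (fv j)`: `decide` or `fin_cases`.
-/

set_option autoImplicit false

namespace Pool.Agent.H54.EN

/-- the coordinates of the basis vectors -/
private def cfm (a : Fin 2 ⊕ Fin 8) (i : Fin 10) : ℤ := ∑ b, gram a b * fv i b

private theorem co_eq (x : E10) (i : Fin 10) : co x i = ∑ a, x a * cfm a i := by
  unfold co form cfm
  refine Finset.sum_congr rfl fun a _ => ?_
  rw [Finset.mul_sum]
  refine Finset.sum_congr rfl fun b _ => ?_
  rw [mul_assoc]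

private theorem t_gram : ∀ a b, gram a b = gram b a := by decide +kernel

private theorem t_form : ∀ a b, 9 * gram a b =
    (∑ i, cfm a i) * (∑ i, cfm b i) - 9 * ∑ i, cfm a i * cfm b i := by decide +kernel

private theorem t_inv : ∀ a b, ∑ i, cfm b i * ((∑ j, fv j a) - 9 * fv i a) =
    if a = b then 9 else 0 := by decide +kernel

private theorem t_sum : ∀ a, (3 : ℤ) ∣ ∑ i, cfm a i := by decide +kernel

theorem form_add (x y z : E10) : form (x + y) z = form x z + form y z := by
  unfold form
  rw [← Finset.sum_add_distrib]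
  refine Finset.sum_congr rfl fun i _ => ?_
  rw [← Finset.sum_add_distrib]
  refine Finset.sum_congr rfl fun j _ => ?_
  change (x i + y i) * gram i j * z j = _
  ring

theorem form_comm (x y : E10) : form x y = form y x := by
  unfold form
  rw [Finset.sum_comm]
  refine Finset.sum_congr rfl fun i _ => Finset.sum_congr rfl fun j _ => ?_
  rw [t_gram j i]
  ring

theorem form_smul (n : ℤ) (x y : E10) : form (n • x) y = n * form x y := by
  unfold form
  rw [Finset.mul_sum]
  refine Finset.sum_congr rfl fun i _ => ?_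
  rw [Finset.mul_sum]
  refine Finset.sum_congr rfl fun j _ => ?_
  have h : (n • x) i = n * x i := by
    change n • x i = n * x i
    rw [smul_eq_mul]
  rw [h]
  ring

private theorem sum_co (x : E10) : ∑ i, co x i = ∑ a, x a * ∑ i, cfm a i := by
  simp only [co_eq, Finset.mul_sum]
  exact Finset.sum_comm

theorem form_co (x y : E10) :
    9 * form x y = (∑ i, co x i) * (∑ i, co y i) - 9 * ∑ i, co x i * co y i := by
  have h1 : ∑ i, co x i * co y i = ∑ a, ∑ b, x a * y b * ∑ i, cfm a i * cfm b i := by
    have h2 : ∀ i, co x i * co y i = ∑ a, ∑ b, x a * y b * (cfm a i * cfm b i) := by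
      intro i
      rw [co_eq, co_eq, Finset.sum_mul_sum]
      refine Finset.sum_congr rfl fun a _ => Finset.sum_congr rfl fun b _ => ?_
      ring
    simp only [h2]
    rw [Finset.sum_comm]
    refine Finset.sum_congr rfl fun a _ => ?_
    rw [Finset.sum_comm]
    refine Finset.sum_congr rfl fun b _ => ?_
    rw [Finset.mul_sum]
  rw [h1, sum_co, sum_co, Finset.sum_mul_sum, Finset.mul_sum, ← Finset.sum_sub_distrib]
  unfold form
  rw [Finset.mul_sum]
  refine Finset.sum_congr rfl fun a _ => ?_
  have h4 : 9 * ∑ b, x a * y b * ∑ i, cfm a i * cfm b i =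
      ∑ b, 9 * (x a * y b * ∑ i, cfm a i * cfm b i) := Finset.mul_sum _ _ _
  rw [Finset.mul_sum, h4, ← Finset.sum_sub_distrib]
  refine Finset.sum_congr rfl fun b _ => ?_
  have h3 := t_form a b
  linear_combination (x a * y b) * h3

theorem co_sum (x : E10) : 3 ∣ ∑ i, co x i := by
  rw [sum_co]
  exact Finset.dvd_sum fun a _ => Dvd.dvd.mul_left (t_sum a) _

private theorem inv_co (x : E10) (a : Fin 2 ⊕ Fin 8) :
    ∑ i, co x i * ((∑ j, fv j a) - 9 * fv i a) = 9 * x a := by
  have h1 : ∑ i, co x i * ((∑ j, fv j a) - 9 * fv i a) =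
      ∑ b, x b * ∑ i, cfm b i * ((∑ j, fv j a) - 9 * fv i a) := by
    simp only [co_eq, Finset.sum_mul, Finset.mul_sum]
    rw [Finset.sum_comm]
    refine Finset.sum_congr rfl fun b _ => Finset.sum_congr rfl fun i _ => ?_
    ring
  rw [h1]
  simp only [t_inv, mul_ite, mul_zero]
  rw [Finset.sum_ite_eq, if_pos (Finset.mem_univ a)]
  ring

theorem co_inj {x y : E10} (h : ∀ i, co x i = co y i) : x = y := by
  funext a
  have h1 := inv_co x a
  have h2 := inv_co y a
  simp only [h] at h1
  rw [h1] at h2
  linarith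

theorem form_fv (i j : Fin 10) : form (fv i) (fv j) = if i = j then 0 else 1 := by
  revert i j
  decide +kernel

private theorem t_v : ∀ i, ∑ a, vec 3 3 ![5, 8, 10, 15, 12, 9, 6, 3] a * cfm a i = 3 := by
  decide +kernel

theorem exists_co (c : Fin 10 → ℤ) (h : 3 ∣ ∑ i, c i) : ∃ x : E10, ∀ i, co x i = c i := by
  obtain ⟨t, ht⟩ := h
  refine ⟨fun a => t * vec 3 3 ![5, 8, 10, 15, 12, 9, 6, 3] a - ∑ j, c j * fv j a, fun i => ?_⟩
  rw [co_eq]
  have h1 : ∑ a, (t * vec 3 3 ![5, 8, 10, 15, 12, 9, 6, 3] a - ∑ j, c j * fv j a) * cfm a i =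
      t * ∑ a, vec 3 3 ![5, 8, 10, 15, 12, 9, 6, 3] a * cfm a i -
        ∑ j, c j * ∑ a, fv j a * cfm a i := by
    simp only [sub_mul, Finset.sum_sub_distrib, Finset.mul_sum, Finset.sum_mul]
    congr 1
    · refine Finset.sum_congr rfl fun a _ => ?_
      ring
    · rw [Finset.sum_comm]
      refine Finset.sum_congr rfl fun j _ => Finset.sum_congr rfl fun a _ => ?_
      ring
  have h2 : ∀ j, ∑ a, fv j a * cfm a i = if j = i then 0 else 1 := by
    intro j
    rw [← co_eq]
    exact form_fv j i
  rw [h1, t_v]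
  simp only [h2]
  have h3 : ∑ j, c j * (if j = i then (0 : ℤ) else 1) = (∑ j, c j) - c i := by
    have h4 : ∀ j, c j * (if j = i then (0 : ℤ) else 1) = c j - if j = i then c j else 0 := by
      intro j
      by_cases hj : j = i
      · rw [if_pos hj, if_pos hj, mul_zero, sub_self]
      · rw [if_neg hj, if_neg hj, mul_one, sub_zero]
    simp only [h4, Finset.sum_sub_distrib]
    rw [Finset.sum_ite_eq', if_pos (Finset.mem_univ i)]
  rw [h3, ht]
  ring

theorem form_even (x : E10) : 2 ∣ form x x := by
  obtain ⟨t, ht⟩ := co_sum x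
  have h1 := form_co x x
  rw [ht] at h1
  have h2 : form x x = t * t - ∑ i, co x i * co x i := by linarith
  have h3 : (2 : ℤ) ∣ ∑ i, (co x i * co x i - co x i) :=
    Finset.dvd_sum fun i _ => by
      have := Int.even_mul_pred_self (co x i)
      have h4 : co x i * co x i - co x i = co x i * (co x i - 1) := by ring
      rw [h4]
      exact this.two_dvd
  rw [Finset.sum_sub_distrib, ht] at h3
  obtain ⟨u, hu⟩ := h3
  obtain ⟨v, hv⟩ := (Int.even_mul_pred_self t).two_dvd
  have h5 : t * (t - 1) = t * t - t := by ring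
  rw [h5] at hv
  exact ⟨v - u - t, by linarith⟩

end Pool.Agent.H54.EN
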