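import Pool.Agent.H54.EN.HDefs
import Pool.Agent.H54.EN.A5
import Pool.Agent.H54.EN.G1

/-!
# [H54 EN F2] linear equivalence and numerical classes

* `chi_lin`: `LinEq D E` with `f`: multiplication by `f` maps `GS E V` bijectively onto `GS D V` for all `V`: `(a f) * D.eq x = (a * E.eq x) * (f * D.eq x / E.eq x)`.  It gives a bijective morphism of complexes `cech U E → cech U D` (`CMap`, each component is a restriction of the multiplication by `f`, `del0`, `del1` are linear): `finrank_of_bij`.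
* `LinEq` is an equivalence relation, compatible with the group structure: `lin_refl`, `lin_symm` (`f⁻¹`), `lin_trans` (product), `lin_add`, `lin_sub`, `lin_prin` (`D + prin f ~ D`: with `f⁻¹`), `lin_triv`.
* `phi_lin`: for `D ~ E` and all `D'`: `D + D' ~ E + D'`, so `form (φ D) (φ D') = form (φ E) (φ D')` by `T.isom`, the definition of `inter` and `chi_lin`; `T.surj` and the form is nondegenerate: `co_inj` (take `D'` with `φ D' = fv i`).
* `phi_M`: `form (φ D) (φ M) = 0` for all `D` (`T.num`, `T.isom`): the same argument (`form_comm`).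
-/

set_option autoImplicit false

universe u

namespace Pool.Agent.H54.EN

open Module

variable {k K : Type u} [Field k] [Field K] [Algebra k K] {X : Mod k K}

private theorem f2_restrict {M : Type u} [AddCommGroup M] [Module k M] (m : M ≃ₗ[k] M)
    (p q : Submodule k M) (h : ∀ x ∈ p, m x ∈ q) (h' : ∀ x, m x ∈ q → x ∈ p) :
    Function.Bijective ((m : M →ₗ[k] M).restrict h : p →ₗ[k] q) := by
  constructor
  · intro a b hab
    apply Subtype.ext
    exact m.injective (congrArg Subtype.val hab)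
  · rintro ⟨b, hb⟩
    obtain ⟨a, rfl⟩ := m.surjective b
    exact ⟨⟨a, h' a hb⟩, rfl⟩

theorem chi_lin (U : Fin 3 → Set X.P) {D E : Cart X} (h : LinEq D E) :
    finrank k (cech U D).H0 = finrank k (cech U E).H0 ∧
      finrank k (cech U D).H1 = finrank k (cech U E).H1 ∧
      finrank k (cech U D).H2 = finrank k (cech U E).H2 ∧ chiD U D = chiD U E := by
  obtain ⟨f, hf, hx⟩ := h
  obtain ⟨m, hm⟩ : ∃ m : K ≃ₗ[k] K, ∀ a, m a = a * f := by
    refine ⟨LinearEquiv.ofBijective (LinearMap.mulRight k f) ⟨?_, ?_⟩, fun n => rfl⟩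
    · intro a b hab
      exact mul_right_cancel₀ hf hab
    · intro b
      exact ⟨b / f, div_mul_cancel₀ b hf⟩
  have key : ∀ (V : Set X.P) (a : K), m a ∈ GS D V ↔ a ∈ GS E V := by
    intro V a
    rw [hm]
    have h1 : ∀ x, a * f * D.eq x ∈ X.O x ↔ a * E.eq x ∈ X.O x := by
      intro x
      have h2 : a * f * D.eq x = a * E.eq x * (f * D.eq x / E.eq x) := by
        have h3 := E.ne x
        field_simp
      rw [h2]
      exact mem_mul_un (hx x)
    exact ⟨fun h2 x hxV => (h1 x).1 (h2 x hxV), fun h2 x hxV => (h1 x).2 (h2 x hxV)⟩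
  obtain ⟨m3, hm3⟩ : ∃ m3 : (K × K × K) ≃ₗ[k] (K × K × K), ∀ a, m3 a = (m a.1, m a.2.1, m a.2.2) :=
    ⟨m.prodCongr (m.prodCongr m), fun a => rfl⟩
  have key3 : ∀ (V0 V1 V2 : Set X.P) (a : K × K × K),
      m3 a ∈ (GS D V0).prod ((GS D V1).prod (GS D V2)) ↔
        a ∈ (GS E V0).prod ((GS E V1).prod (GS E V2)) := by
    intro V0 V1 V2 a
    rw [hm3]
    constructor
    · rintro ⟨h0, h1, h2⟩
      exact ⟨(key _ _).1 h0, (key _ _).1 h1, (key _ _).1 h2⟩
    · rintro ⟨h0, h1, h2⟩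
      exact ⟨(key _ _).2 h0, (key _ _).2 h1, (key _ _).2 h2⟩
  have b0 := f2_restrict m3 _ _ (fun a ha => (key3 (U 0) (U 1) (U 2) a).2 ha)
    (fun a ha => (key3 (U 0) (U 1) (U 2) a).1 ha)
  have b1 := f2_restrict m3 _ _
    (fun a ha => (key3 (U 0 ∩ U 1) (U 0 ∩ U 2) (U 1 ∩ U 2) a).2 ha)
    (fun a ha => (key3 (U 0 ∩ U 1) (U 0 ∩ U 2) (U 1 ∩ U 2) a).1 ha)
  have b2 := f2_restrict m _ _ (fun a ha => (key (U 0 ∩ U 1 ∩ U 2) a).2 ha)
    (fun a ha => (key (U 0 ∩ U 1 ∩ U 2) a).1 ha)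
  have i : ∃ i : CMap (cech U E) (cech U D), Function.Bijective i.f0 ∧
      Function.Bijective i.f1 ∧ Function.Bijective i.f2 :=
    ⟨{ f0 := (m3 : (K × K × K) →ₗ[k] (K × K × K)).restrict
          (fun a ha => (key3 (U 0) (U 1) (U 2) a).2 ha)
       f1 := (m3 : (K × K × K) →ₗ[k] (K × K × K)).restrict
          (fun a ha => (key3 (U 0 ∩ U 1) (U 0 ∩ U 2) (U 1 ∩ U 2) a).2 ha)
       f2 := (m : K →ₗ[k] K).restrict (fun a ha => (key (U 0 ∩ U 1 ∩ U 2) a).2 ha)
       c0 := fun x => by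
        apply Subtype.ext
        change m3 (del0 k K x.1) = del0 k K (m3 x.1)
        rw [hm3, hm3]
        change (m (x.1.2.1 - x.1.1), m (x.1.2.2 - x.1.1), m (x.1.2.2 - x.1.2.1)) =
          (m x.1.2.1 - m x.1.1, m x.1.2.2 - m x.1.1, m x.1.2.2 - m x.1.2.1)
        rw [map_sub, map_sub, map_sub]
       c1 := fun x => by
        apply Subtype.ext
        change m (del1 k K x.1) = del1 k K (m3 x.1)
        rw [hm3]
        change m (x.1.2.2 - x.1.2.1 + x.1.1) = m x.1.2.2 - m x.1.2.1 + m x.1.1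
        rw [map_add, map_sub] }, b0, b1, b2⟩
  obtain ⟨i, c0, c1, c2⟩ := i
  obtain ⟨h0, h1, h2, h3⟩ := finrank_of_bij i c0 c1 c2
  exact ⟨h0.symm, h1.symm, h2.symm, h3.symm⟩

theorem lin_refl (D : Cart X) : LinEq D D :=
  ⟨1, one_ne_zero, fun x => by
    rw [one_mul, div_self (D.ne x)]
    exact un_one _⟩

theorem lin_symm {D E : Cart X} (h : LinEq D E) : LinEq E D := by
  obtain ⟨f, hf, hx⟩ := h
  refine ⟨f⁻¹, inv_ne_zero hf, fun x => ?_⟩
  have h1 : f⁻¹ * E.eq x / D.eq x = (f * D.eq x / E.eq x)⁻¹ := by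
    have h2 := D.ne x
    have h3 := E.ne x
    field_simp
  rw [h1]
  exact un_inv (hx x)

theorem lin_trans {D E F : Cart X} (h : LinEq D E) (h' : LinEq E F) : LinEq D F := by
  obtain ⟨f, hf, hx⟩ := h
  obtain ⟨g, hg, hx'⟩ := h'
  refine ⟨f * g, mul_ne_zero hf hg, fun x => ?_⟩
  have h1 : f * g * D.eq x / F.eq x = (f * D.eq x / E.eq x) * (g * E.eq x / F.eq x) := by
    have h2 := D.ne x
    have h3 := E.ne x
    have h4 := F.ne x
    field_simp
  rw [h1]
  exact un_mul (hx x) (hx' x)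

theorem lin_add {D E D' E' : Cart X} (h : LinEq D E) (h' : LinEq D' E') :
    LinEq (D + D') (E + E') := by
  obtain ⟨f, hf, hx⟩ := h
  obtain ⟨g, hg, hx'⟩ := h'
  refine ⟨f * g, mul_ne_zero hf hg, fun x => ?_⟩
  have h1 : f * g * (D + D').eq x / (E + E').eq x =
      (f * D.eq x / E.eq x) * (g * D'.eq x / E'.eq x) := by
    rw [add_eq, add_eq]
    have h3 := E.ne x
    have h4 := E'.ne x
    field_simp
  rw [h1]
  exact un_mul (hx x) (hx' x)

theorem lin_sub {D E D' E' : Cart X} (h : LinEq D E) (h' : LinEq D' E') :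
    LinEq (D - D') (E - E') := by
  obtain ⟨f, hf, hx⟩ := h
  obtain ⟨g, hg, hx'⟩ := h'
  refine ⟨f / g, div_ne_zero hf hg, fun x => ?_⟩
  have h1 : f / g * (D - D').eq x / (E - E').eq x =
      (f * D.eq x / E.eq x) / (g * D'.eq x / E'.eq x) := by
    rw [sub_eq, sub_eq]
    have h3 := E.ne x
    have h4 := E'.ne x
    have h5 := D.ne x
    have h6 := D'.ne x
    field_simp
  rw [h1]
  exact un_div (hx x) (hx' x)

theorem lin_prin (D : Cart X) (f : K) (hf : f ≠ 0) : LinEq (D + prin X f hf) D := by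
  refine ⟨f⁻¹, inv_ne_zero hf, fun x => ?_⟩
  have h1 : f⁻¹ * (D + prin X f hf).eq x / D.eq x = 1 := by
    rw [add_eq, prin_eq]
    have h3 := D.ne x
    field_simp
  rw [h1]
  exact un_one _

theorem lin_triv {D E : Cart X} (h : Triv (D - E)) : LinEq D E := by
  refine ⟨1, one_ne_zero, fun x => ?_⟩
  have h1 := h x
  rw [sub_eq] at h1
  rw [one_mul]
  exact h1

theorem phi_lin (T : Ctx k K) {D E : Cart T.X} (h : LinEq D E) : T.φ D = T.φ E := by
  apply co_inj
  intro i
  obtain ⟨D', hD'⟩ := T.surj (fv i)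
  unfold co
  rw [← hD', T.isom, T.isom]
  unfold inter
  rw [(chi_lin _ h).2.2.2, (chi_lin _ (lin_add h (lin_refl D'))).2.2.2]

theorem phi_M (T : Ctx k K) : T.φ T.M = 0 := by
  apply co_inj
  intro i
  obtain ⟨D', hD'⟩ := T.surj (fv i)
  unfold co
  have h0 : form 0 (fv i) = 0 := by
    have := form_smul 0 (0 : E10) (fv i)
    rw [zero_smul, zero_mul] at this
    exact this
  rw [h0, form_comm, ← hD', T.isom, T.num]

end Pool.Agent.H54.EN
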