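import Pool.Agent.H54.EN.F1
import Pool.Agent.H54.EN.F2

/-!
# [H54 EN F3] Riemann-Roch

`q D = chiD D - chiD 0`.  `T.isom`, `inter`: `q (D + D') = q D + q D' + form (φ D) (φ D')`.
* `h2_eq`: `T.can.h02` for `M - D`: `M - (M - D) = D` (`sub_sub_cancel`).  `h0_h2`, `h1_eq`: `T.can.h02`, `T.can.h11`.
* `chi_dual`: `chiD D = chiD (M - D)`: `chiD = h0 - h1 + h2` (`Cx.chi`).
* `chi_eq`: `D = 0` in `chi_dual`: `q M = 0`.  `q (M - D) = q M + q (-D) + form (φ M) (φ (-D)) = q (-D)` (`phi_M`; `form 0 _ = 0`), so `q D = q (-D)`; `0 = q (D + (-D)) = q D + q (-D) - form (φ D) (φ D)`.  `chiD 0 = 1` (`T.chi1`).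
* `rr`: `chiD D ≤ h0 D + h2 D = h0 D + h0 (M - D)`.
-/

set_option autoImplicit false

universe u

namespace Pool.Agent.H54.EN

variable {k K : Type u} [Field k] [Field K] [Algebra k K] (T : Ctx k K)

theorem h2_eq (D : Cart T.X) : T.h2 D = T.h0 (T.M - D) := by
  have h := T.can.h02 (T.M - D)
  rw [sub_sub_cancel] at h
  exact h.symm

theorem h1_eq (D : Cart T.X) : T.h1 D = T.h1 (T.M - D) := T.can.h11 D

theorem chi_split (D : Cart T.X) : chiD T.U D = (T.h0 D : ℤ) - T.h1 D + T.h2 D := rfl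

theorem chi_eq (D : Cart T.X) : 2 * chiD T.U D = 2 + form (T.φ D) (T.φ D) := by
  have dual : ∀ D : Cart T.X, chiD T.U D = chiD T.U (T.M - D) := by
    intro D
    have h2 : T.h2 (T.M - D) = T.h0 D := by
      rw [h2_eq, sub_sub_cancel]
    rw [chi_split, chi_split, h2, h2_eq, ← h1_eq]
    ring
  have hz : ∀ y : E10, form 0 y = 0 := by
    intro y
    have := form_smul 0 (0 : E10) y
    rw [zero_smul, zero_mul] at this
    exact this
  have hneg : ∀ x y : E10, form x (-y) = -form x y := by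
    intro x y
    have h1 := form_smul (-1) y x
    rw [neg_smul, one_smul] at h1
    rw [form_comm, h1, form_comm y x]
    ring
  have i1 : ∀ D D' : Cart T.X, form (T.φ D) (T.φ D') =
      chiD T.U (D + D') - chiD T.U D - chiD T.U D' + chiD T.U 0 := fun D D' => T.isom D D'
  have h0 : chiD T.U 0 = 1 := T.chi1
  have h1 := dual 0
  rw [sub_zero] at h1
  have h2 := i1 T.M (-D)
  rw [phi_M, hz, ← sub_eq_add_neg, ← dual D, ← h1] at h2
  have h3 := i1 D (-D)
  rw [add_neg_cancel, map_neg, hneg] at h3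
  linarith

theorem rr (D : Cart T.X) :
    2 + form (T.φ D) (T.φ D) ≤ 2 * ((T.h0 D : ℤ) + T.h0 (T.M - D)) := by
  rw [← chi_eq, chi_split, h2_eq]
  have : (0 : ℤ) ≤ T.h1 D := Int.natCast_nonneg _
  linarith

end Pool.Agent.H54.EN
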