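import Pool.Agent.H54.EN.K1

/-!
# [H54 EN K4] sections of the restriction of a line bundle to a curve lift on affine sets

`ζ = C.ζ ∈ U`, `U` affine, `n` a section over `U` of the restriction of `O(D)`.  `J` = the set of the `c ∈ sec U` such that there is `f ∈ GS D U` with `rs ζ (f * D.eq ζ) = rs ζ c * n`: an ideal of `sec U` (`rs_add`, `rs_mul`; `f * D.eq ζ ∈ O ζ`).  Suppose `J ≠ ⊤`: `J ≤ M` maximal, `M = {¬ Un (O y)}`, `y ∈ U` (`hX.prime`).
* If not `ζ ⤳ y`: `hX.bas` for the complement of the closure of `ζ` gives `c ∈ sec U`, a unit at `y` and a nonunit at `ζ`: `rs ζ c = 0` (`rs_ne`), so `c ∈ J` (`f = 0`), but `c ∉ M`.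
* If `ζ ⤳ y`: `n / uu C D y = rs ζ a` with `a ∈ O y` (`hn`, `cR_ex`; for `y = ζ` by `rs_surj`, `uu_self`).  `f = a / D.eq y`: `f * D.eq ζ = a * (D.eq ζ / D.eq y)`, so `rs ζ (f * D.eq ζ) = n`.  There is `t`, regular on `U`, a unit at `y`, such that `f * D.eq z ∈ O z` at all `z ∈ U` where `t` is a unit:
  `f * D.eq z = a * (D.eq z / D.eq y)`, use `reg_nhd` for `a`, `D.loc y` and `hX.bas`.  By `denc` (B3) `t ^ N * f ∈ GS D U` for some `N`, so `t ^ N ∈ J`, but `t ^ N` is a unit at `y`: a contradiction.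
So `1 ∈ J`.
-/

set_option autoImplicit false

universe u

namespace Pool.Agent.H54.EN

variable {k K : Type u} [Field k] [Field K] [Algebra k K] {X : Mod k K}

private theorem k4_zero (ζ : X.P) : X.rs ζ 0 = 0 := by
  by_contra h
  exact ((rs_ne ζ (X.O ζ).zero_mem).1 h).1 rfl

theorem gs_surj (hX : IsSf X) (U : Set X.P) (hU : X.aff U) (C : Prm X) (hζ : C.ζ ∈ U)
    (D : Cart X) (n : X.kap C.ζ)
    (hn : ∀ x ∈ U, C.ζ ⤳ x → x ≠ C.ζ → n / uu C D x ∈ cR X C.ζ x) :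
    ∃ f : K, f ∈ GS D U ∧ X.rs C.ζ (f * D.eq C.ζ) = n := by
  have hS := hX.toIsSch
  obtain ⟨J, hJ⟩ : ∃ J : Ideal (X.sec U), ∀ c : X.sec U, c ∈ J ↔
      ∃ f ∈ GS D U, X.rs C.ζ (f * D.eq C.ζ) = X.rs C.ζ (c : K) * n := by
    refine ⟨{ carrier := {c | ∃ f ∈ GS D U, X.rs C.ζ (f * D.eq C.ζ) = X.rs C.ζ (c : K) * n}
              add_mem' := ?_
              zero_mem' := ?_
              smul_mem' := ?_ }, fun c => Iff.rfl⟩
    · rintro ⟨c, hc⟩ ⟨d, hd⟩ ⟨f, hf, hf'⟩ ⟨g, hg, hg'⟩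
      rw [mem_sec] at hc hd
      refine ⟨f + g, (GS D U).add_mem hf hg, ?_⟩
      change X.rs C.ζ ((f + g) * D.eq C.ζ) = X.rs C.ζ (c + d) * n
      rw [add_mul, rs_add C.ζ (hf _ hζ) (hg _ hζ), rs_add C.ζ (hc _ hζ) (hd _ hζ), add_mul]
      change X.rs C.ζ (f * D.eq C.ζ) = X.rs C.ζ c * n at hf'
      change X.rs C.ζ (g * D.eq C.ζ) = X.rs C.ζ d * n at hg'
      rw [hf', hg']
    · refine ⟨0, (GS D U).zero_mem, ?_⟩
      change X.rs C.ζ (0 * D.eq C.ζ) = X.rs C.ζ 0 * n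
      rw [zero_mul, k4_zero, zero_mul]
    · rintro ⟨d, hd⟩ ⟨c, hc⟩ ⟨f, hf, hf'⟩
      rw [mem_sec] at hc hd
      refine ⟨d * f, fun x hx => ?_, ?_⟩
      · rw [mul_assoc]
        exact (X.O x).mul_mem (hd x hx) (hf x hx)
      · change X.rs C.ζ (d * f * D.eq C.ζ) = X.rs C.ζ (d * c) * n
        change X.rs C.ζ (f * D.eq C.ζ) = X.rs C.ζ c * n at hf'
        rw [mul_assoc, rs_mul C.ζ (hd _ hζ) (hf _ hζ), hf', rs_mul C.ζ (hd _ hζ) (hc _ hζ),
          mul_assoc]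
  have htop : J = ⊤ := by
    by_contra hne
    obtain ⟨M, hM, hJM⟩ := Ideal.exists_le_maximal J hne
    obtain ⟨y, hyU, hy⟩ := hX.prime U hU ⟨_, hζ⟩ M hM.isPrime
    by_cases hs : C.ζ ⤳ y
    · have hna : n / uu C D y ∈ cR X C.ζ y := by
        by_cases hne : y = C.ζ
        · rw [hne]
          exact cR_self _ _
        · exact hn y hyU hs hne
      obtain ⟨a, ha, hae⟩ := cR_ex hS hna
      have huy := eq_gen D hs
      have hf : X.rs C.ζ (a / D.eq y * D.eq C.ζ) = n := by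
        have e : a / D.eq y * D.eq C.ζ = a * (D.eq C.ζ / D.eq y) := by ring
        rw [e, rs_mul C.ζ (hS.spec _ _ hs ha) huy.2.1, hae]
        exact div_mul_cancel₀ n (uu_ne C D hs)
      obtain ⟨W1, hW1, hyW1, hu1⟩ := D.loc y
      obtain ⟨W, hW, hyW, hWW, hWa⟩ := reg_nhd hS y a ha W1 hW1 hyW1
      obtain ⟨t, ht, htu, htW⟩ := hX.bas U W y hU (hX.op _ hW) hyU hyW
      obtain ⟨N, hN⟩ := denc hS D U hU t (a / D.eq y) ht (fun z hz htz => by
        have hzW := htW z hz htz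
        have e : a / D.eq y * D.eq z = a * (D.eq z / D.eq y) := by ring
        rw [e]
        exact (X.O z).mul_mem (hWa z hzW) (hu1 z (hWW hzW)).2.1)
      have h1 : t ^ N * (a / D.eq y) ∈ GS D U := fun z hz => hN N le_rfl z hz
      have htN : t ^ N ∈ X.sec U := by
        rw [mem_sec]
        exact fun z hz => (X.O z).pow_mem (ht z hz) N
      have h2 : (⟨t ^ N, htN⟩ : X.sec U) ∈ J := by
        rw [hJ]
        refine ⟨_, h1, ?_⟩
        change X.rs C.ζ (t ^ N * (a / D.eq y) * D.eq C.ζ) = X.rs C.ζ (t ^ N) * n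
        have e2 : a / D.eq y * D.eq C.ζ = a * (D.eq C.ζ / D.eq y) := by ring
        have h3 : a / D.eq y * D.eq C.ζ ∈ X.O C.ζ := by
          rw [e2]
          exact (X.O C.ζ).mul_mem (hS.spec _ _ hs ha) huy.2.1
        rw [mul_assoc, rs_mul C.ζ ((X.O C.ζ).pow_mem (ht _ hζ) N) h3, hf]
      have h3 := (hy _).1 (hJM h2)
      exact h3 (un_pow htu N)
    · have hopen : IsOpen (closure ({C.ζ} : Set X.P))ᶜ := isClosed_closure.isOpen_compl
      obtain ⟨c, hc, hcu, hcV⟩ := hX.bas U _ y hU hopen hyU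
        (fun h => hs (specializes_iff_mem_closure.2 h))
      have hcζ : ¬ Un (X.O C.ζ) c := fun h => hcV _ hζ h (subset_closure rfl)
      have hcs : c ∈ X.sec U := by
        rw [mem_sec]
        exact hc
      have h2 : (⟨c, hcs⟩ : X.sec U) ∈ J := by
        rw [hJ]
        refine ⟨0, (GS D U).zero_mem, ?_⟩
        have h3 : X.rs C.ζ c = 0 := by
          by_contra h4
          exact hcζ ((rs_ne C.ζ (hc _ hζ)).1 h4)
        change X.rs C.ζ (0 * D.eq C.ζ) = X.rs C.ζ c * n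
        rw [zero_mul, k4_zero, h3, zero_mul]
      exact (hy _).1 (hJM h2) hcu
  have h1 : (1 : X.sec U) ∈ J := by
    rw [htop]
    exact Submodule.mem_top
  rw [hJ] at h1
  obtain ⟨f, hf, hf'⟩ := h1
  refine ⟨f, hf, ?_⟩
  rw [hf']
  change X.rs C.ζ 1 * n = n
  rw [rs_one, one_mul]

end Pool.Agent.H54.EN
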