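import Pool.Agent.H54.EN.K1

/-!
# [H54 EN K5] the kernel of the restriction to a curve

`ζ = C.ζ`.
* `gs_sub_le`: `f * (D - C.D).eq x = f * D.eq x / C.D.eq x` (`sub_eq`); `C.D.eq x ∈ O x` (`C.eff`).
* `gs_ker`: `ζ ∈ U`, `f ∈ GS D U`.  `rs ζ (f * D.eq ζ) = 0 ↔ ¬ Un (O ζ) (f * D.eq ζ)` (`rs_ne`).  For `x ∈ U` with `ζ ⤳ x`: `f * D.eq ζ = (f * D.eq x) * (D.eq ζ / D.eq x)`, the last factor is a unit of `O ζ` (`eq_gen`), so `¬ Un (O ζ) (f * D.eq ζ) ↔ ¬ Un (O ζ) (f * D.eq x) ↔ f * D.eq x / C.D.eq x ∈ O x` (`C.on`).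
  For `x ∈ U` with not `ζ ⤳ x`: `C.D.eq x` is a unit (`C.off`).  For the converse take `x = ζ`.
* `gs_off`: `ζ ∉ U`, `U` open: no `x ∈ U` has `ζ ⤳ x`, so `C.D.eq x` is a unit for all `x ∈ U`.
* `rho_mem`: `rs ζ (f * D.eq ζ) / uu C D x = rs ζ (f * D.eq x)` for `x ∈ U`, `ζ ⤳ x` (`rs_mul`, `eq_gen`), which is in `cR` (`cR_mem`).
-/

set_option autoImplicit false

universe u

namespace Pool.Agent.H54.EN

variable {k K : Type u} [Field k] [Field K] [Algebra k K] {X : Mod k K}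

theorem gs_sub_le (D : Cart X) (C : Prm X) (U : Set X.P) : GS (D - C.D) U ≤ GS D U := by
  intro f hf x hx
  have h1 := (X.O x).mul_mem (hf x hx) (C.eff x)
  have h2 : f * (D - C.D).eq x * C.D.eq x = f * D.eq x := by
    rw [sub_eq, mul_assoc, div_mul_cancel₀ _ (C.D.ne x)]
  rw [h2] at h1
  exact h1

private theorem k5_split (C : Prm X) (D : Cart X) (f : K) (x : X.P) :
    f * D.eq C.ζ = f * D.eq x * (D.eq C.ζ / D.eq x) := by
  rw [mul_assoc, mul_div_cancel₀ _ (D.ne x)]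

theorem gs_ker (hX : IsSch X) (C : Prm X) (D : Cart X) (U : Set X.P) (hζ : C.ζ ∈ U) (f : K)
    (hf : f ∈ GS D U) : X.rs C.ζ (f * D.eq C.ζ) = 0 ↔ f ∈ GS (D - C.D) U := by
  constructor
  · intro h x hx
    rw [sub_eq, ← mul_div_assoc]
    by_cases hs : C.ζ ⤳ x
    · refine (C.on x hs _ (hf x hx)).1 ?_
      intro hu
      have h1 : Un (X.O C.ζ) (f * D.eq C.ζ) := by
        rw [k5_split C D f x]
        exact un_mul hu (eq_gen D hs)
      exact (rs_ne C.ζ (hf _ hζ)).2 h1 h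
    · rw [div_eq_mul_inv]
      exact (X.O x).mul_mem (hf x hx) (C.off x hs).2.2
  · intro h
    have h1 := h C.ζ hζ
    rw [sub_eq, ← mul_div_assoc] at h1
    have h2 := (C.on C.ζ (specializes_refl _) _ (hf _ hζ)).2 h1
    by_contra h3
    exact h2 ((rs_ne C.ζ (hf _ hζ)).1 h3)

theorem gs_off (C : Prm X) (D : Cart X) (U : Set X.P) (hU : IsOpen U) (hζ : C.ζ ∉ U) :
    GS (D - C.D) U = GS D U := by
  refine le_antisymm (gs_sub_le D C U) ?_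
  intro f hf x hx
  have hs : ¬ C.ζ ⤳ x := fun h => hζ (h.mem_open hU hx)
  rw [sub_eq, ← mul_div_assoc, div_eq_mul_inv]
  exact (X.O x).mul_mem (hf x hx) (C.off x hs).2.2

theorem rho_mem (hX : IsSch X) (C : Prm X) (D : Cart X) (U : Set X.P) (hζ : C.ζ ∈ U) (f : K)
    (hf : f ∈ GS D U) (x : X.P) (hx : x ∈ U) (h : C.ζ ⤳ x) :
    X.rs C.ζ (f * D.eq C.ζ) / uu C D x ∈ cR X C.ζ x := by
  have h1 : X.rs C.ζ (f * D.eq C.ζ) / uu C D x = X.rs C.ζ (f * D.eq x) := by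
    rw [div_eq_iff (uu_ne C D h)]
    unfold uu
    rw [← rs_mul C.ζ (hX.spec _ _ h (hf x hx)) (eq_gen D h).2.1, ← k5_split]
  rw [h1]
  exact cR_mem hX h (hf x hx)

end Pool.Agent.H54.EN
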