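import Pool.Agent.H54.EN.K2
import Pool.Agent.H54.EN.K4
import Pool.Agent.H54.EN.K5

/-!
# [H54 EN K6] the exact sequence `0 → O(D - C) → O(D) → O(D)|_C → 0` of Čech complexes

`i`: the inclusion (`gs_sub_le`; `Submodule.inclusion` of products, compare `NS0.le`, `inc` in `CDefs`).  `p`: `rho` in each component: for `V = U 0` etc. `rho C D V f ∈ NS L I` (`I = {0}`, ..., `{1, 2}`, `univ`; `V = ⋂ U i`): `JI I ↔ ζ ∈ V` (`J i` is `ζ ∈ U i`); if `ζ ∉ V` the value is `0`; otherwise `rho_mem` (the points of the curve in `V I` are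
the points `x ∈ V` with `ζ ⤳ x`, `x ≠ ζ`).
* `p` commutes with the differentials: `rho` for the intersection is `e • rho` for the larger set (`e {0, 1} = 1` iff `ζ ∈ U 0 ∩ U 1`, otherwise both sides are `0`).
* injective: clear.  Surjective: for `ζ ∈ V` by `gs_surj` (`h0`, `h01`, ... : the sets are affine); for `ζ ∉ V` the space `NS L I` is `0` (`¬ JI I`).
* exact: `gs_ker` for `ζ ∈ V`; `gs_off` for `ζ ∉ V` (affine sets are open, `hX.op`).
Prove first a lemma for one pair `V`, `I`: the sequence `GS (D - C.D) V → GS D V → NS L I` is exact and the last map is surjective; then take products of three (`Submodule.prod`; elements of `C0` are `⟨(f0, f1, f2), h⟩`).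
-/

set_option autoImplicit false

universe u

namespace Pool.Agent.H54.EN

variable {k K : Type u} [Field k] [Field K] [Algebra k K] {X : Mod k K}

section pair

variable (hX : IsSf X) (U : Fin 3 → Set X.P) (C : Prm X) (D : Cart X)

private theorem k6_pos {V : Set X.P} (h : C.ζ ∈ V) (f : GS D V) :
    rho C D V f = X.rs C.ζ ((f : K) * D.eq C.ζ) := if_pos h

private theorem k6_neg {V : Set X.P} (h : C.ζ ∉ V) (f : GS D V) : rho C D V f = 0 := if_neg h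

include hX in
private theorem k6_mem {I : Set (Fin 3)} {V : Set X.P} (hV : ∀ z, z ∈ V ↔ ∀ i ∈ I, z ∈ U i)
    (f : GS D V) : rho C D V f ∈ NS (lineD hX U C D) I := by
  by_cases h : C.ζ ∈ V
  · rw [k6_pos C D h]
    refine ⟨Or.inr ((hV _).1 h), fun x hx => ?_⟩
    exact rho_mem hX.toIsSch C D V h f f.2 x.1 ((hV _).2 hx) x.2.1
  · rw [k6_neg C D h]
    exact (NS (lineD hX U C D) I).zero_mem

include hX in
private theorem k6_surj {I : Set (Fin 3)} {V : Set X.P} (hV : ∀ z, z ∈ V ↔ ∀ i ∈ I, z ∈ U i)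
    (hA : X.aff V) (n : X.kap C.ζ) (hn : n ∈ NS (lineD hX U C D) I) :
    ∃ f : GS D V, rho C D V f = n := by
  by_cases h : C.ζ ∈ V
  · obtain ⟨f, hf, hf'⟩ := gs_surj hX V hA C h D n (fun x hx hs hne =>
      hn.2 ⟨x, hs, hne⟩ ((hV x).1 hx))
    exact ⟨⟨f, hf⟩, by rw [k6_pos C D h]; exact hf'⟩
  · refine ⟨0, ?_⟩
    rw [map_zero]
    exact (hn.1.resolve_right (fun h1 => h ((hV _).2 h1))).symm

include hX in
private theorem k6_ker {V : Set X.P} (hA : X.aff V) (f : GS D V) :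
    rho C D V f = 0 ↔ (f : K) ∈ GS (D - C.D) V := by
  by_cases h : C.ζ ∈ V
  · rw [k6_pos C D h]
    exact gs_ker hX.toIsSch C D V h f f.2
  · rw [k6_neg C D h, gs_off C D V (hX.op _ hA) h]
    exact ⟨fun _ => f.2, fun _ => rfl⟩

private theorem k6_rs_sub (ζ : X.P) {a b : K} (ha : a ∈ X.O ζ) (hb : b ∈ X.O ζ) :
    X.rs ζ (a - b) = X.rs ζ a - X.rs ζ b := by
  have h1 := rs_add ζ ((X.O ζ).sub_mem ha hb) hb
  rw [sub_add_cancel] at h1
  rw [h1, add_sub_cancel_right]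

private theorem k6_d0 {I : Set (Fin 3)} {V V1 V2 : Set X.P} (hV : ∀ z, z ∈ V ↔ ∀ i ∈ I, z ∈ U i)
    (h1 : V ⊆ V1) (h2 : V ⊆ V2) (a : GS D V1) (b : GS D V2) (c : GS D V)
    (hc : (c : K) = a - b) :
    rho C D V c = (csys X U C).e I • (rho C D V1 a - rho C D V2 b) := by
  by_cases h : C.ζ ∈ V
  · have hJ : (csys X U C).JI I := (hV _).1 h
    rw [CSys.e_pos hJ, one_smul, k6_pos C D h, k6_pos C D (h1 h), k6_pos C D (h2 h), hc, sub_mul,
      k6_rs_sub C.ζ (a.2 _ (h1 h)) (b.2 _ (h2 h))]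
  · have hJ : ¬ (csys X U C).JI I := fun h3 => h ((hV _).2 h3)
    rw [CSys.e_neg hJ, zero_smul, k6_neg C D h]

private theorem k6_d1 {I : Set (Fin 3)} {V V1 V2 V3 : Set X.P}
    (hV : ∀ z, z ∈ V ↔ ∀ i ∈ I, z ∈ U i) (h1 : V ⊆ V1) (h2 : V ⊆ V2) (h3 : V ⊆ V3)
    (a : GS D V1) (b : GS D V2) (c : GS D V3) (d : GS D V) (hd : (d : K) = a - b + c) :
    rho C D V d = (csys X U C).e I • (rho C D V1 a - rho C D V2 b + rho C D V3 c) := by
  by_cases h : C.ζ ∈ V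
  · have hJ : (csys X U C).JI I := (hV _).1 h
    have ha := a.2 _ (h1 h)
    have hb := b.2 _ (h2 h)
    have hc := c.2 _ (h3 h)
    rw [CSys.e_pos hJ, one_smul, k6_pos C D h, k6_pos C D (h1 h), k6_pos C D (h2 h),
      k6_pos C D (h3 h), hd, add_mul, sub_mul, rs_add C.ζ ((X.O C.ζ).sub_mem ha hb) hc,
      k6_rs_sub C.ζ ha hb]
  · have hJ : ¬ (csys X U C).JI I := fun h3 => h ((hV _).2 h3)
    rw [CSys.e_neg hJ, zero_smul, k6_neg C D h]

/-- three restriction maps -/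
private noncomputable def r3 (V0 V1 V2 : Set X.P) :
    ((GS D V0).prod ((GS D V1).prod (GS D V2)) : Submodule k (K × K × K)) →ₗ[k]
      (X.kap C.ζ × X.kap C.ζ × X.kap C.ζ) where
  toFun f := (rho C D V0 ⟨f.1.1, f.2.1⟩, rho C D V1 ⟨f.1.2.1, f.2.2.1⟩,
    rho C D V2 ⟨f.1.2.2, f.2.2.2⟩)
  map_add' f g := Prod.ext ((rho C D V0).map_add ⟨f.1.1, f.2.1⟩ ⟨g.1.1, g.2.1⟩)
    (Prod.ext ((rho C D V1).map_add ⟨f.1.2.1, f.2.2.1⟩ ⟨g.1.2.1, g.2.2.1⟩)
      ((rho C D V2).map_add ⟨f.1.2.2, f.2.2.2⟩ ⟨g.1.2.2, g.2.2.2⟩))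
  map_smul' c f := Prod.ext ((rho C D V0).map_smul c ⟨f.1.1, f.2.1⟩)
    (Prod.ext ((rho C D V1).map_smul c ⟨f.1.2.1, f.2.2.1⟩)
      ((rho C D V2).map_smul c ⟨f.1.2.2, f.2.2.2⟩))

end pair

private theorem k6_V1 (U : Fin 3 → Set X.P) (i : Fin 3) (z : X.P) :
    z ∈ U i ↔ ∀ l ∈ ({i} : Set (Fin 3)), z ∈ U l := by
  simp only [Set.mem_singleton_iff, forall_eq]

private theorem k6_V2 (U : Fin 3 → Set X.P) (i j : Fin 3) (z : X.P) :
    z ∈ U i ∩ U j ↔ ∀ l ∈ ({i, j} : Set (Fin 3)), z ∈ U l := by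
  simp only [Set.mem_inter_iff, Set.mem_insert_iff, Set.mem_singleton_iff, forall_eq_or_imp,
    forall_eq]

private theorem k6_V3 (U : Fin 3 → Set X.P) (z : X.P) :
    z ∈ U 0 ∩ U 1 ∩ U 2 ↔ ∀ l ∈ (Set.univ : Set (Fin 3)), z ∈ U l := by
  constructor
  · rintro ⟨⟨h0, h1⟩, h2⟩ l _
    fin_cases l
    · exact h0
    · exact h1
    · exact h2
  · intro h
    exact ⟨⟨h 0 trivial, h 1 trivial⟩, h 2 trivial⟩

/-- the inclusion -/
private noncomputable def k6i (U : Fin 3 → Set X.P) (C : Prm X) (D : Cart X) :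
    CMap (cech U (D - C.D)) (cech U D) where
  f0 := Submodule.inclusion (p := (GS (D - C.D) (U 0)).prod ((GS (D - C.D) (U 1)).prod
      (GS (D - C.D) (U 2)))) (p' := (GS D (U 0)).prod ((GS D (U 1)).prod (GS D (U 2))))
    (fun _ hf => ⟨gs_sub_le D C _ hf.1, gs_sub_le D C _ hf.2.1, gs_sub_le D C _ hf.2.2⟩)
  f1 := Submodule.inclusion (p := (GS (D - C.D) (U 0 ∩ U 1)).prod ((GS (D - C.D) (U 0 ∩ U 2)).prod
      (GS (D - C.D) (U 1 ∩ U 2)))) (p' := (GS D (U 0 ∩ U 1)).prod ((GS D (U 0 ∩ U 2)).prod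
      (GS D (U 1 ∩ U 2))))
    (fun _ hf => ⟨gs_sub_le D C _ hf.1, gs_sub_le D C _ hf.2.1, gs_sub_le D C _ hf.2.2⟩)
  f2 := Submodule.inclusion (gs_sub_le D C (U 0 ∩ U 1 ∩ U 2))
  c0 _ := rfl
  c1 _ := rfl

/-- the restriction -/
private noncomputable def k6p (hX : IsSf X) (U : Fin 3 → Set X.P) (C : Prm X) (D : Cart X) :
    CMap (cech U D) (NC (lineD hX U C D)) where
  f0 := (r3 C D (U 0) (U 1) (U 2)).codRestrict (NS0 (lineD hX U C D))
    (fun _ => ⟨k6_mem hX U C D (k6_V1 U 0) _, k6_mem hX U C D (k6_V1 U 1) _,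
      k6_mem hX U C D (k6_V1 U 2) _⟩)
  f1 := (r3 C D (U 0 ∩ U 1) (U 0 ∩ U 2) (U 1 ∩ U 2)).codRestrict (NS1 (lineD hX U C D))
    (fun _ => ⟨k6_mem hX U C D (k6_V2 U 0 1) _, k6_mem hX U C D (k6_V2 U 0 2) _,
      k6_mem hX U C D (k6_V2 U 1 2) _⟩)
  f2 := (rho C D (U 0 ∩ U 1 ∩ U 2)).codRestrict (NS (lineD hX U C D) Set.univ)
    (fun _ => k6_mem hX U C D (k6_V3 U) _)
  c0 x := Subtype.ext (Prod.ext
    (k6_d0 U C D (k6_V2 U 0 1) Set.inter_subset_right Set.inter_subset_left _ _ _ rfl)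
    (Prod.ext (k6_d0 U C D (k6_V2 U 0 2) Set.inter_subset_right Set.inter_subset_left _ _ _ rfl)
      (k6_d0 U C D (k6_V2 U 1 2) Set.inter_subset_right Set.inter_subset_left _ _ _ rfl)))
  c1 x := Subtype.ext (k6_d1 U C D (V1 := U 1 ∩ U 2) (V2 := U 0 ∩ U 2) (V3 := U 0 ∩ U 1)
    (k6_V3 U) (fun _ h => ⟨h.1.2, h.2⟩) (fun _ h => ⟨h.1.1, h.2⟩) (fun _ h => h.1) _ _ _ _ rfl)

theorem exists_ses (hX : IsSf X) (U : Fin 3 → Set X.P) (hU : ∀ i, X.aff (U i))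
    (hU2 : ∀ i j, X.aff (U i ∩ U j)) (hU3 : X.aff (U 0 ∩ U 1 ∩ U 2)) (C : Prm X) (D : Cart X) :
    ∃ s : SES (cech U (D - C.D)) (cech U D) (NC (lineD hX U C D)),
      ∀ f : (cech U D).C0, Subtype.val (s.p.f0 f) =
        (rho C D (U 0) ⟨(Subtype.val f).1, f.2.1⟩, rho C D (U 1) ⟨(Subtype.val f).2.1, f.2.2.1⟩,
          rho C D (U 2) ⟨(Subtype.val f).2.2, f.2.2.2⟩) := by
  refine ⟨{ i := k6i U C D
            p := k6p hX U C D
            inj0 := fun a b h => by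
              have h2 := congrArg Subtype.val h
              exact Subtype.ext h2
            inj1 := fun a b h => by
              have h2 := congrArg Subtype.val h
              exact Subtype.ext h2
            inj2 := fun a b h => by
              have h2 := congrArg Subtype.val h
              exact Subtype.ext h2
            sur0 := ?_
            sur1 := ?_
            sur2 := ?_
            ex0 := ?_
            ex1 := ?_
            ex2 := ?_ }, fun f => rfl⟩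
  · rintro ⟨⟨n0, n1, n2⟩, m0, m1, m2⟩
    obtain ⟨f0, h0⟩ := k6_surj hX U C D (k6_V1 U 0) (hU 0) n0 m0
    obtain ⟨f1, h1⟩ := k6_surj hX U C D (k6_V1 U 1) (hU 1) n1 m1
    obtain ⟨f2, h2⟩ := k6_surj hX U C D (k6_V1 U 2) (hU 2) n2 m2
    exact ⟨⟨((f0 : K), (f1 : K), (f2 : K)), f0.2, f1.2, f2.2⟩,
      Subtype.ext (Prod.ext h0 (Prod.ext h1 h2))⟩
  · rintro ⟨⟨n0, n1, n2⟩, m0, m1, m2⟩
    obtain ⟨f0, h0⟩ := k6_surj hX U C D (k6_V2 U 0 1) (hU2 0 1) n0 m0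
    obtain ⟨f1, h1⟩ := k6_surj hX U C D (k6_V2 U 0 2) (hU2 0 2) n1 m1
    obtain ⟨f2, h2⟩ := k6_surj hX U C D (k6_V2 U 1 2) (hU2 1 2) n2 m2
    exact ⟨⟨((f0 : K), (f1 : K), (f2 : K)), f0.2, f1.2, f2.2⟩,
      Subtype.ext (Prod.ext h0 (Prod.ext h1 h2))⟩
  · rintro ⟨n, m⟩
    obtain ⟨f, h⟩ := k6_surj hX U C D (k6_V3 U) hU3 n m
    exact ⟨f, Subtype.ext h⟩
  · rintro ⟨⟨f0, f1, f2⟩, m0, m1, m2⟩
    constructor
    · intro h
      have h' := congrArg Subtype.val h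
      have e0 := (k6_ker hX C D (hU 0) ⟨f0, m0⟩).1 (congrArg Prod.fst h')
      have e1 := (k6_ker hX C D (hU 1) ⟨f1, m1⟩).1 (congrArg (fun z => z.2.1) h')
      have e2 := (k6_ker hX C D (hU 2) ⟨f2, m2⟩).1 (congrArg (fun z => z.2.2) h')
      exact ⟨⟨(f0, f1, f2), e0, e1, e2⟩, rfl⟩
    · rintro ⟨⟨⟨g0, g1, g2⟩, l0, l1, l2⟩, h⟩
      have h' := congrArg Subtype.val h
      have e0 : g0 = f0 := congrArg Prod.fst h'
      have e1 : g1 = f1 := congrArg (fun z => z.2.1) h'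
      have e2 : g2 = f2 := congrArg (fun z => z.2.2) h'
      subst e0 e1 e2
      exact Subtype.ext (Prod.ext ((k6_ker hX C D (hU 0) ⟨g0, m0⟩).2 l0)
        (Prod.ext ((k6_ker hX C D (hU 1) ⟨g1, m1⟩).2 l1)
          ((k6_ker hX C D (hU 2) ⟨g2, m2⟩).2 l2)))
  · rintro ⟨⟨f0, f1, f2⟩, m0, m1, m2⟩
    constructor
    · intro h
      have h' := congrArg Subtype.val h
      have e0 := (k6_ker hX C D (hU2 0 1) ⟨f0, m0⟩).1 (congrArg Prod.fst h')
      have e1 := (k6_ker hX C D (hU2 0 2) ⟨f1, m1⟩).1 (congrArg (fun z => z.2.1) h')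
      have e2 := (k6_ker hX C D (hU2 1 2) ⟨f2, m2⟩).1 (congrArg (fun z => z.2.2) h')
      exact ⟨⟨(f0, f1, f2), e0, e1, e2⟩, rfl⟩
    · rintro ⟨⟨⟨g0, g1, g2⟩, l0, l1, l2⟩, h⟩
      have h' := congrArg Subtype.val h
      have e0 : g0 = f0 := congrArg Prod.fst h'
      have e1 : g1 = f1 := congrArg (fun z => z.2.1) h'
      have e2 : g2 = f2 := congrArg (fun z => z.2.2) h'
      subst e0 e1 e2
      exact Subtype.ext (Prod.ext ((k6_ker hX C D (hU2 0 1) ⟨g0, m0⟩).2 l0)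
        (Prod.ext ((k6_ker hX C D (hU2 0 2) ⟨g1, m1⟩).2 l1)
          ((k6_ker hX C D (hU2 1 2) ⟨g2, m2⟩).2 l2)))
  · rintro ⟨f, m⟩
    constructor
    · intro h
      exact ⟨⟨f, (k6_ker hX C D hU3 ⟨f, m⟩).1 (congrArg Subtype.val h)⟩, rfl⟩
    · rintro ⟨⟨g, l⟩, h⟩
      have h' : g = f := congrArg Subtype.val h
      subst h'
      exact Subtype.ext ((k6_ker hX C D hU3 ⟨g, m⟩).2 l)

end Pool.Agent.H54.EN
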