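import Pool.Agent.H54.EN.K2

/-!
# [H54 EN K7] global sections on the curve

`H0` of `NC (lineD hX U C D)` is the kernel of `d0` (`mk0`, `mk0_bij`, by definition).  An element is `(f 0, f 1, f 2)` with `f i ∈ NS L {i}` and `e {i, j} • (f j - f i) = 0`.  So `f i = f j` if `J i` and `J j`; `f i = 0` if `¬ J i`.  There is `i0` with `J i0`: `not_closed` gives a point of the curve, which is in some `U i0` (`hcov`).
`n = f i0`: for `x` with `ζ ⤳ x`, `x ≠ ζ`: `x ∈ U i` for some `i` (`hcov`), `J i`, so `n = f i` and `n / uu C D x ∈ cR` ; for `x = ζ`: `cR_self`.  So `n ∈ gam C D`.  Conversely `n ∈ gam C D` gives `f i = e {i} • n`.  This is a linear bijection.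
* `h0_NC`: `LinearEquiv.finrank_eq`.
* `NC_ex`: for `n ∈ gam C D` the cochain `(e {0} • n, e {1} • n, e {2} • n)` is a cocycle.
-/

set_option autoImplicit false

universe u

namespace Pool.Agent.H54.EN

open Module

variable {k K : Type u} [Field k] [Field K] [Algebra k K] {X : Mod k K}

private theorem k7_zero {κ : Type u} [Field κ] [Algebra k κ] {S : CSys k κ} (n : κ)
    (I I' J : Set (Fin 3)) (h : I ⊆ J) (h' : I' ⊆ J) :
    S.e J • (S.e I' • n - S.e I • n) = 0 := by
  by_cases hJ : S.JI J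
  · rw [CSys.e_pos (hJ.mono h), CSys.e_pos (hJ.mono h'), sub_self, smul_zero]
  · rw [CSys.e_neg hJ, zero_smul]

private theorem k7_mem (hX : IsSf X) (U : Fin 3 → Set X.P) (C : Prm X) (D : Cart X) (n : X.kap C.ζ)
    (hn : n ∈ gam C D) : ((csys X U C).e {0} • n, (csys X U C).e {1} • n, (csys X U C).e {2} • n) ∈
      NS0 (lineD hX U C D) := by
  have h : ∀ I, (csys X U C).e I • n ∈ NS (lineD hX U C D) I := fun I =>
    NS.e_mem (lineD hX U C D) (subset_refl I) (fun x _ => hn x.1 x.2.1)
  exact ⟨h _, h _, h _⟩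

theorem NC_ex (hX : IsSf X) (U : Fin 3 → Set X.P) (C : Prm X) (D : Cart X) (n : X.kap C.ζ)
    (hn : n ∈ gam C D) : ∃ c : (NC (lineD hX U C D)).C0, (NC (lineD hX U C D)).d0 c = 0 ∧
      Subtype.val c = ((csys X U C).e {0} • n, (csys X U C).e {1} • n, (csys X U C).e {2} • n) := by
  refine ⟨⟨_, k7_mem hX U C D n hn⟩, Subtype.ext ?_, rfl⟩
  have a0 : ({0} : Set (Fin 3)) ⊆ {0, 1} := by simp
  have a1 : ({1} : Set (Fin 3)) ⊆ {0, 1} := by simp
  have b0 : ({0} : Set (Fin 3)) ⊆ {0, 2} := by simp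
  have b2 : ({2} : Set (Fin 3)) ⊆ {0, 2} := by simp
  have c1 : ({1} : Set (Fin 3)) ⊆ {1, 2} := by simp
  have c2 : ({2} : Set (Fin 3)) ⊆ {1, 2} := by simp
  refine Prod.ext ?_ (Prod.ext ?_ ?_)
  · exact k7_zero n {0} {1} {0, 1} a0 a1
  · exact k7_zero n {0} {2} {0, 2} b0 b2
  · exact k7_zero n {1} {2} {1, 2} c1 c2

/-- the components -/
private def k7c {κ : Type u} (f : κ × κ × κ) : Fin 3 → κ := ![f.1, f.2.1, f.2.2]

theorem h0_NC (hX : IsSf X) (U : Fin 3 → Set X.P) (hcov : ∀ x, ∃ i, x ∈ U i)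
    (hop : ∀ i, IsOpen (U i)) (C : Prm X) (D : Cart X) :
    Nonempty ((NC (lineD hX U C D)).H0 ≃ₗ[k] gam C D) := by
  obtain ⟨i0, hi0⟩ := hcov C.ζ
  obtain ⟨G, hG⟩ : ∃ G : gam C D →ₗ[k] NS0 (lineD hX U C D), ∀ n,
      (G n : X.kap C.ζ × X.kap C.ζ × X.kap C.ζ) = ((csys X U C).e {0} • (n : X.kap C.ζ),
        (csys X U C).e {1} • (n : X.kap C.ζ), (csys X U C).e {2} • (n : X.kap C.ζ)) :=
    ⟨{ toFun := fun n => ⟨_, k7_mem hX U C D n n.2⟩
       map_add' := fun a b => Subtype.ext (by
        refine Prod.ext ?_ (Prod.ext ?_ ?_)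
        · exact smul_add _ _ _
        · exact smul_add _ _ _
        · exact smul_add _ _ _)
       map_smul' := fun c a => Subtype.ext (by
        refine Prod.ext ?_ (Prod.ext ?_ ?_)
        · exact smul_comm _ _ _
        · exact smul_comm _ _ _
        · exact smul_comm _ _ _) }, fun n => rfl⟩
  have hGi : ∀ n i, k7c (G n : X.kap C.ζ × X.kap C.ζ × X.kap C.ζ) i =
      (csys X U C).e {i} • (n : X.kap C.ζ) := by
    intro n i
    rw [hG]
    fin_cases i <;> rfl
  have hker : ∀ n, (NC (lineD hX U C D)).d0 (G n) = 0 := by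
    intro n
    obtain ⟨c, hc, hc'⟩ := NC_ex hX U C D n n.2
    have h1 : c = G n := Subtype.ext (by rw [hc']; exact (hG n).symm)
    rw [← h1]
    exact hc
  have hJ : ∀ i, C.ζ ∈ U i → (csys X U C).JI {i} := fun i hi i' hi' => by
    rw [Set.mem_singleton_iff.1 hi']
    exact hi
  have e : gam C D ≃ₗ[k] LinearMap.ker (NC (lineD hX U C D)).d0 := by
    refine LinearEquiv.ofBijective (LinearMap.codRestrict _ G hker) ⟨?_, ?_⟩
    · intro a b hab
      have h1 : G a = G b := congrArg Subtype.val hab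
      have h2 := hGi a i0
      rw [h1, hGi b i0, CSys.e_pos (hJ i0 hi0), one_smul, one_smul] at h2
      exact Subtype.ext h2.symm
    · rintro ⟨f, hf⟩
      obtain ⟨v, hv⟩ : ∃ v : Fin 3 → X.kap C.ζ, v = k7c ((f : NS0 (lineD hX U C D)) :
          X.kap C.ζ × X.kap C.ζ × X.kap C.ζ) := ⟨_, rfl⟩
      have hmem : ∀ i, v i ∈ NS (lineD hX U C D) {i} := by
        intro i
        obtain ⟨m0, m1, m2⟩ := (f : NS0 (lineD hX U C D)).2
        rw [hv]
        fin_cases i
        · exact m0
        · exact m1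
        · exact m2
      have hf' : edel0 (csys X U C) ((f : NS0 (lineD hX U C D)) :
          X.kap C.ζ × X.kap C.ζ × X.kap C.ζ) = 0 := congrArg Subtype.val hf
      have e01 : (csys X U C).e {0, 1} • (v 1 - v 0) = 0 := by
        rw [hv]
        exact congrArg Prod.fst hf'
      have e02 : (csys X U C).e {0, 2} • (v 2 - v 0) = 0 := by
        rw [hv]
        exact congrArg (fun z => z.2.1) hf'
      have e12 : (csys X U C).e {1, 2} • (v 2 - v 1) = 0 := by
        rw [hv]
        exact congrArg (fun z => z.2.2) hf'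
      have key : ∀ i j, C.ζ ∈ U i → C.ζ ∈ U j → (csys X U C).e {i, j} = 1 := by
        intro i j hi hj
        refine CSys.e_pos fun l hl => ?_
        rcases hl with hl | hl
        · rw [hl]
          exact hi
        · rw [Set.mem_singleton_iff.1 hl]
          exact hj
      have f01 : C.ζ ∈ U 0 → C.ζ ∈ U 1 → v 1 = v 0 := fun h0 h1 => by
        rw [key 0 1 h0 h1, one_smul] at e01
        exact sub_eq_zero.1 e01
      have f02 : C.ζ ∈ U 0 → C.ζ ∈ U 2 → v 2 = v 0 := fun h0 h1 => by
        rw [key 0 2 h0 h1, one_smul] at e02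
        exact sub_eq_zero.1 e02
      have f12 : C.ζ ∈ U 1 → C.ζ ∈ U 2 → v 2 = v 1 := fun h0 h1 => by
        rw [key 1 2 h0 h1, one_smul] at e12
        exact sub_eq_zero.1 e12
      have hall : ∀ i j, C.ζ ∈ U i → C.ζ ∈ U j → v i = v j := by
        intro i j hi hj
        fin_cases i <;> fin_cases j
        · rfl
        · exact (f01 hi hj).symm
        · exact (f02 hi hj).symm
        · exact f01 hj hi
        · rfl
        · exact (f12 hi hj).symm
        · exact f02 hj hi
        · exact f12 hj hi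
        · rfl
      have hgam : v i0 ∈ gam C D := by
        intro x hx
        by_cases hne : x = C.ζ
        · rw [hne]
          exact cR_self _ _
        · obtain ⟨i, hi⟩ := hcov x
          have hiζ : C.ζ ∈ U i := hx.mem_open (hop i) hi
          rw [hall i0 i hi0 hiζ]
          exact (hmem i).2 ⟨x, hx, hne⟩ (fun i' hi' => by
            rw [Set.mem_singleton_iff.1 hi']
            exact hi)
      refine ⟨⟨v i0, hgam⟩, ?_⟩
      apply Subtype.ext
      have h3 : ∀ i, k7c (G ⟨v i0, hgam⟩ : X.kap C.ζ × X.kap C.ζ × X.kap C.ζ) i = v i := by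
        intro i
        rw [hGi]
        by_cases hi : C.ζ ∈ U i
        · rw [CSys.e_pos (hJ i hi), one_smul]
          exact hall i0 i hi0 hi
        · have h4 : ¬ (csys X U C).JI {i} := fun h5 => hi (h5 i rfl)
          rw [CSys.e_neg h4, zero_smul]
          exact ((hmem i).1.resolve_right h4).symm
      have h4 : G ⟨v i0, hgam⟩ = (f : NS0 (lineD hX U C D)) := by
        apply Subtype.ext
        exact Prod.ext ((h3 0).trans (congrFun hv 0))
          (Prod.ext ((h3 1).trans (congrFun hv 1)) ((h3 2).trans (congrFun hv 2)))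
      exact h4
  exact ⟨e.symm⟩

end Pool.Agent.H54.EN
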