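import Pool.Agent.H54.EN.F3
import Pool.Agent.H54.EN.K6
import Pool.Agent.H54.EN.K7
import Pool.Agent.H54.EN.A4

/-!
# [H54 EN F4] the cohomology of a line bundle on a curve of the surface

`N T C D` = the Čech complex of `O(D)` restricted to the curve `C`.  `exists_ses` with `T.sf`, `T.U`, `cov_aff`, `cov_aff2`, `cov_aff3` gives the short exact sequence; `cech_fin`.
* `N_fin`: `SES.fin`.
* `N_chi`: `SES.chi`: `chi N = chiD D - chiD (D - C.D)`, `chi_eq`: `2 * chi N = form (φ D) (φ D) - form (φ D - φ C.D) (φ D - φ C.D) = 2 form (φ D) (φ C.D) - form (φ C.D) (φ C.D)`.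
* `gam_fr`: `h0_NC` (`cov_cov`; the `U i` are open: `IsSch.op`, `cov_aff`).
* `gam_const`: `gam C 0` is a finite-dimensional `k`-subalgebra of the field `κ` (`uu C 0 x = 1`: `gam C 0` is the intersection of the subalgebras `cR X ζ x`), so equal to `k` (as in `gs_const`).  `gam_one`.
* `N_h2`: `SES.h2_le`: `h2 N ≤ h2 D = h0 (M - D)` (`h2_eq`).
* `gam_ge`: `chi N = h0 N - h1 N + h2 N`, so `h0 N ≥ chi N - h2 N`.
* `gam_ne`: `form (φ C.D) (φ C.D) = 0`; take `D = C.D + M`: `D - C.D = M`.  `SES.h2_ge`: `h2 M ≤ h1 N + h2 (C.D + M)`; `h2 M = h0 (M - M) = h0 0 = 1` (`h0_one`), `h2 (C.D + M) = h0 (M - (C.D + M)) = h0 (-C.D) = 0` (`h0_pos`, `gs_neg`; `C.D` is effective and not trivial: `C.ne`).  `chi N = 0` (`N_chi`, `phi_M`), `h2 N ≤ h2 (C.D + M) = 0`,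
  so `h0 N = h1 N ≥ 1`: `gam` has a nonzero element.
* `gam_lift`: `SES.lift` for `n` (`NC_ex`): if `h1 (D - C.D) = 0` there is a cocycle `b ∈ C0` of `cech U D` over the cochain given by `n`: `b = (f, f, f)`, `f ∈ GS D univ`, and for `i` with `ζ ∈ U i` (it exists, `not_closed`, `cov_cov`, or `cov_cov ζ`) the component is `rho = rs ζ (f * D.eq ζ) = e {i} • n = n`.
* `self_ge`: `D = 0`: `SES.h1_le`: `h1 (-C.D) + h0 0 ≤ h0 (-C.D) + h0 N + h1 0` with `h0 0 = 1`, `h0 N = 1` (`gam_one`), `h0 (-C.D) = 0`: `h1 (-C.D) ≤ h1 0`.  `h2 (-C.D) = h0 (M + C.D) ≥ h0 M = h2 0` (`h0_mono`, `h2_eq`).  `chiD (-C.D) = - h1 + h2 ≥ - h1 0 + h2 0 = chiD 0 - 1 = 0`; `chi_eq` for `-C.D`: `0 ≤ 2 + form`.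
-/

set_option autoImplicit false

universe u

namespace Pool.Agent.H54.EN

open Module

variable {k K : Type u} [Field k] [Field K] [Algebra k K] (T : Ctx k K)

/-- the Čech complex of the restriction of `O(D)` to the curve -/
noncomputable abbrev NN (C : Prm T.X) (D : Cart T.X) : Cx k := NC (lineD T.sf T.U C D)

theorem N_fin (C : Prm T.X) (D : Cart T.X) : (NN T C D).Fin := by
  obtain ⟨s, _⟩ := exists_ses T.sf T.U (cov_aff T) (cov_aff2 T) (cov_aff3 T) C D
  exact s.fin (cech_fin T _) (cech_fin T _)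

private theorem f4_form_sub (x y : E10) : form (x - y) (x - y) = form x x - 2 * form x y + form y y := by
  have h1 : form ((x - y) + y) (x - y) = form (x - y) (x - y) + form y (x - y) := form_add _ _ _
  have h2 : form ((x - y) + y) y = form (x - y) y + form y y := form_add _ _ _
  have h3 : form ((x - y) + y) x = form (x - y) x + form y x := form_add _ _ _
  rw [sub_add_cancel] at h1 h2 h3
  have h4 := form_comm x (x - y)
  have h5 := form_comm y (x - y)
  have h6 := form_comm x y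
  linarith

theorem N_chi (C : Prm T.X) (D : Cart T.X) :
    2 * (NN T C D).chi = 2 * form (T.φ D) (T.φ C.D) - form (T.φ C.D) (T.φ C.D) := by
  obtain ⟨s, _⟩ := exists_ses T.sf T.U (cov_aff T) (cov_aff2 T) (cov_aff3 T) C D
  have h := s.chi (cech_fin T _) (cech_fin T _)
  have h1 := chi_eq T D
  have h2 := chi_eq T (D - C.D)
  rw [map_sub, f4_form_sub] at h2
  change 2 * (cech T.U D).chi = _ at h1
  change 2 * (cech T.U (D - C.D)).chi = _ at h2
  change (cech T.U D).chi = (cech T.U (D - C.D)).chi + (NN T C D).chi at h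
  linarith

theorem gam_fr (C : Prm T.X) (D : Cart T.X) : finrank k (gam C D) = finrank k (NN T C D).H0 := by
  obtain ⟨e⟩ := h0_NC T.sf T.U (cov_cov T) (fun i => T.sf.op _ (cov_aff T i)) C D
  exact e.finrank_eq.symm

theorem gam_fin (C : Prm T.X) (D : Cart T.X) : Module.Finite k (gam C D) := by
  obtain ⟨e⟩ := h0_NC T.sf T.U (cov_cov T) (fun i => T.sf.op _ (cov_aff T i)) C D
  have := (N_fin T C D).f0
  exact Module.Finite.equiv e

private theorem f4_const [IsAlgClosed k] {κ : Type u} [Field κ] [Algebra k κ] (V : Submodule k κ)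
    (hV : Module.Finite k V) (h1 : (1 : κ) ∈ V) (hm : ∀ a ∈ V, ∀ b ∈ V, a * b ∈ V) (n : κ)
    (hn : n ∈ V) : ∃ c : k, n = algebraMap k κ c := by
  let A : Subalgebra k κ :=
    { carrier := V
      mul_mem' := fun ha hb => hm _ ha _ hb
      add_mem' := fun ha hb => V.add_mem ha hb
      algebraMap_mem' := fun c => by
        change algebraMap k κ c ∈ V
        rw [Algebra.algebraMap_eq_smul_one]
        exact V.smul_mem c h1 }
  have hA : Module.Finite k A := hV
  have hI : Algebra.IsIntegral k A := Algebra.IsIntegral.of_finite k A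
  obtain ⟨c, hc⟩ := (IsAlgClosed.algebraMap_bijective_of_isIntegral (k := k) (K := A)).2 ⟨n, hn⟩
  exact ⟨c, (congrArg Subtype.val hc).symm⟩

theorem gam_const [IsAlgClosed k] (C : Prm T.X) (n : T.X.kap C.ζ) (hn : n ∈ gam C 0) :
    ∃ c : k, n = algebraMap k _ c := by
  have hmem : ∀ m : T.X.kap C.ζ, m ∈ gam C 0 ↔ ∀ x, C.ζ ⤳ x → m ∈ cR T.X C.ζ x := by
    intro m
    constructor
    · intro h x hx
      have := h x hx
      rwa [uu_zero, div_one] at this
    · intro h x hx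
      rw [uu_zero, div_one]
      exact h x hx
  refine f4_const (gam C 0) (gam_fin T C 0) ?_ ?_ n hn
  · rw [hmem]
    intro x _
    exact (cR T.X C.ζ x).one_mem
  · intro a ha b hb
    rw [hmem] at ha hb ⊢
    intro x hx
    exact (cR T.X C.ζ x).mul_mem (ha x hx) (hb x hx)

theorem gam_one [IsAlgClosed k] (C : Prm T.X) : finrank k (gam C 0) = 1 := by
  have h1 : (1 : T.X.kap C.ζ) ∈ gam C 0 := by
    intro x _
    rw [uu_zero, div_one]
    exact (cR T.X C.ζ x).one_mem
  refine finrank_eq_one (⟨1, h1⟩ : gam C 0) ?_ ?_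
  · intro h
    exact one_ne_zero (congrArg Subtype.val h)
  · rintro ⟨n, hn⟩
    obtain ⟨c, hc⟩ := gam_const T C n hn
    refine ⟨c, Subtype.ext ?_⟩
    change c • (1 : T.X.kap C.ζ) = n
    rw [hc, Algebra.algebraMap_eq_smul_one]

private theorem f4_h2 (C : Prm T.X) (D : Cart T.X) : finrank k (NN T C D).H2 ≤ T.h0 (T.M - D) := by
  obtain ⟨s, _⟩ := exists_ses T.sf T.U (cov_aff T) (cov_aff2 T) (cov_aff3 T) C D
  have h1 := s.h2_le (cech_fin T _) (cech_fin T _)
  rw [← h2_eq T D]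
  exact h1

theorem gam_ge (C : Prm T.X) (D : Cart T.X) :
    2 * form (T.φ D) (T.φ C.D) - form (T.φ C.D) (T.φ C.D) - 2 * (T.h0 (T.M - D) : ℤ) ≤
      2 * finrank k (gam C D) := by
  have h1 := N_chi T C D
  have h2 := f4_h2 T C D
  have h3 : (NN T C D).chi = (finrank k (NN T C D).H0 : ℤ) - (finrank k (NN T C D).H1 : ℤ) +
    (finrank k (NN T C D).H2 : ℤ) := rfl
  rw [gam_fr]
  have h4 : (finrank k (NN T C D).H2 : ℤ) ≤ (T.h0 (T.M - D) : ℤ) := by exact_mod_cast h2
  have h5 : (0 : ℤ) ≤ (finrank k (NN T C D).H1 : ℤ) := by positivity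
  rw [← h1, h3]
  linarith

private theorem f4_neg [IsAlgClosed k] (C : Prm T.X) : T.h0 (-C.D) = 0 := by
  by_contra h
  obtain ⟨f, hf, hx⟩ := (h0_pos T (-C.D)).1 (Nat.pos_of_ne_zero h)
  refine hf (gs_neg T C.D C.eff (fun h1 => C.ne (h1 _)) f (fun x => ?_))
  have := hx x
  rwa [neg_eq, ← div_eq_mul_inv] at this

theorem gam_ne [IsAlgClosed k] (C : Prm T.X) (h : form (T.φ C.D) (T.φ C.D) = 0) :
    ∃ n ∈ gam C (C.D + T.M), n ≠ 0 := by
  by_contra hcon
  push_neg at hcon
  have hbot : gam C (C.D + T.M) = ⊥ := by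
    rw [Submodule.eq_bot_iff]
    exact hcon
  have h0 : finrank k (gam C (C.D + T.M)) = 0 := by
    rw [hbot]
    exact finrank_bot k _
  rw [gam_fr] at h0
  obtain ⟨s, _⟩ := exists_ses T.sf T.U (cov_aff T) (cov_aff2 T) (cov_aff3 T) C (C.D + T.M)
  have h1 := s.h2_ge (cech_fin T _) (cech_fin T _)
  have h2 := f4_h2 T C (C.D + T.M)
  have e1 : C.D + T.M - C.D = T.M := by abel
  have e2 : T.M - (C.D + T.M) = -C.D := by abel
  rw [e2, f4_neg] at h2
  have h3 : finrank k (cech T.U (C.D + T.M)).H2 = 0 := by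
    have := h2_eq T (C.D + T.M)
    rw [e2, f4_neg] at this
    exact this
  have h4 : finrank k (cech T.U (C.D + T.M - C.D)).H2 = 1 := by
    rw [e1]
    have := h2_eq T T.M
    rw [sub_self, h0_one] at this
    exact this
  have h5 := N_chi T C (C.D + T.M)
  rw [map_add, phi_M, add_zero, h] at h5
  have h6 : (NN T C (C.D + T.M)).chi = (finrank k (NN T C (C.D + T.M)).H0 : ℤ) -
    (finrank k (NN T C (C.D + T.M)).H1 : ℤ) + (finrank k (NN T C (C.D + T.M)).H2 : ℤ) := rfl
  rw [h0] at h6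
  change finrank k (cech T.U (C.D + T.M - C.D)).H2 ≤
    finrank k (NN T C (C.D + T.M)).H1 + finrank k (cech T.U (C.D + T.M)).H2 at h1
  rw [h3, h4] at h1
  omega

theorem gam_lift (C : Prm T.X) (D : Cart T.X) (h : T.h1 (D - C.D) = 0) (n : T.X.kap C.ζ)
    (hn : n ∈ gam C D) : ∃ f : K, (∀ x, f * D.eq x ∈ T.X.O x) ∧ T.X.rs C.ζ (f * D.eq C.ζ) = n := by
  obtain ⟨s, hs⟩ := exists_ses T.sf T.U (cov_aff T) (cov_aff2 T) (cov_aff3 T) C D
  obtain ⟨c, hc, hc'⟩ := NC_ex T.sf T.U C D n hn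
  obtain ⟨b, hb, hb'⟩ := s.lift (cech_fin T _) h c hc
  have h1 := hs b
  rw [hb', hc'] at h1
  have h2 : del0 k K (Subtype.val b) = 0 := congrArg Subtype.val hb
  have h3 := congrArg Prod.fst h2
  have h4 := congrArg (fun q => q.2.1) h2
  have hg : (Subtype.val b).2.1 = (Subtype.val b).1 := sub_eq_zero.1 h3
  have hh : (Subtype.val b).2.2 = (Subtype.val b).1 := sub_eq_zero.1 h4
  refine ⟨(Subtype.val b).1, fun x => ?_, ?_⟩
  · obtain ⟨i, hi⟩ := cov_cov T x
    fin_cases i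
    · exact b.2.1 x hi
    · rw [← hg]
      exact b.2.2.1 x hi
    · rw [← hh]
      exact b.2.2.2 x hi
  · obtain ⟨i, hi⟩ := cov_cov T C.ζ
    have hJ : ∀ j : Fin 3, C.ζ ∈ T.U j → (csys T.X T.U C).e {j} = 1 := by
      intro j hj
      refine CSys.e_pos ?_
      intro l hl
      rw [Set.mem_singleton_iff] at hl
      rw [hl]
      exact hj
    fin_cases i
    · have h5 := congrArg Prod.fst h1
      change (csys T.X T.U C).e {0} • n = rho C D (T.U 0) _ at h5
      rw [hJ 0 hi, one_smul] at h5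
      rw [h5]
      exact (if_pos hi).symm
    · have h5 := congrArg (fun q => q.2.1) h1
      change (csys T.X T.U C).e {1} • n = rho C D (T.U 1) _ at h5
      rw [hJ 1 hi, one_smul] at h5
      rw [h5]
      refine Eq.trans ?_ (if_pos hi).symm
      change _ = T.X.rs C.ζ ((Subtype.val b).2.1 * D.eq C.ζ)
      rw [hg]
    · have h5 := congrArg (fun q => q.2.2) h1
      change (csys T.X T.U C).e {2} • n = rho C D (T.U 2) _ at h5
      rw [hJ 2 hi, one_smul] at h5
      rw [h5]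
      refine Eq.trans ?_ (if_pos hi).symm
      change _ = T.X.rs C.ζ ((Subtype.val b).2.2 * D.eq C.ζ)
      rw [hh]

theorem self_ge [IsAlgClosed k] (C : Prm T.X) : -2 ≤ form (T.φ C.D) (T.φ C.D) := by
  obtain ⟨s, _⟩ := exists_ses T.sf T.U (cov_aff T) (cov_aff2 T) (cov_aff3 T) C 0
  have h1 := s.h1_le (cech_fin T _) (cech_fin T _)
  have e1 : (0 : Cart T.X) - C.D = -C.D := zero_sub _
  have h2 : finrank k (NN T C 0).H0 = 1 := by
    rw [← gam_fr]
    exact gam_one T C
  have h3 : finrank k (cech T.U (0 : Cart T.X)).H0 = 1 := h0_one T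
  have h4 : finrank k (cech T.U (0 - C.D)).H0 = 0 := by
    rw [e1]
    exact f4_neg T C
  change finrank k (cech T.U (0 - C.D)).H1 + finrank k (cech T.U (0 : Cart T.X)).H0 ≤
    finrank k (cech T.U (0 - C.D)).H0 + finrank k (NN T C 0).H0 +
      finrank k (cech T.U (0 : Cart T.X)).H1 at h1
  rw [h2, h3, h4, e1] at h1
  have h5 := chi_split T (-C.D)
  have h6 := chi_split T (0 : Cart T.X)
  have h7 := chi_eq T (-C.D)
  have h8 := chi_eq T (0 : Cart T.X)
  have h9 : T.h2 0 ≤ T.h2 (-C.D) := by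
    rw [h2_eq, h2_eq, sub_zero, sub_neg_eq_add]
    exact h0_mono T _ _ C.eff
  have h10 : form (T.φ (-C.D)) (T.φ (-C.D)) = form (T.φ C.D) (T.φ C.D) := by
    have := f4_form_sub 0 (T.φ C.D)
    have h11 : form (0 : E10) (T.φ C.D) = 0 := by
      have := form_smul 0 (0 : E10) (T.φ C.D)
      rw [zero_smul, zero_mul] at this
      exact this
    have h12 : form (0 : E10) 0 = 0 := by
      have := form_smul 0 (0 : E10) 0
      rw [zero_smul, zero_mul] at this
      exact this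
    rw [zero_sub, h11, h12] at this
    rw [map_neg, this]
    ring
  have h13 : form (T.φ (0 : Cart T.X)) (T.φ (0 : Cart T.X)) = 0 := by
    rw [map_zero]
    have := form_smul 0 (0 : E10) 0
    rw [zero_smul, zero_mul] at this
    exact this
  rw [h10] at h7
  rw [h13] at h8
  have h14 : T.h0 (0 : Cart T.X) = 1 := h0_one T
  have h15 : T.h0 (-C.D) = 0 := f4_neg T C
  have h16 : T.h1 (-C.D) ≤ T.h1 (0 : Cart T.X) := by
    change finrank k (cech T.U (-C.D)).H1 ≤ finrank k (cech T.U (0 : Cart T.X)).H1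
    omega
  rw [h15] at h5
  rw [h14] at h6
  omega

end Pool.Agent.H54.EN
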