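import Pool.Agent.H54.EN.F4
import Pool.Agent.H54.EN.E6

/-!
# [H54 EN F5] zeros of sections on a curve of the surface

`S = csys T.X T.U C` satisfies `IsCS` (`isCS_csys`, `cov_aff`, `cov_cov`).  Let `n ≠ 0`, `n ∈ gam C D`.
* `constL`: the line `L x = n` (constant; `IsCS.fin`).  Multiplication by `n` is a bijective morphism `NN T C 0 → NC L` (the line of `0` is `uu C 0 x = 1`: `a / 1 ∈ R x ↔ (n a) / n ∈ R x`; the components are restrictions of a linear map which commutes with `edel0`, `edel1`), so by `finrank_of_bij` `NC L` is `Fin` (transport: `Module.Finite.equiv`, or prove that the maps on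
  cohomology are bijective) with the same `chi`.
  (For `Fin`: a bijective `CMap` has an inverse `CMap`; or use `SES`-free argument: `LinearEquiv.ofBijective (m1)`.)
* `const_chi`: `chi (NN T C D) - chi (NC L) = form (φ D) (φ C.D)` by `N_chi` for `D` and `0` (`form (φ 0) _ = 0`).
* `zeros_le`: `nc_zeros` for `L ≤ lineD D` (`L x / L' x = n / uu C D x ∈ cR`: `n ∈ gam C D`).
* `one_zero`: `nc_one`.
The points of `S` are the `x : {x // C.ζ ⤳ x ∧ x ≠ C.ζ}`.
-/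

set_option autoImplicit false

universe u

namespace Pool.Agent.H54.EN

variable {k K : Type u} [Field k] [Field K] [Algebra k K] (T : Ctx k K)

section cx

variable {A B : Cx k}

private theorem f5_fin (i : CMap A B) (h0 : Function.Surjective i.f0)
    (h1 : Function.Surjective i.f1) (i1 : Function.Injective i.f1)
    (h2 : Function.Bijective i.f2) (hA : A.Fin) : B.Fin := by
  have a0 := hA.f0
  have a1 := hA.f1
  have a2 := hA.f2
  refine ⟨?_, ?_, ?_⟩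
  · refine Module.Finite.of_surjective i.m0 ?_
    intro x
    obtain ⟨⟨z, hz⟩, rfl⟩ := B.mk0_bij.2 x
    obtain ⟨y, rfl⟩ := h0 z
    have hz' : B.d0 (i.f0 y) = 0 := hz
    rw [← i.c0] at hz'
    have hy : A.d0 y = 0 := i1 (by rw [hz', map_zero])
    exact ⟨A.mk0 ⟨y, hy⟩, rfl⟩
  · refine Module.Finite.of_surjective i.m1 ?_
    intro x
    obtain ⟨⟨z, hz⟩, rfl⟩ := B.mk1_surj x
    obtain ⟨y, rfl⟩ := h1 z
    have hz' : B.d1 (i.f1 y) = 0 := hz
    rw [← i.c1] at hz'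
    have hy : A.d1 y = 0 := h2.1 (by rw [hz', map_zero])
    exact ⟨A.mk1 ⟨y, hy⟩, rfl⟩
  · refine Module.Finite.of_surjective i.m2 ?_
    intro x
    obtain ⟨z, rfl⟩ := B.mk2_surj x
    obtain ⟨y, rfl⟩ := h2.2 z
    exact ⟨A.mk2 y, rfl⟩

end cx

private theorem f5_restrict {M : Type u} [AddCommGroup M] [Module k M] (m : M ≃ₗ[k] M)
    (p q : Submodule k M) (h : ∀ x ∈ p, m x ∈ q) (h' : ∀ x, m x ∈ q → x ∈ p) :
    Function.Bijective ((m : M →ₗ[k] M).restrict h : p →ₗ[k] q) := by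
  constructor
  · intro a b hab
    apply Subtype.ext
    exact m.injective (congrArg Subtype.val hab)
  · rintro ⟨b, hb⟩
    obtain ⟨a, rfl⟩ := m.surjective b
    exact ⟨⟨a, h' a hb⟩, rfl⟩

private theorem f5_mul {κ : Type u} [Field κ] [Algebra k κ] {S : CSys k κ} (L L' : Line S) (n : κ)
    (hn : n ≠ 0) (h : ∀ x, L'.L x = n * L.L x) (hA : (NC L).Fin) :
    (NC L').Fin ∧ (NC L).chi = (NC L').chi := by
  obtain ⟨m, hm⟩ : ∃ m : κ ≃ₗ[k] κ, ∀ a, m a = a * n := by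
    refine ⟨LinearEquiv.ofBijective (LinearMap.mulRight k n) ⟨?_, ?_⟩, fun n => rfl⟩
    · intro a b hab
      exact mul_right_cancel₀ hn hab
    · intro b
      exact ⟨b / n, div_mul_cancel₀ b hn⟩
  have key : ∀ (I : Set (Fin 3)) (a : κ), m a ∈ NS L' I ↔ a ∈ NS L I := by
    intro I a
    rw [hm]
    have h1 : ∀ x, a * n / L'.L x = a / L.L x := by
      intro x
      rw [h x, mul_comm n, mul_div_mul_right _ _ hn]
    constructor
    · rintro ⟨h2, h3⟩
      refine ⟨?_, fun x hx => ?_⟩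
      · rcases h2 with h2 | h2
        · exact Or.inl ((mul_eq_zero.1 h2).resolve_right hn)
        · exact Or.inr h2
      · rw [← h1 x]
        exact h3 x hx
    · rintro ⟨h2, h3⟩
      refine ⟨?_, fun x hx => ?_⟩
      · rcases h2 with h2 | h2
        · exact Or.inl (by rw [h2, zero_mul])
        · exact Or.inr h2
      · rw [h1 x]
        exact h3 x hx
  obtain ⟨m3, hm3⟩ : ∃ m3 : (κ × κ × κ) ≃ₗ[k] (κ × κ × κ), ∀ a, m3 a = (m a.1, m a.2.1, m a.2.2) :=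
    ⟨m.prodCongr (m.prodCongr m), fun a => rfl⟩
  have key0 : ∀ a : κ × κ × κ, m3 a ∈ NS0 L' ↔ a ∈ NS0 L := by
    intro a
    rw [hm3]
    constructor
    · rintro ⟨h0, h1, h2⟩
      exact ⟨(key _ _).1 h0, (key _ _).1 h1, (key _ _).1 h2⟩
    · rintro ⟨h0, h1, h2⟩
      exact ⟨(key _ _).2 h0, (key _ _).2 h1, (key _ _).2 h2⟩
  have key1 : ∀ a : κ × κ × κ, m3 a ∈ NS1 L' ↔ a ∈ NS1 L := by
    intro a
    rw [hm3]
    constructor
    · rintro ⟨h0, h1, h2⟩
      exact ⟨(key _ _).1 h0, (key _ _).1 h1, (key _ _).1 h2⟩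
    · rintro ⟨h0, h1, h2⟩
      exact ⟨(key _ _).2 h0, (key _ _).2 h1, (key _ _).2 h2⟩
  have b0 := f5_restrict m3 _ _ (fun a ha => (key0 a).2 ha) (fun a ha => (key0 a).1 ha)
  have b1 := f5_restrict m3 _ _ (fun a ha => (key1 a).2 ha) (fun a ha => (key1 a).1 ha)
  have b2 := f5_restrict m _ _ (fun a ha => (key Set.univ a).2 ha)
    (fun a ha => (key Set.univ a).1 ha)
  have i : ∃ i : CMap (NC L) (NC L'), Function.Bijective i.f0 ∧
      Function.Bijective i.f1 ∧ Function.Bijective i.f2 :=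
    ⟨{ f0 := (m3 : (κ × κ × κ) →ₗ[k] (κ × κ × κ)).restrict (fun a ha => (key0 a).2 ha)
       f1 := (m3 : (κ × κ × κ) →ₗ[k] (κ × κ × κ)).restrict (fun a ha => (key1 a).2 ha)
       f2 := (m : κ →ₗ[k] κ).restrict (fun a ha => (key Set.univ a).2 ha)
       c0 := fun x => by
        apply Subtype.ext
        change m3 (edel0 S x.1) = edel0 S (m3 x.1)
        rw [hm3, hm3]
        change (m (S.e {0, 1} • (x.1.2.1 - x.1.1)), m (S.e {0, 2} • (x.1.2.2 - x.1.1)),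
            m (S.e {1, 2} • (x.1.2.2 - x.1.2.1))) =
          (S.e {0, 1} • (m x.1.2.1 - m x.1.1), S.e {0, 2} • (m x.1.2.2 - m x.1.1),
            S.e {1, 2} • (m x.1.2.2 - m x.1.2.1))
        simp only [map_smul, map_sub]
       c1 := fun x => by
        apply Subtype.ext
        change m (edel1 S x.1) = edel1 S (m3 x.1)
        rw [hm3]
        change m (S.e Set.univ • (x.1.2.2 - x.1.2.1 + x.1.1)) =
          S.e Set.univ • (m x.1.2.2 - m x.1.2.1 + m x.1.1)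
        simp only [map_smul, map_add, map_sub] }, b0, b1, b2⟩
  obtain ⟨i, c0, c1, c2⟩ := i
  exact ⟨f5_fin i c0.2 c1.2 c1.1 c2 hA, (finrank_of_bij i c0 c1 c2).2.2.2⟩

private theorem f5_const [IsAlgClosed k] (C : Prm T.X) (D : Cart T.X) (n : T.X.kap C.ζ)
    (hn0 : n ≠ 0) : ∃ L : Line (csys T.X T.U C), (∀ x, L.L x = n) ∧ (NC L).Fin ∧
      (NN T C D).chi - (NC L).chi = form (T.φ D) (T.φ C.D) := by
  have hS := isCS_csys T.sf T.U (cov_aff T) (cov_cov T) C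
  refine ⟨⟨fun _ => n, fun _ => hn0, hS.fin n hn0⟩, fun x => rfl, ?_⟩
  obtain ⟨h1, h2⟩ := f5_mul (lineD T.sf T.U C 0)
    (⟨fun _ => n, fun _ => hn0, hS.fin n hn0⟩ : Line (csys T.X T.U C)) n hn0 (fun x => by
      change n = n * uu C 0 x.1
      rw [uu_zero, mul_one]) (N_fin T C 0)
  refine ⟨h1, ?_⟩
  rw [← h2]
  have h3 := N_chi T C D
  have h4 := N_chi T C 0
  have hz : form (T.φ 0) (T.φ C.D) = 0 := by
    have := form_smul 0 (T.φ 0) (T.φ C.D)
    rw [zero_smul, zero_mul] at this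
    rw [map_zero]
    exact this
  rw [hz] at h4
  linarith

theorem zeros_le [IsAlgClosed k] (C : Prm T.X) (D : Cart T.X) (n : T.X.kap C.ζ)
    (hn : n ∈ gam C D) (hn0 : n ≠ 0) (F : Finset T.X.P)
    (hF : ∀ x ∈ F, C.ζ ⤳ x ∧ x ≠ C.ζ ∧ ¬ Un (cR T.X C.ζ x) (n / uu C D x)) :
    (F.card : ℤ) ≤ form (T.φ D) (T.φ C.D) := by
  classical
  have hS := isCS_csys T.sf T.U (cov_aff T) (cov_cov T) C
  obtain ⟨L, hL, hfin, hchi⟩ := f5_const T C D n hn0
  rw [← hchi]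
  have hG0 : ∃ G : Finset {x : T.X.P // C.ζ ⤳ x ∧ x ≠ C.ζ}, (∀ x ∈ G, x.1 ∈ F) ∧
      G.card = F.card := by
    refine ⟨F.subtype _, fun x hx => Finset.mem_subtype.1 hx, ?_⟩
    rw [Finset.card_subtype, Finset.filter_true_of_mem
      (fun x hx => ⟨(hF x hx).1, (hF x hx).2.1⟩)]
  obtain ⟨G, hG, hGc⟩ : ∃ G : Finset (csys T.X T.U C).P, (∀ x ∈ G, x.1 ∈ F) ∧
      G.card = F.card := hG0
  have h1 := nc_zeros hS L (lineD T.sf T.U C D) (fun x => by
    rw [hL]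
    exact hn x.1 x.2.1) hfin (N_fin T C D) G (fun x hx => by
      rw [hL]
      exact (hF _ (hG x hx)).2.2)
  rw [hGc] at h1
  exact h1

theorem one_zero [IsAlgClosed k] (C : Prm T.X) (D : Cart T.X) (n : T.X.kap C.ζ)
    (hn : n ∈ gam C D) (hn0 : n ≠ 0) (h1 : form (T.φ D) (T.φ C.D) = 1) :
    ∃ x, C.ζ ⤳ x ∧ x ≠ C.ζ ∧ ¬ Un (cR T.X C.ζ x) (n / uu C D x) ∧
      (∀ y, C.ζ ⤳ y → y ≠ C.ζ → ¬ Un (cR T.X C.ζ y) (n / uu C D y) → y = x) ∧
      ∀ t ∈ cR T.X C.ζ x, ¬ Un (cR T.X C.ζ x) t → t / (n / uu C D x) ∈ cR T.X C.ζ x := by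
  have hS := isCS_csys T.sf T.U (cov_aff T) (cov_cov T) C
  obtain ⟨L, hL, hfin, hchi⟩ := f5_const T C D n hn0
  rw [h1] at hchi
  obtain ⟨x, h2, h3, h4⟩ := nc_one hS L (lineD T.sf T.U C D) (fun x => by
    rw [hL]
    exact hn x.1 x.2.1) hfin (N_fin T C D) hchi
  rw [hL] at h2 h4
  refine ⟨x.1, x.2.1, x.2.2, h2, ?_, h4⟩
  intro y hy hyne hyu
  have h5 := h3 ⟨y, hy, hyne⟩ (by
    rw [hL]
    exact hyu)
  exact congrArg Subtype.val h5

end Pool.Agent.H54.EN
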