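import Pool.Agent.H54.EN.S7

/-!
# Enriques surfaces: the definitions of the statement

* `Enriques k`: an Enriques surface over `k`: an integral scheme `Y`, proper over `k`, locally factorial, with local
  rings of dimension `2` at the closed points; a Cartier divisor `A` with three sections without common zero whose
  nonvanishing sets are affine (so that `A` is ample); a canonical divisor `M` which is numerically trivial; `χ(O) = 1`.
* `Marking E`: an isometry of `Num(Y)` and `E10`, given as a surjective map from the group of the divisors which
  preserves the intersection numbers.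
* `Realized w`: `w` is realized by an automorphism of an Enriques surface over an algebraically closed field.
-/

set_option autoImplicit false

universe u

namespace Pool.Agent.H54.EN

open AlgebraicGeometry CategoryTheory

/-- an Enriques surface over `k` -/
structure Enriques (k : Type u) [Field k] where
  /-- the scheme -/
  Y : Scheme.{u}
  [int : IsIntegral Y]
  /-- the structure morphism -/
  f : Y ⟶ Spec (.of k)
  [proper : IsProper f]
  ufd : ∀ y : Y, UniqueFactorizationMonoid (Y.presheaf.stalk y)
  dim : ∀ y : Y, ringKrullDim (Y.presheaf.stalk y) ≤ 2
  dimc : ∀ y : Y, IsClosed ({y} : Set Y) → ringKrullDim (Y.presheaf.stalk y) = 2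
  /-- an ample divisor -/
  A : Cart (mdl f)
  /-- three sections of `O(A)` -/
  s : Fin 3 → FF f
  pol : IsPol A s
  /-- the canonical divisor -/
  M : Cart (mdl f)
  can : IsCan (cov A s) M
  num : ∀ D, inter (cov A s) D M = 0
  chi1 : chiD (cov A s) 0 = 1

attribute [instance] Enriques.int Enriques.proper

/-- the Cartier divisors of an Enriques surface -/
abbrev Enriques.Div {k : Type u} [Field k] (E : Enriques k) : Type u := Cart (mdl E.f)

/-- the intersection number of two divisors -/
noncomputable def Enriques.dot {k : Type u} [Field k] (E : Enriques k) (D D' : E.Div) : ℤ :=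
  inter (cov E.A E.s) D D'

/-- a marking, that is an isometry of `Num(Y)` and `E10` -/
structure Marking {k : Type u} [Field k] (E : Enriques k) where
  /-- the map from the group of the divisors -/
  φ : E.Div →+ E10
  surj : Function.Surjective φ
  isom : ∀ D D', form (φ D) (φ D') = E.dot D D'

/-- the pull-back of divisors by an automorphism over `k` -/
noncomputable def Enriques.pull {k : Type u} [Field k] (E : Enriques k) (g : E.Y ≅ E.Y)
    (hg : g.hom ≫ E.f = E.f) (D : E.Div) : E.Div :=
  (mkMAut E.f g hg).pull D

/-- `w` is realized by an automorphism of an Enriques surface over an algebraically closed field -/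
def Realized (w : E10 ≃ₗ[ℤ] E10) : Prop :=
  ∃ (k : Type u) (_ : Field k) (_ : IsAlgClosed k) (E : Enriques k) (m : Marking E) (g : E.Y ≅ E.Y)
    (hg : g.hom ≫ E.f = E.f), ∀ D, m.φ (E.pull g hg D) = w (m.φ D)

end Pool.Agent.H54.EN
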