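import Pool.Agent.H54.EN.G1

/-!
# [H54 EN G2] the isometry `w` of order 6 is in the Weyl group

* `exists_refl`: for `r` with `form r r = -2` the map `x ↦ x + (x . r) r` is linear and an involution (`form_add`, `form_smul`, `form (x . r r) r = -2 (x . r)`): `LinearEquiv.ofInvolutive`.  In the group `E10 ≃ₗ[ℤ] E10` the product is the composition (`LinearEquiv.mul_apply`).
* `swp i j`: `r = fv i - fv j` (`i ≠ j`): `form r r = -2`, `form x r = co x i - co x j`, and `co (fv i - fv j) m = [j = m] - [i = m]` (`form_fv`), so in the coordinates the reflection exchanges `c i` and `c j`.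
* `tri i j l` (distinct): `r` with `co r = 1` at `i, j, l` and `0` elsewhere (`exists_co`): `form r r = -2` by `form_co` (`9 * form r r = 9 - 27`), `form x r = s / 3 - (c i + c j + c l)` where `s = ∑ co x m` (`form_co`: `9 * form x r = 3 s - 9 (c i + c j + c l)`); the reflection adds `form x r` to the coordinates `i, j, l`.
* The seven vectors `r` for the lines of a Fano plane on `{3, ..., 9}`: `{3,4,6}, {4,5,7}, {5,6,8}, {6,7,9}, {7,8,3}, {8,9,4}, {9,3,5}` (two lines meet in one point, so the vectors are orthogonal: `form r r' = 1 - 1 = 0`, and the reflections commute).  Their product maps `c j` (`j ≥ 3`) to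
  `c j + ∑_{lines ∋ j} (s / 3 - c(line)) = c j + s - (3 c j + ∑_{m ≥ 3, m ≠ j} c m) = (c 0 + c 1 + c 2) - c j` and fixes `c 0, c 1, c 2`: compute the composition step by step (each step is explicit; the final identities are linear in the `c m` and `s / 3`; with `s = 3 t` use `t`).
* Then compose with the swaps `(0 1)`, `(1 2)` in the right order to get `(c0, c1, c2) ↦ (c2, c0, c1)`.
-/

set_option autoImplicit false

namespace Pool.Agent.H54.EN

theorem exists_refl (r : E10) (hr : form r r = -2) : ∃ g ∈ WE10, ∀ x, g x = x + form x r • r := by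
  obtain ⟨L, hL⟩ : ∃ L : E10 →ₗ[ℤ] E10, ∀ x, L x = x + form x r • r :=
    ⟨{ toFun := fun x => x + form x r • r
       map_add' := fun x y => by
        rw [form_add, add_smul]
        abel
       map_smul' := fun n x => by
        rw [form_smul, RingHom.id_apply, smul_add, mul_smul] }, fun x => rfl⟩
  have hinv : Function.Involutive L := by
    intro x
    rw [hL, hL, form_add, form_smul, hr, add_assoc, ← add_smul]
    have h1 : form x r + (form x r + form x r * -2) = 0 := by ring
    rw [h1, zero_smul, add_zero]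
  refine ⟨LinearEquiv.ofInvolutive L hinv, Subgroup.subset_closure ⟨r, hr, fun x => ?_⟩,
    fun x => ?_⟩
  · exact hL x
  · exact hL x

private theorem g2_co_add (x y : E10) (i : Fin 10) : co (x + y) i = co x i + co y i :=
  form_add _ _ _

private theorem g2_co_smul (n : ℤ) (x : E10) (i : Fin 10) : co (n • x) i = n * co x i :=
  form_smul _ _ _

private theorem g2_form_sub (x y z : E10) : form (x - y) z = form x z - form y z := by
  have h := form_add (x - y) y z
  rw [sub_add_cancel] at h
  linarith

private theorem g2_co_sum {α : Type} (s : Finset α) (f : α → E10) (i : Fin 10) :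
    co (∑ a ∈ s, f a) i = ∑ a ∈ s, co (f a) i :=
  map_sum (AddMonoidHom.mk' (fun x : E10 => co x i) (fun x y => g2_co_add x y i)) f s

private theorem g2_sum10 (f : Fin 10 → ℤ) : ∑ i, f i =
    f 0 + f 1 + f 2 + f 3 + f 4 + f 5 + f 6 + f 7 + f 8 + f 9 := by
  rw [Fin.sum_univ_castSucc, Fin.sum_univ_castSucc, Fin.sum_univ_eight]
  rfl

/-- the lines of a Fano plane -/
private def inc7 : Fin 7 → Fin 10 → ℤ :=
  ![![0, 0, 0, 1, 1, 0, 1, 0, 0, 0],
    ![0, 0, 0, 0, 1, 1, 0, 1, 0, 0],
    ![0, 0, 0, 0, 0, 1, 1, 0, 1, 0],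
    ![0, 0, 0, 0, 0, 0, 1, 1, 0, 1],
    ![0, 0, 0, 1, 0, 0, 0, 1, 1, 0],
    ![0, 0, 0, 0, 1, 0, 0, 0, 1, 1],
    ![0, 0, 0, 1, 0, 1, 0, 0, 0, 1]]

private theorem t_row : ∀ a, ∑ l, inc7 a l = 3 := by decide +kernel

private theorem t_prod : ∀ a b, ∑ l, inc7 a l * inc7 b l = if a = b then 3 else 1 := by
  decide +kernel

private theorem t_col0 : ∀ m, m < 3 → ∀ a, inc7 a m = 0 := by decide +kernel

private theorem t_col : ∀ m, 3 ≤ m → ∑ a, inc7 a m = 3 := by decide +kernel

private theorem t_two : ∀ l m, 3 ≤ m → ∑ a, inc7 a l * inc7 a m =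
    (if l < 3 then 0 else 1) + if l = m then 2 else 0 := by decide +kernel

private theorem exists_w1 : ∃ g ∈ WE10, ∀ x, (∀ m : Fin 10, m < 3 → co (g x) m = co x m) ∧
    ∀ m : Fin 10, 3 ≤ m → co (g x) m = deg x - co x m := by
  have h0 : ∀ a, ∃ r : E10, ∀ l, co r l = inc7 a l := fun a =>
    exists_co (inc7 a) (by rw [t_row])
  choose R hR using h0
  have hform : ∀ a b, form (R a) (R b) = if a = b then -2 else 0 := by
    intro a b
    have h1 := form_co (R a) (R b)
    simp only [hR] at h1
    rw [t_row, t_row, t_prod] at h1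
    by_cases hab : a = b
    · rw [if_pos hab] at h1 ⊢
      omega
    · rw [if_neg hab] at h1 ⊢
      omega
  have hx : ∀ x a, form x (R a) * 3 = (∑ l, co x l) - 3 * ∑ l, co x l * inc7 a l := by
    intro x a
    have h1 := form_co x (R a)
    simp only [hR] at h1
    rw [t_row] at h1
    linarith
  have hS : ∀ S : Finset (Fin 7), ∃ g ∈ WE10, ∀ x, g x = x + ∑ a ∈ S, form x (R a) • R a := by
    intro S
    classical
    induction S using Finset.induction_on with
    | empty =>
      refine ⟨1, WE10.one_mem, fun x => ?_⟩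
      rw [Finset.sum_empty, add_zero]
      rfl
    | insert a S ha ih =>
      obtain ⟨g, hg, hgx⟩ := ih
      obtain ⟨g', hg', hgx'⟩ := exists_refl (R a) (by rw [hform, if_pos rfl])
      refine ⟨g * g', WE10.mul_mem hg hg', fun x => ?_⟩
      have h1 : (g * g') x = g (g' x) := rfl
      rw [h1, hgx, hgx', Finset.sum_insert ha]
      have h2 : ∑ b ∈ S, form (x + form x (R a) • R a) (R b) • R b =
          ∑ b ∈ S, form x (R b) • R b := by
        refine Finset.sum_congr rfl fun b hb => ?_
        have hab : a ≠ b := fun h => ha (by rw [h]; exact hb)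
        rw [form_add, form_smul, hform, if_neg hab, mul_zero, add_zero]
      rw [h2, add_assoc]
  obtain ⟨g, hg, hgx⟩ := hS Finset.univ
  refine ⟨g, hg, fun x => ?_⟩
  have hco : ∀ m, co (g x) m = co x m + ∑ a, form x (R a) * inc7 a m := by
    intro m
    rw [hgx, g2_co_add, g2_co_sum]
    simp only [g2_co_smul, hR]
  constructor
  · intro m hm
    rw [hco]
    simp only [t_col0 m hm, mul_zero, Finset.sum_const_zero, add_zero]
  · intro m hm
    have h1 : 3 * ∑ a, form x (R a) * inc7 a m =
        (∑ l, co x l) * ∑ a, inc7 a m - 3 * ∑ l, co x l * ∑ a, inc7 a l * inc7 a m := by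
      have h2 : 3 * ∑ a, form x (R a) * inc7 a m =
          ∑ a, ((∑ l, co x l) * inc7 a m - 3 * ∑ l, co x l * (inc7 a l * inc7 a m)) := by
        rw [Finset.mul_sum]
        refine Finset.sum_congr rfl fun a _ => ?_
        have h3 := hx x a
        have h4 : ∑ l, co x l * (inc7 a l * inc7 a m) = (∑ l, co x l * inc7 a l) * inc7 a m := by
          rw [Finset.sum_mul]
          refine Finset.sum_congr rfl fun l _ => ?_
          ring
        rw [h4]
        linear_combination inc7 a m * h3
      rw [h2, Finset.sum_sub_distrib, ← Finset.mul_sum, ← Finset.mul_sum]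
      congr 2
      rw [Finset.sum_comm]
      refine Finset.sum_congr rfl fun l _ => ?_
      rw [Finset.mul_sum]
    rw [t_col m hm] at h1
    simp only [t_two _ m hm, mul_add, Finset.sum_add_distrib] at h1
    have h5 : ∑ l, co x l * (if l = m then (2 : ℤ) else 0) = 2 * co x m := by
      simp only [mul_ite, mul_zero]
      rw [Finset.sum_ite_eq', if_pos (Finset.mem_univ m)]
      ring
    have h6 : ∑ l, co x l * (if l < 3 then (0 : ℤ) else 1) =
        (∑ l, co x l) - deg x := by
      rw [g2_sum10, g2_sum10, if_pos (by decide), if_pos (by decide), if_pos (by decide),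
        if_neg (by decide), if_neg (by decide), if_neg (by decide), if_neg (by decide),
        if_neg (by decide), if_neg (by decide), if_neg (by decide)]
      unfold deg
      ring
    rw [h5, h6] at h1
    rw [hco]
    linarith

private theorem exists_swap (i j : Fin 10) (hij : i ≠ j) : ∃ g ∈ WE10, ∀ x,
    co (g x) i = co x j ∧ co (g x) j = co x i ∧
      ∀ m, m ≠ i → m ≠ j → co (g x) m = co x m := by
  have hr : form (fv i - fv j) (fv i - fv j) = -2 := by
    rw [g2_form_sub, form_comm (fv i), form_comm (fv j), g2_form_sub, g2_form_sub, form_fv,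
      form_fv, form_fv, form_fv, if_pos rfl, if_neg hij, if_neg (Ne.symm hij), if_pos rfl]
    norm_num
  obtain ⟨g, hg, hgx⟩ := exists_refl _ hr
  refine ⟨g, hg, fun x => ?_⟩
  have h1 : form x (fv i - fv j) = co x i - co x j := by
    rw [form_comm, g2_form_sub, form_comm (fv i), form_comm (fv j)]
    rfl
  have h2 : ∀ m, co (g x) m = co x m + (co x i - co x j) * (form (fv i) (fv m) -
      form (fv j) (fv m)) := by
    intro m
    rw [hgx, h1, g2_co_add, g2_co_smul]
    congr 2
    exact g2_form_sub _ _ _
  refine ⟨?_, ?_, ?_⟩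
  · rw [h2, form_fv, form_fv, if_pos rfl, if_neg (Ne.symm hij)]
    ring
  · rw [h2, form_fv, form_fv, if_pos rfl, if_neg hij]
    ring
  · intro m hi hj
    rw [h2, form_fv, form_fv, if_neg (Ne.symm hi), if_neg (Ne.symm hj)]
    ring

theorem exists_w : ∃ w ∈ WE10, IsW w := by
  obtain ⟨g, hg, hgx⟩ := exists_w1
  obtain ⟨a, ha, hax⟩ := exists_swap 0 1 (by decide)
  obtain ⟨b, hb, hbx⟩ := exists_swap 1 2 (by decide)
  refine ⟨a * (b * g), WE10.mul_mem ha (WE10.mul_mem hb hg), ?_⟩
  have e : ∀ x, (a * (b * g)) x = a (b (g x)) := fun x => rfl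
  refine ⟨?_, ?_, ?_, ?_⟩
  · intro x
    rw [e, (hax _).1, (hbx _).1, (hgx x).1 2 (by decide)]
  · intro x
    rw [e, (hax _).2.1, (hbx _).2.2 0 (by decide) (by decide), (hgx x).1 0 (by decide)]
  · intro x
    rw [e, (hax _).2.2 2 (by decide) (by decide), (hbx _).2.1, (hgx x).1 1 (by decide)]
  · intro x j hj
    have h0 : j ≠ 0 := by
      rintro rfl
      exact absurd hj (by decide)
    have h1 : j ≠ 1 := by
      rintro rfl
      exact absurd hj (by decide)
    have h2 : j ≠ 2 := by
      rintro rfl
      exact absurd hj (by decide)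
    rw [e, (hax _).2.2 j h0 h1, (hbx _).2.2 j h1 h2, (hgx x).2 j hj]

end Pool.Agent.H54.EN
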