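import Pool.Agent.H54.EN.G1

/-!
# [H54 EN G3] properties of the isometry

`hw : IsW w`.  All statements follow from the formulas for the coordinates, with `co_inj`, `form_co`; sums over `Fin 10` by `Fin.sum_univ_succ` or `Fin.sum_univ_ten`-type expansion (`simp [Fin.sum_univ_succ]`), and `hw.cj x 3 (by decide)`, ... .
* `form_w`: with `y = deg x`, `y' = deg x'`: the sum of the coordinates of `w x` is `9... `: `∑ co (w x) = y + 7 y - (s - y) = 9 y - s`; `∑ co (w x) * co (w x') = (first three) + ∑_{j ≥ 3} (y - c j) (y' - c' j)`; the identity of `9 * form` is a polynomial identity (`linarith`/`ring` after expansion).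
* `deg_w`.  `w2`: coordinates of `w (w x)`: `(c1, c2, c0, c j)`.  `w6`.
* `w_inv`: `w x = x`: `c0 = c1 = c2 =: a`, `2 c j = 3 a` for `j ≥ 3`: so `a = 2 m`, `c j = 3 m`; `co hv = (2, 2, 2, 3, ..., 3)`.
* `deg_hv`: `deg x = form x hv`.  `deg_add`, `deg_smul`, `deg_neg`, `co_add`...
* `curve_deg`: `c` with `deg c = 1` leads to a contradiction: let `y = 1`, `c i = co c i`, `Q = c0² + c1² + c2² - c0 c1 - c1 c2 - c2 c0 ≥ 0`.  `form c (w (w c)) = form c c + Q` (`form_co`, both sides times `9`).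
  `6 * form c c ≤ y² - 4 Q`: with `z = ∑_{j ≥ 3} c j`: `9 form c c = (y + z)² - 9 ∑ c i²`, `∑_{i<3} c i² = (y² + 2 Q) / 3`, `7 ∑_{j ≥ 3} c j² ≥ z²` (Cauchy: `inner_mul_le_norm_mul_norm` or `sq_sum_le_card_mul_sum_sq`), and `(2 z - 7 y)² ≥ 0`.
  `Q = y² - 3 (c0 c1 + c1 c2 + c2 c0)` so `Q ≡ 1` modulo `3`: `Q = 1` or `Q ≥ 4`.  `Q ≥ 4`: `6 form c c ≤ 1 - 16 < -12`, against `-2 ≤ form c c`.  `Q = 1`: `6 form c c ≤ -3`, so `form c c < 0`, even (`form_even`) and `≥ -2`: `form c c = -2`, `form c (w (w c)) = -1 < 0`, so `w (w c) = c` by `h`: then `c0 = c1 = c2`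
  (coordinates of `w (w c)`) and `3 c0 = 1`, impossible.
-/

set_option autoImplicit false

namespace Pool.Agent.H54.EN

theorem co_add (x y : E10) (i : Fin 10) : co (x + y) i = co x i + co y i := form_add _ _ _

theorem co_sub (x y : E10) (i : Fin 10) : co (x - y) i = co x i - co y i := by
  have h := co_add (x - y) y i
  rw [sub_add_cancel] at h
  linarith

theorem co_smul (n : ℤ) (x : E10) (i : Fin 10) : co (n • x) i = n * co x i := form_smul _ _ _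

theorem deg_hv (x : E10) : deg x = form x hv := by
  unfold hv deg co
  rw [form_comm x (fv 0 + fv 1 + fv 2), form_add, form_add, form_comm (fv 0), form_comm (fv 1),
    form_comm (fv 2)]

theorem deg_add (x y : E10) : deg (x + y) = deg x + deg y := by
  unfold deg
  rw [co_add, co_add, co_add]
  ring

theorem deg_sub (x y : E10) : deg (x - y) = deg x - deg y := by
  unfold deg
  rw [co_sub, co_sub, co_sub]
  ring

private theorem sum10 (f : Fin 10 → ℤ) : ∑ i, f i =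
    f 0 + f 1 + f 2 + f 3 + f 4 + f 5 + f 6 + f 7 + f 8 + f 9 := by
  rw [Fin.sum_univ_castSucc, Fin.sum_univ_castSucc, Fin.sum_univ_eight]
  rfl

theorem form_w {w : E10 ≃ₗ[ℤ] E10} (hw : IsW w) (x y : E10) : form (w x) (w y) = form x y := by
  have h1 := form_co (w x) (w y)
  have h2 := form_co x y
  simp only [sum10] at h1 h2
  simp only [hw.c0, hw.c1, hw.c2, hw.cj _ 3 (by decide), hw.cj _ 4 (by decide),
    hw.cj _ 5 (by decide), hw.cj _ 6 (by decide), hw.cj _ 7 (by decide), hw.cj _ 8 (by decide),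
    hw.cj _ 9 (by decide)] at h1
  unfold deg at h1
  have h3 : 9 * form (w x) (w y) = 9 * form x y := by
    rw [h1, h2]
    ring
  linarith

theorem deg_w {w : E10 ≃ₗ[ℤ] E10} (hw : IsW w) (x : E10) : deg (w x) = deg x := by
  unfold deg
  rw [hw.c0, hw.c1, hw.c2]
  ring

theorem w2_co {w : E10 ≃ₗ[ℤ] E10} (hw : IsW w) (x : E10) :
    co (w (w x)) 0 = co x 1 ∧ co (w (w x)) 1 = co x 2 ∧ co (w (w x)) 2 = co x 0 ∧
      ∀ j : Fin 10, 3 ≤ j → co (w (w x)) j = co x j := by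
  refine ⟨?_, ?_, ?_, ?_⟩
  · rw [hw.c0, hw.c2]
  · rw [hw.c1, hw.c0]
  · rw [hw.c2, hw.c1]
  · intro j hj
    rw [hw.cj _ j hj, hw.cj _ j hj, deg_w hw]
    ring

private theorem cases10 (i : Fin 10) : i = 0 ∨ i = 1 ∨ i = 2 ∨ 3 ≤ i := by
  revert i
  decide

theorem w6 {w : E10 ≃ₗ[ℤ] E10} (hw : IsW w) (x : E10) : w (w (w (w (w (w x))))) = x := by
  apply co_inj
  intro i
  obtain ⟨a0, a1, a2, aj⟩ := w2_co hw (w (w (w (w x))))
  obtain ⟨b0, b1, b2, bj⟩ := w2_co hw (w (w x))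
  obtain ⟨c0, c1, c2, cj⟩ := w2_co hw x
  rcases cases10 i with h | h | h | h
  · rw [h, a0, b1, c2]
  · rw [h, a1, b2, c0]
  · rw [h, a2, b0, c1]
  · rw [aj i h, bj i h, cj i h]

private theorem co_hv (i : Fin 10) : co hv i = if i < 3 then 2 else 3 := by
  revert i
  decide +kernel

theorem w_inv {w : E10 ≃ₗ[ℤ] E10} (hw : IsW w) (x : E10) (h : w x = x) : ∃ m : ℤ, x = m • hv := by
  have h0 := hw.c0 x
  have h1 := hw.c1 x
  have h2 := hw.c2 x
  have h3 := hw.cj x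
  rw [h] at h0 h1 h2 h3
  have h4 := h3 3 (by decide)
  unfold deg at h3 h4
  obtain ⟨m, hm⟩ : ∃ m, co x 0 = 2 * m := ⟨co x 3 - co x 0, by omega⟩
  refine ⟨m, co_inj fun i => ?_⟩
  rw [co_smul, co_hv]
  rcases cases10 i with h | h | h | h
  · rw [h, if_pos (by decide)]
    omega
  · rw [h, if_pos (by decide)]
    omega
  · rw [h, if_pos (by decide)]
    omega
  · rw [if_neg (not_lt.2 h)]
    have h5 := h3 i h
    omega

private theorem cs7 (a b c d e f g : ℤ) : (a + b + c + d + e + f + g) ^ 2 ≤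
    7 * (a ^ 2 + b ^ 2 + c ^ 2 + d ^ 2 + e ^ 2 + f ^ 2 + g ^ 2) := by
  have h : 7 * (a ^ 2 + b ^ 2 + c ^ 2 + d ^ 2 + e ^ 2 + f ^ 2 + g ^ 2) -
      (a + b + c + d + e + f + g) ^ 2 = (a - b) ^ 2 + (a - c) ^ 2 + (a - d) ^ 2 + (a - e) ^ 2 +
      (a - f) ^ 2 + (a - g) ^ 2 + (b - c) ^ 2 + (b - d) ^ 2 + (b - e) ^ 2 + (b - f) ^ 2 +
      (b - g) ^ 2 + (c - d) ^ 2 + (c - e) ^ 2 + (c - f) ^ 2 + (c - g) ^ 2 + (d - e) ^ 2 +
      (d - f) ^ 2 + (d - g) ^ 2 + (e - f) ^ 2 + (e - g) ^ 2 + (f - g) ^ 2 := by ring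
  have h2 : 0 ≤ (a - b) ^ 2 + (a - c) ^ 2 + (a - d) ^ 2 + (a - e) ^ 2 +
      (a - f) ^ 2 + (a - g) ^ 2 + (b - c) ^ 2 + (b - d) ^ 2 + (b - e) ^ 2 + (b - f) ^ 2 +
      (b - g) ^ 2 + (c - d) ^ 2 + (c - e) ^ 2 + (c - f) ^ 2 + (c - g) ^ 2 + (d - e) ^ 2 +
      (d - f) ^ 2 + (d - g) ^ 2 + (e - f) ^ 2 + (e - g) ^ 2 + (f - g) ^ 2 := by positivity
  linarith

theorem curve_deg {w : E10 ≃ₗ[ℤ] E10} (hw : IsW w) (c : E10) (h0 : 0 < deg c)
    (h2 : -2 ≤ form c c) (h : w (w c) ≠ c → 0 ≤ form c (w (w c))) : 2 ≤ deg c := by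
  by_contra hcon
  have hy : deg c = 1 := by omega
  obtain ⟨w0, w1, w2, wj⟩ := w2_co hw c
  have e1 := form_co c c
  have e2 := form_co c (w (w c))
  simp only [sum10] at e1 e2
  rw [w0, w1, w2, wj 3 (by decide), wj 4 (by decide), wj 5 (by decide), wj 6 (by decide),
    wj 7 (by decide), wj 8 (by decide), wj 9 (by decide)] at e2
  unfold deg at hy
  obtain ⟨a, ha⟩ : ∃ a, a = co c 0 := ⟨_, rfl⟩
  obtain ⟨b, hb⟩ : ∃ b, b = co c 1 := ⟨_, rfl⟩
  obtain ⟨d, hd⟩ : ∃ d, d = co c 2 := ⟨_, rfl⟩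
  have hcs := cs7 (co c 3) (co c 4) (co c 5) (co c 6) (co c 7) (co c 8) (co c 9)
  obtain ⟨z, hz⟩ : ∃ z, z = co c 3 + co c 4 + co c 5 + co c 6 + co c 7 + co c 8 + co c 9 :=
    ⟨_, rfl⟩
  obtain ⟨B, hB⟩ : ∃ B, B = co c 3 ^ 2 + co c 4 ^ 2 + co c 5 ^ 2 + co c 6 ^ 2 + co c 7 ^ 2 +
    co c 8 ^ 2 + co c 9 ^ 2 := ⟨_, rfl⟩
  rw [← hz, ← hB] at hcs
  have e3 : 9 * form c c = (1 + z) ^ 2 - 9 * (a ^ 2 + b ^ 2 + d ^ 2) - 9 * B := by
    rw [e1, hz, hB, ← hy, ha, hb, hd]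
    ring
  have e4 : 9 * form c (w (w c)) = (1 + z) ^ 2 - 9 * (a * b + b * d + d * a) - 9 * B := by
    rw [e2, hz, hB, ← hy, ha, hb, hd]
    ring
  rw [← ha, ← hb, ← hd] at hy
  obtain ⟨P, hP⟩ : ∃ P, P = a * b + b * d + d * a := ⟨_, rfl⟩
  have hA : a ^ 2 + b ^ 2 + d ^ 2 = 1 - 2 * P := by
    have : (a + b + d) ^ 2 = 1 := by rw [hy]; norm_num
    rw [hP]
    linarith
  rw [hA] at e3
  rw [← hP] at e4
  have hQ : 0 ≤ 1 - 3 * P := by
    have h5 : 2 * (1 - 3 * P) = (a - b) ^ 2 + (b - d) ^ 2 + (d - a) ^ 2 := by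
      have h6 : 1 - 2 * P = a ^ 2 + b ^ 2 + d ^ 2 := hA.symm
      rw [hP] at h6 ⊢
      linarith
    have h6 : 0 ≤ (a - b) ^ 2 + (b - d) ^ 2 + (d - a) ^ 2 := by positivity
    linarith
  have h7 : 0 ≤ (2 * z - 7) ^ 2 := sq_nonneg _
  have h8 : 6 * form c c ≤ 1 - 4 * (1 - 3 * P) := by
    have h9 : (2 * z - 7) ^ 2 = 4 * z ^ 2 - 28 * z + 49 := by ring
    have h10 : (1 + z) ^ 2 = 1 + 2 * z + z ^ 2 := by ring
    rw [h9] at h7
    rw [h10] at e3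
    linarith
  have hP0 : P = 0 := by omega
  rw [hP0] at h8 e3 e4
  obtain ⟨v, hv⟩ := form_even c
  have h11 : form c c = -2 := by omega
  have h12 : form c (w (w c)) = -1 := by
    have : 9 * form c (w (w c)) = 9 * form c c + 9 := by
      rw [e3, e4]
      ring
    omega
  have h13 : w (w c) = c := by
    by_contra h14
    have := h h14
    omega
  rw [h13] at w0 w1 w2
  rw [← ha, ← hb] at w0
  rw [← hb, ← hd] at w1
  omega

end Pool.Agent.H54.EN
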