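import Pool.Agent.H54.EN.G3

/-!
# [H54 EN G4] the 27 lines: the vectors

`ln i`, `i : Fin 27`: the coordinates.  `exists_co` (the sums are `9`, `12` or `15`) gives `lv i` with these coordinates.
* `form (lv i) (lv j)` is computed by `form_co`: `9 * form = s s' - 9 ∑`.  `form (lv i) (lv i) = 0`; `form (lv i) (lv j)` is `1` or `2` for `i ≠ j`, and it is `1` iff `sk i j` (`decide` on the explicit integers; if `decide` is slow first evaluate with `Fin.sum_univ_succ` and `simp`, or state the finite check with natural numbers).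
* `form (lv i) (fv 3) = co (lv i) 3 = 1`.  `deg = 1 + 1 + 1`.  `w (w (lv i)) = lv i`: `w2_co`, `co_inj`.
-/

set_option autoImplicit false

namespace Pool.Agent.H54.EN

/-- the coordinates of the 27 vectors -/
def ln : Fin 27 → Fin 10 → ℤ :=
  ![![1, 1, 1, 1, 0, 1, 1, 1, 1, 1],
    ![1, 1, 1, 1, 1, 0, 1, 1, 1, 1],
    ![1, 1, 1, 1, 1, 1, 0, 1, 1, 1],
    ![1, 1, 1, 1, 1, 1, 1, 0, 1, 1],
    ![1, 1, 1, 1, 1, 1, 1, 1, 0, 1],
    ![1, 1, 1, 1, 1, 1, 1, 1, 1, 0],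
    ![1, 1, 1, 1, 1, 1, 1, 1, 2, 2],
    ![1, 1, 1, 1, 1, 1, 1, 2, 1, 2],
    ![1, 1, 1, 1, 1, 1, 1, 2, 2, 1],
    ![1, 1, 1, 1, 1, 1, 2, 1, 1, 2],
    ![1, 1, 1, 1, 1, 1, 2, 1, 2, 1],
    ![1, 1, 1, 1, 1, 1, 2, 2, 1, 1],
    ![1, 1, 1, 1, 1, 2, 1, 1, 1, 2],
    ![1, 1, 1, 1, 1, 2, 1, 1, 2, 1],
    ![1, 1, 1, 1, 1, 2, 1, 2, 1, 1],
    ![1, 1, 1, 1, 1, 2, 2, 1, 1, 1],
    ![1, 1, 1, 1, 1, 2, 2, 2, 2, 2],
    ![1, 1, 1, 1, 2, 1, 1, 1, 1, 2],
    ![1, 1, 1, 1, 2, 1, 1, 1, 2, 1],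
    ![1, 1, 1, 1, 2, 1, 1, 2, 1, 1],
    ![1, 1, 1, 1, 2, 1, 2, 1, 1, 1],
    ![1, 1, 1, 1, 2, 1, 2, 2, 2, 2],
    ![1, 1, 1, 1, 2, 2, 1, 1, 1, 1],
    ![1, 1, 1, 1, 2, 2, 1, 2, 2, 2],
    ![1, 1, 1, 1, 2, 2, 2, 1, 2, 2],
    ![1, 1, 1, 1, 2, 2, 2, 2, 1, 2],
    ![1, 1, 1, 1, 2, 2, 2, 2, 2, 1]]

/-- the masks of the relation `form (lv i) (lv j) = 1` -/
def mk : Fin 27 → ℕ :=
  ![131070, 4067325, 13529595, 22460023, 39508655, 73198879, 27735951, 44784471, 78474471, 53714139, 87403371, 104449971, 63169245, 96851309, 113883573, 122781241, 127991745, 66851550, 100279662, 116804022, 124685882, 127864770, 127856700, 124744132, 116897352, 100391568, 66972960]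

/-- the relation `form (lv i) (lv j) = 1` -/
def sk (i j : Fin 27) : Bool := (mk i).testBit j

/-- nine times the product of two vectors with given coordinates -/
private def ff (c d : Fin 10 → ℤ) : ℤ := (∑ l, c l) * (∑ l, d l) - 9 * ∑ l, c l * d l

private theorem t_sum3 : ∀ i, (3 : ℤ) ∣ ∑ l, ln i l := by decide +kernel

private theorem t_self : ∀ i, ff (ln i) (ln i) = 0 := by decide +kernel

private theorem t_ge : ∀ i j, i ≠ j → 9 ≤ ff (ln i) (ln j) := by decide +kernel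

private theorem t_sk : ∀ i j, sk i j = true → ff (ln i) (ln j) = 9 := by decide +kernel

private theorem t_three : ∀ i, ln i 3 = 1 := by decide +kernel

private theorem t_012 : ∀ i, ln i 0 = 1 ∧ ln i 1 = 1 ∧ ln i 2 = 1 := by decide +kernel

private theorem g4_cases (i : Fin 10) : i = 0 ∨ i = 1 ∨ i = 2 ∨ 3 ≤ i := by
  revert i
  decide

theorem exists_lv {w : E10 ≃ₗ[ℤ] E10} (hw : IsW w) : ∃ lv : Fin 27 → E10,
    (∀ i, form (lv i) (lv i) = 0) ∧ (∀ i, deg (lv i) = 3) ∧ (∀ i, w (w (lv i)) = lv i) ∧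
      (∀ i, form (lv i) (fv 3) = 1) ∧ (∀ i j, i ≠ j → 1 ≤ form (lv i) (lv j)) ∧
      ∀ i j, sk i j = true → form (lv i) (lv j) = 1 := by
  have h0 : ∀ i, ∃ x : E10, ∀ l, co x l = ln i l := fun i => exists_co (ln i) (t_sum3 i)
  choose lv hlv using h0
  have h1 : ∀ i j, 9 * form (lv i) (lv j) = ff (ln i) (ln j) := by
    intro i j
    rw [form_co]
    unfold ff
    simp only [hlv]
  refine ⟨lv, ?_, ?_, ?_, ?_, ?_, ?_⟩
  · intro i
    have h2 := h1 i i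
    rw [t_self] at h2
    omega
  · intro i
    unfold deg
    obtain ⟨a, b, c⟩ := t_012 i
    rw [hlv, hlv, hlv, a, b, c]
    norm_num
  · intro i
    apply co_inj
    intro l
    obtain ⟨w0, w1, w2, wj⟩ := w2_co hw (lv i)
    obtain ⟨a, b, c⟩ := t_012 i
    rcases g4_cases l with h | h | h | h
    · rw [h, w0, hlv, hlv, a, b]
    · rw [h, w1, hlv, hlv, b, c]
    · rw [h, w2, hlv, hlv, a, c]
    · exact wj l h
  · intro i
    have h2 : co (lv i) 3 = 1 := by rw [hlv, t_three]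
    exact h2
  · intro i j hij
    have h2 := t_ge i j hij
    rw [← h1] at h2
    omega
  · intro i j hij
    have h2 := t_sk i j hij
    rw [← h1] at h2
    omega

end Pool.Agent.H54.EN
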