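import Pool.Agent.H54.EN.G4

/-!
# [H54 EN G5] the 27 lines: a set without three mutually skew lines has at most 6 elements

* `max6`: `T : Finset (Fin 27)` without three elements `i, j, l` with `sk i j`, `sk j l`, `sk i l` has at most `6` elements.  Finite check: a search (choose the elements of `T` in increasing order, keep the bit mask of the admissible further elements; stop if (number of chosen) + (number of admissible) < 7) has 6182 nodes.  Write a recursive `Bool` function
  with natural numbers as bit masks (`Nat.land`, `Nat.testBit`, `Nat.shiftRight` are fast in the kernel), prove that it is correct, and evaluate it with `decide` (kernel; no `native_decide`), e.g. `by decide` with `set_option maxRecDepth`, or `rfl`.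
  Alternatively by hand: lines `j` with `¬ sk i j`, `j ≠ i`, meet `i`: they form 5 pairs; lines of different pairs are skew.
* `five`: `P : Fin 27 → α` without `P i = P j = P l` for mutually skew `i, j, l`.  The fibres have at most `6` elements, so the image has at least `5` elements (`27 ≤ 6 * card (image)`: `Finset.card_le_mul_card_image`); choose preimages of five distinct elements of the image.
-/

set_option autoImplicit false

universe u

namespace Pool.Agent.H54.EN

/-- the bit `n` of `m` -/
private def tb (m n : ℕ) : Bool := Nat.beq (Nat.land (Nat.shiftRight m n) 1) 1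

/-- the masks -/
private def ml : List ℕ :=
  [131070, 4067325, 13529595, 22460023, 39508655, 73198879, 27735951, 44784471, 78474471, 53714139, 87403371, 104449971, 63169245, 96851309, 113883573, 122781241, 127991745, 66851550, 100279662, 116804022, 124685882, 127864770, 127856700, 124744132, 116897352, 100391568, 66972960]

/-- the mask with index `n` -/
private def mm (n : ℕ) : ℕ := ml.getD n 0

/-- the forbidden indices after the choice of `n` -/
private def upd (m n forb : ℕ) : List ℕ → ℕ :=
  List.rec forb (fun c _ ih => bif tb c n then Nat.lor (Nat.land c m) ih else ih)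

/-- the search -/
private def ok : ℕ → ℕ → List ℕ → ℕ → Bool :=
  Nat.rec (fun _ _ need => Nat.blt 0 need) (fun n ih forb C need =>
    bif Nat.beq need 0 then false else
    bif Nat.blt (n + 1) need then true else
    (ih forb C need && (tb forb n || ih (upd (mm n) n forb C) (mm n :: C) (Nat.pred need))))

private theorem ok_main : ok 27 0 [] 7 = true := by decide +kernel

private theorem tb_eq (m n : ℕ) : tb m n = m.testBit n := by
  unfold tb
  have h1 : Nat.land (Nat.shiftRight m n) 1 = (m >>> n) % 2 := Nat.and_one_is_mod _
  rw [h1, Nat.testBit_eq_decide_div_mod_eq, Nat.shiftRight_eq_div_pow]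
  rcases Nat.mod_two_eq_zero_or_one (m / 2 ^ n) with h | h <;> rw [h] <;> rfl

private theorem mm_eq : ∀ i : Fin 27, mm i = mk i := by decide +kernel

private theorem tb_land (a b n : ℕ) : tb (Nat.land a b) n = (tb a n && tb b n) := by
  rw [tb_eq, tb_eq, tb_eq]
  exact Nat.testBit_and a b n

private theorem tb_lor (a b n : ℕ) : tb (Nat.lor a b) n = (tb a n || tb b n) := by
  rw [tb_eq, tb_eq, tb_eq]
  exact Nat.testBit_or a b n

private theorem upd_tb (m n forb b : ℕ) (C : List ℕ) (h0 : tb forb b = false)
    (h : ∀ c ∈ C, ¬ (tb c n = true ∧ tb m b = true ∧ tb c b = true)) :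
    tb (upd m n forb C) b = false := by
  induction C with
  | nil => exact h0
  | cons c C ih =>
    have h1 := ih (fun c hc => h c (List.mem_cons_of_mem _ hc))
    have h2 := h c List.mem_cons_self
    have e : upd m n forb (c :: C) = bif tb c n then Nat.lor (Nat.land c m) (upd m n forb C)
      else upd m n forb C := rfl
    rw [e]
    cases hc : tb c n with
    | false => exact h1
    | true =>
      change tb (Nat.lor (Nat.land c m) (upd m n forb C)) b = false
      rw [tb_lor, tb_land, h1, Bool.or_false]
      by_contra h3
      have h4 : (tb c b && tb m b) = true := by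
        cases h5 : (tb c b && tb m b) with
        | false => exact absurd h5 h3
        | true => rfl
      rw [Bool.and_eq_true] at h4
      exact h2 ⟨hc, h4.2, h4.1⟩

private theorem ok_sound (n : ℕ) : ∀ (forb : ℕ) (C : List ℕ) (need : ℕ), ok n forb C need = true →
    ∀ S : Finset ℕ, (∀ a ∈ S, a < n) → (∀ a ∈ S, tb forb a = false) →
    (∀ c ∈ C, ∀ a ∈ S, ∀ b ∈ S, b < a →
      ¬ (tb c a = true ∧ tb (mm a) b = true ∧ tb c b = true)) →
    (∀ a ∈ S, ∀ b ∈ S, ∀ c ∈ S, b < a → c < b →
      ¬ (tb (mm a) b = true ∧ tb (mm b) c = true ∧ tb (mm a) c = true)) → S.card < need := by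
  induction n with
  | zero =>
    intro forb C need h S h1 _ _ _
    have hS : S = ∅ := by
      rw [Finset.eq_empty_iff_forall_notMem]
      intro a ha
      exact absurd (h1 a ha) (Nat.not_lt_zero a)
    have h' : Nat.blt 0 need = true := h
    rw [hS, Finset.card_empty]
    exact Nat.le_of_ble_eq_true h'
  | succ n ih =>
    intro forb C need h S h1 h2 h3 h4
    have h' : (bif Nat.beq need 0 then false else
      bif Nat.blt (n + 1) need then true else
      (ok n forb C need && (tb forb n || ok n (upd (mm n) n forb C) (mm n :: C) (Nat.pred need))))
        = true := h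
    cases hz : Nat.beq need 0 with
    | true => rw [hz] at h'; exact absurd h' Bool.false_ne_true
    | false =>
      rw [hz, cond_false] at h'
      cases hb : Nat.blt (n + 1) need with
      | true =>
        have hb' : n + 1 < need := Nat.le_of_ble_eq_true hb
        have h5 : S.card ≤ n + 1 := by
          have : S ⊆ Finset.range (n + 1) := fun a ha => Finset.mem_range.2 (h1 a ha)
          have h6 := Finset.card_le_card this
          rwa [Finset.card_range] at h6
        omega
      | false =>
        rw [hb, cond_false, Bool.and_eq_true, Bool.or_eq_true] at h'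
        obtain ⟨ha, hor⟩ := h'
        by_cases hn : n ∈ S
        · have hf := h2 n hn
          rcases hor with hor | hor
          · rw [hf] at hor
            exact absurd hor Bool.false_ne_true
          · have hlt : ∀ b ∈ S.erase n, b < n := by
              intro b hb'
              have h5 := h1 b (Finset.mem_of_mem_erase hb')
              have h6 := Finset.ne_of_mem_erase hb'
              omega
            have h5 := ih _ _ _ hor (S.erase n) hlt (fun b hb' => by
                have hbS := Finset.mem_of_mem_erase hb'
                exact upd_tb _ _ _ _ _ (h2 b hbS) (fun c hc =>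
                  h3 c hc n hn b hbS (hlt b hb')))
              (fun c hc a ha' b hb' hba => by
                have haS := Finset.mem_of_mem_erase ha'
                have hbS := Finset.mem_of_mem_erase hb'
                rcases List.mem_cons.1 hc with hc | hc
                · rw [hc]
                  exact h4 n hn a haS b hbS (hlt a ha') hba
                · exact h3 c hc a haS b hbS hba)
              (fun a ha' b hb' c hc' => h4 a (Finset.mem_of_mem_erase ha') b
                (Finset.mem_of_mem_erase hb') c (Finset.mem_of_mem_erase hc'))
            rw [Finset.card_erase_of_mem hn, Nat.pred_eq_sub_one] at h5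
            omega
        · refine ih _ _ _ ha S (fun a ha' => ?_) h2 h3 h4
          have h5 := h1 a ha'
          have h6 : a ≠ n := fun h7 => hn (by rw [← h7]; exact ha')
          omega

theorem max6 (T : Finset (Fin 27))
    (h : ∀ i ∈ T, ∀ j ∈ T, ∀ l ∈ T, ¬ (sk i j = true ∧ sk j l = true ∧ sk i l = true)) :
    T.card ≤ 6 := by
  have hsk : ∀ (a : Fin 27) (b : Fin 27), tb (mm a) b = sk a b := by
    intro a b
    rw [tb_eq, mm_eq]
    rfl
  have h1 := ok_sound 27 0 [] 7 ok_main (T.map Fin.valEmbedding)
    (fun a ha => by
      obtain ⟨i, _, rfl⟩ := Finset.mem_map.1 ha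
      exact i.2)
    (fun a _ => by
      rw [tb_eq, Nat.zero_testBit])
    (fun c hc => by
      exact absurd hc List.not_mem_nil)
    (fun a ha b hb c hc _ _ => by
      obtain ⟨i, hi, rfl⟩ := Finset.mem_map.1 ha
      obtain ⟨j, hj, rfl⟩ := Finset.mem_map.1 hb
      obtain ⟨l, hl, rfl⟩ := Finset.mem_map.1 hc
      have h2 := h i hi j hj l hl
      rw [← hsk, ← hsk, ← hsk] at h2
      exact h2)
  rw [Finset.card_map] at h1
  omega

theorem five {α : Type u} (P : Fin 27 → α)
    (h : ∀ i j l, sk i j = true → sk j l = true → sk i l = true → P i = P j → P j = P l → False) :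
    ∃ e : Fin 5 → Fin 27, Function.Injective fun a => P (e a) := by
  classical
  have h1 : (Finset.univ : Finset (Fin 27)).card ≤ 6 * (Finset.univ.image P).card := by
    refine Finset.card_le_mul_card_image _ 6 fun y _ => ?_
    refine max6 _ fun i hi j hj l hl hs => ?_
    rw [Finset.mem_filter] at hi hj hl
    exact h i j l hs.1 hs.2.1 hs.2.2 (by rw [hi.2, hj.2]) (by rw [hj.2, hl.2])
  rw [Finset.card_univ, Fintype.card_fin] at h1
  have h2 : 5 ≤ (Finset.univ.image P).card := by omega
  obtain ⟨t, ht, htc⟩ := Finset.exists_subset_card_eq h2
  have e := (t.equivFinOfCardEq htc).symm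
  have h3 : ∀ a : Fin 5, ∃ i : Fin 27, P i = (e a : α) := by
    intro a
    have h4 := ht (e a).2
    rw [Finset.mem_image] at h4
    obtain ⟨i, _, hi⟩ := h4
    exact ⟨i, hi⟩
  choose f hf using h3
  refine ⟨f, fun a b hab => ?_⟩
  have h4 : (e a : α) = (e b : α) := by
    rw [← hf a, ← hf b]
    exact hab
  exact e.injective (Subtype.ext h4)

end Pool.Agent.H54.EN
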