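import Pool.Agent.H54.EN.Defs

/-!
# [H54 EN] the lattice `E10`: coordinates (complete definitions)

* `fv 0, ..., fv 9`: an isotropic sequence, `fv i . fv j = 1` for `i ≠ j`, `fv i . fv i = 0`.
* `co x i = x . fv i`: the coordinates of `x`; `deg x = co x 0 + co x 1 + co x 2` is the product with `hv = fv 0 + fv 1 + fv 2`.
* `IsW w`: `w` acts by `(c0, c1, c2, cj) ↦ (c2, c0, c1, y - cj)`, `y = c0 + c1 + c2`, `j ≥ 3`, in the coordinates.
-/

set_option autoImplicit false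

namespace Pool.Agent.H54.EN

/-- the vector with the given components -/
def vec (a b : ℤ) (v : Fin 8 → ℤ) : E10 := Sum.elim ![a, b] v

/-- an isotropic sequence -/
def fv : Fin 10 → E10 :=
  ![vec 1 0 0, vec 0 1 0, vec 1 1 ![2, 3, 3, 5, 4, 3, 2, 1], vec 1 1 ![2, 3, 4, 5, 4, 3, 2, 1],
    vec 1 1 ![2, 3, 4, 6, 4, 3, 2, 1], vec 1 1 ![2, 3, 4, 6, 5, 3, 2, 1],
    vec 1 1 ![2, 3, 4, 6, 5, 4, 2, 1], vec 1 1 ![2, 3, 4, 6, 5, 4, 3, 1],
    vec 1 1 ![2, 3, 4, 6, 5, 4, 3, 2], vec 1 1 ![1, 3, 3, 5, 4, 3, 2, 1]]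

/-- the coordinates -/
def co (x : E10) (i : Fin 10) : ℤ := form x (fv i)

/-- the degree -/
def deg (x : E10) : ℤ := co x 0 + co x 1 + co x 2

/-- the vector `fv 0 + fv 1 + fv 2` -/
def hv : E10 := fv 0 + fv 1 + fv 2

/-- the action of the isometry in the coordinates -/
structure IsW (w : E10 ≃ₗ[ℤ] E10) : Prop where
  c0 : ∀ x, co (w x) 0 = co x 2
  c1 : ∀ x, co (w x) 1 = co x 0
  c2 : ∀ x, co (w x) 2 = co x 1
  cj : ∀ x, ∀ j : Fin 10, 3 ≤ j → co (w x) j = deg x - co x j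

end Pool.Agent.H54.EN
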