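import Pool.Agent.H54.EN.P6
import Pool.Agent.H54.EN.F2
import Pool.Agent.H54.EN.G3

/-!
# [H54 EN H1] pull-back of divisors by automorphisms

`(g.pull D).eq x = g.τ (D.eq (g.σ x))`; `MAut` is a group: `(g * h).σ x = g.σ (h.σ x)`, `(g * h).τ a = h.τ (g.τ a)` (`MAut.mul_σ`, `MAut.mul_τ` in `Aut`); `Cart.ext'`.
* `pull_add`, `pull_sub`, `pull_zero`, `pull_mul`, `pull_one`.
* `pull_triv`, `pull_eff`, `pull_lin`: `un_pull`, `g.loc`.
* `phi_pow`: `hg : φ (g.pull D) = w (φ D)`; `phi4`, `phi12`: `g ^ 2 = g * g`, `(g * g).pull D = g.pull (g.pull D)`.  `w6` of `G3`.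
* `M_pull`: `g.pull M ~ M`: needs: a divisor `D` with `φ D = 0` is linearly equivalent to `0` or to `M` (hypothesis `hτ`).  `φ (g.pull M) = w (φ M) = 0` (`phi_M`).  If `g.pull M ~ M` fine.  If `g.pull M ~ 0` then `M ~ 0` (apply the pull-back by `g⁻¹`: `g⁻¹.pull (g.pull M) = (g * g⁻¹).pull M = M`, `pull_lin`, `pull_zero`), so `g.pull M ~ 0 ~ M`.
* `twoM`: `2 M ~ 0`: `φ (M + M) = 0`, so `M + M ~ 0` or `M + M ~ M`; in the second case `M ~ 0` (`lin_sub`).
* `lin_of_fix`: `φ (g.pull D) = φ D` implies `(g * g).pull D ~ D`: `E = g.pull D - D` has `φ E = 0`, so `E ~ 0` or `E ~ M`; `(g * g).pull D - D = g.pull E + E ~ 0` (`pull_lin`, `M_pull`, `twoM`).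
-/

set_option autoImplicit false

universe u

namespace Pool.Agent.H54.EN

variable {k K : Type u} [Field k] [Field K] [Algebra k K] {X : Mod k K}

theorem pull_add (g : MAut X) (D E : Cart X) : g.pull (D + E) = g.pull D + g.pull E := by
  apply Cart.ext'
  intro x
  exact map_mul g.τ _ _

private theorem h1_pull_neg (g : MAut X) (D : Cart X) : g.pull (-D) = -g.pull D := by
  apply Cart.ext'
  intro x
  exact map_inv₀ g.τ _

theorem pull_sub (g : MAut X) (D E : Cart X) : g.pull (D - E) = g.pull D - g.pull E := by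
  rw [sub_eq_add_neg, pull_add, h1_pull_neg, ← sub_eq_add_neg]

theorem pull_zero (g : MAut X) : g.pull (0 : Cart X) = 0 := by
  apply Cart.ext'
  intro x
  exact map_one g.τ

theorem pull_mul (g h : MAut X) (D : Cart X) : (g * h).pull D = h.pull (g.pull D) := by
  apply Cart.ext'
  intro x
  rfl

theorem pull_one (D : Cart X) : (1 : MAut X).pull D = D := by
  apply Cart.ext'
  intro x
  rfl

theorem pull_triv (g : MAut X) {D : Cart X} (h : Triv D) : Triv (g.pull D) := by
  intro x
  exact (un_pull g x _).2 (h _)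

theorem pull_eff (g : MAut X) {D : Cart X} (h : Effective D) : Effective (g.pull D) := by
  intro x
  exact (g.loc x _).2 (h _)

theorem pull_lin (g : MAut X) {D E : Cart X} (h : LinEq D E) : LinEq (g.pull D) (g.pull E) := by
  obtain ⟨f, hf, hx⟩ := h
  refine ⟨g.τ f, (map_ne_zero _).2 hf, fun x => ?_⟩
  have h1 : g.τ f * (g.pull D).eq x / (g.pull E).eq x =
      g.τ (f * D.eq (g.σ x) / E.eq (g.σ x)) := by
    rw [map_div₀, map_mul]
    rfl
  rw [h1]
  exact (un_pull g x _).2 (hx _)

theorem lin_of_fix (T : Ctx k K) (hτ : ∀ D, T.φ D = 0 → LinEq D 0 ∨ LinEq D T.M) (g : MAut T.X)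
    (hg : ∀ D, T.φ D = 0 → T.φ (g.pull D) = 0) (hg' : ∀ D, T.φ D = 0 → T.φ (g⁻¹.pull D) = 0)
    (D : Cart T.X) (hD : T.φ (g.pull D) = T.φ D) : LinEq ((g * g).pull D) D := by
  have hM : LinEq (g.pull T.M) T.M := by
    rcases hτ _ (hg _ (phi_M T)) with h1 | h1
    · have h2 := pull_lin g⁻¹ h1
      rw [← pull_mul, mul_inv_cancel, pull_one, pull_zero] at h2
      exact lin_trans h1 (lin_symm h2)
    · exact h1
  have hMM : LinEq (T.M + T.M) 0 := by
    rcases hτ (T.M + T.M) (by rw [map_add, phi_M, add_zero]) with h1 | h1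
    · exact h1
    · have h2 := lin_sub h1 (lin_refl T.M)
      rw [add_sub_cancel_right, sub_self] at h2
      have h3 := lin_add h2 h2
      rw [add_zero] at h3
      exact h3
  have key : LinEq (g.pull (g.pull D - D) + (g.pull D - D)) 0 := by
    rcases hτ (g.pull D - D) (by rw [map_sub, hD, sub_self]) with h1 | h1
    · have h2 := pull_lin g h1
      rw [pull_zero] at h2
      have h3 := lin_add h2 h1
      rw [add_zero] at h3
      exact h3
    · exact lin_trans (lin_add (lin_trans (pull_lin g h1) hM) h1) hMM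
  have h4 := lin_add key (lin_refl D)
  rw [pull_sub, zero_add] at h4
  have h5 : g.pull (g.pull D) - g.pull D + (g.pull D - D) + D = (g * g).pull D := by
    rw [pull_mul]
    abel
  rw [h5] at h4
  exact h4

end Pool.Agent.H54.EN
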