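import Pool.Agent.H54.EN.H9

/-!
# [H54 EN H10] five fixed points and a cycle of three points: contradiction

`ζ = C.ζ`, `g.σ ζ = ζ` (`fix_pt`), `θ` (`exists_theta`), `u`, `α`, `β` (`deg_two`), `D = E0.D + E1.D`.
* At a point `x` of the curve which is not `p 0` or `p 1` the element `D.eq x` is a unit of `O x` (`off_iff`, `hE0p`, `hE1p`), so `u ∈ cR ζ x` (`cR_un`), and for a nonunit `(u - c)` of `cR ζ x` also `(u - c) * rs ζ (D.eq x)` is a nonunit.  There is `c : k` with `u - c` a nonunit of `cR ζ x`: `IsCS.res` of `isCS_csys` (`cov_aff`, `cov_cov`), and `c` is unique: two values `c, c'` give the nonunit `c - c'` (`cR` is local: `cR_local`, `un_add`), so `c = c'`.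
* `x = p i`, `i = 2, 3, 4`, value `c i`: `u - c i` is a nonunit at `g.σ x = x`, so `θ (u - c i) = α u + β - c i` is a nonunit at `x` (`theta_un`); so is `α (u - c i)`; so `β + α c i - c i` is a nonunit: `c i = α c i + β`.
  `c 2, c 3, c 4` are not all equal (three zeros of `u - c`: the last statement of `deg_two` with `F = {p 2, p 3, p 4}`).  Two different values give `α = 1`, `β = 0`: `θ u = u`.
* `x = P i`: not `p 0`, `p 1` (these are fixed by `g.σ`), value `d i`.  `g.σ (P 1) = P 0`: `u - d 0` is a nonunit at `g.σ (P 1)`, so `θ (u - d 0) = u - d 0` is a nonunit at `P 1`: `d 0 = d 1`; also `d 1 = d 2`.  So `u - d 0` has the three zeros `P 0, P 1, P 2`: a contradiction.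
-/

set_option autoImplicit false

universe u

namespace Pool.Agent.H54.EN

variable {k K : Type u} [Field k] [Field K] [Algebra k K] (T : Ctx k K)

private theorem h10_alg {κ : Type u} [Field κ] [Algebra k κ] (R : Subalgebra k κ) (c : k)
    (h : ¬ Un R (algebraMap k κ c)) : c = 0 := by
  by_contra hc
  apply h
  refine ⟨?_, R.algebraMap_mem c, ?_⟩
  · rw [Ne, map_eq_zero]
    exact hc
  · rw [← map_inv₀]
    exact R.algebraMap_mem _

private theorem h10_add {κ : Type u} [Field κ] [Algebra k κ] (R : Subalgebra k κ)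
    (hR : IsLocalRing R) {a b : κ} (ha : a ∈ R) (hb : b ∈ R) (h1 : ¬ Un R a) (h2 : ¬ Un R b) :
    ¬ Un R (a + b) := by
  intro h
  rcases un_add ha hb h with h3 | h3
  · exact h1 h3
  · exact h2 h3

private theorem h10_mul {κ : Type u} [Field κ] [Algebra k κ] (R : Subalgebra k κ)
    {a b : κ} (ha : a ∈ R) (hb : b ∈ R) (h1 : ¬ Un R a) : ¬ Un R (b * a) := by
  intro h
  exact h1 ((un_mul_iff hb ha).1 h).2

theorem curve_contra [IsAlgClosed k] (ge2 : ∀ C : Prm T.X, 2 ≤ deg (T.φ C.D))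
    (C E0 E1 : Prm T.X) (g : MAut T.X) (hC : Triv (g.pull C.D - C.D))
    (hE0 : Triv (g.pull E0.D - E0.D)) (hE1 : Triv (g.pull E1.D - E1.D))
    (h0 : form (T.φ C.D) (T.φ E0.D) = 1) (h1 : form (T.φ C.D) (T.φ E1.D) = 1)
    (hCC : form (T.φ C.D) (T.φ C.D) = 0) (hn0 : C.ζ ≠ E0.ζ) (hn1 : C.ζ ≠ E1.ζ)
    (p : Fin 5 → T.X.P) (hpi : Function.Injective p)
    (hp : ∀ i, C.ζ ⤳ p i ∧ p i ≠ C.ζ ∧ g.σ (p i) = p i)
    (hE0p : ∀ y, C.ζ ⤳ y → E0.ζ ⤳ y → y = p 0) (hE1p : ∀ y, C.ζ ⤳ y → E1.ζ ⤳ y → y = p 1)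
    (P : Fin 3 → T.X.P) (hPi : Function.Injective P) (hP : ∀ i, C.ζ ⤳ P i ∧ P i ≠ C.ζ)
    (h01 : g.σ (P 1) = P 0) (h12 : g.σ (P 2) = P 1) (hfix : ∀ i, g.σ (P i) ≠ P i) : False := by
  classical
  have hsch := T.sf.toIsSch
  have hζ := fix_pt T C g hC
  obtain ⟨θ, hθ⟩ := exists_theta g C.ζ hζ
  obtain ⟨u, hu, ⟨α, β, hαβ⟩, hz⟩ := deg_two T ge2 C E0 E1 g hC hE0 hE1 h0 h1 hCC hn0 hn1 θ hθ
  have hloc : ∀ x, C.ζ ⤳ x → IsLocalRing (cR T.X C.ζ x) := fun x hx => cR_local hsch hx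
  -- points different from `p 0`, `p 1`
  have hD : ∀ x, C.ζ ⤳ x → x ≠ p 0 → x ≠ p 1 →
      Un (cR T.X C.ζ x) (T.X.rs C.ζ ((E0.D + E1.D).eq x)) := by
    intro x hx hx0 hx1
    have e0 : Un (T.X.O x) (E0.D.eq x) := by
      by_contra h
      exact hx0 (hE0p x hx ((off_iff T E0 x).1 h))
    have e1 : Un (T.X.O x) (E1.D.eq x) := by
      by_contra h
      exact hx1 (hE1p x hx ((off_iff T E1 x).1 h))
    have e2 : Un (T.X.O x) ((E0.D + E1.D).eq x) := un_mul e0 e1
    exact (cR_un hsch hx e2.2.1).2 e2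
  have hval : ∀ x, C.ζ ⤳ x → x ≠ C.ζ → x ≠ p 0 → x ≠ p 1 → u ∈ cR T.X C.ζ x ∧
      ∃ c : k, ¬ Un (cR T.X C.ζ x) (u - algebraMap k _ c) := by
    intro x hx hxne hx0 hx1
    have hux : u ∈ cR T.X C.ζ x := (mem_mul_un (hD x hx hx0 hx1)).1 (hu x hx)
    exact ⟨hux, (isCS_csys T.sf T.U (cov_aff T) (cov_cov T) C).res ⟨x, hx, hxne⟩ u hux⟩
  have huniq : ∀ x, C.ζ ⤳ x → u ∈ cR T.X C.ζ x → ∀ c c' : k,
      ¬ Un (cR T.X C.ζ x) (u - algebraMap k _ c) → ¬ Un (cR T.X C.ζ x) (u - algebraMap k _ c') →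
      c = c' := by
    intro x hx hux c c' hc hc'
    have h2 : ¬ Un (cR T.X C.ζ x) (algebraMap k _ (c - c')) := by
      have e1 : algebraMap k (T.X.kap C.ζ) (c - c') =
          (u - algebraMap k _ c') + (-1) * (u - algebraMap k _ c) := by
        rw [map_sub]
        ring
      rw [e1]
      have m1 := (cR T.X C.ζ x).sub_mem hux ((cR T.X C.ζ x).algebraMap_mem c')
      have m2 := (cR T.X C.ζ x).sub_mem hux ((cR T.X C.ζ x).algebraMap_mem c)
      have m3 := (cR T.X C.ζ x).neg_mem (cR T.X C.ζ x).one_mem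
      exact h10_add _ (hloc x hx) m1 ((cR T.X C.ζ x).mul_mem m3 m2) hc' (h10_mul _ m2 m3 hc)
    exact sub_eq_zero.1 (h10_alg _ _ h2)
  have hpne : ∀ i : Fin 5, 2 ≤ i → p i ≠ p 0 ∧ p i ≠ p 1 := by
    intro i hi
    constructor
    · intro h
      rw [hpi h] at hi
      exact absurd hi (by decide)
    · intro h
      rw [hpi h] at hi
      exact absurd hi (by decide)
  -- the values at the fixed points
  have hv : ∀ i : Fin 5, 2 ≤ i → ∃ c : k, ¬ Un (cR T.X C.ζ (p i)) (u - algebraMap k _ c) ∧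
      c = α * c + β := by
    intro i hi
    obtain ⟨hux, c, hc⟩ := hval (p i) (hp i).1 (hp i).2.1 (hpne i hi).1 (hpne i hi).2
    refine ⟨c, hc, ?_⟩
    have h2 : ¬ Un (cR T.X C.ζ (p i)) (θ (u - algebraMap k _ c)) := by
      rw [theta_un hsch g C.ζ hζ θ hθ (hp i).1, (hp i).2.2]
      exact hc
    rw [map_sub, hαβ, AlgEquiv.commutes] at h2
    have m1 := (cR T.X C.ζ (p i)).sub_mem hux ((cR T.X C.ζ (p i)).algebraMap_mem c)
    have m2 := (cR T.X C.ζ (p i)).algebraMap_mem (-α)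
    have m3 : algebraMap k (T.X.kap C.ζ) α * u + algebraMap k _ β - algebraMap k _ c ∈
        cR T.X C.ζ (p i) :=
      (cR T.X C.ζ (p i)).sub_mem ((cR T.X C.ζ (p i)).add_mem ((cR T.X C.ζ (p i)).mul_mem
        ((cR T.X C.ζ (p i)).algebraMap_mem α) hux) ((cR T.X C.ζ (p i)).algebraMap_mem β))
        ((cR T.X C.ζ (p i)).algebraMap_mem c)
    have h3 := h10_add _ (hloc _ (hp i).1) m3 ((cR T.X C.ζ (p i)).mul_mem m2 m1) h2
      (h10_mul _ m1 m2 hc)
    have h4 : algebraMap k (T.X.kap C.ζ) α * u + algebraMap k _ β - algebraMap k _ c +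
        algebraMap k _ (-α) * (u - algebraMap k _ c) = algebraMap k _ (β - c + α * c) := by
      simp only [map_sub, map_add, map_mul, map_neg]
      ring
    rw [h4] at h3
    have h5 := h10_alg _ _ h3
    linear_combination -h5
  have hzero : ∀ x, C.ζ ⤳ x → x ≠ p 0 → x ≠ p 1 → ∀ c : k,
      ¬ Un (cR T.X C.ζ x) (u - algebraMap k _ c) →
      ¬ Un (cR T.X C.ζ x) ((u - algebraMap k _ c) * T.X.rs C.ζ ((E0.D + E1.D).eq x)) := by
    intro x hx hx0 hx1 c hc h
    exact hc ((un_mul_un (hD x hx hx0 hx1)).1 h)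
  obtain ⟨c2, hc2, hc2'⟩ := hv 2 (by decide)
  obtain ⟨c3, hc3, hc3'⟩ := hv 3 (by decide)
  obtain ⟨c4, hc4, hc4'⟩ := hv 4 (by decide)
  have hnot : ¬ (c2 = c3 ∧ c2 = c4) := by
    rintro ⟨e1, e2⟩
    rw [← e1] at hc3
    rw [← e2] at hc4
    have h5 := hz c2 {p 2, p 3, p 4} (by
      intro x hx
      simp only [Finset.mem_insert, Finset.mem_singleton] at hx
      rcases hx with rfl | rfl | rfl
      · exact ⟨(hp 2).1, (hp 2).2.1, hzero _ (hp 2).1 (hpne 2 (by decide)).1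
          (hpne 2 (by decide)).2 _ hc2⟩
      · exact ⟨(hp 3).1, (hp 3).2.1, hzero _ (hp 3).1 (hpne 3 (by decide)).1
          (hpne 3 (by decide)).2 _ hc3⟩
      · exact ⟨(hp 4).1, (hp 4).2.1, hzero _ (hp 4).1 (hpne 4 (by decide)).1
          (hpne 4 (by decide)).2 _ hc4⟩)
    rw [Finset.card_insert_of_notMem, Finset.card_insert_of_notMem, Finset.card_singleton] at h5
    · omega
    · rw [Finset.mem_singleton]
      intro h
      exact absurd (hpi h) (by decide)
    · rw [Finset.mem_insert, Finset.mem_singleton]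
      rintro (h | h)
      · exact absurd (hpi h) (by decide)
      · exact absurd (hpi h) (by decide)
  have hα : α = 1 := by
    by_contra hne
    apply hnot
    have h5 : (1 - α) ≠ 0 := sub_ne_zero.2 (Ne.symm hne)
    constructor
    · apply mul_left_cancel₀ h5
      linear_combination hc2' - hc3'
    · apply mul_left_cancel₀ h5
      linear_combination hc2' - hc4'
  have hβ : β = 0 := by
    rw [hα] at hc2'
    linear_combination -hc2'
  have hθu : θ u = u := by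
    rw [hαβ, hα, hβ, map_one, map_zero, one_mul, add_zero]
  -- the cycle
  have hPne : ∀ i, P i ≠ p 0 ∧ P i ≠ p 1 := by
    intro i
    constructor
    · intro h
      apply hfix i
      rw [h]
      exact (hp 0).2.2
    · intro h
      apply hfix i
      rw [h]
      exact (hp 1).2.2
  have hmove : ∀ i l, g.σ (P i) = P l → ∀ c : k, ¬ Un (cR T.X C.ζ (P l)) (u - algebraMap k _ c) →
      ¬ Un (cR T.X C.ζ (P i)) (u - algebraMap k _ c) := by
    intro i l hil c hc h
    apply hc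
    rw [← hil, ← theta_un hsch g C.ζ hζ θ hθ (hP i).1, map_sub, hθu, AlgEquiv.commutes]
    exact h
  obtain ⟨_, d, hd0⟩ := hval (P 0) (hP 0).1 (hP 0).2 (hPne 0).1 (hPne 0).2
  have hd1 := hmove 1 0 h01 d hd0
  have hd2 := hmove 2 1 h12 d hd1
  have h5 := hz d {P 0, P 1, P 2} (by
    intro x hx
    simp only [Finset.mem_insert, Finset.mem_singleton] at hx
    rcases hx with rfl | rfl | rfl
    · exact ⟨(hP 0).1, (hP 0).2, hzero _ (hP 0).1 (hPne 0).1 (hPne 0).2 _ hd0⟩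
    · exact ⟨(hP 1).1, (hP 1).2, hzero _ (hP 1).1 (hPne 1).1 (hPne 1).2 _ hd1⟩
    · exact ⟨(hP 2).1, (hP 2).2, hzero _ (hP 2).1 (hPne 2).1 (hPne 2).2 _ hd2⟩)
  rw [Finset.card_insert_of_notMem, Finset.card_insert_of_notMem, Finset.card_singleton] at h5
  · omega
  · rw [Finset.mem_singleton]
    intro h
    exact absurd (hPi h) (by decide)
  · rw [Finset.mem_insert, Finset.mem_singleton]
    rintro (h | h)
    · exact absurd (hPi h) (by decide)
    · exact absurd (hPi h) (by decide)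

end Pool.Agent.H54.EN
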