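import Pool.Agent.H54.EN.H2

/-!
# [H54 EN H8] the action of an automorphism on an invariant curve

* `fix_pt`: `exists_pull` gives `C'` with `C'.D = g.pull C.D`, `g.σ C'.ζ = C.ζ`.  `C'.ζ = C.ζ`: otherwise `C'.D.eq C.ζ` is a unit of `O C.ζ` (`unit_of_ne`), and `C'.D.eq C.ζ / C.D.eq C.ζ` is a unit (`h`), so `C.D.eq C.ζ` is a unit, against `C.ne`.
* `exists_theta`: `g.σ ζ = ζ`; `g.kapE ζ : kap (g.σ ζ) ≃ kap ζ` with `kapE_rs` (`Aut`); transport along `g.σ ζ = ζ` (e.g. generalize: for all `ζ'` with `g.σ ζ = ζ'` there is an isomorphism `kap ζ' ≃ₐ[k] kap ζ` with `θ (rs ζ' a) = rs ζ (g.τ a)`; `subst`).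
* `theta_mem`: `ζ ⤳ x` and `ζ ⤳ g.σ x` (`Specializes.map`, `g.σ ζ = ζ`).  `n ∈ cR ζ (g.σ x) ↔ θ n ∈ cR ζ x`: `n = rs ζ a`, `a ∈ O (g.σ x) ∩ O ζ`; `g.τ a ∈ O x` (`g.loc`); conversely `θ n = rs ζ b`, `b = g.τ a` with `a ∈ O (g.σ x)`; `θ` is injective.
* `theta_un`: `Un` is membership of `n`, `n⁻¹` and `n ≠ 0`.
* `eig_const`: linear algebra: `V` a finite-dimensional subspace of the field `κ` with `1 ∈ V`, of dimension at least `2`, `θ` an automorphism of `κ` over `k` with `θ V ⊆ V`.  `θ` induces an endomorphism of `V ⧸ k 1`, which is not zero; it has an eigenvector (`k` algebraically closed, `Module.End.exists_eigenvalue`), the class of `u`: `θ u - α u ∈ k 1`, `u ∉ k 1`.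
-/

set_option autoImplicit false

universe u

namespace Pool.Agent.H54.EN

theorem eig_const {k κ : Type u} [Field k] [Field κ] [Algebra k κ] [IsAlgClosed k]
    (V : Submodule k κ) (hV : Module.Finite k V) (h1 : (1 : κ) ∈ V)
    (h2 : 2 ≤ Module.finrank k V) (θ : κ ≃ₐ[k] κ) (hθ : ∀ n ∈ V, θ n ∈ V) :
    ∃ u ∈ V, (∀ c : k, u ≠ algebraMap k κ c) ∧
      ∃ α β : k, θ u = algebraMap k κ α * u + algebraMap k κ β := by
  obtain ⟨L, hL⟩ : ∃ L : V →ₗ[k] V, ∀ v, (L v : κ) = θ v :=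
    ⟨(θ.toLinearMap : κ →ₗ[k] κ).restrict hθ, fun v => rfl⟩
  obtain ⟨W, hW⟩ : ∃ W : Submodule k V, W = Submodule.span k {(⟨1, h1⟩ : V)} := ⟨_, rfl⟩
  have hWL : W ≤ W.comap L := by
    rw [hW, Submodule.span_le, Set.singleton_subset_iff]
    have e : L ⟨1, h1⟩ = ⟨1, h1⟩ := Subtype.ext (by rw [hL]; exact map_one θ)
    change L ⟨1, h1⟩ ∈ Submodule.span k {(⟨1, h1⟩ : V)}
    rw [e]
    exact Submodule.mem_span_singleton_self _
  have hfr : Module.finrank k (V ⧸ W) + Module.finrank k W = Module.finrank k V :=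
    Submodule.finrank_quotient_add_finrank W
  have hWle : Module.finrank k W ≤ 1 := by
    rw [hW]
    refine (finrank_span_singleton ?_).le
    intro h0
    exact one_ne_zero (congrArg Subtype.val h0)
  have hpos : 0 < Module.finrank k (V ⧸ W) := by omega
  have hnt : Nontrivial (V ⧸ W) := Module.nontrivial_of_finrank_pos hpos
  obtain ⟨α, hα⟩ := Module.End.exists_eigenvalue (W.mapQ W L hWL)
  obtain ⟨v, hv⟩ := hα.exists_hasEigenvector
  obtain ⟨u, rfl⟩ := Submodule.mkQ_surjective W v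
  have h3 := hv.apply_eq_smul
  have h4 : W.mkQ u ≠ 0 := hv.2
  have h5 : W.mkQ (L u - α • u) = 0 := by
    rw [map_sub, map_smul, sub_eq_zero]
    exact h3
  have h6 : L u - α • u ∈ W := (Submodule.Quotient.mk_eq_zero W).1 h5
  rw [hW, Submodule.mem_span_singleton] at h6
  obtain ⟨β, hβ⟩ := h6
  refine ⟨u, u.2, ?_, α, β, ?_⟩
  · intro c hc
    apply h4
    refine (Submodule.Quotient.mk_eq_zero W).2 ?_
    rw [hW, Submodule.mem_span_singleton]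
    refine ⟨c, Subtype.ext ?_⟩
    rw [hc, Submodule.coe_smul]
    exact (Algebra.algebraMap_eq_smul_one c).symm
  · have h7 := congrArg Subtype.val hβ
    rw [Submodule.coe_smul, Submodule.coe_sub, Submodule.coe_smul, hL] at h7
    rw [Algebra.smul_def, mul_one, Algebra.smul_def] at h7
    rw [h7]
    ring

variable {k K : Type u} [Field k] [Field K] [Algebra k K]

theorem fix_pt (T : Ctx k K) (C : Prm T.X) (g : MAut T.X) (h : Triv (g.pull C.D - C.D)) :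
    g.σ C.ζ = C.ζ := by
  obtain ⟨C', h1, h2⟩ := exists_pull g C
  by_cases hne : C.ζ = C'.ζ
  · rw [← hne] at h2
    exact h2
  · exfalso
    have h3 := unit_of_ne T.sf C C' hne
    rw [← h1] at h
    have h4 := h C.ζ
    rw [sub_eq] at h4
    apply C.ne
    have h5 : C.D.eq C.ζ = C'.D.eq C.ζ / (C'.D.eq C.ζ / C.D.eq C.ζ) := by
      have e1 := C.D.ne C.ζ
      have e2 := C'.D.ne C.ζ
      field_simp
    rw [h5]
    exact un_div h3 h4

theorem exists_theta {X : Mod k K} (g : MAut X) (ζ : X.P) (h : g.σ ζ = ζ) :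
    ∃ θ : X.kap ζ ≃ₐ[k] X.kap ζ, ∀ a ∈ X.O ζ, θ (X.rs ζ a) = X.rs ζ (g.τ a) := by
  have key : ∀ ζ' : X.P, g.σ ζ = ζ' → ∃ θ : X.kap ζ' ≃ₐ[k] X.kap ζ,
      ∀ a ∈ X.O ζ', θ (X.rs ζ' a) = X.rs ζ (g.τ a) := by
    intro ζ' hζ'
    subst hζ'
    exact ⟨g.kapE ζ, fun a _ => g.kapE_rs ζ a⟩
  exact key ζ h

theorem theta_mem {X : Mod k K} (hX : IsSch X) (g : MAut X) (ζ : X.P) (h : g.σ ζ = ζ)
    (θ : X.kap ζ ≃ₐ[k] X.kap ζ) (hθ : ∀ a ∈ X.O ζ, θ (X.rs ζ a) = X.rs ζ (g.τ a)) {x : X.P}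
    (hx : ζ ⤳ x) (n : X.kap ζ) : θ n ∈ cR X ζ x ↔ n ∈ cR X ζ (g.σ x) := by
  have hgx : ζ ⤳ g.σ x := by
    have h1 := hx.map g.σ.continuous
    rwa [h] at h1
  constructor
  · intro h1
    obtain ⟨b, hb, hb'⟩ := cR_ex hX h1
    obtain ⟨a, rfl⟩ : ∃ a, g.τ a = b := ⟨g.τ.symm b, g.τ.apply_symm_apply b⟩
    have ha : a ∈ X.O (g.σ x) := (g.loc x a).1 hb
    have ha' : a ∈ X.O ζ := hX.spec _ _ hgx ha
    rw [← hθ a ha'] at hb'
    have h2 := θ.injective hb'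
    rw [← h2]
    exact cR_mem hX hgx ha
  · intro h1
    obtain ⟨a, ha, rfl⟩ := cR_ex hX h1
    rw [hθ a (hX.spec _ _ hgx ha)]
    exact cR_mem hX hx ((g.loc x a).2 ha)

theorem theta_un {X : Mod k K} (hX : IsSch X) (g : MAut X) (ζ : X.P) (h : g.σ ζ = ζ)
    (θ : X.kap ζ ≃ₐ[k] X.kap ζ) (hθ : ∀ a ∈ X.O ζ, θ (X.rs ζ a) = X.rs ζ (g.τ a)) {x : X.P}
    (hx : ζ ⤳ x) (n : X.kap ζ) : Un (cR X ζ x) (θ n) ↔ Un (cR X ζ (g.σ x)) n := by
  unfold Un
  rw [theta_mem hX g ζ h θ hθ hx, ← map_inv₀, theta_mem hX g ζ h θ hθ hx, Ne, Ne, map_eq_zero]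

end Pool.Agent.H54.EN
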