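import Pool.Agent.H54.EN.H4
import Pool.Agent.H54.EN.H8

/-!
# [H54 EN H11] the curves

`G = (g * g) * (g * g)`.  `φ (g.pull D) = w (φ D)`, and `φ (g⁻¹.pull D) = w.symm (φ D)` (`pull_mul`, `pull_one`: `g.pull (g⁻¹.pull D) = (g⁻¹ * g).pull D = D`).
* `curve_fix`: `inv_curve` for `h = g * g`, `v = w * w` (`v x = w (w x)`, `v.symm x = w.symm (w.symm x)`; `(g * g).pull D = g.pull (g.pull D)`, `(g * g)⁻¹ = g⁻¹ * g⁻¹`).
* `three_curves`: `inv_curve` for `h = (g * g) * ((g * g) * (g * g))` (`v = w^6 = 1`, `w6`; e.g. `v = LinearEquiv.refl`, `hv : φ (h.pull D) = φ D`) and `e = fv 0` (`form_fv`, `deg (fv 0) = 0 + 1 + 1`) gives `C0` with `φ C0.D = fv 0` and `Triv ((h * h).pull C0.D - C0.D)`; `h * h = G * G * G` (associativity).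
  `C1` with `C1.D = G.pull C0.D`, `G.σ C1.ζ = C0.ζ` (`exists_pull`), `C2` with `C2.D = G.pull C1.D`, `G.σ C2.ζ = C1.ζ`, `C3` with `C3.D = G.pull C2.D`, `G.σ C3.ζ = C2.ζ`.  `C3.D = (G * G * G).pull C0.D` (`pull_mul`), so `Triv (C3.D - C0.D)`, so `C3.ζ = C0.ζ` (otherwise `C3.D.eq C0.ζ` is a unit by `unit_of_ne`, so `C0.D.eq C0.ζ` is a unit, against `C0.ne`).
  `φ C1.D = w (w (w (w (fv 0)))) = fv 1`, `φ C2.D = fv 2`: by the coordinates (`co_inj`, `IsW`, `form_fv`: `co (fv i) j = form (fv i) (fv j)`; `w (fv 0) = fv 1`, `w (fv 1) = fv 2`, `w (fv 2) = fv 0`).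
-/

set_option autoImplicit false

universe u

namespace Pool.Agent.H54.EN

variable {k K : Type u} [Field k] [Field K] [Algebra k K] (T : Ctx k K)

private theorem h11_inv {w : E10 ≃ₗ[ℤ] E10} (g : MAut T.X)
    (hg : ∀ D, T.φ (g.pull D) = w (T.φ D)) (D : Cart T.X) :
    T.φ (g⁻¹.pull D) = w.symm (T.φ D) := by
  rw [LinearEquiv.eq_symm_apply, ← hg, ← pull_mul, inv_mul_cancel, pull_one]

private theorem h11_mul {v w : E10 ≃ₗ[ℤ] E10} (g h : MAut T.X)
    (hg : ∀ D, T.φ (g.pull D) = v (T.φ D)) (hh : ∀ D, T.φ (h.pull D) = w (T.φ D))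
    (D : Cart T.X) : T.φ ((g * h).pull D) = (v.trans w) (T.φ D) := by
  rw [pull_mul, hh, hg]
  rfl

theorem curve_fix [IsAlgClosed k] {w : E10 ≃ₗ[ℤ] E10} (hw : IsW w) (g : MAut T.X)
    (hg : ∀ D, T.φ (g.pull D) = w (T.φ D)) (ge2 : ∀ C : Prm T.X, 2 ≤ deg (T.φ C.D)) (e : E10)
    (he : form e e = 0) (hd : 0 < deg e) (hd3 : deg e ≤ 3) (hwe : w (w e) = e) :
    ∃ C : Prm T.X, T.φ C.D = e ∧ Triv ((g * g * (g * g)).pull C.D - C.D) := by
  have h1 := h11_mul T g g hg hg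
  exact inv_curve T ge2 (g * g) (w.trans w) h1 (h11_inv T (g * g) h1) e he hd hd3 hwe

private theorem h11_zeta {C C' : Prm T.X} (h : Triv (C'.D - C.D)) : C.ζ = C'.ζ := by
  by_contra hne
  have h1 := unit_of_ne T.sf C C' hne
  have h2 := h C.ζ
  rw [sub_eq] at h2
  have h3 := un_mul h1 (un_inv h2)
  have h4 : C'.D.eq C.ζ * (C'.D.eq C.ζ / C.D.eq C.ζ)⁻¹ = C.D.eq C.ζ := by
    have := C.D.ne C.ζ
    have := C'.D.ne C.ζ
    field_simp
  rw [h4] at h3
  exact C.ne h3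

private theorem h11_fv {w : E10 ≃ₗ[ℤ] E10} (hw : IsW w) : w (fv 0) = fv 1 ∧ w (fv 1) = fv 2 ∧
    w (fv 2) = fv 0 := by
  have hco : ∀ i j, co (fv i) j = if i = j then 0 else 1 := fun i j => form_fv i j
  have hd : ∀ i : Fin 10, i < 3 → deg (fv i) = 2 := by
    intro i hi
    unfold deg
    rw [hco, hco, hco]
    fin_cases i <;> first | rfl | (exact absurd hi (by decide))
  refine ⟨?_, ?_, ?_⟩
  · refine co_inj fun j => ?_
    rw [hco]
    fin_cases j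
    · exact (hw.c0 _).trans (by rw [hco]; decide)
    · exact (hw.c1 _).trans (by rw [hco]; decide)
    · exact (hw.c2 _).trans (by rw [hco]; decide)
    all_goals
      refine (hw.cj _ _ (by decide)).trans ?_
      rw [hd 0 (by decide), hco]
      decide
  · refine co_inj fun j => ?_
    rw [hco]
    fin_cases j
    · exact (hw.c0 _).trans (by rw [hco]; decide)
    · exact (hw.c1 _).trans (by rw [hco]; decide)
    · exact (hw.c2 _).trans (by rw [hco]; decide)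
    all_goals
      refine (hw.cj _ _ (by decide)).trans ?_
      rw [hd 1 (by decide), hco]
      decide
  · refine co_inj fun j => ?_
    rw [hco]
    fin_cases j
    · exact (hw.c0 _).trans (by rw [hco]; decide)
    · exact (hw.c1 _).trans (by rw [hco]; decide)
    · exact (hw.c2 _).trans (by rw [hco]; decide)
    all_goals
      refine (hw.cj _ _ (by decide)).trans ?_
      rw [hd 2 (by decide), hco]
      decide

theorem three_curves [IsAlgClosed k] {w : E10 ≃ₗ[ℤ] E10} (hw : IsW w) (g : MAut T.X)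
    (hg : ∀ D, T.φ (g.pull D) = w (T.φ D)) (ge2 : ∀ C : Prm T.X, 2 ≤ deg (T.φ C.D)) :
    ∃ C : Fin 3 → Prm T.X, T.φ (C 0).D = fv 0 ∧ T.φ (C 1).D = fv 1 ∧ T.φ (C 2).D = fv 2 ∧
      (g * g * (g * g)).σ (C 1).ζ = (C 0).ζ ∧ (g * g * (g * g)).σ (C 2).ζ = (C 1).ζ ∧
      (g * g * (g * g)).σ (C 0).ζ = (C 2).ζ := by
  obtain ⟨f0, f1, f2⟩ := h11_fv hw
  have h2 := h11_mul T g g hg hg
  have h4 := h11_mul T (g * g) (g * g) h2 h2
  have h6 := h11_mul T (g * g * (g * g)) (g * g) h4 h2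
  have h6' : ∀ D, T.φ ((g * g * (g * g) * (g * g)).pull D) = LinearEquiv.refl ℤ E10 (T.φ D) := by
    intro D
    rw [h6]
    exact w6 hw (T.φ D)
  have hd : deg (fv 0) = 2 := by
    have hco : ∀ i j, co (fv i) j = if i = j then 0 else 1 := fun i j => form_fv i j
    unfold deg
    rw [hco, hco, hco]
    rfl
  obtain ⟨C0, hC0, hT⟩ := inv_curve T ge2 (g * g * (g * g) * (g * g)) (LinearEquiv.refl ℤ E10) h6'
    (h11_inv T _ h6') (fv 0) (by rw [form_fv]; rfl) (by rw [hd]; norm_num)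
    (by rw [hd]; norm_num) rfl
  obtain ⟨C1, hC1, hs1⟩ := exists_pull (g * g * (g * g)) C0
  obtain ⟨C2, hC2, hs2⟩ := exists_pull (g * g * (g * g)) C1
  obtain ⟨C3, hC3, hs3⟩ := exists_pull (g * g * (g * g)) C2
  have hG : ∀ x, T.φ ((g * g * (g * g)).pull x) = w (w (w (w (T.φ x)))) := h4
  have e1 : T.φ C1.D = fv 1 := by rw [hC1, hG, hC0, f0, f1, f2, f0]
  have e2 : T.φ C2.D = fv 2 := by rw [hC2, hG, e1, f1, f2, f0, f1]
  have e3 : C3.D = (g * g * (g * g) * (g * g) * (g * g * (g * g) * (g * g))).pull C0.D := by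
    rw [hC3, hC2, hC1, ← pull_mul, ← pull_mul]
    congr 1
  have e4 : C0.ζ = C3.ζ := by
    refine h11_zeta T ?_
    rw [e3]
    exact hT
  refine ⟨![C0, C1, C2], hC0, e1, e2, hs1, hs2, ?_⟩
  change (g * g * (g * g)).σ C0.ζ = C2.ζ
  rw [e4]
  exact hs3

end Pool.Agent.H54.EN
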