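import Pool.Agent.H54.EN.H7
import Pool.Agent.H54.EN.H10
import Pool.Agent.H54.EN.H11
import Pool.Agent.H54.EN.G5

/-!
# [H54 EN H12] the contradiction

`G = g * g * (g * g)`, `ge2` from `deg_ge_two`.
* `C`: `curve_fix` for `fv 3` (`form_fv`; `deg (fv 3) = 3`; `w (w (fv 3)) = fv 3` by `w2_co`, `co_inj`): `φ C.D = fv 3`; `G.σ C.ζ = C.ζ` (`fix_pt`).
* `lv` from `exists_lv`; for `i : Fin 27` `L i`: `curve_fix` for `lv i`.  `form (φ C.D) (φ (L i).D) = 1` (`form_comm`); `C.ζ ≠ (L i).ζ` (otherwise the classes are equal: `triv_of_eq`, `lin_triv`, `phi_lin`, and `form` would be `0`).  `meet` gives the point `x i`; `G.σ (x i) = x i`: `C.ζ ⤳ x i` gives `C.ζ = G.σ C.ζ ⤳ G.σ (x i)` (`Specializes.map`, `G.σ.continuous`), and the same for `L i` (`fix_pt`); uniqueness.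
* `F i`, `i : Fin 3`, from `three_curves`: `form (fv 3) (fv i) = 1` (`form_fv`), `P i` from `meet`.  `G.σ (P 1) = P 0`: `(F 0).ζ = G.σ (F 1).ζ ⤳ G.σ (P 1)`; in the same way `G.σ (P 2) = P 1`, `G.σ (P 0) = P 2`.
  The `P i` are distinct: if two of them are equal then all three are equal (apply `G.σ`), and `no_three` for `C`, `F` (`form_fv`; the degrees of `fv 0, fv 1, fv 2` are `2`) gives a contradiction.  So `G.σ (P i) ≠ P i`.
* `five` for `P = x`: if `sk i j`, `sk j l`, `sk i l` and `x i = x j = x l` then `no_three` for `C` and `L i, L j, L l` (`form (lv i) (lv j) = 1` by `exists_lv`; degrees `3`) gives a contradiction.  So there is `e : Fin 5 → Fin 27` with `x ∘ e` injective.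
* `curve_contra` for `G`, `C`, `E0 = L (e 0)`, `E1 = L (e 1)`, `p = x ∘ e`, `P`.
* `main_mod`: `sign`: in the second case replace `T.φ` by `-T.φ` (`{ T with φ := -T.φ, ... }`: surjective; `form (-x) (-y) = form x y`; `deg (-x) = -deg x`; `w` is linear).
-/

set_option autoImplicit false

universe u

namespace Pool.Agent.H54.EN

variable {k K : Type u} [Field k] [Field K] [Algebra k K]

private theorem h12_ne (T : Ctx k K) (C C' : Prm T.X) (h0 : form (T.φ C.D) (T.φ C.D) = 0)
    (h1 : form (T.φ C.D) (T.φ C'.D) = 1) : C.ζ ≠ C'.ζ := by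
  intro h
  rw [← phi_lin T (lin_triv (triv_of_eq C C' h)), h0] at h1
  exact zero_ne_one h1

private theorem h12_spec (T : Ctx k K) (g : MAut T.X) {x y : T.X.P} (h : x ⤳ y) : g.σ x ⤳ g.σ y :=
  h.map g.σ.continuous

theorem main_pos [IsAlgClosed k] (T : Ctx k K) {w : E10 ≃ₗ[ℤ] E10} (hw : IsW w) (g : MAut T.X)
    (hg : ∀ D, T.φ (g.pull D) = w (T.φ D)) (pos : ∀ C : Prm T.X, 0 < deg (T.φ C.D)) : False := by
  have ge2 := deg_ge_two T hw g hg pos
  have hco : ∀ i j, co (fv i) j = if i = j then 0 else 1 := fun i j => form_fv i j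
  have hd3 : deg (fv 3) = 3 := by
    unfold deg
    rw [hco, hco, hco]
    rfl
  have hd2 : ∀ i : Fin 10, i < 3 → deg (fv i) = 2 := by
    intro i hi
    unfold deg
    rw [hco, hco, hco]
    fin_cases i <;> first | rfl | (exact absurd hi (by decide))
  have hw3 : w (w (fv 3)) = fv 3 := by
    obtain ⟨a0, a1, a2, aj⟩ := w2_co hw (fv 3)
    refine co_inj fun j => ?_
    by_cases hj : 3 ≤ j
    · exact aj j hj
    · have : j = 0 ∨ j = 1 ∨ j = 2 := by
        revert j
        decide
      rcases this with rfl | rfl | rfl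
      · rw [a0, hco, hco]; rfl
      · rw [a1, hco, hco]; rfl
      · rw [a2, hco, hco]; rfl
  obtain ⟨C, hCφ, hCT⟩ := curve_fix T hw g hg ge2 (fv 3) (by rw [form_fv]; rfl)
    (by rw [hd3]; norm_num) (by rw [hd3]) hw3
  obtain ⟨G, hG⟩ : ∃ G, G = g * g * (g * g) := ⟨_, rfl⟩
  rw [← hG] at hCT
  have hCC : form (T.φ C.D) (T.φ C.D) = 0 := by rw [hCφ, form_fv]; rfl
  have hCd : deg (T.φ C.D) ≤ 3 := by rw [hCφ, hd3]
  have hCζ : G.σ C.ζ = C.ζ := fix_pt T C G hCT
  obtain ⟨lv, l0, ld, lw, l3, lne, lsk⟩ := exists_lv hw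
  have hL : ∀ i, ∃ C : Prm T.X, T.φ C.D = lv i ∧ Triv (G.pull C.D - C.D) := by
    intro i
    rw [hG]
    exact curve_fix T hw g hg ge2 (lv i) (l0 i) (by rw [ld]; norm_num) (by rw [ld]) (lw i)
  choose L hLφ hLT using hL
  have hCL : ∀ i, form (T.φ C.D) (T.φ (L i).D) = 1 := by
    intro i
    rw [hLφ, hCφ, form_comm]
    exact l3 i
  have hmL : ∀ i, ∃ x, C.ζ ⤳ x ∧ x ≠ C.ζ ∧ (L i).ζ ⤳ x ∧ ∀ y, C.ζ ⤳ y → (L i).ζ ⤳ y → y = x := by
    intro i
    obtain ⟨x, h1, h2, h3, h4, _⟩ := meet T C (L i) (h12_ne T C (L i) hCC (hCL i)) (hCL i)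
    exact ⟨x, h1, h2, h3, h4⟩
  choose x hx1 hx2 hx3 hx4 using hmL
  have hxG : ∀ i, G.σ (x i) = x i := by
    intro i
    refine hx4 i _ ?_ ?_
    · have := h12_spec T G (hx1 i)
      rwa [hCζ] at this
    · have := h12_spec T G (hx3 i)
      rwa [fix_pt T (L i) G (hLT i)] at this
  -- the cycle of three points
  obtain ⟨F, hF0, hF1, hF2, s1, s2, s0⟩ := three_curves T hw g hg ge2
  rw [← hG] at s1 s2 s0
  have hFφ : ∀ i : Fin 3, ∃ j : Fin 10, j < 3 ∧ (j : ℕ) = i ∧ T.φ (F i).D = fv j := by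
    intro i
    fin_cases i
    · exact ⟨0, by decide, rfl, hF0⟩
    · exact ⟨1, by decide, rfl, hF1⟩
    · exact ⟨2, by decide, rfl, hF2⟩
  choose j hj3 hji hFφ using hFφ
  have hFF : ∀ i l, i ≠ l → form (T.φ (F i).D) (T.φ (F l).D) = 1 := by
    intro i l hil
    rw [hFφ, hFφ, form_fv, if_neg]
    intro h
    apply hil
    have h1 := hji i
    have h2 := hji l
    rw [h] at h1
    exact Fin.ext (h1.symm.trans h2)
  have hCF : ∀ i, form (T.φ C.D) (T.φ (F i).D) = 1 := by
    intro i
    rw [hFφ, hCφ, form_fv, if_neg]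
    intro h
    have h1 := hj3 i
    rw [← h] at h1
    exact absurd h1 (by decide)
  have hmF : ∀ i, ∃ x, C.ζ ⤳ x ∧ x ≠ C.ζ ∧ (F i).ζ ⤳ x ∧ ∀ y, C.ζ ⤳ y → (F i).ζ ⤳ y → y = x := by
    intro i
    obtain ⟨x, h1, h2, h3, h4, _⟩ := meet T C (F i) (h12_ne T C (F i) hCC (hCF i)) (hCF i)
    exact ⟨x, h1, h2, h3, h4⟩
  choose P hP1 hP2 hP3 hP4 using hmF
  have hmv : ∀ i l, G.σ (F i).ζ = (F l).ζ → G.σ (P i) = P l := by
    intro i l hil
    refine hP4 l _ ?_ ?_
    · have := h12_spec T G (hP1 i)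
      rwa [hCζ] at this
    · have := h12_spec T G (hP3 i)
      rwa [hil] at this
  have m1 := hmv 1 0 s1
  have m2 := hmv 2 1 s2
  have m0 := hmv 0 2 s0
  have hall : ¬ (P 0 = P 1 ∧ P 1 = P 2) := by
    rintro ⟨h01, h12⟩
    refine no_three T ge2 C F hCC hCd ?_ hFF ?_ hCF (P 0) (hP1 0) ?_
    · intro i
      rw [hFφ, form_fv, if_pos rfl]
    · intro i
      rw [hFφ, hFφ, hd2 _ (hj3 _), hd2 _ (hj3 _)]
    · intro i
      fin_cases i
      · exact hP3 0
      · change (F 1).ζ ⤳ P 0
        rw [h01]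
        exact hP3 1
      · change (F 2).ζ ⤳ P 0
        rw [h01, h12]
        exact hP3 2
  have n01 : P 0 ≠ P 1 := by
    intro h
    apply hall
    refine ⟨h, ?_⟩
    have h1 : G.σ (P 0) = G.σ (P 1) := congrArg _ h
    rw [m0, m1] at h1
    rw [← h, h1]
  have n12 : P 1 ≠ P 2 := by
    intro h
    have h1 : G.σ (P 1) = G.σ (P 2) := congrArg _ h
    rw [m1, m2] at h1
    exact n01 h1
  have n02 : P 0 ≠ P 2 := by
    intro h
    have h1 : G.σ (P 0) = G.σ (P 2) := congrArg _ h
    rw [m0, m2] at h1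
    exact n12 h1.symm
  have hPi : Function.Injective P := by
    intro a b hab
    fin_cases a <;> fin_cases b
    · rfl
    · exact absurd hab n01
    · exact absurd hab n02
    · exact absurd hab.symm n01
    · rfl
    · exact absurd hab n12
    · exact absurd hab.symm n02
    · exact absurd hab.symm n12
    · rfl
  have hPfix : ∀ i, G.σ (P i) ≠ P i := by
    intro i
    fin_cases i
    · change G.σ (P 0) ≠ P 0
      rw [m0]
      exact n02.symm
    · change G.σ (P 1) ≠ P 1
      rw [m1]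
      exact n01
    · change G.σ (P 2) ≠ P 2
      rw [m2]
      exact n12
  -- five points
  have hfive : ∀ a b c, sk a b = true → sk b c = true → sk a c = true → x a = x b → x b = x c →
      False := by
    intro a b c hab hbc hac h1 h2
    have q1 := lsk a b hab
    have q2 := lsk b c hbc
    have q3 := lsk a c hac
    refine no_three T ge2 C ![L a, L b, L c] hCC hCd ?_ ?_ ?_ ?_ (x a) (hx1 a) ?_
    · intro i
      fin_cases i
      · change form (T.φ (L a).D) (T.φ (L a).D) = 0
        rw [hLφ, l0]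
      · change form (T.φ (L b).D) (T.φ (L b).D) = 0
        rw [hLφ, l0]
      · change form (T.φ (L c).D) (T.φ (L c).D) = 0
        rw [hLφ, l0]
    · intro i l hil
      fin_cases i <;> fin_cases l
      · exact absurd rfl hil
      · change form (T.φ (L a).D) (T.φ (L b).D) = 1
        rw [hLφ, hLφ, q1]
      · change form (T.φ (L a).D) (T.φ (L c).D) = 1
        rw [hLφ, hLφ, q3]
      · change form (T.φ (L b).D) (T.φ (L a).D) = 1
        rw [hLφ, hLφ, form_comm, q1]
      · exact absurd rfl hil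
      · change form (T.φ (L b).D) (T.φ (L c).D) = 1
        rw [hLφ, hLφ, q2]
      · change form (T.φ (L c).D) (T.φ (L a).D) = 1
        rw [hLφ, hLφ, form_comm, q3]
      · change form (T.φ (L c).D) (T.φ (L b).D) = 1
        rw [hLφ, hLφ, form_comm, q2]
      · exact absurd rfl hil
    · intro i
      fin_cases i
      · rfl
      · change deg (T.φ (L b).D) = deg (T.φ (L a).D)
        rw [hLφ, hLφ, ld, ld]
      · change deg (T.φ (L c).D) = deg (T.φ (L a).D)
        rw [hLφ, hLφ, ld, ld]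
    · intro i
      fin_cases i
      · exact hCL a
      · exact hCL b
      · exact hCL c
    · intro i
      fin_cases i
      · exact hx3 a
      · change (L b).ζ ⤳ x a
        rw [h1]
        exact hx3 b
      · change (L c).ζ ⤳ x a
        rw [h1, h2]
        exact hx3 c
  obtain ⟨e, he⟩ := five x hfive
  exact curve_contra T ge2 C (L (e 0)) (L (e 1)) G hCT (hLT _) (hLT _) (hCL _) (hCL _) hCC
    (h12_ne T C _ hCC (hCL _)) (h12_ne T C _ hCC (hCL _)) (fun a => x (e a)) he
    (fun i => ⟨hx1 _, hx2 _, hxG _⟩) (hx4 _) (hx4 _) P hPi (fun i => ⟨hP1 i, hP2 i⟩) m1 m2 hPfix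

theorem main_mod [IsAlgClosed k] (T : Ctx k K) {w : E10 ≃ₗ[ℤ] E10} (hw : IsW w) (g : MAut T.X)
    (hg : ∀ D, T.φ (g.pull D) = w (T.φ D)) : False := by
  rcases sign T hw g hg with h | h
  · exact main_pos T hw g hg h
  · have hneg : ∀ x y : E10, form (-x) (-y) = form x y := by
      intro x y
      have e1 : ∀ a : E10, -a = (-1 : ℤ) • a := fun a => (neg_one_smul ℤ a).symm
      rw [e1, e1, form_smul, form_comm, form_smul, form_comm]
      ring
    let T' : Ctx k K :=
      { X := T.X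
        sf := T.sf
        A := T.A
        s := T.s
        pol := T.pol
        M := T.M
        can := T.can
        num := T.num
        chi1 := T.chi1
        φ := -T.φ
        surj := fun y => by
          obtain ⟨D, hD⟩ := T.surj (-y)
          exact ⟨D, by rw [AddMonoidHom.neg_apply, hD, neg_neg]⟩
        isom := fun D D' => by
          rw [AddMonoidHom.neg_apply, AddMonoidHom.neg_apply, hneg]
          exact T.isom D D' }
    refine main_pos T' hw g ?_ ?_
    · intro D
      change -(T.φ (g.pull D)) = w (-(T.φ D))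
      rw [hg, map_neg]
    · intro C
      change 0 < deg (-(T.φ C.D))
      have h1 : deg (-(T.φ C.D)) = -deg (T.φ C.D) := by
        have h2 := deg_sub 0 (T.φ C.D)
        have h3 : deg (0 : E10) = 0 := by
          have := deg_sub (0 : E10) 0
          rw [sub_zero, sub_self] at this
          exact this
        rw [zero_sub, h3, zero_sub] at h2
        exact h2
      rw [h1]
      have := h C
      omega

end Pool.Agent.H54.EN
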