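import Pool.Agent.H54.EN.P4

/-!
# [H54 EN P5] induction on effective divisors

`X.P` is covered by finitely many affine sets `U 1, ..., U n` (`hX.comp`, `hX.chart`, `hX.op`), which may be taken nonempty.  For an effective divisor `D` let `I_j(D)` be the ideal of the `f ∈ sec (U j)` with `f / D.eq x ∈ O x` for all `x ∈ U j`.
If `D = D' + C.D` with `D'` effective then `I_j(D) ≤ I_j(D')` for all `j` (`C.D` is effective), and `I_j(D) ≠ I_j(D')` for an index `j` with `C.ζ ∈ U j`: let `ζ = C.ζ`; by `triv` (B3) for `D'`, `U = U j`, `V = univ`, `x = ζ` there is `a`, regular on `U j`, a unit at `ζ`, such that `D'.eq y / D'.eq ζ` is a unit of `O y` at all `y ∈ U j` at which `a` is a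
unit; by `denc` (B3) for `M = -D'`, `b = D'.eq ζ` there is `N` with `f = a ^ N * D'.eq ζ`, `f * (D'.eq y)⁻¹ ∈ O y` for all `y ∈ U j`: `f ∈ I_j(D')` (`f ∈ O y` because `D'` is effective); but `f / D.eq ζ = a ^ N / C.D.eq ζ ∉ O ζ` (`a` is a unit at `ζ`, `C.D.eq ζ` is in `O ζ` and not a unit).
The rings `sec (U j)` are Noetherian (`noeth_sec`), so the relation `D' < D` on effective divisors (`D = D' + C.D` for some `C`) is well-founded: by well-founded induction for `>` on the finite product `(j : Fin n) → Ideal (sec (U j))` (`WellFoundedGT`, `Pi` instance or `wellFounded_gt`).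
Let `D` be effective.  If `D` is not `Triv` then some `D.eq x` is a nonunit, `exists_prm` gives `C` with `D - C.D` effective; by induction `p (D - C.D)`, and `D = (D - C.D) + C.D`.
-/

set_option autoImplicit false

universe u

namespace Pool.Agent.H54.EN

variable {k K : Type u} [Field k] [Field K] [Algebra k K] {X : Mod k K}

/-- the ideal of an effective divisor on an affine set -/
private def idl (D : Cart X) (U : Set X.P) : Ideal (X.sec U) where
  carrier := {f | ∀ x ∈ U, (f : K) / D.eq x ∈ X.O x}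
  add_mem' := by
    intro a b ha hb x hx
    change ((a : K) + (b : K)) / D.eq x ∈ X.O x
    rw [add_div]
    exact (X.O x).add_mem (ha x hx) (hb x hx)
  zero_mem' := by
    intro x _
    change (0 : K) / D.eq x ∈ X.O x
    rw [zero_div]
    exact (X.O x).zero_mem
  smul_mem' := by
    intro c a ha x hx
    change ((c : K) * (a : K)) / D.eq x ∈ X.O x
    rw [mul_div_assoc]
    exact (X.O x).mul_mem ((mem_sec U _).1 c.2 x hx) (ha x hx)

private theorem mem_idl {D : Cart X} {U : Set X.P} {f : X.sec U} :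
    f ∈ idl D U ↔ ∀ x ∈ U, (f : K) / D.eq x ∈ X.O x := Iff.rfl

private theorem idl_le (D : Cart X) (C : Prm X) (U : Set X.P) : idl D U ≤ idl (D - C.D) U := by
  intro f hf
  rw [mem_idl] at hf ⊢
  intro x hx
  have e : (f : K) / (D - C.D).eq x = (f : K) / D.eq x * C.D.eq x := by
    rw [sub_eq]
    have e1 := D.ne x
    have e2 := C.D.ne x
    field_simp
  rw [e]
  exact (X.O x).mul_mem (hf x hx) (C.eff x)

private theorem idl_ne (hX : IsSch X) (D : Cart X) (C : Prm X) (hD : Effective (D - C.D))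
    (U : Set X.P) (hU : X.aff U) (hζ : C.ζ ∈ U) : idl D U ≠ idl (D - C.D) U := by
  intro heq
  obtain ⟨c, h1, h2, h3⟩ := triv hX (D - C.D) U Set.univ C.ζ hU isOpen_univ hζ (Set.mem_univ _)
  have hne := (D - C.D).ne
  obtain ⟨N, hN⟩ := denc hX (-(D - C.D)) U hU c ((D - C.D).eq C.ζ) h1 (by
    intro y hy hu
    have h4 := (h3 y hy hu).2.2.2
    rw [inv_div, div_eq_mul_inv] at h4
    rw [neg_eq]
    exact h4)
  have h5 : ∀ y ∈ U, c ^ N * (D - C.D).eq C.ζ / (D - C.D).eq y ∈ X.O y := by
    intro y hy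
    have h6 := hN N le_rfl y hy
    rw [neg_eq, ← div_eq_mul_inv] at h6
    exact h6
  have hsec : c ^ N * (D - C.D).eq C.ζ ∈ X.sec U := by
    rw [mem_sec]
    intro y hy
    have e : c ^ N * (D - C.D).eq C.ζ =
        c ^ N * (D - C.D).eq C.ζ / (D - C.D).eq y * (D - C.D).eq y :=
      (div_mul_cancel₀ _ (hne y)).symm
    rw [e]
    exact (X.O y).mul_mem (h5 y hy) (hD y)
  have hmem : (⟨_, hsec⟩ : X.sec U) ∈ idl (D - C.D) U := mem_idl.2 h5
  rw [← heq, mem_idl] at hmem
  have h7 := hmem C.ζ hζ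
  change c ^ N * (D - C.D).eq C.ζ / D.eq C.ζ ∈ X.O C.ζ at h7
  have e2 : c ^ N * (D - C.D).eq C.ζ / D.eq C.ζ = (C.D.eq C.ζ)⁻¹ * c ^ N := by
    rw [sub_eq]
    have e1 := D.ne C.ζ
    have e2 := C.D.ne C.ζ
    field_simp
  rw [e2, mem_mul_un (un_pow h2 N)] at h7
  exact C.ne ⟨C.D.ne _, C.eff _, h7⟩

theorem eff_ind (hX : IsSf X) (p : Cart X → Prop) (h0 : ∀ D, Triv D → p D)
    (h1 : ∀ (D : Cart X) (C : Prm X), Effective D → p D → p (D + C.D)) (D : Cart X)
    (hD : Effective D) : p D := by
  have hcomp := hX.comp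
  choose U hU hxU using hX.chart
  obtain ⟨t, ht⟩ := CompactSpace.elim_nhds_subcover U
    (fun x => (hX.op (U x) (hU x)).mem_nhds (hxU x))
  have hcov : ∀ x : X.P, ∃ j : t, x ∈ U j := by
    intro x
    have h2 : x ∈ ⋃ y ∈ t, U y := by
      rw [ht]
      trivial
    rw [Set.mem_iUnion₂] at h2
    obtain ⟨y, hy, hxy⟩ := h2
    exact ⟨⟨y, hy⟩, hxy⟩
  have hno : ∀ j : t, IsNoetherianRing (X.sec (U j)) := fun j =>
    noeth_sec hX.toIsSch (U j) (hU j) ⟨_, hxU j⟩
  have hwf : WellFoundedLT (∀ j : t, (Ideal (X.sec (U j)))ᵒᵈ) :=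
    Pi.wellFoundedLT (α := fun j : t => (Ideal (X.sec (U j)))ᵒᵈ)
      (hw := fun j => ⟨(inferInstance : WellFoundedGT (Ideal (X.sec (U j)))).wf⟩)
  have key : ∀ (J : ∀ j : t, (Ideal (X.sec (U j)))ᵒᵈ) (D : Cart X), Effective D →
      (fun j : t => OrderDual.toDual (idl D (U j))) = J → p D := by
    intro J
    induction J using WellFoundedLT.induction with
    | _ J ih =>
      intro D hD hJ
      by_cases hT : Triv D
      · exact h0 D hT
      · have hT' : ∃ x, ¬ Un (X.O x) (D.eq x) := by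
          by_contra hc
          push Not at hc
          exact hT hc
        obtain ⟨x, hx⟩ := hT'
        obtain ⟨C, hC⟩ := exists_prm hX D hD x hx
        have hlt : (fun j : t => OrderDual.toDual (idl (D - C.D) (U j))) < J := by
          rw [← hJ]
          refine lt_of_le_of_ne (fun j => ?_) (fun he => ?_)
          · exact OrderDual.toDual_le_toDual.2 (idl_le D C (U j))
          · obtain ⟨j, hj⟩ := hcov C.ζ
            have h2 := congrFun he j
            exact idl_ne hX.toIsSch D C hC (U j) (hU j) hj (OrderDual.toDual.injective h2).symm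
        have h3 := h1 (D - C.D) C hC (ih _ hlt (D - C.D) hC rfl)
        rwa [sub_add_cancel] at h3
  exact key _ D hD rfl

end Pool.Agent.H54.EN
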