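import Pool.Agent.H54.EN.F5
import Pool.Agent.H54.EN.P5
import Pool.Agent.H54.EN.H1

/-!
# [H54 EN H2] positivity of prime divisors

* `can_sec`: the canonical section: `E` effective and `E.eq ζ` a unit at `ζ = C.ζ`: `n = rs ζ (E.eq ζ) ≠ 0` is in `gam C E`: `n / uu C E x = rs ζ (E.eq x)` for `ζ ⤳ x` (`uu C E x = rs ζ (E.eq ζ / E.eq x)`, `rs_mul`, `eq_gen`); so `n / uu C E x` is a unit iff `E.eq x` is a unit of `O x` (`cR_un`).
* `dot_nonneg`: `C.ζ ≠ C'.ζ`: `unit_of_ne`, `can_sec` for `E = C'.D`, `zeros_le` with `F = ∅`.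
* `ample_pos`: let `i` with `ζ ∈ U i` (`cov_cov`), `n = rs ζ (s i * A.eq ζ)`, a unit of `O ζ` (`nz`), so `n ≠ 0`; `n ∈ gam C A`: `n / uu C A x = rs ζ (s i * A.eq x)` (`T.pol.sec`).  There is `x` with `ζ ⤳ x`, `x ≠ ζ`, `x ∉ U i`: otherwise let `x0 ≠ ζ`, `ζ ⤳ x0` (`not_closed`); `x0 ∈ U i`.
  For every `a ∈ sec (U i)` the class `rs ζ a` is in `gam C 0` (all `x` with `ζ ⤳ x` are in `U i`, `cR_mem`, `uu_zero`), so a constant `c` (`gam_const`): `a - c` is a nonunit at `ζ`.  `hX.bas (U i) V ζ` for `V` = the complement of the closure of `x0` (`ζ ∉ closure {x0}`: otherwise `x0 ⤳ ζ`, `hX.t0`) gives `a ∈ sec (U i)`, a unit at `ζ`, a nonunit at `x0`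
  (`x0 ∈ U i`, `x0 ∉ V`); `a - c` is a nonunit at `ζ`, so at `x0` (`un_gen`), so `c` is a nonunit at `x0` (`un_add`), `c = 0`, and `a` is a nonunit at `ζ`: a contradiction.  At such an `x` `s i * A.eq x` is not a unit, so `x` is a zero of `n`: `zeros_le` with `F = {x}`.
-/

set_option autoImplicit false

universe u

namespace Pool.Agent.H54.EN

variable {k K : Type u} [Field k] [Field K] [Algebra k K] (T : Ctx k K)

theorem can_sec (C : Prm T.X) (E : Cart T.X) (hE : Effective E) (hu : Un (T.X.O C.ζ) (E.eq C.ζ)) :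
    T.X.rs C.ζ (E.eq C.ζ) ≠ 0 ∧ T.X.rs C.ζ (E.eq C.ζ) ∈ gam C E ∧
      ∀ x, C.ζ ⤳ x → T.X.rs C.ζ (E.eq C.ζ) / uu C E x = T.X.rs C.ζ (E.eq x) := by
  have h3 : ∀ x, C.ζ ⤳ x → T.X.rs C.ζ (E.eq C.ζ) / uu C E x = T.X.rs C.ζ (E.eq x) := by
    intro x hx
    have h1 : E.eq x ∈ T.X.O C.ζ := T.sf.spec _ _ hx (hE x)
    have h2 := eq_gen E hx
    have h4 : E.eq C.ζ = E.eq x * (E.eq C.ζ / E.eq x) := by
      rw [mul_div_cancel₀ _ (E.ne x)]
    rw [div_eq_iff (uu_ne C E hx)]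
    unfold uu
    rw [← rs_mul C.ζ h1 h2.2.1, ← h4]
  refine ⟨(rs_ne C.ζ (hE C.ζ)).2 hu, ?_, h3⟩
  intro x hx
  rw [h3 x hx]
  exact cR_mem T.sf.toIsSch hx (hE x)

theorem dot_nonneg [IsAlgClosed k] (C C' : Prm T.X) (h : C.ζ ≠ C'.ζ) :
    0 ≤ form (T.φ C.D) (T.φ C'.D) := by
  obtain ⟨h1, h2, h3⟩ := can_sec T C C'.D C'.eff (unit_of_ne T.sf C C' h)
  have h4 := zeros_le T C C'.D _ h2 h1 ∅ (by simp)
  rw [form_comm]
  simpa using h4

theorem ample_pos [IsAlgClosed k] (C : Prm T.X) : 1 ≤ form (T.φ T.A) (T.φ C.D) := by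
  obtain ⟨i, hi⟩ := cov_cov T C.ζ
  have hu : Un (T.X.O C.ζ) (T.s i * T.A.eq C.ζ) := hi
  have hn0 : T.X.rs C.ζ (T.s i * T.A.eq C.ζ) ≠ 0 := (rs_ne C.ζ hu.2.1).2 hu
  have h3 : ∀ x, C.ζ ⤳ x → T.X.rs C.ζ (T.s i * T.A.eq C.ζ) / uu C T.A x =
      T.X.rs C.ζ (T.s i * T.A.eq x) := by
    intro x hx
    have h1 : T.s i * T.A.eq x ∈ T.X.O C.ζ := T.sf.spec _ _ hx (T.pol.sec i x)
    have h2 := eq_gen T.A hx
    have h4 : T.s i * T.A.eq C.ζ = T.s i * T.A.eq x * (T.A.eq C.ζ / T.A.eq x) := by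
      rw [mul_assoc, mul_div_cancel₀ _ (T.A.ne x)]
    rw [div_eq_iff (uu_ne C T.A hx)]
    unfold uu
    rw [← rs_mul C.ζ h1 h2.2.1, ← h4]
  have hmem : T.X.rs C.ζ (T.s i * T.A.eq C.ζ) ∈ gam C T.A := by
    intro x hx
    rw [h3 x hx]
    exact cR_mem T.sf.toIsSch hx (T.pol.sec i x)
  have hex : ∃ x, C.ζ ⤳ x ∧ x ≠ C.ζ ∧ x ∉ T.U i := by
    by_contra hcon
    push_neg at hcon
    have hall : ∀ x, C.ζ ⤳ x → x ∈ T.U i := by
      intro x hx
      by_cases hxe : x = C.ζ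
      · rw [hxe]
        exact hi
      · exact hcon x hx hxe
    obtain ⟨x0, hx0, hx0ne⟩ := not_closed T.sf C
    have hV : IsOpen (closure ({x0} : Set T.X.P))ᶜ := isClosed_closure.isOpen_compl
    have hζV : C.ζ ∈ (closure ({x0} : Set T.X.P))ᶜ := by
      intro h
      have h1 : x0 ⤳ C.ζ := specializes_iff_mem_closure.2 h
      exact hx0ne (T.sf.t0 _ _ h1 hx0)
    obtain ⟨a, ha, hau, haV⟩ := T.sf.bas (T.U i) _ C.ζ (cov_aff T i) hV hi hζV
    have hx0U := hall x0 hx0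
    have hanu : ¬ Un (T.X.O x0) a := by
      intro h
      exact haV x0 hx0U h (subset_closure rfl)
    have hag : T.X.rs C.ζ a ∈ gam C 0 := by
      intro x hx
      rw [uu_zero, div_one]
      exact cR_mem T.sf.toIsSch hx (ha x (hall x hx))
    obtain ⟨c, hc⟩ := gam_const T C _ hag
    have haζ : a ∈ T.X.O C.ζ := ha _ hi
    have h5 : ¬ Un (T.X.O C.ζ) (a - algebraMap k K c) := by
      intro h
      have h6 := (rs_ne C.ζ ((T.X.O C.ζ).sub_mem haζ ((T.X.O C.ζ).algebraMap_mem c))).2 h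
      apply h6
      have h7 : a - algebraMap k K c = a + algebraMap k K (-c) := by
        rw [map_neg, sub_eq_add_neg]
      rw [h7, rs_add C.ζ haζ ((T.X.O C.ζ).algebraMap_mem _), rs_alg, hc, map_neg, add_neg_cancel]
    have h8 : ¬ Un (T.X.O x0) (a - algebraMap k K c) := fun h => h5 (un_gen T.sf.toIsSch hx0 h)
    have hc0 : ¬ Un (T.X.O x0) (algebraMap k K c) := by
      intro h
      have h9 : algebraMap k K c = a + -(a - algebraMap k K c) := by ring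
      rw [h9] at h
      have hax : a ∈ T.X.O x0 := ha x0 hx0U
      rcases un_add hax ((T.X.O x0).neg_mem ((T.X.O x0).sub_mem hax
        ((T.X.O x0).algebraMap_mem c))) h with h10 | h10
      · exact hanu h10
      · apply h8
        have h11 : a - algebraMap k K c = -(a - algebraMap k K c) * (-1) := by ring
        rw [h11]
        refine un_mul h10 ⟨by norm_num, (T.X.O x0).neg_mem (T.X.O x0).one_mem, ?_⟩
        rw [inv_neg, inv_one]
        exact (T.X.O x0).neg_mem (T.X.O x0).one_mem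
    have hc00 : c = 0 := by
      by_contra hcne
      apply hc0
      refine ⟨?_, (T.X.O x0).algebraMap_mem c, ?_⟩
      · rw [Ne, map_eq_zero]
        exact hcne
      · rw [← map_inv₀]
        exact (T.X.O x0).algebraMap_mem _
    rw [hc00, map_zero] at hc
    exact (rs_ne C.ζ haζ).2 hau hc
  obtain ⟨x, hx, hxne, hxU⟩ := hex
  have h4 := zeros_le T C T.A _ hmem hn0 {x} (by
    intro y hy
    rw [Finset.mem_singleton] at hy
    subst hy
    refine ⟨hx, hxne, ?_⟩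
    rw [h3 y hx, cR_un T.sf.toIsSch hx (T.pol.sec i y)]
    exact hxU)
  simpa using h4

end Pool.Agent.H54.EN
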