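import Pool.Agent.H54.EN.H2

/-!
# [H54 EN H3] the invariant class and degrees of curves

`hw : IsW w`, `hg : φ (g.pull D) = w (φ D)` for all `D`.
* `sign`: `v = ∑_{n < 6} w^n (φ A)` is invariant under `w` (`w6`): `v = m • hv` (`w_inv`).  For a prime divisor `C`: `form (w^n a) c = form a (w^(6-n) c)` (`form_w`, `w6`), and `w^j (φ C.D) = φ (C'.D)` for the prime divisor `C'` with `C'.D = (g^j).pull C.D` (`exists_pull`, `pull_mul`); `ample_pos` for the six `C'`: `form v (φ C.D) ≥ 6`; `form v c = m * deg c` (`deg_hv`, `form_comm`).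
* `deg_ge_two`: under the hypothesis `pos : ∀ C, 0 < deg (φ C.D)`: `curve_deg` for `c = φ C.D`: `self_ge`; `w (w c) = φ C'.D` with `C'.D = g.pull (g.pull C.D)` (`exists_pull` twice); if `w (w c) ≠ c` then `C'.ζ ≠ C.ζ` (`triv_of_eq`, `phi_lin`, `lin_triv`), so `dot_nonneg`.
* `eff_deg`: `D` effective: `0 ≤ deg (φ D)`, and `deg (φ D) ≤ 1` implies `Triv D`: `eff_ind` for the property `Triv D ∨ 2 ≤ deg (φ D)`: for `Triv D`: `φ D = 0` (`lin_triv`, `phi_lin`).  `D + C.D` with `D` effective: `deg ≥ 0 + 2`.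
* `eff_prime`: `D` effective, `deg (φ D) ≤ 3`, not `Triv`: there is `C` with `Triv (D - C.D)`: `exists_prm` gives `C` with `D - C.D` effective, of degree `≤ 3 - 2 = 1`: `eff_deg`.
* `no_sec`: `deg (φ D) < 0` implies `h0 D = 0`: otherwise `f ≠ 0` with `D + prin f` effective (`h0_pos`), `phi_lin`, `lin_prin`, `eff_deg`.
* `tau`: `φ D = 0`: `rr`: `h0 D + h0 (M - D) ≥ 1`; if `f ≠ 0`, `f * D.eq x ∈ O x`, then `D + prin f` is effective of degree `0`, so `Triv`, so `D ~ 0`.  If `h0 (M - D) > 0`: `M - D ~ 0`, `D ~ M`.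
-/

set_option autoImplicit false

universe u

namespace Pool.Agent.H54.EN

variable {k K : Type u} [Field k] [Field K] [Algebra k K] (T : Ctx k K)

private theorem h3_deg_zero : deg (0 : E10) = 0 := by
  have := deg_sub (0 : E10) 0
  rw [sub_zero, sub_self] at this
  exact this

private theorem h3_form_zero (x : E10) : form 0 x = 0 := by
  have := form_smul 0 (0 : E10) x
  rw [zero_smul, zero_mul] at this
  exact this

theorem sign [IsAlgClosed k] {w : E10 ≃ₗ[ℤ] E10} (hw : IsW w) (g : MAut T.X)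
    (hg : ∀ D, T.φ (g.pull D) = w (T.φ D)) :
    (∀ C : Prm T.X, 0 < deg (T.φ C.D)) ∨ ∀ C : Prm T.X, deg (T.φ C.D) < 0 := by
  obtain ⟨a, ha⟩ : ∃ a, a = T.φ T.A := ⟨_, rfl⟩
  have hpos : ∀ C : Prm T.X, 1 ≤ form a (T.φ C.D) := by
    intro C
    rw [ha]
    exact ample_pos T C
  have hstep : ∀ C : Prm T.X, ∃ C' : Prm T.X, T.φ C'.D = w (T.φ C.D) := by
    intro C
    obtain ⟨C', h1, _⟩ := exists_pull g C
    exact ⟨C', by rw [h1, hg]⟩
  obtain ⟨v, hv⟩ : ∃ v, v = a + w a + w (w a) + w (w (w a)) + w (w (w (w a))) +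
    w (w (w (w (w a)))) := ⟨_, rfl⟩
  have hinv : w v = v := by
    rw [hv, map_add, map_add, map_add, map_add, map_add, w6 hw]
    abel
  obtain ⟨m, hm⟩ := w_inv hw v hinv
  have hvC : ∀ C : Prm T.X, 0 < form v (T.φ C.D) := by
    intro C
    obtain ⟨C1, h1⟩ := hstep C
    obtain ⟨C2, h2⟩ := hstep C1
    obtain ⟨C3, h3⟩ := hstep C2
    obtain ⟨C4, h4⟩ := hstep C3
    obtain ⟨C5, h5⟩ := hstep C4
    have p0 := hpos C
    have p1 := hpos C1
    have p2 := hpos C2
    have p3 := hpos C3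
    have p4 := hpos C4
    have p5 := hpos C5
    rw [h5, h4, h3, h2, h1] at p5
    rw [h4, h3, h2, h1] at p4
    rw [h3, h2, h1] at p3
    rw [h2, h1] at p2
    rw [h1] at p1
    obtain ⟨c, hc⟩ : ∃ c, c = T.φ C.D := ⟨_, rfl⟩
    rw [← hc] at p0 p1 p2 p3 p4 p5 ⊢
    have q1 : form (w a) c = form a (w (w (w (w (w c))))) := by
      rw [← form_w hw a, w6 hw]
    have q2 : form (w (w a)) c = form a (w (w (w (w c)))) := by
      rw [← form_w hw a, ← form_w hw (w a), w6 hw]
    have q3 : form (w (w (w a))) c = form a (w (w (w c))) := by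
      rw [← form_w hw a, ← form_w hw (w a), ← form_w hw (w (w a)), w6 hw]
    have q4 : form (w (w (w (w a)))) c = form a (w (w c)) := by
      rw [← form_w hw a, ← form_w hw (w a), ← form_w hw (w (w a)), ← form_w hw (w (w (w a))),
        w6 hw]
    have q5 : form (w (w (w (w (w a))))) c = form a (w c) := by
      rw [← form_w hw a, ← form_w hw (w a), ← form_w hw (w (w a)), ← form_w hw (w (w (w a))),
        ← form_w hw (w (w (w (w a)))), w6 hw]
    rw [hv, form_add, form_add, form_add, form_add, form_add, q1, q2, q3, q4, q5]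
    linarith
  have hdeg : ∀ C : Prm T.X, 0 < m * deg (T.φ C.D) := by
    intro C
    have := hvC C
    rwa [hm, form_smul, form_comm, ← deg_hv] at this
  by_cases hm0 : 0 < m
  · left
    intro C
    exact (mul_pos_iff_of_pos_left hm0).1 (hdeg C)
  · right
    intro C
    have h1 := hdeg C
    have h2 : m < 0 := by
      rcases lt_trichotomy m 0 with h | h | h
      · exact h
      · rw [h, zero_mul] at h1
        exact absurd h1 (lt_irrefl 0)
      · exact absurd h hm0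
    rcases mul_pos_iff.1 h1 with h3 | h3
    · exact absurd h3.1 (not_lt.2 h2.le)
    · exact h3.2

theorem deg_ge_two [IsAlgClosed k] {w : E10 ≃ₗ[ℤ] E10} (hw : IsW w) (g : MAut T.X)
    (hg : ∀ D, T.φ (g.pull D) = w (T.φ D)) (pos : ∀ C : Prm T.X, 0 < deg (T.φ C.D))
    (C : Prm T.X) : 2 ≤ deg (T.φ C.D) := by
  refine curve_deg hw (T.φ C.D) (pos C) (self_ge T C) ?_
  intro hne
  obtain ⟨C1, h1, _⟩ := exists_pull g C
  obtain ⟨C2, h2, _⟩ := exists_pull g C1
  have h3 : T.φ C2.D = w (w (T.φ C.D)) := by rw [h2, hg, h1, hg]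
  rw [← h3]
  refine dot_nonneg T C C2 ?_
  intro hcon
  apply hne
  rw [← h3]
  exact (phi_lin T (lin_triv (triv_of_eq C C2 hcon))).symm

private theorem h3_triv {D : Cart T.X} (h : Triv D) : T.φ D = 0 := by
  have h2 : Triv (D - 0) := by
    rw [sub_zero]
    exact h
  rw [phi_lin T (lin_triv h2), map_zero]

theorem eff_deg (ge2 : ∀ C : Prm T.X, 2 ≤ deg (T.φ C.D)) (D : Cart T.X) (hD : Effective D) :
    Triv D ∨ 2 ≤ deg (T.φ D) := by
  refine eff_ind T.sf (fun D => Triv D ∨ 2 ≤ deg (T.φ D)) ?_ ?_ D hD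
  · intro D h
    exact Or.inl h
  · intro D C _ h
    right
    have h1 := ge2 C
    have h2 : 0 ≤ deg (T.φ D) := by
      rcases h with h | h
      · rw [h3_triv T h, h3_deg_zero]
      · omega
    rw [map_add, deg_add]
    omega

theorem eff_prime (ge2 : ∀ C : Prm T.X, 2 ≤ deg (T.φ C.D)) (D : Cart T.X) (hD : Effective D)
    (h3 : deg (T.φ D) ≤ 3) (hne : ¬ Triv D) : ∃ C : Prm T.X, Triv (D - C.D) := by
  unfold Triv at hne
  push_neg at hne
  obtain ⟨x, hx⟩ := hne
  obtain ⟨C, hC⟩ := exists_prm T.sf D hD x hx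
  refine ⟨C, ?_⟩
  rcases eff_deg T ge2 _ hC with h | h
  · exact h
  · rw [map_sub, deg_sub] at h
    have := ge2 C
    omega

private theorem h3_sec {D : Cart T.X} (h : 0 < T.h0 D) :
    ∃ (f : K) (hf : f ≠ 0), Effective (D + prin T.X f hf) := by
  obtain ⟨f, hf, hx⟩ := (h0_pos T D).1 h
  refine ⟨f, hf, fun x => ?_⟩
  rw [add_eq, prin_eq, mul_comm]
  exact hx x

theorem no_sec (ge2 : ∀ C : Prm T.X, 2 ≤ deg (T.φ C.D)) (D : Cart T.X) (h : deg (T.φ D) < 0) :
    T.h0 D = 0 := by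
  by_contra hcon
  obtain ⟨f, hf, hE⟩ := h3_sec T (Nat.pos_of_ne_zero hcon)
  have h1 : T.φ (D + prin T.X f hf) = T.φ D := phi_lin T (lin_prin D f hf)
  rcases eff_deg T ge2 _ hE with h2 | h2
  · rw [← h1, h3_triv T h2, h3_deg_zero] at h
    exact absurd h (lt_irrefl 0)
  · rw [h1] at h2
    omega

private theorem h3_lin (ge2 : ∀ C : Prm T.X, 2 ≤ deg (T.φ C.D)) (D : Cart T.X) (h : T.φ D = 0)
    (h0 : 0 < T.h0 D) : LinEq D 0 := by
  obtain ⟨f, hf, hE⟩ := h3_sec T h0
  have h1 : T.φ (D + prin T.X f hf) = T.φ D := phi_lin T (lin_prin D f hf)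
  rcases eff_deg T ge2 _ hE with h2 | h2
  · have h3 : Triv (D + prin T.X f hf - 0) := by
      rw [sub_zero]
      exact h2
    exact lin_trans (lin_symm (lin_prin D f hf)) (lin_triv h3)
  · rw [h1, h, h3_deg_zero] at h2
    omega

theorem tau (ge2 : ∀ C : Prm T.X, 2 ≤ deg (T.φ C.D)) (D : Cart T.X) (h : T.φ D = 0) :
    LinEq D 0 ∨ LinEq D T.M := by
  have h1 := rr T D
  rw [h, h3_form_zero] at h1
  by_cases h2 : 0 < T.h0 D
  · exact Or.inl (h3_lin T ge2 D h h2)
  · right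
    have h3 : 0 < T.h0 (T.M - D) := by
      have h4 : T.h0 D = 0 := by omega
      rw [h4] at h1
      by_contra h5
      have h6 : T.h0 (T.M - D) = 0 := by omega
      rw [h6] at h1
      norm_num at h1
    have h4 : T.φ (T.M - D) = 0 := by rw [map_sub, phi_M, h, sub_zero]
    have h5 := h3_lin T ge2 _ h4 h3
    have h6 := lin_add h5 (lin_refl D)
    rw [sub_add_cancel, zero_add] at h6
    exact lin_symm h6

end Pool.Agent.H54.EN
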