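import Pool.Agent.H54.EN.H3

/-!
# [H54 EN H4] invariant curves in isotropic classes

* `eig`: `g` an automorphism with `g.pull D ~ D`, `h0 D > 0`, `k` algebraically closed.  Let `t ≠ 0` with `t * D.eq x / (g.pull D).eq x` a unit of `O x` for all `x` (`lin_symm`, or the other direction).  `L f = g.τ f * t'` (`t' = t` or `t⁻¹`) maps `V = GS D univ` to itself: `f * D.eq x ∈ O x` for all `x` implies `g.τ (f * D.eq (g.σ x)) ∈ O x`,
  `g.τ f * (g.pull D).eq x ∈ O x`.  `V` is finite-dimensional (`gs_fin`) and not zero (`h0_pos`), so `L` has an eigenvector `f` (`Module.End.exists_eigenvalue`), with eigenvalue `c ≠ 0` because `L` is injective.  `F = D + prin f` is effective, and `g.pull F = g.pull D + prin (g.τ f)`: `(g.pull F - F).eq x = (g.pull D).eq x * g.τ f / (D.eq x * f)` is a unit: `g.τ f * t' = c f`.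
* `iso_sec`: `form e e ≥ 0`, `0 < deg e`, `φ D = e`: `h0 D > 0`: `rr`, and `h0 (M - D) = 0` by `no_sec` (`phi_M`).
* `inv_curve`: `e` with `form e e = 0`, `0 < deg e ≤ 3`, `φ (h.pull D) = φ D` for the divisors with `φ D = e`: choose `D` (`T.surj`); `(h * h).pull D ~ D` (`lin_of_fix`, `tau`; the hypotheses on `φ D = 0` hold because `φ (h.pull D) = v (φ D)` for the isometry `v`, `hv`, `hv'`); `eig` for `h * h`: `f`, `F = D + prin f`, effective with `φ F = e` (`lin_prin`, `phi_lin`), not `Triv`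
  (`deg e > 0`); `eff_prime`: `C` with `Triv (F - C.D)`; `φ C.D = e`, and `(h * h).pull C.D - C.D` is `Triv` (`pull_sub`, `pull_triv`; a sum of three `Triv` divisors).
-/

set_option autoImplicit false

universe u

namespace Pool.Agent.H54.EN

variable {k K : Type u} [Field k] [Field K] [Algebra k K] (T : Ctx k K)

theorem eig [IsAlgClosed k] (g : MAut T.X) (D : Cart T.X) (hg : LinEq (g.pull D) D)
    (h0 : 0 < T.h0 D) : ∃ (f : K) (hf : f ≠ 0), Effective (D + prin T.X f hf) ∧
      Triv (g.pull (D + prin T.X f hf) - (D + prin T.X f hf)) := by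
  obtain ⟨t, ht0, ht⟩ := hg
  have hpe : ∀ x, (g.pull D).eq x = g.τ (D.eq (g.σ x)) := fun x => rfl
  -- the linear map
  have hmem : ∀ f : K, f ∈ GS D (Set.univ : Set T.X.P) → g.τ f * t⁻¹ ∈ GS D (Set.univ : Set T.X.P) := by
    intro f hf x _
    have h1 := hf (g.σ x) (Set.mem_univ _)
    have h2 := (g.loc x _).2 h1
    rw [map_mul, ← hpe] at h2
    have h3 := (T.X.O x).mul_mem h2 (un_inv (ht x)).2.1
    have h4 : g.τ f * (g.pull D).eq x * (t * (g.pull D).eq x / D.eq x)⁻¹ = g.τ f * t⁻¹ * D.eq x := by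
      have := (g.pull D).ne x
      have := D.ne x
      field_simp
    rwa [h4] at h3
  let L : GS D (Set.univ : Set T.X.P) →ₗ[k] GS D (Set.univ : Set T.X.P) :=
    { toFun := fun f => ⟨g.τ f * t⁻¹, hmem f f.2⟩
      map_add' := fun a b => Subtype.ext (by
        change g.τ ((a : K) + b) * t⁻¹ = g.τ a * t⁻¹ + g.τ b * t⁻¹
        rw [map_add, add_mul])
      map_smul' := fun c a => Subtype.ext (by
        change g.τ (c • (a : K)) * t⁻¹ = c • (g.τ a * t⁻¹)
        rw [map_smul, smul_mul_assoc]) }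
  have hfin := gs_fin T D
  have hnt : Nontrivial (GS D (Set.univ : Set T.X.P)) := by
    obtain ⟨f, hf, hx⟩ := (h0_pos T D).1 h0
    refine ⟨⟨f, fun x _ => hx x⟩, 0, fun h => hf (congrArg Subtype.val h)⟩
  obtain ⟨c, hc⟩ := Module.End.exists_eigenvalue (K := k) L
  obtain ⟨f, hf⟩ := hc.exists_hasEigenvector
  have hf0 : (f : K) ≠ 0 := fun h => hf.2 (Subtype.ext h)
  have hLf : g.τ (f : K) * t⁻¹ = c • (f : K) := congrArg Subtype.val hf.apply_eq_smul
  have hc0 : c ≠ 0 := by
    rintro rfl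
    rw [zero_smul] at hLf
    rcases mul_eq_zero.1 hLf with h | h
    · rw [map_eq_zero] at h
      exact hf0 h
    · exact inv_ne_zero ht0 h
  refine ⟨f, hf0, fun x => ?_, fun x => ?_⟩
  · rw [add_eq, prin_eq, mul_comm]
    exact f.2 x (Set.mem_univ x)
  · have e1 : (g.pull (D + prin T.X (f : K) hf0) - (D + prin T.X (f : K) hf0)).eq x =
        t * (g.pull D).eq x / D.eq x * algebraMap k K c := by
      rw [sub_eq, pull_add, add_eq, add_eq, prin_eq]
      have e2 : (g.pull (prin T.X (f : K) hf0)).eq x = g.τ (f : K) := rfl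
      rw [e2]
      have e3 : g.τ (f : K) = algebraMap k K c * f * t := by
        rw [← Algebra.smul_def, ← hLf, mul_assoc, inv_mul_cancel₀ ht0, mul_one]
      rw [e3]
      have := D.ne x
      field_simp
    rw [e1]
    refine un_mul (ht x) ⟨?_, (T.X.O x).algebraMap_mem c, ?_⟩
    · rw [Ne, map_eq_zero]
      exact hc0
    · rw [← map_inv₀]
      exact (T.X.O x).algebraMap_mem _

theorem iso_sec (ge2 : ∀ C : Prm T.X, 2 ≤ deg (T.φ C.D)) (D : Cart T.X)
    (h : 0 ≤ form (T.φ D) (T.φ D)) (hd : 0 < deg (T.φ D)) : 0 < T.h0 D := by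
  have h1 := rr T D
  have h2 : T.h0 (T.M - D) = 0 := by
    refine no_sec T ge2 _ ?_
    rw [map_sub, phi_M, deg_sub]
    have h3 : deg (0 : E10) = 0 := by
      have := deg_sub (0 : E10) 0
      rw [sub_zero, sub_self] at this
      exact this
    omega
  rw [h2] at h1
  by_contra h3
  have h4 : T.h0 D = 0 := by omega
  rw [h4] at h1
  norm_num at h1
  omega

private theorem h4_triv_add {D E : Cart T.X} (hD : Triv D) (hE : Triv E) : Triv (D + E) :=
  fun x => un_mul (hD x) (hE x)

private theorem h4_triv_neg {D : Cart T.X} (hD : Triv D) : Triv (-D) :=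
  fun x => un_inv (hD x)

theorem inv_curve [IsAlgClosed k] (ge2 : ∀ C : Prm T.X, 2 ≤ deg (T.φ C.D)) (h : MAut T.X)
    (v : E10 ≃ₗ[ℤ] E10) (hv : ∀ D, T.φ (h.pull D) = v (T.φ D))
    (hv' : ∀ D, T.φ (h⁻¹.pull D) = v.symm (T.φ D)) (e : E10) (he : form e e = 0)
    (hd : 0 < deg e) (hd3 : deg e ≤ 3) (hve : v e = e) :
    ∃ C : Prm T.X, T.φ C.D = e ∧ Triv ((h * h).pull C.D - C.D) := by
  obtain ⟨D, hD⟩ := T.surj e
  have hlin : LinEq ((h * h).pull D) D := by
    refine lin_of_fix T (tau T ge2) h ?_ ?_ D ?_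
    · intro E hE
      rw [hv, hE, map_zero]
    · intro E hE
      rw [hv', hE, map_zero]
    · rw [hv, hD, hve]
  have h0 : 0 < T.h0 D := by
    refine iso_sec T ge2 D ?_ ?_
    · rw [hD, he]
    · rw [hD]
      exact hd
  obtain ⟨f, hf, hE, hT⟩ := eig T (h * h) D hlin h0
  have hφ : T.φ (D + prin T.X f hf) = e := by
    rw [phi_lin T (lin_prin D f hf), hD]
  obtain ⟨C, hC⟩ := eff_prime T ge2 _ hE (by rw [hφ]; exact hd3) (by
    intro h1
    have h2 : Triv (D + prin T.X f hf - 0) := by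
      rw [sub_zero]
      exact h1
    have h3 := phi_lin T (lin_triv h2)
    rw [hφ, map_zero] at h3
    have h4 : deg (0 : E10) = 0 := by
      have := deg_sub (0 : E10) 0
      rw [sub_zero, sub_self] at this
      exact this
    rw [h3, h4] at hd
    exact lt_irrefl 0 hd)
  refine ⟨C, ?_, ?_⟩
  · rw [← hφ, phi_lin T (lin_triv hC)]
  · have h1 := pull_triv (h * h) hC
    rw [pull_sub] at h1
    have h2 := h4_triv_add T (h4_triv_add T hT hC) (h4_triv_neg T h1)
    have h3 : (h * h).pull (D + prin T.X f hf) - (D + prin T.X f hf) +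
        (D + prin T.X f hf - C.D) +
        -((h * h).pull (D + prin T.X f hf) - (h * h).pull C.D) = (h * h).pull C.D - C.D := by
      abel
    rwa [h3] at h2

end Pool.Agent.H54.EN
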