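import Pool.Agent.H54.EN.H3

/-!
# [H54 EN H5] the intersection point of two curves; concurrent curves

* `off_iff`: `C.D.eq x` is a nonunit of `O x` iff `C.ζ ⤳ x`: `→` `C.off`.  `←`: `C.D.eq x = C.D.eq ζ * (C.D.eq x / C.D.eq ζ)` with a unit of `O ζ` (`eq_gen`), so `C.D.eq x` is a nonunit of `O ζ` (`C.ne`), so of `O x` (`un_gen`).
* `meet`: `C.ζ ≠ C'.ζ`, `form = 1`: `one_zero` for `D = C'.D`, `n = rs ζ (C'.D.eq ζ)` (`can_sec`, `unit_of_ne`, `C'.eff`); `n / uu C C'.D x = rs ζ (C'.D.eq x)`, a nonunit iff `C'.D.eq x` is a nonunit (`cR_un`) iff `C'.ζ ⤳ x` (`off_iff`).  If `C.ζ ⤳ y`, `C'.ζ ⤳ y` then `y ≠ C.ζ`: otherwise `C'.D.eq C.ζ` is a nonunit (`off_iff`) against `unit_of_ne`.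
* `h1_zero`: `E, E'` with `form` zero on each, `form (φ E.D) (φ E'.D) = 1`, the same degree: `D = E.D - E'.D + M`: `2 chiD D = 2 + form (e - e') (e - e') = 0` (`chi_eq`, `phi_M`).  `h0 D = 0`: if `f ≠ 0` is a section (`h0_pos`), `D + prin f` is effective of degree `0`: `Triv` (`eff_deg`), so `e - e' = 0` (`phi_lin`, `lin_prin`, `lin_triv`), against `form e e' = 1`, `form e e = 0`.
  `h2 D = h0 (M - D) = h0 (E'.D - E.D)` (`h2_eq`), zero by the same argument.  `chi_split`.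
* `conc`: let `ζ = C.ζ`, `D = C.D + M`, `D' = C.D + E.D - E'.D + M`, `n ∈ gam C D`, `n ≠ 0` (`gam_ne`), `c = rs ζ (E.D.eq ζ) / rs ζ (E'.D.eq ζ) ≠ 0`.  `n * c ∈ gam C D'`: for `ζ ⤳ y`: `uu C D' y = uu C D y * uu C E.D y / uu C E'.D y` (`uu_add`, `uu_sub`; write `D' = D + (E.D - E'.D)`), and `c / (uu C E.D y / uu C E'.D y) = rs ζ (E.D.eq y) / rs ζ (E'.D.eq y)` (`can_sec`).
  This is in `cR`: if `y = ζ`: `cR_self`.  If `y ≠ x` (the common point) then `E'.D.eq y` is a unit of `O y` (`off_iff` and the uniqueness in `meet` for `C, E'`).  If `y = x`: `t = rs ζ (E.D.eq x)` is a nonunit of `cR` (`off_iff`, `cR_un`): the last statement of `meet` for `C, E'`.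
  `h1 (D' - C.D) = 0`: `D' - C.D = E.D - E'.D + M` (`h1_zero`).  `gam_lift` gives a section `f` of `O(D')` with `rs ζ (f * D'.eq ζ) = n c ≠ 0`, so `f ≠ 0`: `D' + prin f` is effective, of degree `deg (φ C.D) ≤ 3`, not `Triv` (its degree is positive): `eff_prime` gives `R`, `φ R.D = φ D' = φ C.D + φ E.D - φ E'.D`.
-/

set_option autoImplicit false

universe u

namespace Pool.Agent.H54.EN

variable {k K : Type u} [Field k] [Field K] [Algebra k K] (T : Ctx k K)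

theorem off_iff (C : Prm T.X) (x : T.X.P) : ¬ Un (T.X.O x) (C.D.eq x) ↔ C.ζ ⤳ x := by
  constructor
  · intro h
    by_contra h1
    exact h (C.off x h1)
  · intro h h1
    have h2 : Un (T.X.O C.ζ) (C.D.eq x) := un_gen T.sf.toIsSch h h1
    have h3 := un_mul h2 (eq_gen C.D h)
    rw [mul_div_cancel₀ _ (C.D.ne x)] at h3
    exact C.ne h3

private theorem h5_unit [IsAlgClosed k] (C C' : Prm T.X) {x : T.X.P} (h : C.ζ ⤳ x) :
    ¬ Un (cR T.X C.ζ x) (T.X.rs C.ζ (C'.D.eq x)) ↔ C'.ζ ⤳ x := by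
  rw [cR_un T.sf.toIsSch h (C'.eff x), off_iff]

theorem meet [IsAlgClosed k] (C C' : Prm T.X) (hne : C.ζ ≠ C'.ζ)
    (h : form (T.φ C.D) (T.φ C'.D) = 1) :
    ∃ x, C.ζ ⤳ x ∧ x ≠ C.ζ ∧ C'.ζ ⤳ x ∧ (∀ y, C.ζ ⤳ y → C'.ζ ⤳ y → y = x) ∧
      ∀ t ∈ cR T.X C.ζ x, ¬ Un (cR T.X C.ζ x) t →
        t / T.X.rs C.ζ (C'.D.eq x) ∈ cR T.X C.ζ x := by
  have hu := unit_of_ne T.sf C C' hne
  obtain ⟨h1, h2, h3⟩ := can_sec T C C'.D C'.eff hu
  rw [form_comm] at h
  obtain ⟨x, hx, hxne, hxu, huniq, ht⟩ := one_zero T C C'.D _ h2 h1 h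
  rw [h3 x hx, h5_unit T C C' hx] at hxu
  refine ⟨x, hx, hxne, hxu, ?_, ?_⟩
  · intro y hy hy'
    have hyne : y ≠ C.ζ := by
      rintro rfl
      exact (off_iff T C' C.ζ).2 hy' hu
    refine huniq y hy hyne ?_
    rw [h3 y hy, h5_unit T C C' hy]
    exact hy'
  · intro t ht1 ht2
    have := ht t ht1 ht2
    rwa [h3 x hx] at this

private theorem h5_sub (x y : E10) : form (x - y) (x - y) = form x x - 2 * form x y + form y y := by
  have h1 : form ((x - y) + y) (x - y) = form (x - y) (x - y) + form y (x - y) := form_add _ _ _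
  have h2 : form ((x - y) + y) y = form (x - y) y + form y y := form_add _ _ _
  have h3 : form ((x - y) + y) x = form (x - y) x + form y x := form_add _ _ _
  rw [sub_add_cancel] at h1 h2 h3
  have h4 := form_comm x (x - y)
  have h5 := form_comm y (x - y)
  have h6 := form_comm x y
  linarith

private theorem h5_h0 (ge2 : ∀ C : Prm T.X, 2 ≤ deg (T.φ C.D)) (D : Cart T.X)
    (hd : deg (T.φ D) = 0) (hne : T.φ D ≠ 0) : T.h0 D = 0 := by
  by_contra h
  obtain ⟨f, hf, hx⟩ := (h0_pos T D).1 (Nat.pos_of_ne_zero h)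
  have hE : Effective (D + prin T.X f hf) := by
    intro x
    rw [add_eq, prin_eq, mul_comm]
    exact hx x
  have hφ : T.φ (D + prin T.X f hf) = T.φ D := phi_lin T (lin_prin D f hf)
  rcases eff_deg T ge2 _ hE with h1 | h1
  · apply hne
    rw [← hφ]
    have h2 : Triv (D + prin T.X f hf - 0) := by
      rw [sub_zero]
      exact h1
    rw [phi_lin T (lin_triv h2), map_zero]
  · rw [hφ, hd] at h1
    omega

theorem h1_zero (ge2 : ∀ C : Prm T.X, 2 ≤ deg (T.φ C.D)) (E E' : Prm T.X)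
    (hE : form (T.φ E.D) (T.φ E.D) = 0) (hE' : form (T.φ E'.D) (T.φ E'.D) = 0)
    (h : form (T.φ E.D) (T.φ E'.D) = 1) (hd : deg (T.φ E.D) = deg (T.φ E'.D)) :
    T.h1 (E.D - E'.D + T.M) = 0 := by
  have hφ : T.φ (E.D - E'.D + T.M) = T.φ E.D - T.φ E'.D := by
    rw [map_add, map_sub, phi_M, add_zero]
  have hφ' : T.φ (E'.D - E.D) = T.φ E'.D - T.φ E.D := map_sub _ _ _
  have hne : T.φ E.D - T.φ E'.D ≠ 0 := by
    intro h1
    rw [sub_eq_zero] at h1
    rw [← h1, hE] at h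
    exact zero_ne_one h
  have hne' : T.φ E'.D - T.φ E.D ≠ 0 := by
    intro h1
    apply hne
    rw [← neg_sub, h1, neg_zero]
  have h0 : T.h0 (E.D - E'.D + T.M) = 0 := by
    refine h5_h0 T ge2 _ ?_ ?_
    · rw [hφ, deg_sub, hd, sub_self]
    · rw [hφ]
      exact hne
  have h2 : T.h2 (E.D - E'.D + T.M) = 0 := by
    rw [h2_eq]
    have e1 : T.M - (E.D - E'.D + T.M) = E'.D - E.D := by abel
    rw [e1]
    refine h5_h0 T ge2 _ ?_ ?_
    · rw [hφ', deg_sub, hd, sub_self]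
    · rw [hφ']
      exact hne'
  have h3 := chi_eq T (E.D - E'.D + T.M)
  have h4 := chi_split T (E.D - E'.D + T.M)
  rw [hφ, h5_sub, hE, hE', h] at h3
  rw [h0, h2] at h4
  omega

theorem conc [IsAlgClosed k] (ge2 : ∀ C : Prm T.X, 2 ≤ deg (T.φ C.D)) (C E E' : Prm T.X)
    (hC : form (T.φ C.D) (T.φ C.D) = 0) (hC3 : deg (T.φ C.D) ≤ 3)
    (hE : form (T.φ E.D) (T.φ E.D) = 0) (hE' : form (T.φ E'.D) (T.φ E'.D) = 0)
    (h : form (T.φ E.D) (T.φ E'.D) = 1) (hd : deg (T.φ E.D) = deg (T.φ E'.D))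
    (hCE : form (T.φ C.D) (T.φ E.D) = 1) (hCE' : form (T.φ C.D) (T.φ E'.D) = 1) (x : T.X.P)
    (hx : C.ζ ⤳ x) (hx1 : E.ζ ⤳ x) (hx2 : E'.ζ ⤳ x) :
    ∃ R : Prm T.X, T.φ R.D = T.φ C.D + T.φ E.D - T.φ E'.D := by
  have key : ∀ B : Prm T.X, form (T.φ C.D) (T.φ B.D) = 1 → C.ζ ≠ B.ζ := by
    intro B hB hcon
    have h1 := phi_lin T (lin_triv (triv_of_eq C B hcon))
    rw [← h1, hC] at hB
    exact zero_ne_one hB
  have hn := key E hCE
  have hn' := key E' hCE'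
  obtain ⟨a1, a2, a3⟩ := can_sec T C E.D E.eff (unit_of_ne T.sf C E hn)
  obtain ⟨b1, b2, b3⟩ := can_sec T C E'.D E'.eff (unit_of_ne T.sf C E' hn')
  obtain ⟨y0, hy0, hy0ne, hy0', huniq, ht⟩ := meet T C E' hn' hCE'
  have hxy : x = y0 := huniq x hx hx2
  subst hxy
  obtain ⟨n, hn1, hn2⟩ := gam_ne T C hC
  obtain ⟨c, hcdef⟩ : ∃ c, c = T.X.rs C.ζ (E.D.eq C.ζ) / T.X.rs C.ζ (E'.D.eq C.ζ) := ⟨_, rfl⟩
  have hc0 : c ≠ 0 := by
    rw [hcdef]
    exact div_ne_zero a1 b1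
  have hmem : n * c ∈ gam C (C.D + T.M + (E.D - E'.D)) := by
    intro y hy
    rw [uu_add C _ _ hy, uu_sub C _ _ hy, mul_div_mul_comm]
    refine (cR T.X C.ζ y).mul_mem (hn1 y hy) ?_
    have hE0 : uu C E.D y ≠ 0 := uu_ne C E.D hy
    have hE0' : uu C E'.D y ≠ 0 := uu_ne C E'.D hy
    have e1 : c / (uu C E.D y / uu C E'.D y) =
        T.X.rs C.ζ (E.D.eq y) / T.X.rs C.ζ (E'.D.eq y) := by
      rw [← a3 y hy, ← b3 y hy, hcdef]
      field_simp
    rw [e1]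
    by_cases hyx : E'.ζ ⤳ y
    · have hyx' : y = x := huniq y hy hyx
      subst hyx'
      refine ht _ (cR_mem T.sf.toIsSch hy (E.eff y)) ?_
      rw [h5_unit T C E hy]
      exact hx1
    · have h1 : Un (T.X.O y) (E'.D.eq y) := E'.off y hyx
      have h2 := (cR_un T.sf.toIsSch hy (E'.eff y)).2 h1
      rw [div_eq_mul_inv]
      exact (cR T.X C.ζ y).mul_mem (cR_mem T.sf.toIsSch hy (E.eff y)) h2.2.2
  have e2 : C.D + T.M + (E.D - E'.D) - C.D = E.D - E'.D + T.M := by abel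
  obtain ⟨f, hf, hf'⟩ := gam_lift T C (C.D + T.M + (E.D - E'.D)) (by
    rw [e2]
    exact h1_zero T ge2 E E' hE hE' h hd) (n * c) hmem
  have hf0 : f ≠ 0 := by
    rintro rfl
    rw [zero_mul] at hf'
    have h1 : T.X.rs C.ζ 0 = 0 := by
      by_contra h2
      have h3 := (rs_ne C.ζ (T.X.O C.ζ).zero_mem).1 h2
      exact h3.1 rfl
    rw [h1] at hf'
    exact mul_ne_zero hn2 hc0 hf'.symm
  have hEff : Effective (C.D + T.M + (E.D - E'.D) + prin T.X f hf0) := by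
    intro y
    rw [add_eq, prin_eq, mul_comm]
    exact hf y
  have hφ : T.φ (C.D + T.M + (E.D - E'.D) + prin T.X f hf0) =
      T.φ C.D + T.φ E.D - T.φ E'.D := by
    rw [phi_lin T (lin_prin _ f hf0), map_add, map_add, phi_M, map_sub, add_zero]
    abel
  have hdeg : deg (T.φ (C.D + T.M + (E.D - E'.D) + prin T.X f hf0)) = deg (T.φ C.D) := by
    rw [hφ, deg_sub, deg_add, hd]
    ring
  obtain ⟨R, hR⟩ := eff_prime T ge2 _ hEff (by rw [hdeg]; exact hC3) (by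
    intro h1
    have h2 : Triv (C.D + T.M + (E.D - E'.D) + prin T.X f hf0 - 0) := by
      rw [sub_zero]
      exact h1
    have h3 := phi_lin T (lin_triv h2)
    have h4 := ge2 C
    rw [← hdeg, h3, map_zero] at h4
    have h5 : deg (0 : E10) = 0 := by
      have := deg_sub (0 : E10) 0
      rw [sub_zero, sub_self] at this
      exact this
    rw [h5] at h4
    omega)
  exact ⟨R, by rw [← hφ, phi_lin T (lin_triv hR)]⟩

end Pool.Agent.H54.EN
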