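import Pool.Agent.H54.EN.H5

/-!
# [H54 EN H7] no three concurrent curves

`conc` for `(C, E0, E1)` and `(C, E0, E2)` gives `R`, `R'` with `φ R.D = c + e0 - e1`, `φ R'.D = c + e0 - e2`; `form (φ R.D) (φ R'.D) = 0 + 1 - 1 + 1 + 0 - 1 - 1 - 1 + 1 = -1` (`form_add`, `form_comm`, and the corresponding statement for differences).  `dot_nonneg`: `R.ζ = R'.ζ`; `triv_of_eq`, `lin_triv`, `phi_lin`: `φ R.D = φ R'.D`, so `e1 = e2`,
against `form e1 e2 = 1`, `form e1 e1 = 0`.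
-/

set_option autoImplicit false

universe u

namespace Pool.Agent.H54.EN

variable {k K : Type u} [Field k] [Field K] [Algebra k K] (T : Ctx k K)

theorem no_three [IsAlgClosed k] (ge2 : ∀ C : Prm T.X, 2 ≤ deg (T.φ C.D)) (C : Prm T.X)
    (E : Fin 3 → Prm T.X) (hC : form (T.φ C.D) (T.φ C.D) = 0) (hC3 : deg (T.φ C.D) ≤ 3)
    (hE : ∀ i, form (T.φ (E i).D) (T.φ (E i).D) = 0)
    (h : ∀ i j, i ≠ j → form (T.φ (E i).D) (T.φ (E j).D) = 1)
    (hd : ∀ i, deg (T.φ (E i).D) = deg (T.φ (E 0).D))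
    (hCE : ∀ i, form (T.φ C.D) (T.φ (E i).D) = 1) (x : T.X.P) (hx : C.ζ ⤳ x)
    (hx1 : ∀ i, (E i).ζ ⤳ x) : False := by
  obtain ⟨R, hR⟩ := conc T ge2 C (E 0) (E 1) hC hC3 (hE 0) (hE 1) (h 0 1 (by decide))
    (hd 1).symm (hCE 0) (hCE 1) x hx (hx1 0) (hx1 1)
  obtain ⟨R', hR'⟩ := conc T ge2 C (E 0) (E 2) hC hC3 (hE 0) (hE 2) (h 0 2 (by decide))
    (hd 2).symm (hCE 0) (hCE 2) x hx (hx1 0) (hx1 2)
  have e01 := h 0 1 (by decide)
  have e02 := h 0 2 (by decide)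
  have e12 := h 1 2 (by decide)
  have c0 := hCE 0
  have c1 := hCE 1
  have c2 := hCE 2
  have i0 := hE 0
  have i1 := hE 1
  have i2 := hE 2
  obtain ⟨c, hc⟩ : ∃ c, c = T.φ C.D := ⟨_, rfl⟩
  obtain ⟨a, ha⟩ : ∃ a, a = T.φ (E 0).D := ⟨_, rfl⟩
  obtain ⟨b, hb⟩ : ∃ b, b = T.φ (E 1).D := ⟨_, rfl⟩
  obtain ⟨d, hdd⟩ : ∃ d, d = T.φ (E 2).D := ⟨_, rfl⟩
  rw [← hc, ← ha, ← hb] at hR
  rw [← hc, ← ha, ← hdd] at hR'
  rw [← hc] at hC c0 c1 c2
  rw [← ha] at e01 e02 c0 i0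
  rw [← hb] at e01 e12 c1 i1
  rw [← hdd] at e02 e12 c2 i2
  have sub : ∀ u v z : E10, form (u - v) z = form u z - form v z := by
    intro u v z
    have := form_add (u - v) v z
    rw [sub_add_cancel] at this
    linarith
  have hRR : form (T.φ R.D) (T.φ R'.D) = -1 := by
    rw [hR, hR', sub, form_add, form_comm c, form_comm a (c + a - d), form_comm b, sub, sub, sub,
      form_add, form_add, form_add, form_comm a c, form_comm d c, form_comm d a, form_comm c b,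
      form_comm d b, hC, c0, c2, i0, e02, form_comm b c, c1, e01, e12]
    norm_num
  by_cases hne : R.ζ = R'.ζ
  · have h1 := phi_lin T (lin_triv (triv_of_eq R R' hne))
    rw [hR, hR'] at h1
    have h2 : b = d := sub_right_injective h1
    rw [← h2, i1] at e12
    exact zero_ne_one e12
  · have h1 := dot_nonneg T R R' hne
    rw [hRR] at h1
    omega

end Pool.Agent.H54.EN
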