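import Pool.Agent.H54.EN.H8
import Pool.Agent.H54.EN.H5

/-!
# [H54 EN H9] functions of degree two on an invariant curve

`ζ = C.ζ`, `D = E0.D + E1.D`; `D` is effective, `D.eq ζ` is a unit of `O ζ` (`unit_of_ne`).  `θ` from `exists_theta` (`fix_pt`).
`V = {n : ∀ x, ζ ⤳ x → n * rs ζ (D.eq x) ∈ cR ζ x}`: a subspace of `κ`.
* `deg2_space`: `n ∈ V ↔ n * rs ζ (D.eq ζ) ∈ gam C D` (`can_sec`: `rs ζ (D.eq ζ) / uu C D x = rs ζ (D.eq x)`), so `V ≅ gam C D` is finite-dimensional (`gam_fin`) of dimension at least `2` (`gam_ge`: `form (φ D) (φ C.D) = 2`, `form (φ C.D) (φ C.D) = 0`, `h0 (M - D) = 0` by `no_sec`: the degree is `- deg (φ D) < 0`, `phi_M`); `1 ∈ V` (`cR_mem`, `D` effective).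
  `θ V ⊆ V`: for `ζ ⤳ x`: `D.eq x = v * g.τ (D.eq (g.σ x))` with a unit `v` of `O x` (`Triv (g.pull D - D)`, `pull_add`), so `θ n * rs ζ (D.eq x) = rs ζ v * θ (n * rs ζ (D.eq (g.σ x)))`, which is in `cR ζ x` by `theta_mem` (`ζ ⤳ g.σ x`).
  `eig_const` gives `u`, `α`, `β`.
* The zeros: for `c : k`, a finite set `F` of points `x` of the curve with `(u - c) * rs ζ (D.eq x)` a nonunit of `cR ζ x` has at most two elements: `zeros_le` for `n = (u - c) * rs ζ (D.eq ζ) ≠ 0`.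
The statement collects this.
-/

set_option autoImplicit false

universe u

namespace Pool.Agent.H54.EN

variable {k K : Type u} [Field k] [Field K] [Algebra k K] (T : Ctx k K)

private theorem h9_equiv {κ : Type u} [Field κ] [Algebra k κ] (t : κ) (t0 : t ≠ 0) :
    ∃ e : κ ≃ₗ[k] κ, ∀ n, e n = n * t := by
  refine ⟨LinearEquiv.ofBijective (LinearMap.mulRight k t) ⟨?_, ?_⟩, fun n => rfl⟩
  · intro a b hab
    exact mul_right_cancel₀ t0 hab
  · intro b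
    exact ⟨b / t, div_mul_cancel₀ b t0⟩

theorem deg_two [IsAlgClosed k] (ge2 : ∀ C : Prm T.X, 2 ≤ deg (T.φ C.D)) (C E0 E1 : Prm T.X)
    (g : MAut T.X) (hC : Triv (g.pull C.D - C.D)) (hE0 : Triv (g.pull E0.D - E0.D))
    (hE1 : Triv (g.pull E1.D - E1.D)) (h0 : form (T.φ C.D) (T.φ E0.D) = 1)
    (h1 : form (T.φ C.D) (T.φ E1.D) = 1) (hCC : form (T.φ C.D) (T.φ C.D) = 0)
    (hn0 : C.ζ ≠ E0.ζ) (hn1 : C.ζ ≠ E1.ζ)
    (θ : T.X.kap C.ζ ≃ₐ[k] T.X.kap C.ζ)
    (hθ : ∀ a ∈ T.X.O C.ζ, θ (T.X.rs C.ζ a) = T.X.rs C.ζ (g.τ a)) :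
    ∃ u : T.X.kap C.ζ,
      (∀ x, C.ζ ⤳ x → u * T.X.rs C.ζ ((E0.D + E1.D).eq x) ∈ cR T.X C.ζ x) ∧
      (∃ α β : k, θ u = algebraMap k _ α * u + algebraMap k _ β) ∧
      ∀ (c : k) (F : Finset T.X.P), (∀ x ∈ F, C.ζ ⤳ x ∧ x ≠ C.ζ ∧
        ¬ Un (cR T.X C.ζ x) ((u - algebraMap k _ c) * T.X.rs C.ζ ((E0.D + E1.D).eq x))) →
        F.card ≤ 2 := by
  classical
  have hsch := T.sf.toIsSch
  have hζ := fix_pt T C g hC
  have hDeff : Effective (E0.D + E1.D) := fun x => (T.X.O x).mul_mem (E0.eff x) (E1.eff x)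
  have hDun : Un (T.X.O C.ζ) ((E0.D + E1.D).eq C.ζ) :=
    un_mul (unit_of_ne T.sf C E0 hn0) (unit_of_ne T.sf C E1 hn1)
  obtain ⟨t0, ht, hx⟩ := can_sec T C _ hDeff hDun
  obtain ⟨t, htdef⟩ : ∃ t, t = T.X.rs C.ζ ((E0.D + E1.D).eq C.ζ) := ⟨_, rfl⟩
  rw [← htdef] at t0 ht hx
  -- the invariance of `D`
  have hinv : ∀ x, Un (T.X.O x) (g.τ ((E0.D + E1.D).eq (g.σ x)) / (E0.D + E1.D).eq x) := by
    intro x
    have h2 := hE0 x
    have h3 := hE1 x
    rw [sub_eq] at h2 h3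
    have h4 : g.τ ((E0.D + E1.D).eq (g.σ x)) / (E0.D + E1.D).eq x =
        (g.pull E0.D).eq x / E0.D.eq x * ((g.pull E1.D).eq x / E1.D.eq x) := by
      rw [add_eq, add_eq, map_mul, mul_div_mul_comm]
      rfl
    rw [h4]
    exact un_mul h2 h3
  -- the space
  obtain ⟨e, he⟩ := h9_equiv (k := k) t t0
  have hV : ∀ n, n ∈ (gam C (E0.D + E1.D)).comap (e : T.X.kap C.ζ →ₗ[k] T.X.kap C.ζ) ↔
      ∀ x, C.ζ ⤳ x → n * T.X.rs C.ζ ((E0.D + E1.D).eq x) ∈ cR T.X C.ζ x := by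
    intro n
    rw [Submodule.mem_comap]
    have h2 : ∀ x, C.ζ ⤳ x → n * T.X.rs C.ζ ((E0.D + E1.D).eq x) =
        e n / uu C (E0.D + E1.D) x := by
      intro x hx'
      rw [he, mul_div_assoc, hx x hx']
    constructor
    · intro h3 x hx'
      rw [h2 x hx']
      exact h3 x hx'
    · intro h3 x hx'
      have h4 := h3 x hx'
      rw [h2 x hx'] at h4
      exact h4
  have heq := LinearEquiv.ofSubmodule' e (gam C (E0.D + E1.D))
  have hfin := gam_fin T C (E0.D + E1.D)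
  have hVfin : Module.Finite k ((gam C (E0.D + E1.D)).comap
      (e : T.X.kap C.ζ →ₗ[k] T.X.kap C.ζ)) := Module.Finite.equiv heq.symm
  have hform : form (T.φ (E0.D + E1.D)) (T.φ C.D) = 2 := by
    rw [map_add, form_add, form_comm (T.φ E0.D), form_comm (T.φ E1.D), h0, h1]
    norm_num
  have hns : T.h0 (T.M - (E0.D + E1.D)) = 0 := by
    apply no_sec T ge2
    have a0 := ge2 E0
    have a1 := ge2 E1
    have hz : deg (0 : E10) = 0 := by
      have := deg_sub (0 : E10) 0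
      rw [sub_zero, sub_self] at this
      exact this
    rw [map_sub, phi_M, map_add, deg_sub, deg_add, hz]
    omega
  have hVrk : 2 ≤ Module.finrank k ((gam C (E0.D + E1.D)).comap
      (e : T.X.kap C.ζ →ₗ[k] T.X.kap C.ζ)) := by
    rw [heq.finrank_eq]
    have h2 := gam_ge T C (E0.D + E1.D)
    rw [hform, hCC, hns] at h2
    have h3 : (2 : ℤ) ≤ (Module.finrank k (gam C (E0.D + E1.D)) : ℤ) := by
      push_cast at h2 ⊢
      omega
    exact_mod_cast h3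
  obtain ⟨u, huV, hαβ⟩ := eig_const ((gam C (E0.D + E1.D)).comap
      (e : T.X.kap C.ζ →ₗ[k] T.X.kap C.ζ)) hVfin ((hV 1).2 (by
        intro x hx'
        rw [one_mul]
        exact cR_mem hsch hx' (hDeff x))) hVrk θ (by
        intro n hn
        rw [hV] at hn ⊢
        intro x hx'
        have hgx : C.ζ ⤳ g.σ x := by
          have h2 := hx'.map g.σ.continuous
          rwa [hζ] at h2
        have h3 := hn _ hgx
        rw [← theta_mem hsch g C.ζ hζ θ hθ hx', map_mul,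
          hθ _ (hsch.spec _ _ hgx (hDeff _))] at h3
        have h4 := hinv x
        have h5 : (E0.D + E1.D).eq x = g.τ ((E0.D + E1.D).eq (g.σ x)) *
            (g.τ ((E0.D + E1.D).eq (g.σ x)) / (E0.D + E1.D).eq x)⁻¹ := by
          have h6 := (E0.D + E1.D).ne x
          have h7 : g.τ ((E0.D + E1.D).eq (g.σ x)) ≠ 0 :=
            (map_ne_zero _).2 ((E0.D + E1.D).ne _)
          field_simp
        have h8 : g.τ ((E0.D + E1.D).eq (g.σ x)) ∈ T.X.O x := (g.loc x _).2 (hDeff _)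
        have h9 : T.X.rs C.ζ ((E0.D + E1.D).eq x) =
            T.X.rs C.ζ (g.τ ((E0.D + E1.D).eq (g.σ x))) *
            T.X.rs C.ζ ((g.τ ((E0.D + E1.D).eq (g.σ x)) / (E0.D + E1.D).eq x)⁻¹) := by
          rw [← rs_mul C.ζ (hsch.spec _ _ hx' h8) (hsch.spec _ _ hx' h4.2.2), ← h5]
        rw [h9, ← mul_assoc]
        exact (cR T.X C.ζ x).mul_mem h3 (cR_mem hsch hx' h4.2.2))
  refine ⟨u, (hV u).1 huV, hαβ.2, ?_⟩
  intro c F hF
  have hc : u - algebraMap k _ c ≠ 0 := sub_ne_zero.2 (hαβ.1 c)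
  have hcV : u - algebraMap k _ c ∈ (gam C (E0.D + E1.D)).comap
      (e : T.X.kap C.ζ →ₗ[k] T.X.kap C.ζ) := by
    rw [hV]
    intro x hx'
    rw [sub_mul]
    refine (cR T.X C.ζ x).sub_mem ((hV u).1 huV x hx') ?_
    exact (cR T.X C.ζ x).mul_mem ((cR T.X C.ζ x).algebraMap_mem c) (cR_mem hsch hx' (hDeff x))
  have h2 := zeros_le T C (E0.D + E1.D) ((u - algebraMap k _ c) * t) (by
    have h3 := hcV
    rw [Submodule.mem_comap] at h3
    have h4 := he (u - algebraMap k _ c)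
    rw [← h4]
    exact h3) (mul_ne_zero hc t0) F (by
    intro x hxF
    obtain ⟨h3, h4, h5⟩ := hF x hxF
    refine ⟨h3, h4, ?_⟩
    rw [mul_div_assoc, hx x h3]
    exact h5)
  rw [hform] at h2
  exact_mod_cast h2

end Pool.Agent.H54.EN
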