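import Pool.Agent.H54.EN.PDefs
import Pool.Agent.H54.EN.GDefs

/-!
# [H54 EN] the situation of the theorem in terms of the local rings: definitions (complete)

* `Ctx`: an Enriques surface with a marking.
* `T.U`: the covering; `T.h0 D`, `T.h1 D`, `T.h2 D`: the dimensions of the cohomology.
* `LinEq D E`: linear equivalence.
-/

set_option autoImplicit false

universe u

namespace Pool.Agent.H54.EN

/-- an Enriques surface with a marking, in terms of the local rings -/
structure Ctx (k K : Type u) [Field k] [Field K] [Algebra k K] where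
  /-- the local rings -/
  X : Mod k K
  sf : IsSf X
  /-- an ample divisor -/
  A : Cart X
  /-- three sections -/
  s : Fin 3 → K
  pol : IsPol A s
  /-- the canonical divisor -/
  M : Cart X
  can : IsCan (cov A s) M
  num : ∀ D, inter (cov A s) D M = 0
  chi1 : chiD (cov A s) 0 = 1
  /-- the marking -/
  φ : Cart X →+ E10
  surj : Function.Surjective φ
  isom : ∀ D D', form (φ D) (φ D') = inter (cov A s) D D'

variable {k K : Type u} [Field k] [Field K] [Algebra k K]

/-- the covering -/
def Ctx.U (T : Ctx k K) : Fin 3 → Set T.X.P := cov T.A T.s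

/-- the dimension of `H0` -/
noncomputable def Ctx.h0 (T : Ctx k K) (D : Cart T.X) : ℕ := Module.finrank k (cech T.U D).H0

/-- the dimension of `H1` -/
noncomputable def Ctx.h1 (T : Ctx k K) (D : Cart T.X) : ℕ := Module.finrank k (cech T.U D).H1

/-- the dimension of `H2` -/
noncomputable def Ctx.h2 (T : Ctx k K) (D : Cart T.X) : ℕ := Module.finrank k (cech T.U D).H2

/-- linear equivalence -/
def LinEq {X : Mod k K} (D E : Cart X) : Prop := ∃ f : K, f ≠ 0 ∧ ∀ x, Un (X.O x) (f * D.eq x / E.eq x)

end Pool.Agent.H54.EN
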