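import Pool.Agent.H54.EN.KDefs
import Pool.Agent.H54.EN.B4

/-!
# [H54 EN K1] the local rings of a curve: basic properties

`ζ ⤳ x`, so `O x ≤ O ζ` (`hX.spec`).
* `cR_mem`: by definition.
* `cR_un`: `←`: `a` is a unit of `O ζ` too, `rs ζ a⁻¹ = (rs ζ a)⁻¹` (`rs_inv`, `rs_ne`).  `→`: `(rs ζ a)⁻¹ = rs ζ b` with `b ∈ O x`: `rs ζ (a b - 1) = 0`, so `a b - 1` is a nonunit of `O ζ` (`rs_ne`), so a nonunit of `O x` (`un_gen`); `O x` is local: `a b = (a b - 1) + 1`, if `a b` were a nonunit then `1 = a b - (a b - 1)` would be the sum of two nonunits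
  (`un_add`); so `a b` is a unit of `O x`, and so is `a` (`un_mul_iff`).
* `cR_local`: `cR` is the image of the local ring `O x` under a ring homomorphism: `IsLocalRing.of_surjective'`; or `IsLocalRing.of_nonunits_add` with `cR_un`, `un_iff`.
* `cR_self`: `cR ζ ζ` is everything (`rs_surj`).
* `uu_unit`: `D.eq ζ / D.eq x` is a unit of `O ζ` (`eq_gen`), so `uu ≠ 0`; `uu_add`, `uu_neg`, `uu_sub`, `uu_self`, `uu_zero`: `rs_mul`, `rs_inv`, `rs_one`.
-/

set_option autoImplicit false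

universe u

namespace Pool.Agent.H54.EN

variable {k K : Type u} [Field k] [Field K] [Algebra k K] {X : Mod k K}

theorem cR_mem (hX : IsSch X) {ζ x : X.P} (h : ζ ⤳ x) {a : K} (ha : a ∈ X.O x) :
    X.rs ζ a ∈ cR X ζ x := ⟨a, ha, hX.spec _ _ h ha, rfl⟩

theorem cR_ex (hX : IsSch X) {ζ x : X.P} {n : X.kap ζ} (hn : n ∈ cR X ζ x) :
    ∃ a ∈ X.O x, X.rs ζ a = n := by
  obtain ⟨a, h1, _, h2⟩ := hn
  exact ⟨a, h1, h2⟩

theorem cR_un (hX : IsSch X) {ζ x : X.P} (h : ζ ⤳ x) {a : K} (ha : a ∈ X.O x) :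
    Un (cR X ζ x) (X.rs ζ a) ↔ Un (X.O x) a := by
  have haζ := hX.spec _ _ h ha
  constructor
  · rintro ⟨h0, _, h2⟩
    have hu : Un (X.O ζ) a := (rs_ne ζ haζ).1 h0
    obtain ⟨b, hb, hbζ, hbe⟩ := h2
    have h3 : X.rs ζ (a * b - 1) = 0 := by
      have e : a * b - 1 = a * b + algebraMap k K (-1) := by
        rw [map_neg, map_one, sub_eq_add_neg]
      rw [e, rs_add ζ ((X.O ζ).mul_mem haζ hbζ) ((X.O ζ).algebraMap_mem _), rs_mul ζ haζ hbζ, hbe,
        mul_inv_cancel₀ h0, rs_alg, map_neg, map_one, add_neg_cancel]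
    have h4 : ¬ Un (X.O ζ) (a * b - 1) := by
      intro h5
      exact (rs_ne ζ ((X.O ζ).sub_mem ((X.O ζ).mul_mem haζ hbζ) (X.O ζ).one_mem)).2 h5 h3
    have h5 : ¬ Un (X.O x) (a * b - 1) := fun h6 => h4 (un_gen hX h h6)
    have h6 : Un (X.O x) (a * b + -(a * b - 1)) := by
      have e : a * b + -(a * b - 1) = 1 := by ring
      rw [e]
      exact un_one _
    rcases un_add ((X.O x).mul_mem ha hb)
      ((X.O x).neg_mem ((X.O x).sub_mem ((X.O x).mul_mem ha hb) (X.O x).one_mem)) h6 with h7 | h7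
    · exact ((un_mul_iff ha hb).1 h7).1
    · exfalso
      apply h5
      have e : a * b - 1 = -(a * b - 1) * (-1) := by ring
      rw [e]
      refine un_mul h7 ⟨by norm_num, (X.O x).neg_mem (X.O x).one_mem, ?_⟩
      rw [inv_neg, inv_one]
      exact (X.O x).neg_mem (X.O x).one_mem
  · intro hu
    have hu' : Un (X.O ζ) a := un_mono (hX.spec _ _ h) hu
    refine ⟨(rs_ne ζ haζ).2 hu', cR_mem hX h ha, ?_⟩
    rw [← rs_inv ζ hu']
    exact cR_mem hX h hu.2.2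

theorem cR_local (hX : IsSch X) {ζ x : X.P} (h : ζ ⤳ x) : IsLocalRing (cR X ζ x) := by
  apply IsLocalRing.of_nonunits_add
  rintro ⟨a, ha⟩ ⟨b, hb⟩ h1 h2
  rw [mem_nonunits_iff] at h1 h2 ⊢
  intro h3
  have h3' : Un (cR X ζ x) (a + b) := (un_iff ((cR X ζ x).add_mem ha hb)).1 h3
  rw [un_iff ha] at h1
  rw [un_iff hb] at h2
  obtain ⟨a', ha', rfl⟩ := cR_ex hX ha
  obtain ⟨b', hb', rfl⟩ := cR_ex hX hb
  rw [← rs_add ζ (hX.spec _ _ h ha') (hX.spec _ _ h hb'), cR_un hX h ((X.O x).add_mem ha' hb')]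
    at h3'
  rcases un_add ha' hb' h3' with h4 | h4
  · exact h1 ((cR_un hX h ha').2 h4)
  · exact h2 ((cR_un hX h hb').2 h4)

theorem cR_self (ζ : X.P) (n : X.kap ζ) : n ∈ cR X ζ ζ := by
  obtain ⟨a, ha, h⟩ := rs_surj ζ n
  exact ⟨a, ha, ha, h⟩

theorem uu_ne (C : Prm X) (D : Cart X) {x : X.P} (h : C.ζ ⤳ x) : uu C D x ≠ 0 := by
  have h1 := eq_gen D h
  exact (rs_ne C.ζ h1.2.1).2 h1

theorem uu_add (C : Prm X) (D E : Cart X) {x : X.P} (h : C.ζ ⤳ x) :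
    uu C (D + E) x = uu C D x * uu C E x := by
  unfold uu
  rw [add_eq, add_eq, mul_div_mul_comm, rs_mul C.ζ (eq_gen D h).2.1 (eq_gen E h).2.1]

theorem uu_sub (C : Prm X) (D E : Cart X) {x : X.P} (h : C.ζ ⤳ x) :
    uu C (D - E) x = uu C D x / uu C E x := by
  have h1 := uu_add C (D - E) E h
  rw [sub_add_cancel] at h1
  rw [h1, mul_div_cancel_right₀ _ (uu_ne C E h)]

theorem uu_zero (C : Prm X) (x : X.P) : uu C 0 x = 1 := by
  unfold uu
  rw [zero_eq, zero_eq, div_one, rs_one]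

theorem uu_self (C : Prm X) (D : Cart X) : uu C D C.ζ = 1 := by
  unfold uu
  rw [div_self (D.ne _), rs_one]

end Pool.Agent.H54.EN
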