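import Pool.Agent.H54.EN.K1
import Pool.Agent.H54.EN.B5
import Pool.Agent.H54.EN.B7

/-!
# [H54 EN K2] the curve of a prime divisor has the properties `IsCS`

`ζ = C.ζ`.
* `loc`: `cR_local`.  `cov`: `hcov`.  `sub`: `x ∈ U i`, `ζ ⤳ x`, `U i` is open (`hX.op`), so `ζ ∈ U i`.
* `fin`: `n = rs ζ a` with `a` a unit of `O ζ` (`rs_surj`, `rs_ne`): at the points `x` where `a` is a unit of `O x` `n` is a unit (`cR_un`); `fin_nonunit`; the points of the curve are a subtype (`Set.Finite.preimage` with `Subtype.val_injective`).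
* `frac`: `n = rs ζ a`, `a ∈ O ζ`; `V` affine with `x ∈ V` (`hX.chart`), so `ζ ∈ V`; `hX.frac V ζ`: `s ∈ sec V` a unit at `ζ`, `a s ∈ sec V`; `q = rs ζ s`.
* `pow`: `q = rs ζ q'`, `t = rs ζ t'` with `q', t' ∈ O x` (`cR_ex`), `q'` a unit at `ζ` (`rs_ne`), `t'` a nonunit of `O x` (`cR_un`): `pow_mem_pt`: `t' ^ N - q' b` is a nonunit of `O ζ`, so `t ^ N = q * rs ζ b`.
* `sep`: let `i ∈ I`; the set `N` of the points of `X` which are not in (the image of) `F` is open: the points of `F` are closed (`closed_of_spec`) and `F` is finite.  `hX.bas (U i) N x`: `a` regular on `U i`, a unit at `x`, a nonunit at the points of `F` in `U i`.  Take `rs ζ a` (`cR_mem`, `cR_un`).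
* `res`: `x` is a closed point (`closed_of_spec`): `res_k`, `cR_un`.
* `lineD`: the line bundle `L x = uu C D x`: `uu_ne`, and `fin_eq`, `cR_un` for the finiteness (`D.eq ζ / D.eq x` a unit of `O x`).
-/

set_option autoImplicit false

universe u

namespace Pool.Agent.H54.EN

variable {k K : Type u} [Field k] [Field K] [Algebra k K] {X : Mod k K}

private theorem k2_rs_sub (ζ : X.P) {a b : K} (ha : a ∈ X.O ζ) (hb : b ∈ X.O ζ) :
    X.rs ζ (a - b) = X.rs ζ a - X.rs ζ b := by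
  have h1 := rs_add ζ ((X.O ζ).sub_mem ha hb) hb
  rw [sub_add_cancel] at h1
  rw [h1, add_sub_cancel_right]

theorem isCS_csys [IsAlgClosed k] (hX : IsSf X) (U : Fin 3 → Set X.P) (hU : ∀ i, X.aff (U i))
    (hcov : ∀ x, ∃ i, x ∈ U i) (C : Prm X) : IsCS (csys X U C) := by
  have hS := hX.toIsSch
  refine ⟨?_, ?_, ?_, ?_, ?_, ?_, ?_, ?_⟩
  · intro x
    exact cR_local hS x.2.1
  · intro x
    exact hcov x.1
  · intro i x hx
    exact x.2.1.mem_open (hX.op _ (hU i)) hx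
  · intro n hn
    obtain ⟨a, ha, rfl⟩ := rs_surj C.ζ n
    have hu : Un (X.O C.ζ) a := (rs_ne C.ζ ha).1 hn
    have h1 : (Subtype.val ⁻¹' {x : X.P | C.ζ ⤳ x ∧ ¬ Un (X.O x) a} :
        Set {x : X.P // C.ζ ⤳ x ∧ x ≠ C.ζ}).Finite :=
      (fin_nonunit hX C a hu).preimage Subtype.val_injective.injOn
    refine h1.subset fun x hx => ⟨x.2.1, fun h2 => hx ?_⟩
    exact (cR_un hS x.2.1 h2.2.1).2 h2
  · intro x n
    obtain ⟨a, ha, rfl⟩ := rs_surj C.ζ n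
    obtain ⟨V, hV, hxV⟩ := hX.chart x.1
    have hζV : C.ζ ∈ V := x.2.1.mem_open (hX.op _ hV) hxV
    obtain ⟨s, hs, hsu, has⟩ := hX.frac V C.ζ hV hζV a ha
    rw [mem_sec] at hs has
    refine ⟨X.rs C.ζ s, cR_mem hS x.2.1 (hs _ hxV), (rs_ne C.ζ hsu.2.1).2 hsu, ?_⟩
    rw [← rs_mul C.ζ hsu.2.1 ha, mul_comm]
    exact cR_mem hS x.2.1 (has _ hxV)
  · intro x q hq hq0 t ht htu
    obtain ⟨q', hq', rfl⟩ := cR_ex hS hq
    obtain ⟨t', ht', rfl⟩ := cR_ex hS ht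
    have hqζ := hS.spec _ _ x.2.1 hq'
    have htζ := hS.spec _ _ x.2.1 ht'
    have hqu : Un (X.O C.ζ) q' := (rs_ne C.ζ hqζ).1 hq0
    have htu' : ¬ Un (X.O x.1) t' := fun h1 => htu ((cR_un hS x.2.1 ht').2 h1)
    obtain ⟨N, b, hb, hN⟩ := pow_mem_pt hX C x.2.1 x.2.2 q' t' hq' hqu ht' htu'
    refine ⟨N, ?_⟩
    have hbζ := hS.spec _ _ x.2.1 hb
    have h1 : X.rs C.ζ (t' ^ N - q' * b) = 0 := by
      by_contra h2
      exact hN ((rs_ne C.ζ ((X.O C.ζ).sub_mem ((X.O C.ζ).pow_mem htζ N)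
        ((X.O C.ζ).mul_mem hqζ hbζ))).1 h2)
    rw [k2_rs_sub C.ζ ((X.O C.ζ).pow_mem htζ N) ((X.O C.ζ).mul_mem hqζ hbζ), rs_pow C.ζ htζ,
      rs_mul C.ζ hqζ hbζ, sub_eq_zero] at h1
    rw [h1, mul_div_cancel_left₀ _ hq0]
    exact cR_mem hS x.2.1 hb
  · rintro I ⟨i, hi⟩ x hx F hF hxF
    have hopen : IsOpen ((Subtype.val '' (F : Set {x : X.P // C.ζ ⤳ x ∧ x ≠ C.ζ}) :
        Set X.P)ᶜ) := by
      rw [isOpen_compl_iff]
      have h1 : (Subtype.val '' (F : Set {x : X.P // C.ζ ⤳ x ∧ x ≠ C.ζ}) : Set X.P) =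
          ⋃ y ∈ F, {(y : {x : X.P // C.ζ ⤳ x ∧ x ≠ C.ζ}).1} := by
        ext z
        simp only [Set.mem_image, Set.mem_iUnion, Set.mem_singleton_iff]
        constructor
        · rintro ⟨y, hy, rfl⟩
          exact ⟨y, hy, rfl⟩
        · rintro ⟨y, hy, rfl⟩
          exact ⟨y, hy, rfl⟩
      rw [h1]
      exact hF.isClosed_biUnion fun y _ => closed_of_spec hX C y.2.1 y.2.2
    obtain ⟨a, ha, hau, haF⟩ := hX.bas (U i) _ x.1 (hU i) hopen (hx i hi) (by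
      rintro ⟨y, hy, hyx⟩
      exact hxF (by rw [← Subtype.ext hyx]; exact hy))
    refine ⟨X.rs C.ζ a, ?_, ?_, ?_⟩
    · intro y hy
      exact cR_mem hS y.2.1 (ha _ (hy i hi))
    · exact (cR_un hS x.2.1 hau.2.1).2 hau
    · intro y hyF hy hyu
      have h2 := (cR_un hS y.2.1 (ha _ (hy i hi))).1 hyu
      exact haF _ (hy i hi) h2 ⟨y, hyF, rfl⟩
  · intro x a ha
    obtain ⟨a', ha', rfl⟩ := cR_ex hS ha
    obtain ⟨c, hc⟩ := res_k hS x.1 (closed_of_spec hX C x.2.1 x.2.2) a' ha'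
    refine ⟨c, fun h1 => hc ?_⟩
    rw [← rs_alg, ← k2_rs_sub C.ζ (hS.spec _ _ x.2.1 ha') ((X.O C.ζ).algebraMap_mem c)] at h1
    exact (cR_un hS x.2.1 ((X.O x.1).sub_mem ha' ((X.O x.1).algebraMap_mem c))).1 h1

theorem fin_uu (hX : IsSf X) (U : Fin 3 → Set X.P) (C : Prm X) (D : Cart X) :
    {x : (csys X U C).P | ¬ Un ((csys X U C).R x) (uu C D x.1)}.Finite := by
  have h1 : (Subtype.val ⁻¹' {x : X.P | C.ζ ⤳ x ∧ ¬ Un (X.O x) (D.eq C.ζ / D.eq x)} :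
      Set {x : X.P // C.ζ ⤳ x ∧ x ≠ C.ζ}).Finite :=
    (fin_eq hX C D).preimage Subtype.val_injective.injOn
  refine h1.subset fun x hx => ⟨x.2.1, fun h2 => hx ?_⟩
  exact (cR_un hX.toIsSch x.2.1 h2.2.1).2 h2

/-- the restriction of `O(D)` to the curve -/
noncomputable def lineD (hX : IsSf X) (U : Fin 3 → Set X.P) (C : Prm X) (D : Cart X) :
    Line (csys X U C) where
  L x := uu C D x.1
  ne x := uu_ne C D x.2.1
  fin := fin_uu hX U C D

end Pool.Agent.H54.EN
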