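import Pool.Agent.H54.EN.PDefs
import Pool.Agent.H54.EN.CDefs

/-!
# [H54 EN] the curve of a prime divisor: definitions (complete)

`C : Prm X`, `ζ = C.ζ`, `κ = X.kap ζ` its function field.
* `cR X ζ x ⊆ κ`: the local ring at `x` of the closure of `ζ`: the image of `O x`.
* `csys X U C`: the curve, with the covering `U`.
* `uu C D x`: the generator at `x` of the restriction of `O(D)` to the curve (the sections `f` of `O(D)` restrict to `rs ζ (f * D.eq ζ)`, and `1 / D.eq x` to `rs ζ (D.eq ζ / D.eq x)`).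
* `gam C D`: the global sections of the restriction of `O(D)`.
* `rho C D V`: the restriction of the sections over `V`.
-/

set_option autoImplicit false

universe u

namespace Pool.Agent.H54.EN

variable {k K : Type u} [Field k] [Field K] [Algebra k K]

/-- the local ring at `x` of the closure of `ζ` -/
def cR (X : Mod k K) (ζ x : X.P) : Subalgebra k (X.kap ζ) where
  carrier := {c | ∃ a, a ∈ X.O x ∧ a ∈ X.O ζ ∧ X.rs ζ a = c}
  mul_mem' := by
    rintro _ _ ⟨a, h1, h2, rfl⟩ ⟨b, h3, h4, rfl⟩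
    exact ⟨a * b, (X.O x).mul_mem h1 h3, (X.O ζ).mul_mem h2 h4, rs_mul ζ h2 h4⟩
  add_mem' := by
    rintro _ _ ⟨a, h1, h2, rfl⟩ ⟨b, h3, h4, rfl⟩
    exact ⟨a + b, (X.O x).add_mem h1 h3, (X.O ζ).add_mem h2 h4, rs_add ζ h2 h4⟩
  algebraMap_mem' := fun c => ⟨algebraMap k K c, (X.O x).algebraMap_mem c, (X.O ζ).algebraMap_mem c,
    rs_alg ζ c⟩

/-- the curve of a prime divisor -/
def csys (X : Mod k K) (U : Fin 3 → Set X.P) (C : Prm X) : CSys k (X.kap C.ζ) where
  P := {x : X.P // C.ζ ⤳ x ∧ x ≠ C.ζ}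
  R x := cR X C.ζ x
  U i := {x | (x : X.P) ∈ U i}
  J i := C.ζ ∈ U i

variable {X : Mod k K}

/-- the generator at `x` of the restriction of `O(D)` -/
noncomputable def uu (C : Prm X) (D : Cart X) (x : X.P) : X.kap C.ζ := X.rs C.ζ (D.eq C.ζ / D.eq x)

/-- the global sections of the restriction of `O(D)` to the curve -/
def gam (C : Prm X) (D : Cart X) : Submodule k (X.kap C.ζ) where
  carrier := {n | ∀ x, C.ζ ⤳ x → n / uu C D x ∈ cR X C.ζ x}
  add_mem' := fun ha hb x hx => by
    rw [add_div]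
    exact (cR X C.ζ x).add_mem (ha x hx) (hb x hx)
  zero_mem' := fun x _ => by
    rw [zero_div]
    exact (cR X C.ζ x).zero_mem
  smul_mem' := fun c a ha x hx => by
    rw [smul_div_assoc]
    exact (cR X C.ζ x).smul_mem (ha x hx) c

open Classical in
/-- the restriction of the sections over `V` to the curve -/
noncomputable def rho (C : Prm X) (D : Cart X) (V : Set X.P) : GS D V →ₗ[k] X.kap C.ζ where
  toFun f := if C.ζ ∈ V then X.rs C.ζ ((f : K) * D.eq C.ζ) else 0
  map_add' f g := by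
    by_cases h : C.ζ ∈ V
    · rw [if_pos h, if_pos h, if_pos h, Submodule.coe_add, add_mul]
      exact rs_add C.ζ (f.2 _ h) (g.2 _ h)
    · rw [if_neg h, if_neg h, if_neg h, add_zero]
  map_smul' c f := by
    by_cases h : C.ζ ∈ V
    · rw [if_pos h, if_pos h, RingHom.id_apply, Submodule.coe_smul, Algebra.smul_def, mul_assoc,
        rs_mul C.ζ ((X.O C.ζ).algebraMap_mem c) (f.2 _ h), rs_alg, ← Algebra.smul_def]
    · rw [if_neg h, if_neg h, smul_zero]

end Pool.Agent.H54.EN
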