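import Pool.Agent.H54.EN.S1
import Pool.Agent.H54.EN.Aut

/-!
# [H54 EN S7] automorphisms of `Y` over a field `k`

`pK e : K → K`: the pull-back of rational functions by an isomorphism `e : Y ≅ Y`: the stalk map at the generic point `η` (`e η = η`).
* `pK_toK`: `pK (toK (e x) s) = toK x (e.stalkMap x s)`: `toK x` is `stalkSpecializes` for `η ⤳ x`; naturality of the stalk maps for specializations (`Scheme.Hom.stalkSpecializes_stalkMap`), `stalkSpecializes_comp`.
* `pK_alg`: `pK` fixes `k` if `e ≫ f = f`: `algebraMap k K = cS f η` (definition), germs (`germ_stalkMap`), `Scheme.Hom.comp_appTop`.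
* `pK_id`, `pK_comp`: functoriality (contravariant): `stalkMap_id`, `stalkMap_comp`, `stalkSpecializes_stalkMap`; `toK` and `IsFractionRing` are not needed.
* `pK_hi`, `pK_ih`: from `pK_comp` and `pK_id` (`e.hom_inv_id`, `e.inv_hom_id`; an equality of morphisms `g = g'` gives `pK g a = pK g' a` by `subst`, also if the `IsIso` instances differ).
* `pK_loc`: `pK a ∈ O x ↔ a ∈ O (e x)`: `←` by `pK_toK`; `→` apply the same to the inverse isomorphism at the point `e x` (`pK_comp`, `pK_id`).
* `aff_iff`: the preimage of an affine open set under an isomorphism is affine (`IsAffineOpen.preimage_of_isIso` or similar), both directions with the inverse.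
-/

set_option autoImplicit false

universe u

namespace Pool.Agent.H54.EN

open AlgebraicGeometry CategoryTheory

variable {k : Type u} [Field k] {Y : Scheme.{u}} [IsIntegral Y] (f : Y ⟶ Spec (.of k))

theorem e_gen (e : Y ⟶ Y) [IsIso e] : e (genericPoint Y) = genericPoint Y :=
  genericPoint_eq_of_isOpenImmersion e

/-- the pull-back of rational functions by an isomorphism -/
noncomputable def pK (e : Y ⟶ Y) [IsIso e] : FF f →+* FF f :=
  (Y.presheaf.stalkSpecializes (specializes_of_eq (e_gen e)) ≫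
    e.stalkMap (genericPoint Y)).hom

set_option backward.isDefEq.respectTransparency false in
theorem pK_toK (e : Y ⟶ Y) [IsIso e] (x : Y) (s : Y.presheaf.stalk (e x)) :
    pK f e (toK f (e x) s) = toK f x ((e.stalkMap x).hom s) := by
  have h1 : genericPoint Y ⤳ x := (genericPoint_spec Y).specializes (Set.mem_univ x)
  have h2 := Scheme.Hom.stalkSpecializes_stalkMap e (genericPoint Y) x h1
  have h3 := congrArg (fun t => t.hom s) h2
  have h4 : Y.presheaf.stalkSpecializes (e.base.hom.map_specializes h1) =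
      Y.presheaf.stalkSpecializes ((genericPoint_spec Y).specializes (Set.mem_univ (e x))) ≫
        Y.presheaf.stalkSpecializes (specializes_of_eq (e_gen e)) := by
    rw [TopCat.Presheaf.stalkSpecializes_comp]
  rw [h4] at h3
  exact h3

omit [IsIntegral Y] in
theorem stalk_cS (e : Y ⟶ Y) (he : e ≫ f = f) (x : Y) (c : k) :
    (e.stalkMap x).hom (cS f (e x) c) = cS f x c := by
  have h1 : ((Scheme.ΓSpecIso (.of k)).inv ≫ f.appTop ≫
      Y.presheaf.germ ⊤ (e x) (TopologicalSpace.Opens.mem_top (e x))) ≫ e.stalkMap x =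
      (Scheme.ΓSpecIso (.of k)).inv ≫ f.appTop ≫
      Y.presheaf.germ ⊤ x (TopologicalSpace.Opens.mem_top x) := by
    rw [Category.assoc, Category.assoc, Scheme.Hom.germ_stalkMap]
    have h2 : f.appTop ≫ e.appTop = f.appTop := by
      rw [← Scheme.Hom.comp_appTop, he]
    have h3 := congrArg (fun t => (Scheme.ΓSpecIso (.of k)).inv ≫ t ≫
      Y.presheaf.germ ⊤ x (TopologicalSpace.Opens.mem_top x)) h2
    exact h3
  exact congrArg (fun t => t.hom c) h1

theorem toK_surj (x : Y) (hx : x = genericPoint Y) (a : FF f) : ∃ s, toK f x s = a := by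
  subst hx
  refine ⟨a, ?_⟩
  have h1 : Y.presheaf.stalkSpecializes ((genericPoint_spec Y).specializes
      (Set.mem_univ (genericPoint Y))) = 𝟙 _ := TopCat.Presheaf.stalkSpecializes_refl _ _
  exact congrArg (fun t => t.hom a) h1

theorem pK_alg (e : Y ⟶ Y) [IsIso e] (he : e ≫ f = f) (c : k) :
    pK f e (algebraMap k (FF f) c) = algebraMap k (FF f) c := by
  rw [← toK_cS f (e (genericPoint Y)) c, pK_toK, stalk_cS f e he, toK_cS, toK_cS]

set_option backward.isDefEq.respectTransparency false in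
theorem pK_id (a : FF f) : pK f (𝟙 Y) a = a := by
  obtain ⟨s, rfl⟩ := toK_surj f ((𝟙 Y : Y ⟶ Y) (genericPoint Y)) (e_gen (𝟙 Y)) a
  rw [pK_toK, Scheme.Hom.stalkMap_id]
  rfl

set_option backward.isDefEq.respectTransparency false in
theorem pK_comp (e e' : Y ⟶ Y) [IsIso e] [IsIso e'] (a : FF f) :
    pK f (e ≫ e') a = pK f e (pK f e' a) := by
  obtain ⟨s, rfl⟩ := toK_surj f ((e ≫ e') (genericPoint Y)) (e_gen (e ≫ e')) a
  rw [pK_toK, Scheme.Hom.stalkMap_comp]
  have h1 := pK_toK f e' (e (genericPoint Y)) s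
  have h2 := pK_toK f e (genericPoint Y) ((e'.stalkMap (e (genericPoint Y))).hom s)
  exact ((congrArg (pK f e) h1).trans h2).symm

theorem pK_congr (e e' : Y ⟶ Y) [IsIso e] [IsIso e'] (h : e = e') (a : FF f) :
    pK f e a = pK f e' a := by
  subst h
  rfl

theorem pK_hi (e : Y ≅ Y) (a : FF f) : pK f e.hom (pK f e.inv a) = a := by
  rw [← pK_comp, pK_congr f (e.hom ≫ e.inv) (𝟙 Y) e.hom_inv_id, pK_id]

theorem pK_ih (e : Y ≅ Y) (a : FF f) : pK f e.inv (pK f e.hom a) = a := by
  rw [← pK_comp, pK_congr f (e.inv ≫ e.hom) (𝟙 Y) e.inv_hom_id, pK_id]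

theorem pK_comp_iso (e e' : Y ≅ Y) (a : FF f) :
    pK f (e ≪≫ e').hom a = pK f e.hom (pK f e'.hom a) :=
  pK_comp f e.hom e'.hom a

theorem pK_mem (e : Y ⟶ Y) [IsIso e] (x : Y) (a : FF f) (h : a ∈ locA f (e x)) :
    pK f e a ∈ locA f x := by
  obtain ⟨s, rfl⟩ := h
  exact ⟨(e.stalkMap x).hom s, (pK_toK f e x s).symm⟩

theorem pK_loc (e : Y ≅ Y) (x : Y) (a : FF f) :
    pK f e.hom a ∈ locA f x ↔ a ∈ locA f (e.hom x) := by
  constructor
  · intro h
    have h1 : e.inv (e.hom x) = x := by
      rw [← Scheme.Hom.comp_apply, e.hom_inv_id]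
      rfl
    have h2 := pK_mem f e.inv (e.hom x) (pK f e.hom a) (by rw [h1]; exact h)
    rwa [pK_ih] at h2
  · exact pK_mem f e.hom x a

theorem aff_iff (e : Y ≅ Y) (U : Set (mdl f).P) :
    (mdl f).aff ((Scheme.homeoOfIso e) ⁻¹' U) ↔ (mdl f).aff U := by
  constructor
  · rintro ⟨V, hV, h⟩
    refine ⟨e.inv ⁻¹ᵁ V, hV.preimage_of_isIso e.inv, ?_⟩
    ext x
    have h1 : e.inv x ∈ (V : Set Y) ↔ e.hom (e.inv x) ∈ U := by
      rw [h]
      rfl
    have h2 : e.hom (e.inv x) = x := by
      rw [← Scheme.Hom.comp_apply, e.inv_hom_id]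
      rfl
    rw [h2] at h1
    exact h1
  · rintro ⟨V, hV, h⟩
    refine ⟨e.hom ⁻¹ᵁ V, hV.preimage_of_isIso e.hom, ?_⟩
    rw [← h]
    rfl

/-- the automorphism of the space of local rings -/
noncomputable def mkMAut (e : Y ≅ Y) (he : e.hom ≫ f = f) : MAut (mdl f) where
  σ := Scheme.homeoOfIso e
  τ := AlgEquiv.ofRingEquiv (f := RingEquiv.ofRingHom (pK f e.hom) (pK f e.inv)
    (RingHom.ext fun a => pK_hi f e a) (RingHom.ext fun a => pK_ih f e a)) (pK_alg f e.hom he)
  loc x a := pK_loc f e x a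
  aff U := aff_iff f e U

theorem mkMAut_σ (e : Y ≅ Y) (he : e.hom ≫ f = f) (x : Y) : (mkMAut f e he).σ x = e.hom x := rfl

theorem mkMAut_τ (e : Y ≅ Y) (he : e.hom ≫ f = f) (a : FF f) :
    (mkMAut f e he).τ a = pK f e.hom a := rfl

/-- the action of the automorphisms of `Y` over `k` -/
noncomputable def toMAut : Aut (Over.mk f) →* MAut (mdl f) where
  toFun φ := mkMAut f ((Over.forget (Spec (.of k))).mapIso φ) (Over.w φ.hom)
  map_one' := MAut.ext' _ _ (fun _ => rfl) (fun a => pK_id f a)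
  map_mul' φ ψ := MAut.ext' _ _ (fun _ => rfl) (fun a => pK_comp_iso f
    ((Over.forget (Spec (.of k))).mapIso ψ) ((Over.forget (Spec (.of k))).mapIso φ) a)

/-- the group of the automorphisms of `Y` over `k`, acting on the space of local rings -/
noncomputable def autG : Subgroup (MAut (mdl f)) := (toMAut f).range

end Pool.Agent.H54.EN
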