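import Pool.Agent.H54.EN.S3
import Pool.Agent.H54.EN.S4
import Pool.Agent.H54.EN.S7

/-!
# [H54 EN S5] the local rings of a locally factorial surface

The fields of `IsSch (mdl f)`: `mdl_comp`, `mdl_op`, `mdl_chart`, `mdl_basic`, `mdl_bas`, `mdl_fg`, `mdl_frac`, `mdl_prime`, `O_mono`; `t0`: schemes are T0; `gen`: the generic point: `locA f (genericPoint Y)` is everything (`toK` is the identity there: `TopCat.Presheaf.stalkSpecializes_refl`), `genericPoint_spec`.
`stalkE x`: the stalk at `x` is isomorphic to `locA f x` (`toK` is injective): transport of `UniqueFactorizationMonoid` (`MulEquiv.uniqueFactorizationMonoid`) and of `ringKrullDim` (`ringKrullDim_eq_of_ringEquiv`).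
-/

set_option autoImplicit false

universe u

namespace Pool.Agent.H54.EN

open AlgebraicGeometry CategoryTheory

variable {k : Type u} [Field k] {Y : Scheme.{u}} [IsIntegral Y] (f : Y ⟶ Spec (.of k))

/-- the stalk and the local ring in the function field -/
noncomputable def stalkE (x : Y) : Y.presheaf.stalk x ≃+* locA f x :=
  RingEquiv.ofBijective (toK f x).rangeRestrict
    ⟨fun a b h => toK_inj f x (congrArg Subtype.val h), (toK f x).rangeRestrict_surjective⟩

theorem isSch_mdl [IsProper f] : IsSch (mdl f) where
  comp := mdl_comp f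
  ne := ⟨genericPoint Y⟩
  spec _ _ h := O_mono f h
  op := mdl_op f
  chart := mdl_chart f
  basic := mdl_basic f
  bas := mdl_bas f
  fg := mdl_fg f
  frac := mdl_frac f
  prime := mdl_prime f
  t0 x y h h' := by
    have : T0Space Y := inferInstance
    exact (Specializes.antisymm h h').eq
  gen := by
    refine ⟨genericPoint Y, ?_, fun y => (genericPoint_spec Y).specializes (Set.mem_univ y)⟩
    rw [eq_top_iff]
    intro a _
    exact toK_surj f (genericPoint Y) rfl a

theorem isSf_mdl [IsProper f] (hu : ∀ y : Y, UniqueFactorizationMonoid (Y.presheaf.stalk y))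
    (hd : ∀ y : Y, ringKrullDim (Y.presheaf.stalk y) ≤ 2)
    (hc : ∀ y : Y, IsClosed ({y} : Set Y) → ringKrullDim (Y.presheaf.stalk y) = 2) :
    IsSf (mdl f) where
  toIsSch := isSch_mdl f
  ufd x := by
    have := hu x
    exact (stalkE f x).toMulEquiv.uniqueFactorizationMonoid inferInstance
  dim x := by
    rw [← ringKrullDim_eq_of_ringEquiv (stalkE f x)]
    exact hd x
  dimc x hx := by
    rw [← ringKrullDim_eq_of_ringEquiv (stalkE f x)]
    exact hc x hx

end Pool.Agent.H54.EN
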