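import Pool.Agent.H54.EN.FDefs
import Pool.Agent.H54.EN.S5
import Pool.Agent.H54.EN.G2
import Pool.Agent.H54.EN.H12

/-!
# Enriques surfaces: the main theorem (assembly)
-/

set_option autoImplicit false

universe u

namespace Pool.Agent.H54.EN

open AlgebraicGeometry CategoryTheory

theorem main : ∃ w ∈ WE10, ¬ Realized.{u} w := by
  obtain ⟨w, hW, hw⟩ := exists_w
  refine ⟨w, hW, ?_⟩
  rintro ⟨k, _, _, E, m, g, hg, h⟩
  exact main_mod
    { X := mdl E.f
      sf := isSf_mdl E.f E.ufd E.dim E.dimc
      A := E.A
      s := E.s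
      pol := E.pol
      M := E.M
      can := E.can
      num := E.num
      chi1 := E.chi1
      φ := m.φ
      surj := m.surj
      isom := m.isom } hw (mkMAut E.f g hg) h

end Pool.Agent.H54.EN
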