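import Pool.Agent.H54.EN.B4

/-!
# [H54 EN P1] the point of codimension one given by a prime element

`p` a prime element of `O x` (written as an element `p` of `K`).  The prime ideal `(p)` of `O x` is given by a point `ζ ⤳ x` (`prime_pt`): for `a ∈ O x`: `¬ Un (O ζ) a ↔ p ∣ a ↔ a / p ∈ O x` (`Ideal.mem_span_singleton`, `Ideal.span_singleton_prime`).
`val`: for `a ∈ O x`, `a ≠ 0`, there is `n : ℕ` with `a = p ^ n * b`, `b ∈ O x`, not divisible by `p` (`O x` is a Noetherian domain, `noeth_O`: `WfDvdMonoid.max_power_factor` or `FiniteMultiplicity`), so `b` is a unit at `ζ`; for `a ∈ K` write `a = b / q` (`frac_O`).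
-/

set_option autoImplicit false

universe u

namespace Pool.Agent.H54.EN

variable {k K : Type u} [Field k] [Field K] [Algebra k K] {X : Mod k K}

theorem pt_of_prime (hX : IsSch X) (x : X.P) (p : X.O x) (hp : Prime p) :
    ∃ ζ, ζ ⤳ x ∧ (∀ a ∈ X.O x, ¬ Un (X.O ζ) a ↔ a / (p : K) ∈ X.O x) ∧ ¬ Un (X.O ζ) (p : K) ∧
      ∀ a : K, a ≠ 0 → ∃ n : ℤ, Un (X.O ζ) (a / (p : K) ^ n) := by
  have hp0 : (p : K) ≠ 0 := fun h => hp.ne_zero (Subtype.ext h)
  obtain ⟨ζ, hζ, h1⟩ := prime_pt hX x (Ideal.span {p}) ((Ideal.span_singleton_prime hp.ne_zero).2 hp)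
  have h2 : ∀ a ∈ X.O x, ¬ Un (X.O ζ) a ↔ a / (p : K) ∈ X.O x := by
    intro a ha
    rw [← h1 ⟨a, ha⟩, Ideal.mem_span_singleton]
    constructor
    · rintro ⟨c, hc⟩
      have hc' : a = (p : K) * (c : K) := congrArg Subtype.val hc
      rw [hc', mul_div_cancel_left₀ _ hp0]
      exact c.2
    · intro h
      refine ⟨⟨_, h⟩, Subtype.ext ?_⟩
      exact (mul_div_cancel₀ a hp0).symm
  have hpn : ¬ Un (X.O ζ) (p : K) := by
    rw [h2 _ p.2, div_self hp0]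
    exact (X.O x).one_mem
  have hN := noeth_O hX x
  have hnat : ∀ a ∈ X.O x, a ≠ 0 → ∃ n : ℕ, Un (X.O ζ) (a / (p : K) ^ n) := by
    intro a ha ha0
    obtain ⟨n, b, hb, e⟩ := WfDvdMonoid.max_power_factor (a₀ := (⟨a, ha⟩ : X.O x)) (x := p)
      (fun h => ha0 (congrArg Subtype.val h)) hp.irreducible
    refine ⟨n, ?_⟩
    have e' : a = (p : K) ^ n * (b : K) := congrArg Subtype.val e
    rw [e', mul_div_cancel_left₀ _ (pow_ne_zero n hp0)]
    by_contra hc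
    rw [h2 _ b.2] at hc
    refine hb ⟨⟨_, hc⟩, Subtype.ext ?_⟩
    exact (mul_div_cancel₀ (b : K) hp0).symm
  refine ⟨ζ, hζ, h2, hpn, fun a ha0 => ?_⟩
  obtain ⟨q, hq, hq0, hqa⟩ := frac_O hX x a
  obtain ⟨n1, h3⟩ := hnat _ hqa (mul_ne_zero hq0 ha0)
  obtain ⟨n2, h4⟩ := hnat q hq hq0
  refine ⟨(n1 : ℤ) - n2, ?_⟩
  have e : a / (p : K) ^ ((n1 : ℤ) - n2) = (q * a / (p : K) ^ n1) / (q / (p : K) ^ n2) := by
    rw [zpow_sub₀ hp0, zpow_natCast, zpow_natCast]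
    have h5 := pow_ne_zero n1 hp0
    have h6 := pow_ne_zero n2 hp0
    field_simp
  rw [e]
  exact un_div h3 h4

end Pool.Agent.H54.EN
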