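import Pool.Agent.H54.EN.B6

/-!
# [H54 EN P2] the closure of a point of codimension one is principal at all points

`O ζ` is a discrete valuation ring with uniformizer `p` (`hv`, `hp`), `ζ ⤳ y`, `O y` a unique factorization domain.  The prime ideal `Q = {a ∈ O y : ¬ Un (O ζ) a}` (`ideal_pt`) is not zero: by `frac_O` `p = b / q` with `b, q ∈ O y`; `b = p q ∈ Q` (`p` a nonunit of `O ζ`, `q ∈ O y ≤ O ζ`), `b ≠ 0`.  (`p ≠ 0`: otherwise `hv 1` gives `n` with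
`1 / 0 ^ n` a unit: so `n = 0`; handle: `hp` and `hv`: if `p = 0` every element `a ≠ 0` is a unit of `O ζ`, so `O ζ = ⊤`; then `Q = 0`... so `hp0 : p ≠ 0` is assumed.)
So `Q` contains a prime element `q` of `O y` (`Ideal.IsPrime.exists_mem_prime_of_ne_bot`).  Let `a ∈ Q`, `a ≠ 0`: `a = u p ^ n`, `q = v p ^ m` with units `u, v` of `O ζ`, and `n, m ≥ 1`; `a ^ m / q ∈ O ζ` (`m n ≥ m`), so `a ^ m / q = b / s` with `b, s ∈ O y`, `s` a unit at `ζ`:
to see this take an affine set which contains `y` (so `ζ`) and `hX.frac` at `ζ`: functions on it are in `O y`.  So `q b = s a ^ m` in `O y`; `q` divides `s` or `a` (prime); `q` does not divide `s` (`q ∈ Q`, `s ∉ Q`); so `q ∣ a`.  Conversely `a / q ∈ O y` gives `a = q (a / q) ∈ Q`.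
-/

set_option autoImplicit false

universe u

namespace Pool.Agent.H54.EN

variable {k K : Type u} [Field k] [Field K] [Algebra k K] {X : Mod k K}

/-- the exponent of a nonunit is positive -/
theorem val_pos {A : Subalgebra k K} {a p : K} (hp : p ∈ A) (ha : a ∈ A) (hn : ¬ Un A a) {n : ℤ}
    (h : Un A (a / p ^ n)) : 1 ≤ n := by
  by_contra hc
  obtain ⟨m, rfl⟩ : ∃ m : ℕ, n = -(m : ℤ) := ⟨(-n).toNat, by omega⟩
  rw [zpow_neg, zpow_natCast, div_inv_eq_mul] at h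
  exact hn ((un_mul_iff ha (A.pow_mem hp m)).1 h).1

theorem gen_at (hX : IsSf X) {ζ y : X.P} (h : ζ ⤳ y) (p : K) (hp0 : p ≠ 0) (hpm : p ∈ X.O ζ)
    (hp : ¬ Un (X.O ζ) p) (hv : ∀ a : K, a ≠ 0 → ∃ n : ℤ, Un (X.O ζ) (a / p ^ n)) :
    ∃ q ∈ X.O y, q ≠ 0 ∧ ∀ a ∈ X.O y, (¬ Un (X.O ζ) a ↔ a / q ∈ X.O y) := by
  have hle := hX.spec ζ y h
  obtain ⟨Q, hQ, hQ'⟩ := ideal_pt hX.toIsSch h
  have hQb : Q ≠ ⊥ := by
    obtain ⟨s, hs, hs0, hsp⟩ := frac_O hX.toIsSch y p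
    intro hb
    have h1 : (⟨s * p, hsp⟩ : X.O y) ∈ Q := by
      rw [hQ']
      intro hu
      exact hp ((un_mul_iff (hle hs) hpm).1 hu).2
    rw [hb, Ideal.mem_bot] at h1
    exact mul_ne_zero hs0 hp0 (congrArg Subtype.val h1)
  have hufd := hX.ufd y
  obtain ⟨q, hqQ, hq⟩ := hQ.exists_mem_prime_of_ne_bot hQb
  have hq0 : (q : K) ≠ 0 := fun h => hq.ne_zero (Subtype.ext h)
  have hqn : ¬ Un (X.O ζ) (q : K) := (hQ' q).1 hqQ
  refine ⟨q, q.2, hq0, fun a ha => ⟨fun hn => ?_, fun hd hu => ?_⟩⟩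
  · by_cases ha0 : a = 0
    · rw [ha0, zero_div]
      exact (X.O y).zero_mem
    obtain ⟨n, hn1⟩ := hv a ha0
    obtain ⟨m, hm1⟩ := hv q hq0
    have hnpos := val_pos hpm (hle ha) hn hn1
    have hmpos := val_pos hpm (hle q.2) hqn hm1
    obtain ⟨n, rfl⟩ : ∃ n' : ℕ, n = (n' : ℤ) := ⟨n.toNat, by omega⟩
    obtain ⟨m, rfl⟩ : ∃ m' : ℕ, m = (m' : ℤ) := ⟨m.toNat, by omega⟩
    rw [zpow_natCast] at hn1 hm1
    have hnm : m ≤ n * m := Nat.le_mul_of_pos_left m (by omega)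
    have h2 : a ^ m / (q : K) ∈ X.O ζ := by
      have e : a ^ m / (q : K) = (a / p ^ n) ^ m / ((q : K) / p ^ m) * p ^ (n * m - m) := by
        rw [pow_sub₀ p hp0 hnm, pow_mul, div_pow]
        field_simp
      rw [e]
      exact (X.O ζ).mul_mem (un_div (un_pow hn1 m) hm1).2.1 ((X.O ζ).pow_mem hpm _)
    obtain ⟨U, hU, hyU⟩ := hX.chart y
    have hζU : ζ ∈ U := h.mem_open (hX.op U hU) hyU
    obtain ⟨s, hs, hsu, hbs⟩ := hX.frac U ζ hU hζU _ h2
    have hsy : s ∈ X.O y := (mem_sec U s).1 hs y hyU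
    have hby : a ^ m / (q : K) * s ∈ X.O y := (mem_sec U _).1 hbs y hyU
    have hdvd : q ∣ (⟨s, hsy⟩ : X.O y) * (⟨a, ha⟩ : X.O y) ^ m := by
      refine ⟨⟨_, hby⟩, Subtype.ext ?_⟩
      change s * a ^ m = q * (a ^ m / (q : K) * s)
      field_simp
    rcases hq.dvd_or_dvd hdvd with h3 | h3
    · exfalso
      have h4 : (⟨s, hsy⟩ : X.O y) ∈ Q := Ideal.mem_of_dvd Q h3 hqQ
      exact (hQ' _).1 h4 hsu
    · obtain ⟨c, hc⟩ := hq.dvd_of_dvd_pow h3
      have hc' : a = (q : K) * (c : K) := congrArg Subtype.val hc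
      rw [hc', mul_div_cancel_left₀ _ hq0]
      exact c.2
  · have e : a = a / (q : K) * (q : K) := (div_mul_cancel₀ a hq0).symm
    rw [e] at hu
    exact hqn ((un_mul_iff (hle hd) (hle q.2)).1 hu).2

end Pool.Agent.H54.EN
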