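import Pool.Agent.H54.EN.B4

/-!
# [H54 EN P3] coherence of the local equations of the closure of a point

`ζ ⤳ y`, `q ∈ O y` generates `{a ∈ O y : ¬ Un (O ζ) a}` (`hq`).  There is an affine `V` with `y ∈ V` and `q ∈ O z` for all `z ∈ V` (`reg_nhd`); `ζ ∈ V`.  `I = {a ∈ sec V : ¬ Un (O ζ) a}` is an ideal of the Noetherian ring `sec V` (`noeth_sec`; `O ζ` is local), generated by `a 1, ..., a n`.  `a i / q ∈ O y`, so there is an open neighbourhood `W ⊆ V` of `y` with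
`a i / q ∈ O z` for all `i` and `z ∈ W` (`reg_nhd`, finitely many).  So `a / q ∈ O z` for all `a ∈ I`, `z ∈ W` (sums of products).
Let `z ∈ W`.
* `ζ ⤳ z`, `a ∈ O z`, `¬ Un (O ζ) a`: by `hX.frac V z` `a = b / s` with `b, s ∈ sec V`, `s` a unit at `z` (so at `ζ`), `b ∈ I`: `a / q = (b / q) / s ∈ O z`.  Conversely `a = q (a / q)`, `q` is a nonunit at `ζ` (`hq` for `a = q`), `a / q ∈ O z ≤ O ζ`.
* not `ζ ⤳ z`: there is `a ∈ I` which is a unit at `z`: otherwise the functions on `V` which are units at `z` are units at `ζ`, and `ζ ⤳ z` by `spec_of`.  `1 / q = (a / q) / a ∈ O z`; and `q ∈ O z`.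
-/

set_option autoImplicit false

universe u

namespace Pool.Agent.H54.EN

variable {k K : Type u} [Field k] [Field K] [Algebra k K] {X : Mod k K}

private theorem nhd_fin (hX : IsSch X) (y : X.P) (T : Finset K) (hT : ∀ t ∈ T, t ∈ X.O y) :
    ∃ W : Set X.P, IsOpen W ∧ y ∈ W ∧ ∀ z ∈ W, ∀ t ∈ T, t ∈ X.O z := by
  classical
  induction T using Finset.induction_on with
  | empty => exact ⟨Set.univ, isOpen_univ, Set.mem_univ y, fun z _ t ht => absurd ht (by simp)⟩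
  | insert a T _ ih =>
    obtain ⟨W, hW, hyW, h1⟩ := ih (fun t ht => hT t (Finset.mem_insert_of_mem ht))
    obtain ⟨W', hW', hyW', _, h2⟩ := reg_nhd hX y a (hT a (Finset.mem_insert_self a T)) Set.univ
      isOpen_univ (Set.mem_univ y)
    refine ⟨W ∩ W', hW.inter (hX.op W' hW'), ⟨hyW, hyW'⟩, fun z hz t ht => ?_⟩
    rcases Finset.mem_insert.1 ht with rfl | ht
    · exact h2 z hz.2
    · exact h1 z hz.1 t ht

theorem coh_gen (hX : IsSch X) {ζ y : X.P} (h : ζ ⤳ y) (q : K) (hqm : q ∈ X.O y) (hq0 : q ≠ 0)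
    (hq : ∀ a ∈ X.O y, (¬ Un (X.O ζ) a ↔ a / q ∈ X.O y)) :
    ∃ W : Set X.P, IsOpen W ∧ y ∈ W ∧ ∀ z ∈ W, q ∈ X.O z ∧
      (ζ ⤳ z → ∀ a ∈ X.O z, (¬ Un (X.O ζ) a ↔ a / q ∈ X.O z)) ∧ (¬ ζ ⤳ z → Un (X.O z) q) := by
  classical
  obtain ⟨V, hV, hyV, _, hqV⟩ := reg_nhd hX y q hqm Set.univ isOpen_univ (Set.mem_univ y)
  have hζV : ζ ∈ V := h.mem_open (hX.op V hV) hyV
  have hle : X.sec V ≤ X.O ζ := fun a ha => (mem_sec V a).1 ha ζ hζV
  have hloc := X.loc ζ
  obtain ⟨I, hI⟩ : ∃ I : Ideal (X.sec V), ∀ a : X.sec V, a ∈ I ↔ ¬ Un (X.O ζ) (a : K) := by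
    refine ⟨(IsLocalRing.maximalIdeal (X.O ζ)).comap (Subalgebra.inclusion hle).toRingHom,
      fun a => ?_⟩
    rw [Ideal.mem_comap, IsLocalRing.mem_maximalIdeal, mem_nonunits_iff]
    exact not_congr (un_iff (hle a.2))
  have hno := noeth_sec hX V hV ⟨y, hyV⟩
  obtain ⟨T, hT⟩ := (isNoetherianRing_iff_ideal_fg _).1 hno I
  have hqn : ¬ Un (X.O ζ) q := by
    rw [hq q hqm, div_self hq0]
    exact (X.O y).one_mem
  obtain ⟨W, hW, hyW, h1⟩ := nhd_fin hX y (T.image (fun t : X.sec V => (t : K) / q)) (by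
    intro t' ht'
    obtain ⟨t, ht, rfl⟩ := Finset.mem_image.1 ht'
    have h2 : t ∈ I := by
      rw [← hT]
      exact Ideal.subset_span ht
    exact (hq _ ((mem_sec V _).1 t.2 y hyV)).1 ((hI t).1 h2))
  refine ⟨V ∩ W, (hX.op V hV).inter hW, ⟨hyV, hyW⟩, fun z hz => ?_⟩
  have hIz : ∀ a ∈ I, (a : K) / q ∈ X.O z := by
    intro a ha
    rw [← hT] at ha
    induction ha using Submodule.span_induction with
    | mem t ht => exact h1 z hz.2 _ (Finset.mem_image.2 ⟨t, ht, rfl⟩)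
    | zero =>
      change (0 : K) / q ∈ X.O z
      rw [zero_div]
      exact (X.O z).zero_mem
    | add a b _ _ iha ihb =>
      change ((a : K) + (b : K)) / q ∈ X.O z
      rw [add_div]
      exact (X.O z).add_mem iha ihb
    | smul c a _ iha =>
      change ((c : K) * (a : K)) / q ∈ X.O z
      rw [mul_div_assoc]
      exact (X.O z).mul_mem ((mem_sec V _).1 c.2 z hz.1) iha
  refine ⟨hqV z hz.1, fun hζz a ha => ⟨fun hn => ?_, fun hd hu => ?_⟩, fun hnz => ?_⟩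
  · obtain ⟨s, hs, hsu, has⟩ := hX.frac V z hV hz.1 a ha
    have h3 : (⟨a * s, has⟩ : X.sec V) ∈ I := by
      rw [hI]
      change ¬ Un (X.O ζ) (a * s)
      rwa [un_mul_un (un_gen hX hζz hsu)]
    have h4 := hIz _ h3
    change a * s / q ∈ X.O z at h4
    rw [mul_div_right_comm] at h4
    exact (mem_mul_un hsu).1 h4
  · have hle2 := hX.spec ζ z hζz
    have e : a = a / q * q := (div_mul_cancel₀ a hq0).symm
    rw [e] at hu
    exact hqn ((un_mul_iff (hle2 hd) (hle2 (hqV z hz.1))).1 hu).2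
  · have h5 : ∃ a ∈ I, Un (X.O z) (a : K) := by
      by_contra hc
      push Not at hc
      refine hnz (spec_of hX V hV hz.1 hζV (fun a ha hu => ?_))
      by_contra hn
      exact hc ⟨a, ha⟩ ((hI _).2 hn) hu
    obtain ⟨a, ha, hu⟩ := h5
    refine ⟨hq0, hqV z hz.1, ?_⟩
    have e : q⁻¹ = (a : K) / q * (a : K)⁻¹ := by
      have := hu.1
      field_simp
    rw [e]
    exact (X.O z).mul_mem (hIz a ha) hu.2.2

end Pool.Agent.H54.EN
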