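import Pool.Agent.H54.EN.P1
import Pool.Agent.H54.EN.P2
import Pool.Agent.H54.EN.P3

/-!
# [H54 EN P4] prime components of effective divisors

* `mk_prm`: `ζ`, `p` as in `pt_of_prime`/`gen_at` (`O ζ` a discrete valuation ring with uniformizer `p`).  For `y` with `ζ ⤳ y` choose `q y` by `gen_at`, for the other `y` let `q y = 1`.  The Cartier divisor `D.eq = q`: `loc`: at `y` with `ζ ⤳ y`: `W` from `coh_gen`: for `z ∈ W`: if `ζ ⤳ z` then `q y` and `q z` generate the same ideal of `O z`: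
  `q z / q y` is a unit (`q z` and `q y` are nonunits at `ζ`, `hq` for each); otherwise `q z = 1` and `q y` is a unit at `z`.  At `y` with not `ζ ⤳ y`: the complement of the closure of `ζ` (`specializes_iff_mem_closure`) is a neighbourhood where `q = 1`.
  `val`: `q ζ` is `p` times a unit of `O ζ` (`q ζ` generates the ideal of the nonunits of `O ζ`, so does `p`: `p / q ζ ∈ O ζ`, and `q ζ = p ^ n * unit` with `n ≥ 1` gives `q ζ / p ∈ O ζ`), so `a / q ζ ^ n` is a unit if `a / p ^ n` is.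
* `exists_prm`: `D` effective, `D.eq x` a nonunit of `O x`.  `O x` is a unique factorization domain (`hX.ufd`): a prime element `p` divides `D.eq x` (`WfDvdMonoid.exists_irreducible_factor`, `UniqueFactorizationMonoid.irreducible_iff_prime`).  `ζ` from `pt_of_prime`, `C` from `mk_prm`.
  `D - C.D` is effective: at `y` with not `C.ζ ⤳ y`: `C.off`.  At `y` with `ζ ⤳ y`: `D.eq y / C.D.eq y ∈ O y` iff `D.eq y` is a nonunit at `ζ` (`C.on`).  `D.eq x` is a nonunit at `ζ` (`p ∣ D.eq x`), and `D.eq y = D.eq x * (D.eq ζ / D.eq x) * (D.eq y / D.eq ζ)` with units of `O ζ` (`eq_gen`).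
-/

set_option autoImplicit false

universe u

namespace Pool.Agent.H54.EN

variable {k K : Type u} [Field k] [Field K] [Algebra k K] {X : Mod k K}

private theorem un_zpow {A : Subalgebra k K} {a : K} (ha : Un A a) (n : ℤ) : Un A (a ^ n) := by
  obtain ⟨m, rfl | rfl⟩ := n.eq_nat_or_neg
  · rw [zpow_natCast]
    exact un_pow ha m
  · rw [zpow_neg, zpow_natCast]
    exact un_inv (un_pow ha m)

theorem mk_prm (hX : IsSf X) (ζ : X.P) (p : K) (hp0 : p ≠ 0) (hpm : p ∈ X.O ζ)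
    (hp : ¬ Un (X.O ζ) p) (hv : ∀ a : K, a ≠ 0 → ∃ n : ℤ, Un (X.O ζ) (a / p ^ n)) :
    ∃ C : Prm X, C.ζ = ζ := by
  have h1 : ∀ y, ∃ q : K, q ∈ X.O y ∧ q ≠ 0 ∧
      (ζ ⤳ y → ∀ a ∈ X.O y, (¬ Un (X.O ζ) a ↔ a / q ∈ X.O y)) ∧ (¬ ζ ⤳ y → q = 1) := by
    intro y
    by_cases hy : ζ ⤳ y
    · obtain ⟨q, h2, h3, h4⟩ := gen_at hX hy p hp0 hpm hp hv
      exact ⟨q, h2, h3, fun _ => h4, fun h => absurd hy h⟩
    · exact ⟨1, (X.O y).one_mem, one_ne_zero, fun h => absurd h hy, fun _ => rfl⟩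
  choose q hqm hq0 hqg hq1 using h1
  have hself : ∀ y, ζ ⤳ y → ¬ Un (X.O ζ) (q y) := by
    intro y hy
    rw [hqg y hy (q y) (hqm y), div_self (hq0 y)]
    exact (X.O y).one_mem
  have hloc : ∀ x, ∃ U : Set X.P, IsOpen U ∧ x ∈ U ∧ ∀ y ∈ U, Un (X.O y) (q y / q x) := by
    intro x
    by_cases hx : ζ ⤳ x
    · obtain ⟨W, hW, hxW, h2⟩ := coh_gen hX.toIsSch hx (q x) (hqm x) (hq0 x) (hqg x hx)
      refine ⟨W, hW, hxW, fun z hz => ?_⟩
      obtain ⟨h3, h4, h5⟩ := h2 z hz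
      by_cases hz' : ζ ⤳ z
      · refine ⟨div_ne_zero (hq0 z) (hq0 x), ?_, ?_⟩
        · exact (h4 hz' (q z) (hqm z)).1 (hself z hz')
        · rw [inv_div]
          exact (hqg z hz' (q x) h3).1 (hself x hx)
      · rw [hq1 z hz']
        exact un_div (un_one _) (h5 hz')
    · refine ⟨(closure {ζ})ᶜ, isClosed_closure.isOpen_compl, ?_, fun z hz => ?_⟩
      · rw [Set.mem_compl_iff, ← specializes_iff_mem_closure]
        exact hx
      · rw [Set.mem_compl_iff, ← specializes_iff_mem_closure] at hz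
        rw [hq1 z hz, hq1 x hx, div_one]
        exact un_one _
  obtain ⟨n, hn⟩ := hv (q ζ) (hq0 ζ)
  have hζ := hself ζ specializes_rfl
  have hnpos := val_pos hpm (hqm ζ) hζ hn
  have hu : Un (X.O ζ) (q ζ / p) := by
    refine ⟨div_ne_zero (hq0 ζ) hp0, ?_, ?_⟩
    · obtain ⟨m, rfl⟩ : ∃ m : ℕ, n = (m : ℤ) + 1 := ⟨(n - 1).toNat, by omega⟩
      have e : q ζ / p = q ζ / p ^ ((m : ℤ) + 1) * p ^ m := by
        rw [zpow_add_one₀ hp0, zpow_natCast]
        have := pow_ne_zero m hp0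
        field_simp
      rw [e]
      exact (X.O ζ).mul_mem hn.2.1 ((X.O ζ).pow_mem hpm m)
    · rw [inv_div]
      exact (hqg ζ specializes_rfl p hpm).1 hp
  refine ⟨{ ζ := ζ
            D := { eq := q, ne := hq0, loc := hloc }
            eff := hqm
            on := fun x hx a ha => hqg x hx a ha
            off := fun x hx => ?_
            ne := hζ
            val := fun a ha => ?_ }, rfl⟩
  · change Un (X.O x) (q x)
    rw [hq1 x hx]
    exact un_one _
  · obtain ⟨j, hj⟩ := hv a ha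
    refine ⟨j, ?_⟩
    change Un (X.O ζ) (a / q ζ ^ j)
    have e : a / q ζ ^ j = a / p ^ j / (q ζ / p) ^ j := by
      rw [div_zpow]
      have h3 := zpow_ne_zero j hp0
      have h4 := zpow_ne_zero j (hq0 ζ)
      field_simp
    rw [e]
    exact un_div hj (un_zpow hu j)

theorem exists_prm (hX : IsSf X) (D : Cart X) (hD : Effective D) (x : X.P)
    (hx : ¬ Un (X.O x) (D.eq x)) : ∃ C : Prm X, Effective (D - C.D) := by
  have hufd := hX.ufd x
  obtain ⟨p, hpi, hpd⟩ := WfDvdMonoid.exists_irreducible_factor (a := (⟨D.eq x, hD x⟩ : X.O x))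
    (fun h => hx ((un_iff (hD x)).1 h)) (fun h => D.ne x (congrArg Subtype.val h))
  have hp : Prime p := UniqueFactorizationMonoid.irreducible_iff_prime.1 hpi
  have hp0 : (p : K) ≠ 0 := fun h => hp.ne_zero (Subtype.ext h)
  obtain ⟨ζ, hζx, h1, h2, h3⟩ := pt_of_prime hX.toIsSch x p hp
  have hle := hX.spec ζ x hζx
  obtain ⟨C, rfl⟩ := mk_prm hX ζ (p : K) hp0 (hle p.2) h2 h3
  refine ⟨C, fun y => ?_⟩
  rw [sub_eq]
  by_cases hy : C.ζ ⤳ y
  · refine (C.on y hy (D.eq y) (hD y)).1 ?_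
    have hxn : ¬ Un (X.O C.ζ) (D.eq x) := by
      rw [h1 _ (hD x)]
      obtain ⟨c, hc⟩ := hpd
      have hc' : D.eq x = (p : K) * (c : K) := congrArg Subtype.val hc
      rw [hc', mul_div_cancel_left₀ _ hp0]
      exact c.2
    have u1 := eq_gen D hζx
    have u2 := eq_gen D hy
    have e : D.eq y = D.eq x * ((D.eq C.ζ / D.eq x) / (D.eq C.ζ / D.eq y)) := by
      have e1 := D.ne x
      have e2 := D.ne y
      have e3 := D.ne C.ζ
      field_simp
    rw [e, un_mul_un (un_div u1 u2)]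
    exact hxn
  · rw [div_eq_mul_inv]
    exact (X.O y).mul_mem (hD y) (C.off y hy).2.2

end Pool.Agent.H54.EN
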