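import Pool.Agent.H54.EN.B6
import Pool.Agent.H54.EN.Aut
import Pool.Agent.H54.EN.P2

/-!
# [H54 EN P6] two prime divisors, and the pull-back of prime divisors

* `unit_of_ne`: `C.ζ ≠ C'.ζ`.  If not `C'.ζ ⤳ C.ζ` this is `C'.off`.  If `C'.ζ ⤳ C.ζ`: let `ζ = C.ζ`, `p = C.D.eq ζ`; every nonunit of `O ζ` is `p b` with `b ∈ O ζ` (`C.on`), every `a ≠ 0` is `p ^ n * unit` (`C.val`).  `q = C'.D.eq ζ ∈ O ζ`, `q ≠ 0`, and `q` is a nonunit at `C'.ζ` (`C'.on` for `x = ζ`, `a = q`: `q / q = 1`).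
  If `q` is a nonunit of `O ζ` then `q = p ^ n * unit`, `n ≥ 1`, so `p` is a nonunit at `C'.ζ`, so every nonunit of `O ζ` is a nonunit at `C'.ζ`; units of `O ζ` are units at `C'.ζ` (`un_gen`): `eq_of_pt` (for the points `C'.ζ` and `ζ` of `ζ`) gives `C'.ζ = ζ`, a contradiction.  So `q` is a unit of `O ζ`.
* `triv_of_eq`: `C.ζ = C'.ζ`: at `x` with `ζ ⤳ x` both local equations generate the same ideal of `O x`: `C.D.eq x / C'.D.eq x ∈ O x` because `C.D.eq x` is a nonunit at `ζ` (`C.on` for `a = C.D.eq x`), and symmetrically.  At the other points both are units.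
* `Prm.pull`: the pull-back by the automorphism `g`: `ζ = g.σ.symm C.ζ`, `D = g.pull C.D`: `(g.pull C.D).eq x = g.τ (C.D.eq (g.σ x))`, `ζ ⤳ x ↔ C.ζ ⤳ g.σ x` (`Homeomorph` : `Inducing.specializes_iff` or `Specializes.map` in both directions), `Un (O x) (g.τ a) ↔ Un (O (g.σ x)) a` (`g.loc`), every element of `K` is `g.τ a`.
-/

set_option autoImplicit false

universe u

namespace Pool.Agent.H54.EN

variable {k K : Type u} [Field k] [Field K] [Algebra k K] {X : Mod k K}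

theorem unit_of_ne (hX : IsSf X) (C C' : Prm X) (h : C.ζ ≠ C'.ζ) :
    Un (X.O C.ζ) (C'.D.eq C.ζ) := by
  by_cases hs : C'.ζ ⤳ C.ζ
  swap
  · exact C'.off _ hs
  have hle := hX.spec _ _ hs
  have hp0 := C.D.ne C.ζ
  have hpm := C.eff C.ζ
  have hq : ¬ Un (X.O C'.ζ) (C'.D.eq C.ζ) := by
    rw [C'.on _ hs _ (C'.eff _), div_self (C'.D.ne _)]
    exact (X.O C.ζ).one_mem
  by_contra hc
  obtain ⟨n, hn⟩ := C.val _ (C'.D.ne C.ζ)
  have hnpos := val_pos hpm (C'.eff C.ζ) hc hn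
  obtain ⟨m, rfl⟩ : ∃ m : ℕ, n = (m : ℤ) := ⟨n.toNat, by omega⟩
  rw [zpow_natCast] at hn
  have hpn : ¬ Un (X.O C'.ζ) (C.D.eq C.ζ) := by
    intro hu
    apply hq
    have e : C'.D.eq C.ζ = C'.D.eq C.ζ / C.D.eq C.ζ ^ m * C.D.eq C.ζ ^ m :=
      (div_mul_cancel₀ _ (pow_ne_zero m hp0)).symm
    rw [e]
    exact un_mul (un_gen hX.toIsSch hs hn) (un_pow hu m)
  refine h (eq_of_pt hX.toIsSch hs specializes_rfl (fun a ha => ⟨fun hu => ?_, fun hu =>
    un_gen hX.toIsSch hs hu⟩)).symm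
  by_contra hn2
  have h2 := (C.on C.ζ specializes_rfl a ha).1 hn2
  have e : a = a / C.D.eq C.ζ * C.D.eq C.ζ := (div_mul_cancel₀ _ hp0).symm
  rw [e] at hu
  exact hpn ((un_mul_iff (hle h2) (hle hpm)).1 hu).2

theorem triv_of_eq (C C' : Prm X) (h : C.ζ = C'.ζ) : Triv (C.D - C'.D) := by
  intro x
  rw [sub_eq]
  by_cases hx : C.ζ ⤳ x
  · have hx' : C'.ζ ⤳ x := h ▸ hx
    have h1 : ¬ Un (X.O C.ζ) (C.D.eq x) := by
      rw [C.on x hx _ (C.eff x), div_self (C.D.ne x)]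
      exact (X.O x).one_mem
    have h2 : ¬ Un (X.O C'.ζ) (C'.D.eq x) := by
      rw [C'.on x hx' _ (C'.eff x), div_self (C'.D.ne x)]
      exact (X.O x).one_mem
    refine ⟨div_ne_zero (C.D.ne x) (C'.D.ne x), ?_, ?_⟩
    · exact (C'.on x hx' _ (C.eff x)).1 (h ▸ h1)
    · rw [inv_div]
      exact (C.on x hx _ (C'.eff x)).1 (h ▸ h2)
  · have hx' : ¬ C'.ζ ⤳ x := h ▸ hx
    exact un_div (C.off x hx) (C'.off x hx')

theorem un_pull (g : MAut X) (x : X.P) (a : K) : Un (X.O x) (g.τ a) ↔ Un (X.O (g.σ x)) a := by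
  unfold Un
  rw [g.loc, ← map_inv₀, g.loc, Ne, Ne, map_eq_zero]

theorem exists_pull (g : MAut X) (C : Prm X) :
    ∃ C' : Prm X, C'.D = g.pull C.D ∧ g.σ C'.ζ = C.ζ := by
  have hsp : ∀ x, g.σ.symm C.ζ ⤳ x ↔ C.ζ ⤳ g.σ x := by
    intro x
    rw [← g.σ.isInducing.specializes_iff, Homeomorph.apply_symm_apply]
  refine ⟨{ ζ := g.σ.symm C.ζ
            D := g.pull C.D
            eff := fun x => (g.loc x _).2 (C.eff (g.σ x))
            on := fun x hx a ha => ?_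
            off := fun x hx => ?_
            ne := ?_
            val := fun a ha => ?_ }, rfl, g.σ.apply_symm_apply _⟩
  · obtain ⟨b, rfl⟩ := g.τ.surjective a
    change ¬ Un (X.O (g.σ.symm C.ζ)) (g.τ b) ↔ g.τ b / g.τ (C.D.eq (g.σ x)) ∈ X.O x
    rw [un_pull, Homeomorph.apply_symm_apply, ← map_div₀, g.loc]
    exact C.on (g.σ x) ((hsp x).1 hx) b ((g.loc x b).1 ha)
  · change Un (X.O x) (g.τ (C.D.eq (g.σ x)))
    rw [un_pull]
    exact C.off _ (fun h => hx ((hsp x).2 h))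
  · change ¬ Un (X.O (g.σ.symm C.ζ)) (g.τ (C.D.eq (g.σ (g.σ.symm C.ζ))))
    rw [un_pull, Homeomorph.apply_symm_apply]
    exact C.ne
  · obtain ⟨b, rfl⟩ := g.τ.surjective a
    obtain ⟨n, hn⟩ := C.val b (fun h => ha (by rw [h, map_zero]))
    refine ⟨n, ?_⟩
    change Un (X.O (g.σ.symm C.ζ)) (g.τ b / g.τ (C.D.eq (g.σ (g.σ.symm C.ζ))) ^ n)
    rw [← map_zpow₀, ← map_div₀, un_pull, Homeomorph.apply_symm_apply]
    exact hn

end Pool.Agent.H54.EN
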