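import Pool.Agent.H54.EN.B3

/-!
# [H54 EN] prime divisors: definition

`C : Prm X`: a point `ζ` of codimension one, such that the closure of `ζ` is the Cartier divisor `D`: at the points `x` of the closure the local equation generates the ideal of the functions which are not units at `ζ`, at the other points it is a unit; `O ζ` is a discrete valuation ring with uniformizer `D.eq ζ`.
`prin X f`: principal divisors.
-/

set_option autoImplicit false

universe u

namespace Pool.Agent.H54.EN

variable {k K : Type u} [Field k] [Field K] [Algebra k K]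

/-- prime divisors -/
structure Prm (X : Mod k K) where
  /-- the generic point -/
  ζ : X.P
  /-- the divisor -/
  D : Cart X
  eff : Effective D
  on : ∀ x, ζ ⤳ x → ∀ a ∈ X.O x, (¬ Un (X.O ζ) a ↔ a / D.eq x ∈ X.O x)
  off : ∀ x, ¬ ζ ⤳ x → Un (X.O x) (D.eq x)
  ne : ¬ Un (X.O ζ) (D.eq ζ)
  val : ∀ a : K, a ≠ 0 → ∃ n : ℤ, Un (X.O ζ) (a / D.eq ζ ^ n)

/-- principal divisors -/
noncomputable def prin (X : Mod k K) (f : K) (hf : f ≠ 0) : Cart X where
  eq _ := f
  ne _ := hf
  loc x := ⟨Set.univ, isOpen_univ, Set.mem_univ x, fun y _ => by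
    rw [div_self hf]
    exact un_one _⟩

variable {X : Mod k K}

theorem sub_eq (D E : Cart X) (x : X.P) : (D - E).eq x = D.eq x / E.eq x := by
  rw [sub_eq_add_neg, add_eq, neg_eq, div_eq_mul_inv]

theorem prin_eq (f : K) (hf : f ≠ 0) (x : X.P) : (prin X f hf).eq x = f := rfl

/-- local equations at specializations: `D.eq z / D.eq x` is a unit at the generization `z` of `x` -/
theorem eq_gen (D : Cart X) {z x : X.P} (h : z ⤳ x) : Un (X.O z) (D.eq z / D.eq x) := by
  obtain ⟨U, hU, hx, hu⟩ := D.loc x
  exact hu z (h.mem_open hU hx)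

end Pool.Agent.H54.EN
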