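import Pool.Agent.H54.EN.S1

/-!
# [H54 EN S2] affine open sets: functions, fractions, prime ideals

`V` a nonempty affine open set, `A = Γ(Y, V)`, a domain with fraction field `K` (`functionField_isFractionRing_of_isAffineOpen`); for `x ∈ V` the stalk at `x` is the localization of `A` at the prime `𝔭_x` (`IsAffineOpen.isLocalization_stalk`, `IsAffineOpen.primeIdealOf`), and `gK s` is a unit at `x` iff `x ∈ basicOpen s` (`un_germ`) iff `s ∉ 𝔭_x`
(`IsAffineOpen` API: `fromSpec`, `basicOpen`; or: the germ of `s` is a unit iff `s ∉ 𝔭_x` because the stalk is the localization, `IsLocalization.AtPrime.isUnit_to_map_iff`).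
* `frac_aff`: an element of `O x` is `gK a / gK s` with `x ∈ basicOpen s` (`IsLocalization.mk'_surjective` for `isLocalization_stalk`).
* `prime_aff`: every prime ideal `I` of `A` is `𝔭_x` for some `x ∈ V` (`hV.fromSpec`, the homeomorphism `V ≅ Spec A`: e.g. `x = hV.fromSpec ⟨I, _⟩`, and `hV.primeIdealOf`), so `a ∈ I ↔ x ∉ basicOpen a`.
* `sec_aff`: `a ∈ K` is in `O x` for all `x ∈ V` iff `a = gK s` for some `s ∈ A`.  `←`: `toK_germ`.  `→`: `J = {t ∈ A : gK t * a ∈ range gK}` is an ideal; if `J ≠ A` it is contained in a maximal ideal, which is `𝔭_x` with `x ∈ V` (`prime_aff`), and `frac_aff` at `x` gives `s ∈ J` with `x ∈ basicOpen s`, a contradiction; so `1 ∈ J`.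
-/

set_option autoImplicit false

universe u

namespace Pool.Agent.H54.EN

open AlgebraicGeometry CategoryTheory

variable {k : Type u} [Field k] {Y : Scheme.{u}} [IsIntegral Y] (f : Y ⟶ Spec (.of k))

private theorem bo_iff {Y : Scheme.{u}} (V : Y.Opens) (hV : IsAffineOpen V)
    (p : PrimeSpectrum Γ(Y, V)) (s : Γ(Y, V)) :
    hV.fromSpec p ∈ Y.basicOpen s ↔ s ∉ p.asIdeal := by
  have h := hV.fromSpec_preimage_basicOpen s
  have h2 : p ∈ (hV.fromSpec ⁻¹ᵁ Y.basicOpen s) ↔ p ∈ PrimeSpectrum.basicOpen s := by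
    rw [h]; rfl
  exact h2

theorem frac_aff (V : Y.Opens) [Nonempty V] (hV : IsAffineOpen V) (x : Y) (hx : x ∈ V) (b : FF f)
    (hb : b ∈ locA f x) : ∃ s t : Γ(Y, V), x ∈ Y.basicOpen s ∧ b * gK f V s = gK f V t := by
  obtain ⟨b', rfl⟩ := (mem_O f x b).1 hb
  letI := Y.presheaf.algebra_section_stalk (⟨x, hx⟩ : V)
  haveI := hV.isLocalization_stalk ⟨x, hx⟩
  obtain ⟨⟨t, s⟩, hst⟩ := IsLocalization.surj (hV.primeIdealOf ⟨x, hx⟩).asIdeal.primeCompl b'
  refine ⟨s.1, t, ?_, ?_⟩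
  · have h1 := (bo_iff V hV (hV.primeIdealOf ⟨x, hx⟩) s.1).2 s.2
    rwa [hV.fromSpec_primeIdealOf ⟨x, hx⟩] at h1
  · rw [← toK_germ f V x hx s.1, ← toK_germ f V x hx t, ← map_mul]
    exact congrArg (toK f x) hst

theorem prime_aff (V : Y.Opens) [Nonempty V] (hV : IsAffineOpen V) (I : Ideal Γ(Y, V))
    (hI : I.IsPrime) : ∃ x ∈ V, ∀ a : Γ(Y, V), a ∈ I ↔ x ∉ Y.basicOpen a := by
  refine ⟨hV.fromSpec ⟨I, hI⟩, ?_, fun a => ?_⟩
  · have h1 : hV.fromSpec ⟨I, hI⟩ ∈ Set.range hV.fromSpec := ⟨_, rfl⟩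
    rw [hV.range_fromSpec] at h1
    exact h1
  · rw [bo_iff V hV ⟨I, hI⟩ a, not_not]

theorem sec_aff (V : Y.Opens) [Nonempty V] (hV : IsAffineOpen V) (a : FF f) :
    (∀ x ∈ V, a ∈ locA f x) ↔ ∃ s : Γ(Y, V), gK f V s = a := by
  constructor
  · intro h
    let J : Ideal Γ(Y, V) :=
      { carrier := {t | ∃ u, gK f V u = gK f V t * a}
        add_mem' := by
          rintro t t' ⟨u, hu⟩ ⟨u', hu'⟩
          exact ⟨u + u', by rw [map_add, map_add, add_mul, hu, hu']⟩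
        zero_mem' := ⟨0, by rw [map_zero, zero_mul]⟩
        smul_mem' := by
          rintro c t ⟨u, hu⟩
          exact ⟨c * u, by rw [smul_eq_mul, map_mul, map_mul, mul_assoc, hu]⟩ }
    have hJ : J = ⊤ := by
      by_contra hne
      obtain ⟨I, hI, hJI⟩ := Ideal.exists_le_maximal J hne
      obtain ⟨x, hx, hxI⟩ := prime_aff V hV I hI.isPrime
      obtain ⟨s, t, hs, hst⟩ := frac_aff f V hV x hx a (h x hx)
      have hsJ : s ∈ J := ⟨t, by rw [← hst, mul_comm]⟩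
      exact (hxI s).1 (hJI hsJ) hs
    obtain ⟨u, hu⟩ : (1 : Γ(Y, V)) ∈ J := hJ ▸ Submodule.mem_top
    exact ⟨u, by rw [hu, map_one, one_mul]⟩
  · rintro ⟨s, rfl⟩ x hx
    exact (mem_O f x _).2 ⟨_, toK_germ f V x hx s⟩

end Pool.Agent.H54.EN
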