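import Pool.Agent.H54.EN.Defs

/-!
# Enriques surfaces (MP_8fa801_ag): the space of the local rings of an integral scheme over a field `k`
-/

set_option autoImplicit false

universe u

namespace Pool.Agent.H54.EN

open AlgebraicGeometry CategoryTheory

variable {k : Type u} [Field k] {Y : Scheme.{u}} [IsIntegral Y] (f : Y ⟶ Spec (.of k))

/-- the function field of `Y` -/
def FF (_ : Y ⟶ Spec (.of k)) : Type u := Y.functionField

noncomputable instance : Field (FF f) := (inferInstance : Field Y.functionField)

/-- the map from `k` to the local ring at `x` -/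
noncomputable def cS (x : Y) : k →+* Y.presheaf.stalk x :=
  ((Scheme.ΓSpecIso (.of k)).inv ≫ f.appTop ≫
    Y.presheaf.germ ⊤ x (TopologicalSpace.Opens.mem_top x)).hom

noncomputable instance : Algebra k (FF f) := RingHom.toAlgebra (cS f (genericPoint Y))

/-- the map from the local ring at `x` to the function field -/
noncomputable def toK (x : Y) : Y.presheaf.stalk x →+* FF f :=
  algebraMap (Y.presheaf.stalk x) Y.functionField

theorem toK_cS (x : Y) (c : k) : toK f x (cS f x c) = algebraMap k (FF f) c := by
  have h := congrArg (fun g : CommRingCat.of k ⟶ Y.presheaf.stalk (genericPoint Y) => g.hom c)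
    (congrArg (fun g => (Scheme.ΓSpecIso (.of k)).inv ≫ f.appTop ≫ g)
      (Y.presheaf.germ_stalkSpecializes (U := ⊤) (y := x) (TopologicalSpace.Opens.mem_top x)
        ((genericPoint_spec Y).specializes (Set.mem_univ x))))
  exact h

/-- the local ring at `x` as a subalgebra of the function field -/
noncomputable def locA (x : Y) : Subalgebra k (FF f) where
  toSubsemiring := (toK f x).range.toSubsemiring
  algebraMap_mem' c := ⟨cS f x c, toK_cS f x c⟩

instance locA_local (x : Y) : IsLocalRing (locA f x) :=
  IsLocalRing.of_surjective' (toK f x).rangeRestrict (toK f x).rangeRestrict_surjective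

/-- the space of the local rings of `Y` -/
noncomputable abbrev mdl : Mod k (FF f) where
  P := Y
  O := locA f
  loc := locA_local f
  aff U := ∃ V : Y.Opens, IsAffineOpen V ∧ (V : Set Y) = U

end Pool.Agent.H54.EN
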